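import Mathlib

namespace Pool.Agent.R274.BCP

open Filter Topology Cardinal
open scoped ENNReal

universe u

variable {Γ : Type u}

/-- the real space of absolutely summable families -/
abbrev L1 (Γ : Type u) := lp (fun _ : Γ => ℝ) 1

theorem norm_L1 (v : L1 Γ) : ‖v‖ = ∑' i, |v i| := by
  rw [lp.norm_eq_tsum_rpow (by norm_num)]
  simp

theorem summable_L1 (v : L1 Γ) : Summable fun i => |v i| := by
  have := (lp.memℓp v).summable (by norm_num)
  simpa using this

theorem countable_supp (v : L1 Γ) : {i | v i ≠ 0}.Countable := by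
  have := (summable_L1 v).countable_support
  refine this.mono ?_
  intro i hi
  simpa using hi

/-- additivity of the norm for disjoint supports -/
theorem norm_add_disj {u v : L1 Γ} (h : ∀ i, u i = 0 ∨ v i = 0) : ‖u + v‖ = ‖u‖ + ‖v‖ := by
  rw [norm_L1, norm_L1, norm_L1, ← (summable_L1 u).tsum_add (summable_L1 v)]
  congr 1
  ext i
  have h1 : (u + v) i = u i + v i := rfl
  rw [h1]
  rcases h i with h2 | h2 <;> simp [h2]

variable {X : Type u} [AddCommGroup X] [Module ℝ X]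

section
variable (P : Seminorm ℝ X) (T : L1 Γ →ₗ[ℝ] X)

/-- the vectors vanishing on `S` -/
abbrev Off (S : Set Γ) := {v : L1 Γ // ∀ i ∈ S, v i = 0}

instance (S : Set Γ) : Nonempty (Off S) := ⟨⟨0, fun _ _ => rfl⟩⟩

/-- the relative infimum -/
noncomputable def MS (S : Set Γ) (x : X) : ℝ := ⨅ v : Off S, (P (x + T v.1) - ‖v.1‖)

variable {P T} (hPT : ∀ v, P (T v) = ‖v‖)
include hPT

theorem bdd (S : Set Γ) (x : X) : BddBelow (Set.range fun v : Off S => P (x + T v.1) - ‖v.1‖) := by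
  refine ⟨-P x, ?_⟩
  rintro _ ⟨v, rfl⟩
  have h1 : P (T v.1) ≤ P (x + T v.1) + P x := by
    calc P (T v.1) = P ((x + T v.1) - x) := by congr 1; abel
      _ ≤ _ := map_sub_le_add _ _ _
  rw [hPT] at h1
  simp only
  linarith

theorem MS_le {S : Set Γ} (x : X) {v : L1 Γ} (hv : ∀ i ∈ S, v i = 0) :
    MS P T S x ≤ P (x + T v) - ‖v‖ := ciInf_le (bdd hPT S x) (⟨v, hv⟩ : Off S)

theorem MS_le_P (S : Set Γ) (x : X) : MS P T S x ≤ P x := by
  have := MS_le hPT (S := S) x (v := 0) (fun _ _ => rfl)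
  simpa using this

theorem exists_MS (S : Set Γ) (x : X) {ε : ℝ} (hε : 0 < ε) :
    ∃ v : L1 Γ, (∀ i ∈ S, v i = 0) ∧ P (x + T v) - ‖v‖ < MS P T S x + ε := by
  obtain ⟨v, hv⟩ := exists_lt_of_ciInf_lt (show (⨅ v : Off S, (P (x + T v.1) - ‖v.1‖)) <
    MS P T S x + ε by unfold MS; linarith)
  exact ⟨v.1, v.2, hv⟩

theorem MS_mono {S S' : Set Γ} (h : S ⊆ S') (x : X) : MS P T S x ≤ MS P T S' x := by
  apply le_ciInf
  rintro ⟨v, hv⟩
  exact MS_le hPT x (fun i hi => hv i (h hi))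

theorem MS_smul (S : Set Γ) (x : X) {t : ℝ} (ht : t ≠ 0) : MS P T S (t • x) ≤ |t| * MS P T S x := by
  have hpos : 0 < |t| := abs_pos.2 ht
  rw [← div_le_iff₀' hpos]
  apply le_ciInf
  rintro ⟨v, hv⟩
  rw [div_le_iff₀' hpos]
  have h1 := MS_le hPT (S := S) (t • x) (v := t • v) (fun i hi => by
    have : (t • v) i = t * v i := rfl
    rw [this, hv i hi, mul_zero])
  have h2 : P (t • x + T (t • v)) = |t| * P (x + T v) := by
    rw [map_smul, ← smul_add, map_smul_eq_mul, Real.norm_eq_abs]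
  rw [h2, norm_smul, Real.norm_eq_abs] at h1
  simp only
  linarith

end

section
variable (κ : Cardinal.{u}) (P : Seminorm ℝ X) (T : L1 Γ →ₗ[ℝ] X)

/-- sets of cardinality at most `κ` -/
abbrev Small (Γ : Type u) (κ : Cardinal.{u}) := {S : Set Γ // #S ≤ κ}

instance (κ : Cardinal.{u}) : Nonempty (Small Γ κ) := ⟨⟨∅, by simp⟩⟩

/-- the supremum of the relative infima -/
noncomputable def M (x : X) : ℝ := ⨆ S : Small Γ κ, MS P T S.1 x

variable {κ P T} (hPT : ∀ v, P (T v) = ‖v‖)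
include hPT

theorem bddM (x : X) : BddAbove (Set.range fun S : Small Γ κ => MS P T S.1 x) := by
  refine ⟨P x, ?_⟩
  rintro _ ⟨S, rfl⟩
  exact MS_le_P hPT _ _

theorem le_M {S : Set Γ} (hS : #S ≤ κ) (x : X) : MS P T S x ≤ M κ P T x :=
  le_ciSup (bddM hPT x) (⟨S, hS⟩ : Small Γ κ)

theorem M_le_P (x : X) : M κ P T x ≤ P x := ciSup_le fun _ => MS_le_P hPT _ _

theorem exists_M (x : X) {ε : ℝ} (hε : 0 < ε) :
    ∃ S : Set Γ, #S ≤ κ ∧ M κ P T x - ε < MS P T S x := by
  obtain ⟨S, hS⟩ := exists_lt_of_lt_ciSup (show M κ P T x - ε < (⨆ S : Small Γ κ, MS P T S.1 x) by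
    unfold M; linarith)
  exact ⟨S.1, S.2, hS⟩

theorem card_union_supp (hκ : ℵ₀ ≤ κ) {S : Set Γ} (hS : #S ≤ κ) (v : L1 Γ) :
    #(S ∪ {i | v i ≠ 0} : Set Γ) ≤ κ := by
  refine (Cardinal.mk_union_le _ _).trans ?_
  refine (add_le_add hS ((countable_supp v).le_aleph0.trans hκ)).trans ?_
  exact (Cardinal.add_eq_self hκ).le

theorem M_add (hκ : ℵ₀ ≤ κ) (x y : X) : M κ P T (x + y) ≤ M κ P T x + M κ P T y := by
  apply ciSup_le
  rintro ⟨S, hS⟩
  apply le_of_forall_pos_le_add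
  intro ε hε
  obtain ⟨v, hv, hv2⟩ := exists_MS hPT S x (half_pos hε)
  obtain ⟨w, hw, hw2⟩ := exists_MS hPT (S ∪ {i | v i ≠ 0}) y (half_pos hε)
  have hdisj : ∀ i, v i = 0 ∨ w i = 0 := by
    intro i
    by_cases hi : v i = 0
    · exact Or.inl hi
    · exact Or.inr (hw i (Or.inr hi))
  have h1 := MS_le hPT (S := S) (x + y) (v := v + w) (fun i hi => by
    have : (v + w) i = v i + w i := rfl
    rw [this, hv i hi, hw i (Or.inl hi), add_zero])
  rw [norm_add_disj hdisj] at h1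
  have h2 : P (x + y + T (v + w)) ≤ P (x + T v) + P (y + T w) := by
    calc P (x + y + T (v + w)) = P ((x + T v) + (y + T w)) := by
          congr 1; rw [map_add]; abel
      _ ≤ _ := map_add_le_add _ _ _
  have h3 := le_M hPT hS x
  have h4 := le_M hPT (card_union_supp hPT hκ hS v) y
  simp only
  linarith

theorem M_smul (x : X) (t : ℝ) : M κ P T (t • x) ≤ ‖t‖ * M κ P T x := by
  rcases eq_or_ne t 0 with rfl | ht
  · have := M_le_P (κ := κ) hPT (0 : X)
    simpa using this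
  · apply ciSup_le
    rintro ⟨S, hS⟩
    refine (MS_smul hPT S x ht).trans ?_
    rw [Real.norm_eq_abs]
    gcongr
    exact le_M hPT hS x

theorem M_T (hκ : ℵ₀ ≤ κ) (v : L1 Γ) : ‖v‖ ≤ M κ P T (T v) := by
  have h1 : #(∅ ∪ {i | v i ≠ 0} : Set Γ) ≤ κ := card_union_supp hPT hκ (by simp) v
  refine le_trans ?_ (le_M hPT h1 (T v))
  apply le_ciInf
  rintro ⟨w, hw⟩
  simp only
  rw [← map_add, hPT, norm_add_disj]
  · linarith
  · intro i
    by_cases hi : v i = 0
    · exact Or.inl hi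
    · exact Or.inr (hw i (Or.inr hi))

theorem M_zero (hκ : ℵ₀ ≤ κ) : M κ P T 0 = 0 := by
  apply le_antisymm
  · have := M_le_P (κ := κ) hPT (0 : X)
    simpa using this
  · have := M_T hPT hκ (0 : L1 Γ)
    simpa using this

end

section main

variable {κ : Cardinal.{u}} {P : Seminorm ℝ X} {T : L1 Γ →ₗ[ℝ] X}

/-- the seminorm `M` -/
noncomputable def Msemi (hPT : ∀ v, P (T v) = ‖v‖) (hκ : ℵ₀ ≤ κ) : Seminorm ℝ X :=
  Seminorm.ofSMulLE (M κ P T) (M_zero hPT hκ) (M_add hPT hκ) (fun r x => M_smul hPT x r)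

/-- the distance seminorm to the range of `T` -/
noncomputable def q (P : Seminorm ℝ X) (T : L1 Γ →ₗ[ℝ] X) (x : X) : ℝ := ⨅ v : L1 Γ, P (x - T v)

theorem q_bdd (P : Seminorm ℝ X) (T : L1 Γ →ₗ[ℝ] X) (x : X) :
    BddBelow (Set.range fun v : L1 Γ => P (x - T v)) := by
  refine ⟨0, ?_⟩
  rintro _ ⟨v, rfl⟩
  exact apply_nonneg _ _

theorem q_nonneg (x : X) : 0 ≤ q P T x := le_ciInf fun _ => apply_nonneg _ _

theorem q_le (x : X) (v : L1 Γ) : q P T x ≤ P (x - T v) := ciInf_le (q_bdd P T x) v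

theorem exists_q (x : X) {ε : ℝ} (hε : 0 < ε) : ∃ v : L1 Γ, P (x - T v) < q P T x + ε :=
  exists_lt_of_ciInf_lt (show (⨅ v : L1 Γ, P (x - T v)) < q P T x + ε by unfold q; linarith)

/-- the seminorm `q` -/
noncomputable def qsemi (P : Seminorm ℝ X) (T : L1 Γ →ₗ[ℝ] X) : Seminorm ℝ X :=
  Seminorm.ofSMulLE (q P T)
    (le_antisymm (by simpa using q_le (P := P) (T := T) (0 : X) 0) (q_nonneg _))
    (fun x y => by
      apply le_of_forall_pos_le_add
      intro ε hε
      obtain ⟨v, hv⟩ := exists_q (P := P) (T := T) x (half_pos hε)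
      obtain ⟨w, hw⟩ := exists_q (P := P) (T := T) y (half_pos hε)
      have h1 := q_le (P := P) (T := T) (x + y) (v + w)
      have h2 : P (x + y - T (v + w)) ≤ P (x - T v) + P (y - T w) := by
        calc P (x + y - T (v + w)) = P ((x - T v) + (y - T w)) := by
              congr 1; rw [map_add]; abel
          _ ≤ _ := map_add_le_add _ _ _
      linarith)
    (fun r x => by
      rcases eq_or_ne r 0 with rfl | hr
      · simpa using q_le (P := P) (T := T) (0 : X) 0
      · have hpos : 0 < ‖r‖ := norm_pos_iff.2 hr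
        rw [← div_le_iff₀' hpos]
        apply le_ciInf
        intro v
        rw [div_le_iff₀' hpos, ← map_smul_eq_mul, smul_sub, ← map_smul]
        exact q_le _ _)

theorem q_add_T (x : X) (v : L1 Γ) : q P T x ≤ q P T (x + T v) := by
  apply le_ciInf
  intro w
  have := q_le (P := P) (T := T) x (w - v)
  have h : x - T (w - v) = x + T v - T w := by
    rw [LinearMap.map_sub]
    abel
  rwa [h] at this

/-- the new norm -/
noncomputable def N (hPT : ∀ v, P (T v) = ‖v‖) (hκ : ℵ₀ ≤ κ) : Seminorm ℝ X :=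
  Msemi hPT hκ + (2 : NNReal) • qsemi P T

theorem N_apply (hPT : ∀ v, P (T v) = ‖v‖) (hκ : ℵ₀ ≤ κ) (x : X) :
    N hPT hκ x = M κ P T x + 2 * q P T x := rfl

theorem N_le (hPT : ∀ v, P (T v) = ‖v‖) (hκ : ℵ₀ ≤ κ) (x : X) : N hPT hκ x ≤ 3 * P x := by
  rw [N_apply]
  have h1 := M_le_P (κ := κ) hPT x
  have h2 := q_le (P := P) (T := T) x 0
  rw [map_zero, sub_zero] at h2
  linarith

theorem le_N (hPT : ∀ v, P (T v) = ‖v‖) (hκ : ℵ₀ ≤ κ) (x : X) : P x ≤ N hPT hκ x := by
  rw [N_apply]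
  apply le_of_forall_pos_le_add
  intro ε hε
  obtain ⟨v, hv⟩ := exists_q (P := P) (T := T) x (half_pos hε)
  have h1 := M_T hPT hκ v
  have h2 : M κ P T (T v) ≤ M κ P T x + M κ P T (T v - x) := by
    have := M_add hPT hκ x (T v - x)
    rwa [add_sub_cancel] at this
  have h3 := M_le_P (κ := κ) hPT (T v - x)
  have h4 : P (T v - x) = P (x - T v) := map_sub_rev _ _ _
  have h5 : P x ≤ P (x - T v) + P (T v) := by
    calc P x = P ((x - T v) + T v) := by congr 1; abel
      _ ≤ _ := map_add_le_add _ _ _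
  rw [hPT] at h5
  linarith

/-- the crucial estimate -/
theorem key (hPT : ∀ v, P (T v) = ‖v‖) (hκ : ℵ₀ ≤ κ) (hΓ : κ < #Γ) (A : Set X) (hA : #A ≤ κ) :
    ∃ x : X, N hPT hκ x = 1 ∧ ∀ a ∈ A, ∀ t : ℝ, N hPT hκ (a + t • x) = N hPT hκ a + |t| := by
  classical
  choose S hS1 hS2 using fun (p : A × ℕ) =>
    exists_M (κ := κ) hPT (p.1 : X) (ε := 1 / ((p.2 : ℝ) + 1)) (by positivity)
  have hU : #(⋃ p, S p : Set Γ) ≤ κ := by
    refine (Cardinal.mk_iUnion_le _).trans ?_
    have h1 : #(A × ℕ) ≤ κ := by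
      rw [Cardinal.mk_prod, Cardinal.mk_eq_aleph0 ℕ, Cardinal.lift_aleph0, Cardinal.lift_uzero]
      exact (mul_le_mul' hA hκ).trans (Cardinal.mul_eq_self hκ).le
    refine (mul_le_mul' h1 (ciSup_le' hS1)).trans (Cardinal.mul_eq_self hκ).le
  obtain ⟨γ, hγ⟩ : ∃ γ, γ ∉ (⋃ p, S p : Set Γ) := by
    by_contra hcon
    push Not at hcon
    have h2 : (⋃ p, S p : Set Γ) = Set.univ := Set.eq_univ_of_forall hcon
    rw [h2, Cardinal.mk_univ] at hU
    exact absurd hU (not_le.2 hΓ)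
  set e : L1 Γ := lp.single 1 γ (1 : ℝ) with he
  have he1 : ‖e‖ = 1 := by rw [he, lp.norm_single (by norm_num)]; simp
  have he0 : ∀ i, i ≠ γ → e i = 0 := fun i hi => lp.single_apply_ne 1 γ _ hi
  have hN1 : N hPT hκ (T e) = 1 := by
    apply le_antisymm
    · rw [N_apply]
      have h1 := M_le_P (κ := κ) hPT (T e)
      have h2 := q_le (P := P) (T := T) (T e) e
      rw [sub_self, map_zero] at h2
      rw [hPT, he1] at h1
      linarith
    · have := le_N hPT hκ (T e)
      rwa [hPT, he1] at this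
  refine ⟨T e, hN1, fun a ha t => ?_⟩
  apply le_antisymm
  · refine (map_add_le_add _ _ _).trans ?_
    rw [map_smul_eq_mul, hN1, mul_one, Real.norm_eq_abs]
  · rw [N_apply, N_apply]
    have hq : q P T a ≤ q P T (a + t • T e) := by
      rw [← map_smul]
      exact q_add_T _ _
    have hM1 : M κ P T a ≤ MS P T (⋃ p, S p) a := by
      apply le_of_forall_pos_le_add
      intro ε hε
      obtain ⟨n, hn⟩ := exists_nat_one_div_lt hε
      have h1 := hS2 (⟨a, ha⟩, n)
      have h2 := MS_mono hPT (Set.subset_iUnion S (⟨a, ha⟩, n)) a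
      simp only at h1
      linarith
    have hU' : #((⋃ p, S p) ∪ {i | e i ≠ 0} : Set Γ) ≤ κ := card_union_supp hPT hκ hU e
    have hM2 : MS P T (⋃ p, S p) a + |t| ≤ M κ P T (a + t • T e) := by
      refine le_trans ?_ (le_M hPT hU' (a + t • T e))
      apply le_ciInf
      rintro ⟨v, hv⟩
      simp only
      have h1 := MS_le hPT (S := ⋃ p, S p) a (v := t • e + v) (fun i hi => by
        have h3 : (t • e + v) i = t * e i + v i := rfl
        rw [h3, he0 i (fun h => hγ (h ▸ hi)), hv i (Or.inl hi)]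
        simp)
      have hdisj : ∀ i, (t • e) i = 0 ∨ v i = 0 := by
        intro i
        by_cases hi : e i = 0
        · left
          have h3 : (t • e) i = t * e i := rfl
          rw [h3, hi, mul_zero]
        · exact Or.inr (hv i (Or.inr hi))
      rw [norm_add_disj hdisj, norm_smul, he1, mul_one, Real.norm_eq_abs] at h1
      have h4 : a + T (t • e + v) = a + t • T e + T v := by
        rw [map_add, map_smul]; abel
      rw [h4] at h1
      linarith
    linarith

end main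

end Pool.Agent.R274.BCP
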