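import Mathlib
import Pool.Agent.R274.BCP

namespace Pool.Agent.R274.BCP

open Filter Topology Cardinal
open scoped ENNReal

universe u

section ext

variable {Γ : Type u} {X : Type u} [NormedAddCommGroup X] [NormedSpace ℝ X]
  (T : L1 Γ →L[ℝ] X) {c : ℝ}

/-- the extension of the norm of absolutely summable families -/
noncomputable def P0 (c : ℝ) (x : X) : ℝ := ⨅ v : L1 Γ, (c⁻¹ * ‖x - T v‖ + ‖v‖)

variable {T} (hc : 0 < c)
include hc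

theorem P0_bdd (x : X) : BddBelow (Set.range fun v : L1 Γ => c⁻¹ * ‖x - T v‖ + ‖v‖) := by
  refine ⟨0, ?_⟩
  rintro _ ⟨v, rfl⟩
  simp only
  positivity

theorem P0_le (x : X) (v : L1 Γ) : P0 T c x ≤ c⁻¹ * ‖x - T v‖ + ‖v‖ := ciInf_le (P0_bdd hc x) v

theorem exists_P0 (x : X) {ε : ℝ} (hε : 0 < ε) :
    ∃ v : L1 Γ, c⁻¹ * ‖x - T v‖ + ‖v‖ < P0 T c x + ε :=
  exists_lt_of_ciInf_lt (show (⨅ v : L1 Γ, (c⁻¹ * ‖x - T v‖ + ‖v‖)) < P0 T c x + ε by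
    unfold P0; linarith)

theorem P0_nonneg (x : X) : 0 ≤ P0 T c x := le_ciInf fun v => by positivity

/-- the extension as a seminorm -/
noncomputable def P : Seminorm ℝ X :=
  Seminorm.ofSMulLE (P0 T c)
    (le_antisymm (by simpa using P0_le (T := T) hc (0 : X) 0) (P0_nonneg hc _))
    (fun x y => by
      apply le_of_forall_pos_le_add
      intro ε hε
      obtain ⟨v, hv⟩ := exists_P0 (T := T) hc x (half_pos hε)
      obtain ⟨w, hw⟩ := exists_P0 (T := T) hc y (half_pos hε)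
      have h1 := P0_le (T := T) hc (x + y) (v + w)
      have h2 : ‖x + y - T (v + w)‖ ≤ ‖x - T v‖ + ‖y - T w‖ := by
        calc ‖x + y - T (v + w)‖ = ‖(x - T v) + (y - T w)‖ := by
              congr 1; rw [map_add]; abel
          _ ≤ _ := norm_add_le _ _
      have h3 : c⁻¹ * ‖x + y - T (v + w)‖ ≤ c⁻¹ * (‖x - T v‖ + ‖y - T w‖) := by gcongr
      have h4 : ‖v + w‖ ≤ ‖v‖ + ‖w‖ := norm_add_le _ _
      linarith)
    (fun r x => by
      rcases eq_or_ne r 0 with rfl | hr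
      · simpa using P0_le (T := T) hc (0 : X) 0
      · have hpos : 0 < ‖r‖ := norm_pos_iff.2 hr
        rw [← div_le_iff₀' hpos]
        apply le_ciInf
        intro v
        rw [div_le_iff₀' hpos]
        refine (P0_le (T := T) hc (r • x) (r • v)).trans (le_of_eq ?_)
        rw [map_smul, ← smul_sub, norm_smul, norm_smul]
        ring)

theorem P_apply (x : X) : P (T := T) hc x = P0 T c x := rfl

theorem P_T (hT : ∀ v, c * ‖v‖ ≤ ‖T v‖) (v : L1 Γ) : P (T := T) hc (T v) = ‖v‖ := by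
  rw [P_apply]
  apply le_antisymm
  · simpa using P0_le (T := T) hc (T v) v
  · apply le_ciInf
    intro w
    have h1 := hT (v - w)
    rw [map_sub] at h1
    have h2 : ‖v - w‖ ≤ c⁻¹ * ‖T v - T w‖ := by
      rw [inv_mul_eq_div, le_div_iff₀' hc]
      exact h1
    have h3 : ‖v‖ ≤ ‖v - w‖ + ‖w‖ := by
      calc ‖v‖ = ‖(v - w) + w‖ := by congr 1; abel
        _ ≤ _ := norm_add_le _ _
    linarith

theorem P_le (x : X) : P (T := T) hc x ≤ c⁻¹ * ‖x‖ := by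
  rw [P_apply]
  simpa using P0_le (T := T) hc x 0

theorem le_P (x : X) : min c⁻¹ (‖T‖ + 1)⁻¹ * ‖x‖ ≤ P (T := T) hc x := by
  rw [P_apply]
  apply le_ciInf
  intro v
  have h0 : 0 < ‖T‖ + 1 := by positivity
  have h1 : (‖T‖ + 1)⁻¹ * ‖T v‖ ≤ ‖v‖ := by
    rw [inv_mul_eq_div, div_le_iff₀ h0]
    have := T.le_opNorm v
    nlinarith [norm_nonneg v]
  have h2 : ‖x‖ ≤ ‖x - T v‖ + ‖T v‖ := by
    calc ‖x‖ = ‖(x - T v) + T v‖ := by congr 1; abel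
      _ ≤ _ := norm_add_le _ _
  have h3 : 0 ≤ min c⁻¹ (‖T‖ + 1)⁻¹ := le_min (by positivity) (by positivity)
  calc min c⁻¹ (‖T‖ + 1)⁻¹ * ‖x‖ ≤ min c⁻¹ (‖T‖ + 1)⁻¹ * (‖x - T v‖ + ‖T v‖) := by gcongr
    _ = min c⁻¹ (‖T‖ + 1)⁻¹ * ‖x - T v‖ + min c⁻¹ (‖T‖ + 1)⁻¹ * ‖T v‖ := by ring
    _ ≤ c⁻¹ * ‖x - T v‖ + (‖T‖ + 1)⁻¹ * ‖T v‖ := by
        gcongr
        · exact min_le_left _ _
        · exact min_le_right _ _
    _ ≤ _ := by linarith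

end ext

/-- the renorming theorem -/
theorem main {κ : Cardinal.{u}} (hκ : ℵ₀ ≤ κ) {X : Type u} [NormedAddCommGroup X] [NormedSpace ℝ X]
    {Γ : Type u} (hΓ : #Γ = Order.succ κ) (T : lp (fun _ : Γ => ℝ) 1 →L[ℝ] X) {c : ℝ} (hc : 0 < c)
    (hT : ∀ v, c * ‖v‖ ≤ ‖T v‖) :
    ∃ N : Seminorm ℝ X, (∃ m M : ℝ, 0 < m ∧ ∀ x, m * ‖x‖ ≤ N x ∧ N x ≤ M * ‖x‖) ∧
      ∀ A : Set X, #A ≤ κ → ∃ x : X, N x = 1 ∧ ∀ a ∈ A, ∀ t : ℝ, N (a + t • x) = N a + |t| := by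
  have hPT : ∀ v, P (T := T) hc ((T : L1 Γ →ₗ[ℝ] X) v) = ‖v‖ := P_T hc hT
  refine ⟨N hPT hκ, ⟨min c⁻¹ (‖T‖ + 1)⁻¹, 3 * c⁻¹, lt_min (by positivity) (by positivity),
    fun x => ⟨?_, ?_⟩⟩, ?_⟩
  · exact (le_P hc x).trans (le_N hPT hκ x)
  · have h1 := N_le hPT hκ x
    have h2 := P_le (T := T) hc x
    calc N hPT hκ x ≤ 3 * P (T := T) hc x := h1
      _ ≤ 3 * (c⁻¹ * ‖x‖) := by linarith
      _ = _ := by ring
  · intro A hA
    exact key hPT hκ (by rw [hΓ]; exact Order.lt_succ κ) A hA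

end Pool.Agent.R274.BCP
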