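import Mathlib

/-!
A theorem of Ewald, Larman and Rogers (null version): the set of the vectors `x` such that the
boundary of a convex body contains a translate of the segment `[-x, x]` is a null set.
-/

namespace Pool.Agent.R274.ELR

open MeasureTheory Module Set
open scoped Pointwise ENNReal

variable {V : Type*} [NormedAddCommGroup V] [NormedSpace ℝ V] [FiniteDimensional ℝ V]
  [MeasurableSpace V] [BorelSpace V] (μ : Measure V) [μ.IsAddHaarMeasure]

theorem meas_homothety (a : V) (r : ℝ) (hr : 0 ≤ r) (s : Set V) :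
    μ (AffineMap.homothety a r '' s) = ENNReal.ofReal r ^ finrank ℝ V * μ s := by
  rw [Measure.addHaar_image_homothety, abs_of_nonneg (pow_nonneg hr _), ENNReal.ofReal_pow hr]

theorem diff_bound {Q : Set V} (hQ : IsCompact Q) (hc : Convex ℝ Q) (h0 : μ Q ≠ 0) :
    μ (Q - Q) ≤ 4 ^ finrank ℝ V * μ Q := by
  have hfin : μ Q ≠ ⊤ := hQ.measure_lt_top.ne
  have hQ2 : IsCompact ((2 : ℝ) • Q) := hQ.smul 2
  have h2 : μ ((2 : ℝ) • Q) = 2 ^ finrank ℝ V * μ Q := by
    rw [Measure.addHaar_smul, abs_of_nonneg (by positivity), ENNReal.ofReal_pow (by norm_num)]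
    norm_num
  have hmp := measurePreserving_prod_add μ μ
  have hS : MeasurableSet (((2 : ℝ) • Q) ×ˢ ((2 : ℝ) • Q)) :=
    hQ2.measurableSet.prod hQ2.measurableSet
  have e1 := hmp.measure_preimage hS.nullMeasurableSet
  rw [Measure.prod_prod] at e1
  have hS' : MeasurableSet ((fun z : V × V => (z.1, z.1 + z.2)) ⁻¹' (((2 : ℝ) • Q) ×ˢ ((2 : ℝ) • Q))) :=
    hmp.measurable hS
  rw [Measure.prod_apply_symm hS'] at e1
  have hadd : ∀ a ∈ Q, ∀ b ∈ Q, a + b ∈ (2 : ℝ) • Q := by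
    intro a ha b hb
    rw [Set.mem_smul_set]
    refine ⟨(1 / 2 : ℝ) • a + (1 / 2 : ℝ) • b, hc ha hb (by norm_num) (by norm_num) (by norm_num), ?_⟩
    rw [smul_add, smul_smul, smul_smul]
    norm_num
  have e4 : ∀ x ∈ Q - Q, μ Q ≤ μ ((fun q => (q, x)) ⁻¹'
      ((fun z : V × V => (z.1, z.1 + z.2)) ⁻¹' (((2 : ℝ) • Q) ×ˢ ((2 : ℝ) • Q)))) := by
    intro x hx
    obtain ⟨a, ha, b, hb, rfl⟩ := Set.mem_sub.1 hx
    have h3 : μ ((fun y => b + y) '' Q) = μ Q := by
      rw [Set.image_add_left, measure_preimage_add]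
    rw [← h3]
    apply measure_mono
    rintro _ ⟨y, hy, rfl⟩
    refine ⟨hadd b hb y hy, ?_⟩
    have : b + y + (a - b) = a + y := by abel
    show b + y + (a - b) ∈ (2 : ℝ) • Q
    rw [this]
    exact hadd a ha y hy
  have hm : MeasurableSet (Q - Q) := by
    have h1 : Q - Q = (fun p : V × V => p.1 - p.2) '' (Q ×ˢ Q) := by
      ext x
      simp only [Set.mem_sub, Set.mem_image, Set.mem_prod, Prod.exists]
      constructor
      · rintro ⟨a, ha, b, hb, rfl⟩
        exact ⟨a, b, ⟨ha, hb⟩, rfl⟩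
      · rintro ⟨a, b, ⟨ha, hb⟩, rfl⟩
        exact ⟨a, ha, b, hb, rfl⟩
    rw [h1]
    exact ((hQ.prod hQ).image continuous_sub).measurableSet
  have e5 : μ (Q - Q) * μ Q ≤ (2 ^ finrank ℝ V * μ Q) * (2 ^ finrank ℝ V * μ Q) := by
    calc μ (Q - Q) * μ Q = ∫⁻ _x in (Q - Q), μ Q ∂μ := by
          rw [setLIntegral_const, mul_comm]
      _ ≤ ∫⁻ x in (Q - Q), μ ((fun q => (q, x)) ⁻¹'
          ((fun z : V × V => (z.1, z.1 + z.2)) ⁻¹' (((2 : ℝ) • Q) ×ˢ ((2 : ℝ) • Q)))) ∂μ :=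
          setLIntegral_mono' hm e4
      _ ≤ ∫⁻ x, μ ((fun q => (q, x)) ⁻¹'
          ((fun z : V × V => (z.1, z.1 + z.2)) ⁻¹' (((2 : ℝ) • Q) ×ˢ ((2 : ℝ) • Q)))) ∂μ :=
          setLIntegral_le_lintegral _ _
      _ = _ := by rw [e1, h2]
  have e6 : (2 ^ finrank ℝ V * μ Q) * (2 ^ finrank ℝ V * μ Q) = (4 ^ finrank ℝ V * μ Q) * μ Q := by
    have : (4 : ℝ≥0∞) ^ finrank ℝ V = 2 ^ finrank ℝ V * 2 ^ finrank ℝ V := by
      rw [← mul_pow]; norm_num
    rw [this]
    ring
  rw [e6] at e5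
  exact (ENNReal.mul_le_mul_iff_left h0 hfin).1 e5

theorem exists_center {Q : Set V} (hQ : IsCompact Q) (hc : Convex ℝ Q) (h0 : μ Q ≠ 0) {a : V}
    (ha : a ∈ Q) :
    ∃ q ∈ Q, μ Q ≤ (2 * 4 ^ finrank ℝ V) * μ (Q ∩ (fun y => a + q - y) ⁻¹' Q) := by
  by_contra hcon
  push Not at hcon
  have hfin : μ Q ≠ ⊤ := hQ.measure_lt_top.ne
  have hcl := hQ.isClosed
  set P : Set (V × V) := {z | z.1 ∈ Q ∧ z.2 - a ∈ Q ∧ z.2 - z.1 ∈ Q} with hP
  have hPc : IsClosed P := by
    refine IsClosed.inter (hcl.preimage continuous_fst) (IsClosed.inter (hcl.preimage ?_) (hcl.preimage ?_))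
    · exact continuous_snd.sub continuous_const
    · exact continuous_snd.sub continuous_fst
  have hmp := measurePreserving_prod_add μ μ
  have e1 := hmp.measure_preimage hPc.measurableSet.nullMeasurableSet
  rw [Measure.prod_apply_symm hPc.measurableSet] at e1
  set A := AffineMap.homothety a (1 / 2 : ℝ) '' Q with hA
  have hAm : μ A = ENNReal.ofReal (1 / 2) ^ finrank ℝ V * μ Q := meas_homothety μ a _ (by norm_num) Q
  have hsub : A ×ˢ A ⊆ (fun z : V × V => (z.1, z.1 + z.2)) ⁻¹' P := by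
    rintro ⟨u, v⟩ ⟨⟨s, hs, hu⟩, ⟨s', hs', hv⟩⟩
    simp only at hu hv
    rw [AffineMap.homothety_apply, vsub_eq_sub, vadd_eq_add] at hu hv
    have hu' : u = (1 / 2 : ℝ) • a + (1 / 2 : ℝ) • s := by rw [← hu]; module
    have hv' : v = (1 / 2 : ℝ) • a + (1 / 2 : ℝ) • s' := by rw [← hv]; module
    refine ⟨?_, ?_, ?_⟩
    · show u ∈ Q
      rw [hu']
      exact hc ha hs (by norm_num) (by norm_num) (by norm_num)
    · show u + v - a ∈ Q
      have : u + v - a = (1 / 2 : ℝ) • s + (1 / 2 : ℝ) • s' := by rw [hu', hv']; module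
      rw [this]
      exact hc hs hs' (by norm_num) (by norm_num) (by norm_num)
    · show u + v - u ∈ Q
      have : u + v - u = (1 / 2 : ℝ) • a + (1 / 2 : ℝ) • s' := by rw [add_sub_cancel_left, hv']
      rw [this]
      exact hc ha hs' (by norm_num) (by norm_num) (by norm_num)
  have e2 : μ A * μ A ≤ ∫⁻ w, μ ((fun u => (u, w)) ⁻¹' P) ∂μ := by
    rw [← e1, ← Measure.prod_prod]
    exact measure_mono hsub
  set D : ℝ≥0∞ := 2 * 4 ^ finrank ℝ V with hD
  have hD0 : D ≠ 0 := by positivity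
  have hDt : D ≠ ⊤ := by
    rw [hD]
    exact ENNReal.mul_ne_top (by norm_num) (ENNReal.pow_ne_top (by norm_num))
  have e3 : ∫⁻ w, μ ((fun u => (u, w)) ⁻¹' P) ∂μ ≤ ∫⁻ _w in ((fun y => a + y) '' Q), μ Q / D ∂μ := by
    have hmeas : MeasurableSet ((fun y => a + y) '' Q) := (hQ.image (by fun_prop)).measurableSet
    rw [← lintegral_indicator hmeas]
    apply lintegral_mono
    intro w
    by_cases hw : w ∈ (fun y => a + y) '' Q
    · rw [Set.indicator_of_mem hw]
      obtain ⟨q, hq, rfl⟩ := hw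
      have h1 := hcon q hq
      have h2 : (fun u => (u, a + q)) ⁻¹' P ⊆ Q ∩ (fun y => a + q - y) ⁻¹' Q := by
        rintro u ⟨h3, h4, h5⟩
        exact ⟨h3, h5⟩
      refine (measure_mono h2).trans ?_
      rw [ENNReal.le_div_iff_mul_le (Or.inl hD0) (Or.inl hDt), mul_comm]
      exact h1.le
    · rw [Set.indicator_of_notMem hw]
      have : (fun u => (u, w)) ⁻¹' P = ∅ := by
        rw [Set.eq_empty_iff_forall_notMem]
        rintro u ⟨h3, h4, h5⟩
        exact hw ⟨w - a, h4, by simp⟩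
      show μ ((fun u => (u, w)) ⁻¹' P) ≤ 0
      rw [this, measure_empty]
  have e4 : ∫⁻ _w in ((fun y => a + y) '' Q), μ Q / D ∂μ = μ Q / D * μ Q := by
    rw [setLIntegral_const, Set.image_add_left, measure_preimage_add]
  rw [e4] at e3
  have e5 := e2.trans e3
  rw [hAm] at e5
  -- arithmetic
  have hm0 : 0 < (μ Q).toReal := ENNReal.toReal_pos h0 hfin
  have e6 := ENNReal.toReal_mono (by
    refine ENNReal.mul_ne_top (ENNReal.div_ne_top hfin hD0) hfin) e5
  rw [ENNReal.toReal_mul, ENNReal.toReal_mul, ENNReal.toReal_mul, ENNReal.toReal_div, ENNReal.toReal_pow,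
    ENNReal.toReal_ofReal (by norm_num), hD, ENNReal.toReal_mul, ENNReal.toReal_pow] at e6
  simp only [ENNReal.toReal_ofNat] at e6
  set m := (μ Q).toReal
  set d := finrank ℝ V
  have e7 : ((1 / 2 : ℝ) ^ d * m) * ((1 / 2 : ℝ) ^ d * m) = m * m / 4 ^ d := by
    have : (4 : ℝ) ^ d = 2 ^ d * 2 ^ d := by rw [← mul_pow]; norm_num
    rw [this, div_pow, one_pow]
    field_simp
  rw [e7] at e6
  have e8 : m / (2 * 4 ^ d) * m = m * m / 4 ^ d / 2 := by
    field_simp
  rw [e8] at e6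
  have e9 : 0 < m * m / 4 ^ d := by positivity
  linarith

/-- The half chords of `K` lying in faces. -/
def Chords (K : Set V) : Set V :=
  {x | ∃ (a : V) (ℓ : V →L[ℝ] ℝ), ℓ ≠ 0 ∧ a + x ∈ K ∧ a - x ∈ K ∧
    (∀ y ∈ K, ℓ y ≤ ℓ (a + x)) ∧ ∀ y ∈ K, ℓ y ≤ ℓ (a - x)}

omit [FiniteDimensional ℝ V] [MeasurableSpace V] [BorelSpace V] in
theorem exists_normalized {K : Set V} (hc : Convex ℝ K) {x : V} (hx : x ∈ Chords K) :
    ∃ (a : V) (ℓ : V →L[ℝ] ℝ), ‖ℓ‖ = 1 ∧ a ∈ K ∧ a + x ∈ K ∧ a - x ∈ K ∧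
      (∀ y ∈ K, ℓ y ≤ ℓ a) := by
  obtain ⟨a, ℓ, h0, h1, h2, h3, h4⟩ := hx
  have hn : 0 < ‖ℓ‖ := norm_pos_iff.2 h0
  have ha : a ∈ K := by
    have : a = (1 / 2 : ℝ) • (a + x) + (1 / 2 : ℝ) • (a - x) := by module
    rw [this]
    exact hc h1 h2 (by norm_num) (by norm_num) (by norm_num)
  refine ⟨a, ‖ℓ‖⁻¹ • ℓ, ?_, ha, h1, h2, ?_⟩
  · rw [norm_smul, norm_inv, norm_norm, inv_mul_cancel₀ hn.ne']
  · intro y hy
    have h5 := h3 y hy
    have h6 := h4 y hy
    rw [map_add] at h5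
    rw [map_sub] at h6
    have h7 : ℓ y ≤ ℓ a := by linarith
    show ‖ℓ‖⁻¹ * ℓ y ≤ ‖ℓ‖⁻¹ * ℓ a
    gcongr

/-- The key covering estimate at height `h`. -/
theorem chords_le {K : Set V} (hK : IsCompact K) (hc : Convex ℝ K) (hint : μ K ≠ 0) {h : ℝ}
    (hh : 0 < h) :
    μ (Chords K) ≤ (12 ^ finrank ℝ V * (2 * 4 ^ finrank ℝ V) * 2 ^ finrank ℝ V) *
      μ (K ∩ {y | Metric.infDist y Kᶜ ≤ h}) := by
  classical
  -- the data
  have hdata : ∀ x : V, ∃ (a q : V) (ℓ : V →L[ℝ] ℝ), x ∈ Chords K →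
      (‖ℓ‖ = 1 ∧ a ∈ K ∧ a + x ∈ K ∧ a - x ∈ K ∧ (∀ y ∈ K, ℓ y ≤ ℓ a) ∧
      q ∈ K ∧ ℓ a - h ≤ ℓ q ∧ μ (K ∩ {y | ℓ a - h ≤ ℓ y}) ≠ 0 ∧
      μ (K ∩ {y | ℓ a - h ≤ ℓ y}) ≤ (2 * 4 ^ finrank ℝ V) * μ (K ∩ (fun y => a + q - y) ⁻¹' K)) := by
    intro x
    by_cases hx : x ∈ Chords K
    · obtain ⟨a, ℓ, h1, h2, h3, h4, h5⟩ := exists_normalized hc hx
      have hQ : IsCompact (K ∩ {y | ℓ a - h ≤ ℓ y}) :=
        hK.inter_right (isClosed_le continuous_const ℓ.continuous)
      have hQc : Convex ℝ (K ∩ {y | ℓ a - h ≤ ℓ y}) := by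
        refine hc.inter ?_
        exact convex_halfSpace_ge (LinearMap.isLinear ℓ.toLinearMap) _
      have haQ : a ∈ K ∩ {y | ℓ a - h ≤ ℓ y} := ⟨h2, by show ℓ a - h ≤ ℓ a; linarith⟩
      -- positive measure
      have hpos : μ (K ∩ {y | ℓ a - h ≤ ℓ y}) ≠ 0 := by
        obtain ⟨C, hC⟩ := hK.isBounded.exists_norm_le
        set ε := min 1 (h / (2 * |C| + 1)) with hε
        have hε0 : 0 < ε := lt_min one_pos (by positivity)
        have hε1 : ε ≤ 1 := min_le_left _ _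
        have hε2 : ε ≤ h / (2 * |C| + 1) := min_le_right _ _
        have hsub : AffineMap.homothety a ε '' K ⊆ K ∩ {y | ℓ a - h ≤ ℓ y} := by
          rintro _ ⟨y, hy, rfl⟩
          rw [AffineMap.homothety_apply, vsub_eq_sub, vadd_eq_add]
          have e1 : ε • (y - a) + a = (1 - ε) • a + ε • y := by module
          refine ⟨?_, ?_⟩
          · rw [e1]
            exact hc h2 hy (by linarith) hε0.le (by ring)
          · show ℓ a - h ≤ ℓ (ε • (y - a) + a)
            rw [map_add, map_smul, map_sub, smul_eq_mul]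
            have e2 : |ℓ (y - a)| ≤ 2 * |C| := by
              calc |ℓ (y - a)| ≤ ‖ℓ‖ * ‖y - a‖ := ℓ.le_opNorm _
                _ ≤ 1 * (‖y‖ + ‖a‖) := by rw [h1]; gcongr; exact norm_sub_le _ _
                _ ≤ 2 * |C| := by
                    have := hC y hy
                    have := hC a h2
                    have := le_abs_self C
                    linarith
            rw [map_sub] at e2
            have e3 := (abs_le.1 e2).1
            have e4 : ε * (2 * |C| + 1) ≤ h := by rwa [le_div_iff₀ (by positivity)] at hε2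
            nlinarith [abs_nonneg C]
        intro h0
        have := measure_mono_null hsub h0
        rw [meas_homothety μ a ε hε0.le, mul_eq_zero] at this
        rcases this with h6 | h6
        · have h7 : ENNReal.ofReal ε = 0 := by
            by_contra h8
            exact (pow_ne_zero _ h8) h6
          rw [ENNReal.ofReal_eq_zero] at h7
          linarith
        · exact hint h6
      obtain ⟨q, hq, hq2⟩ := exists_center μ hQ hQc hpos haQ
      refine ⟨a, q, ℓ, fun _ => ⟨h1, h2, h3, h4, h5, hq.1, hq.2, hpos, hq2.trans ?_⟩⟩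
      gcongr
      · exact Set.inter_subset_left
      · exact Set.inter_subset_left
    · exact ⟨0, 0, 0, fun h => absurd h hx⟩
  choose a q ℓ hd using hdata
  let z : V → V := fun x => (1 / 2 : ℝ) • a x + (1 / 2 : ℝ) • q x
  let M : V → Set V := fun x => K ∩ (fun y => a x + q x - y) ⁻¹' K
  let R : V → Set V := fun x => AffineMap.homothety (z x) (1 / 2 : ℝ) '' M x
  have hMc : ∀ x, IsCompact (M x) := fun x =>
    hK.inter_right (hK.isClosed.preimage (continuous_const.sub continuous_id))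
  have hRc : ∀ x, IsCompact (R x) := fun x => (hMc x).image (AffineMap.homothety_continuous _ _)
  have hRm : ∀ x, μ (R x) = ENNReal.ofReal (1 / 2) ^ finrank ℝ V * μ (M x) := fun x =>
    meas_homothety μ _ _ (by norm_num) _
  have hRmem : ∀ x y, y ∈ R x → ∃ m, m ∈ K ∧ a x + q x - m ∈ K ∧ y = (1 / 2 : ℝ) • z x + (1 / 2 : ℝ) • m := by
    rintro x _ ⟨m, hm, rfl⟩
    refine ⟨m, hm.1, hm.2, ?_⟩
    rw [AffineMap.homothety_apply, vsub_eq_sub, vadd_eq_add]
    module
  have hQle : ∀ x ∈ Chords K, μ (K ∩ {y | ℓ x (a x) - h ≤ ℓ x y}) ≤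
      (2 * 4 ^ finrank ℝ V) * 2 ^ finrank ℝ V * μ (R x) := by
    intro x hx
    refine (hd x hx).2.2.2.2.2.2.2.2.trans (le_of_eq ?_)
    have : (2 : ℝ≥0∞) ^ finrank ℝ V * (ENNReal.ofReal (1 / 2) ^ finrank ℝ V * μ (M x)) = μ (M x) := by
      rw [← mul_assoc, ← mul_pow]
      have : (2 : ℝ≥0∞) * ENNReal.ofReal (1 / 2) = 1 := by
        rw [show (2 : ℝ≥0∞) = ENNReal.ofReal 2 by norm_num, ← ENNReal.ofReal_mul (by norm_num)]
        norm_num
      rw [this, one_pow, one_mul]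
    rw [hRm, mul_assoc (2 * 4 ^ finrank ℝ V) (2 ^ finrank ℝ V), this]
  have hRpos : ∀ x ∈ Chords K, μ (R x) ≠ 0 := by
    intro x hx h0
    have h1 := hQle x hx
    rw [h0, mul_zero] at h1
    exact (hd x hx).2.2.2.2.2.2.2.1 (le_antisymm h1 zero_le)
  have hRsub : ∀ x ∈ Chords K, R x ⊆ K ∩ {y | Metric.infDist y Kᶜ ≤ h} := by
    intro x hx y hy
    obtain ⟨m, hm1, hm2, rfl⟩ := hRmem x y hy
    obtain ⟨h1, h2, h3, h4, h5, h6, h7, h8, h9⟩ := hd x hx
    have hzK : z x ∈ K := hc h2 h6 (by norm_num) (by norm_num) (by norm_num)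
    have hyK : (1 / 2 : ℝ) • z x + (1 / 2 : ℝ) • m ∈ K :=
      hc hzK hm1 (by norm_num) (by norm_num) (by norm_num)
    refine ⟨hyK, ?_⟩
    set y := (1 / 2 : ℝ) • z x + (1 / 2 : ℝ) • m with hy
    have hℓm : ℓ x (a x) - h ≤ ℓ x m := by
      have := h5 _ hm2
      rw [map_sub, map_add] at this
      linarith
    have hℓz : ℓ x (a x) - h ≤ ℓ x (z x) := by
      simp only [z, map_add, map_smul, smul_eq_mul]
      linarith
    have hℓy : ℓ x (a x) - h ≤ ℓ x y := by
      rw [hy, map_add, map_smul, map_smul, smul_eq_mul, smul_eq_mul]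
      linarith
    -- find points outside
    show Metric.infDist y Kᶜ ≤ h
    apply le_of_forall_pos_le_add
    intro δ hδ
    -- a vector with `ℓ v > h`, `‖v‖ ≤ h + δ`
    obtain ⟨v, hv1, hv2⟩ : ∃ v : V, ‖v‖ ≤ h + δ ∧ h < ℓ x v := by
      have h10 : h / (h + δ) < ‖ℓ x‖ := by
        rw [h1, div_lt_one (by linarith)]
        linarith
      obtain ⟨u, hu1, hu2⟩ := ContinuousLinearMap.exists_lt_apply_of_lt_opNorm (ℓ x) h10
      rw [Real.norm_eq_abs] at hu2
      rcases abs_cases (ℓ x u) with ⟨h11, _⟩ | ⟨h11, _⟩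
      · refine ⟨(h + δ) • u, ?_, ?_⟩
        · rw [norm_smul, Real.norm_eq_abs, abs_of_pos (by linarith)]
          nlinarith
        · rw [map_smul, smul_eq_mul]
          rw [h11, div_lt_iff₀ (by linarith)] at hu2
          linarith
      · refine ⟨(h + δ) • (-u), ?_, ?_⟩
        · rw [norm_smul, Real.norm_eq_abs, abs_of_pos (by linarith), norm_neg]
          nlinarith
        · rw [map_smul, smul_eq_mul, map_neg]
          rw [h11, div_lt_iff₀ (by linarith)] at hu2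
          linarith
    have hout : y + v ∈ Kᶜ := by
      intro hin
      have := h5 _ hin
      rw [map_add] at this
      linarith
    calc Metric.infDist y Kᶜ ≤ dist y (y + v) := Metric.infDist_le_dist_of_mem hout
      _ = ‖v‖ := by rw [dist_eq_norm]; simp
      _ ≤ h + δ := hv1
  -- maximal disjoint subfamily
  obtain ⟨u, hu1, hu2, hu3⟩ := Vitali.exists_disjoint_subfamily_covering_enlargement R (Chords K)
    (fun _ => 0) 2 (by norm_num) (fun _ _ => le_rfl) 0 (fun _ _ => le_rfl) (fun x hx => by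
      rw [Set.nonempty_iff_ne_empty]
      intro h0
      apply hRpos x hx
      rw [h0, measure_empty])
  have hWfin : μ (K ∩ {y | Metric.infDist y Kᶜ ≤ h}) ≠ ⊤ :=
    (lt_of_le_of_lt (measure_mono Set.inter_subset_left) hK.measure_lt_top).ne
  have hcount : u.Countable := by
    have h1 := Measure.countable_meas_pos_of_disjoint_of_meas_iUnion_ne_top (μ := μ)
      (As := fun i : u => R i) (fun i => (hRc i).measurableSet) (fun i j hij => hu2 i.2 j.2 (fun h => hij (Subtype.ext h)))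
      (ne_top_of_le_ne_top hWfin (measure_mono (Set.iUnion_subset fun i => hRsub i (hu1 i.2))))
    have h2 : {i : u | 0 < μ (R i)} = Set.univ := by
      rw [Set.eq_univ_iff_forall]
      intro i
      exact pos_iff_ne_zero.2 (hRpos i (hu1 i.2))
    rw [h2] at h1
    exact Set.countable_coe_iff.1 (Set.countable_univ_iff.1 h1)
  -- the enlarged sets
  let T : V → Set V := fun x => (1 / 2 : ℝ) • ((K ∩ {y | ℓ x (a x) - 6 * h ≤ ℓ x y}) -
    (K ∩ {y | ℓ x (a x) - 6 * h ≤ ℓ x y}))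
  have hcover : Chords K ⊆ ⋃ i ∈ u, T i := by
    intro x hx
    obtain ⟨i, hi, ⟨y, hyx, hyi⟩, -⟩ := hu3 x hx
    obtain ⟨m, hm1, hm2, e1⟩ := hRmem x y hyx
    obtain ⟨m', hm1', hm2', e2⟩ := hRmem i y hyi
    obtain ⟨h1, h2, h3, h4, h5, h6, h7, h8, h9⟩ := hd x hx
    obtain ⟨k1, k2, k3, k4, k5, k6, k7, k8, k9⟩ := hd i (hu1 hi)
    rw [Set.mem_iUnion₂]
    refine ⟨i, hi, ?_⟩
    -- depths with respect to `i`
    have d1 : ℓ i y = 1 / 2 * ℓ i (z i) + 1 / 2 * ℓ i m' := by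
      rw [e2, map_add, map_smul, map_smul, smul_eq_mul, smul_eq_mul]
    have d2 : ℓ i (z i) = 1 / 2 * ℓ i (a i) + 1 / 2 * ℓ i (q i) := by
      simp only [z, map_add, map_smul, smul_eq_mul]
    have d3 : ℓ i (a i) - h ≤ ℓ i m' := by
      have := k5 _ hm2'
      rw [map_sub, map_add] at this
      linarith
    have d4 : ℓ i y = 1 / 2 * ℓ i (z x) + 1 / 2 * ℓ i m := by
      rw [e1, map_add, map_smul, map_smul, smul_eq_mul, smul_eq_mul]
    have d5 : ℓ i (z x) = 1 / 2 * ℓ i (a x) + 1 / 2 * ℓ i (q x) := by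
      simp only [z, map_add, map_smul, smul_eq_mul]
    have d6 := k5 m hm1
    have d7 := k5 (q x) h6
    have d8 : ℓ i (a i) - 3 * h ≤ ℓ i (a x) := by linarith
    have d9 := k5 _ h3
    have d10 := k5 _ h4
    rw [map_add] at d9
    rw [map_sub] at d10
    rw [Set.mem_smul_set]
    refine ⟨(a x + x) - (a x - x), Set.sub_mem_sub ⟨h3, ?_⟩ ⟨h4, ?_⟩, by module⟩
    · show ℓ i (a i) - 6 * h ≤ ℓ i (a x + x)
      rw [map_add]
      linarith
    · show ℓ i (a i) - 6 * h ≤ ℓ i (a x - x)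
      rw [map_sub]
      linarith
  have hTle : ∀ x ∈ Chords K, μ (T x) ≤ 12 ^ finrank ℝ V * (2 * 4 ^ finrank ℝ V) * 2 ^ finrank ℝ V * μ (R x) := by
    intro x hx
    obtain ⟨h1, h2, h3, h4, h5, h6, h7, h8, h9⟩ := hd x hx
    set Q6 := K ∩ {y | ℓ x (a x) - 6 * h ≤ ℓ x y} with hQ6
    have hQ6c : IsCompact Q6 := hK.inter_right (isClosed_le continuous_const (ℓ x).continuous)
    have hQ6v : Convex ℝ Q6 := by
      refine hc.inter ?_
      exact convex_halfSpace_ge (LinearMap.isLinear (ℓ x).toLinearMap) _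
    have hsub1 : K ∩ {y | ℓ x (a x) - h ≤ ℓ x y} ⊆ Q6 := by
      rintro y ⟨hy1, hy2⟩
      refine ⟨hy1, ?_⟩
      have : ℓ x (a x) - h ≤ ℓ x y := hy2
      show ℓ x (a x) - 6 * h ≤ ℓ x y
      linarith
    have hQ60 : μ Q6 ≠ 0 := fun h0 => h8 (measure_mono_null hsub1 h0)
    have hsub2 : Q6 ⊆ AffineMap.homothety (a x) (6 : ℝ) '' (K ∩ {y | ℓ x (a x) - h ≤ ℓ x y}) := by
      rintro y ⟨hy1, hy2⟩
      have hy2' : ℓ x (a x) - 6 * h ≤ ℓ x y := hy2
      refine ⟨(5 / 6 : ℝ) • a x + (1 / 6 : ℝ) • y, ⟨hc h2 hy1 (by norm_num) (by norm_num) (by norm_num), ?_⟩, ?_⟩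
      · show ℓ x (a x) - h ≤ ℓ x ((5 / 6 : ℝ) • a x + (1 / 6 : ℝ) • y)
        rw [map_add, map_smul, map_smul, smul_eq_mul, smul_eq_mul]
        linarith
      · rw [AffineMap.homothety_apply, vsub_eq_sub, vadd_eq_add]
        module
    have hle1 : μ Q6 ≤ 6 ^ finrank ℝ V * μ (K ∩ {y | ℓ x (a x) - h ≤ ℓ x y}) := by
      refine (measure_mono hsub2).trans ?_
      rw [meas_homothety μ _ _ (by norm_num)]
      norm_num
    have hTx : μ (T x) = ENNReal.ofReal (1 / 2) ^ finrank ℝ V * μ (Q6 - Q6) := by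
      simp only [T]
      rw [Measure.addHaar_smul, abs_of_nonneg (by positivity), ENNReal.ofReal_pow (by norm_num)]
    calc μ (T x) = ENNReal.ofReal (1 / 2) ^ finrank ℝ V * μ (Q6 - Q6) := hTx
      _ ≤ ENNReal.ofReal (1 / 2) ^ finrank ℝ V * (4 ^ finrank ℝ V * (6 ^ finrank ℝ V *
          ((2 * 4 ^ finrank ℝ V) * 2 ^ finrank ℝ V * μ (R x)))) := by
          gcongr
          refine (diff_bound μ hQ6c hQ6v hQ60).trans ?_
          gcongr
          refine hle1.trans ?_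
          gcongr
          exact hQle x hx
      _ = (ENNReal.ofReal (1 / 2) * 4 * 6) ^ finrank ℝ V * (2 * 4 ^ finrank ℝ V) * 2 ^ finrank ℝ V * μ (R x) := by
          rw [mul_pow, mul_pow]
          ring
      _ = _ := by
          congr 4
          rw [show (4 : ℝ≥0∞) = ENNReal.ofReal 4 by norm_num, show (6 : ℝ≥0∞) = ENNReal.ofReal 6 by norm_num,
            ← ENNReal.ofReal_mul (by norm_num), ← ENNReal.ofReal_mul (by norm_num)]
          norm_num
  calc μ (Chords K) ≤ μ (⋃ i ∈ u, T i) := measure_mono hcover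
    _ ≤ ∑' i : u, μ (T i) := measure_biUnion_le μ hcount _
    _ ≤ ∑' i : u, 12 ^ finrank ℝ V * (2 * 4 ^ finrank ℝ V) * 2 ^ finrank ℝ V * μ (R i) :=
        ENNReal.tsum_le_tsum fun i => hTle i (hu1 i.2)
    _ = 12 ^ finrank ℝ V * (2 * 4 ^ finrank ℝ V) * 2 ^ finrank ℝ V * ∑' i : u, μ (R i) := ENNReal.tsum_mul_left
    _ = 12 ^ finrank ℝ V * (2 * 4 ^ finrank ℝ V) * 2 ^ finrank ℝ V * μ (⋃ i ∈ u, R i) := by
        rw [measure_biUnion hcount hu2 (fun i _ => (hRc i).measurableSet)]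
    _ ≤ _ := by
        gcongr
        exact Set.iUnion₂_subset fun i hi => hRsub i (hu1 hi)

/-- The set of half chords in faces of a convex body is a null set. -/
theorem chords_null {K : Set V} (hK : IsCompact K) (hc : Convex ℝ K) (hint : μ K ≠ 0) :
    μ (Chords K) = 0 := by
  by_cases htriv : Kᶜ = ∅
  · -- `K` is everything, so `V` is trivial
    have h1 : Chords K = ∅ := by
      rw [Set.eq_empty_iff_forall_notMem]
      rintro x ⟨a, ℓ, h0, h1, h2, h3, h4⟩
      apply h0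
      ext v
      have hKu : K = Set.univ := Set.compl_empty_iff.1 htriv
      have h5 := h3 (a + x + v) (hKu ▸ Set.mem_univ _)
      have h6 := h3 (a + x - v) (hKu ▸ Set.mem_univ _)
      rw [map_add] at h5
      rw [map_sub] at h6
      show ℓ v = 0
      linarith
    rw [h1, measure_empty]
  have hne : (Kᶜ).Nonempty := Set.nonempty_iff_ne_empty.2 htriv
  set W : ℕ → Set V := fun k => K ∩ {y | Metric.infDist y Kᶜ ≤ 1 / ((k : ℝ) + 1)} with hW
  have hWc : ∀ k, IsClosed (W k) := fun k =>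
    hK.isClosed.inter (isClosed_le (Metric.continuous_infDist_pt _) continuous_const)
  have hanti : Antitone W := by
    intro k l hkl y hy
    refine ⟨hy.1, ?_⟩
    have h1 : Metric.infDist y Kᶜ ≤ 1 / ((l : ℝ) + 1) := hy.2
    show Metric.infDist y Kᶜ ≤ 1 / ((k : ℝ) + 1)
    refine h1.trans ?_
    gcongr
  have hlim := tendsto_measure_iInter_atTop (μ := μ) (fun k => (hWc k).measurableSet.nullMeasurableSet) hanti
    ⟨0, (lt_of_le_of_lt (measure_mono Set.inter_subset_left) hK.measure_lt_top).ne⟩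
  have hinter : μ (⋂ k, W k) = 0 := by
    refine measure_mono_null ?_ (hc.addHaar_frontier μ)
    intro y hy
    rw [Set.mem_iInter] at hy
    have h1 : y ∈ K := (hy 0).1
    have h2 : Metric.infDist y Kᶜ = 0 := by
      apply le_antisymm _ Metric.infDist_nonneg
      apply le_of_forall_pos_le_add
      intro ε hε
      obtain ⟨k, hk⟩ := exists_nat_one_div_lt hε
      have : Metric.infDist y Kᶜ ≤ 1 / ((k : ℝ) + 1) := (hy k).2
      linarith
    rw [frontier_eq_closure_inter_closure]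
    exact ⟨subset_closure h1, (Metric.mem_closure_iff_infDist_zero hne).2 h2⟩
  rw [hinter] at hlim
  set C : ℝ≥0∞ := 12 ^ finrank ℝ V * (2 * 4 ^ finrank ℝ V) * 2 ^ finrank ℝ V with hC
  have hCt : C ≠ ⊤ := by
    rw [hC]
    exact ENNReal.mul_ne_top (ENNReal.mul_ne_top (ENNReal.pow_ne_top (by norm_num))
      (ENNReal.mul_ne_top (by norm_num) (ENNReal.pow_ne_top (by norm_num)))) (ENNReal.pow_ne_top (by norm_num))
  have hlim2 : Filter.Tendsto (fun k => C * μ (W k)) Filter.atTop (nhds 0) := by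
    have := ENNReal.Tendsto.const_mul (a := C) hlim (Or.inr hCt)
    rwa [mul_zero] at this
  have hle : ∀ k, μ (Chords K) ≤ C * μ (W k) := fun k => chords_le μ hK hc hint (by positivity)
  exact le_antisymm (ge_of_tendsto' hlim2 hle) zero_le

end Pool.Agent.R274.ELR
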