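import Mathlib
import Pool.Agent.R274.ELR

namespace Pool.Agent.R274.Cheb

open Module Set Filter Topology MeasureTheory
open Pool.Agent.R274.ELR

theorem chords_interior {V : Type*} [NormedAddCommGroup V] [NormedSpace ℝ V] [FiniteDimensional ℝ V]
    {K : Set V} (hK : IsCompact K) (hc : Convex ℝ K) (hint : (interior K).Nonempty) :
    interior (Chords K) = ∅ := by
  let _ : MeasurableSpace V := borel V
  have : BorelSpace V := ⟨rfl⟩
  let μ : Measure V := Measure.addHaar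
  have h0 : μ K ≠ 0 := by
    intro h
    have h1 := isOpen_interior.measure_pos μ hint
    exact h1.ne' (measure_mono_null interior_subset h)
  have h := chords_null μ hK hc h0
  by_contra h1
  have h2 := isOpen_interior.measure_pos μ (nonempty_iff_ne_empty.2 h1)
  exact h2.ne' (measure_mono_null interior_subset h)

variable {𝕜 : Type*} [RCLike 𝕜] {E : Type*} [NormedAddCommGroup E] [NormedSpace 𝕜 E] {n : ℕ}

theorem exists_dual_eq {ι : Type*} [Finite ι] {x : ι → E} (hx : LinearIndependent 𝕜 x) (v : ι → 𝕜) :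
    ∃ f : StrongDual 𝕜 E, ∀ j, f (x j) = v j := by
  let b := Basis.span hx
  have : FiniteDimensional 𝕜 (Submodule.span 𝕜 (range x)) := b.finiteDimensional_of_finite
  obtain ⟨g, hg, -⟩ := exists_extension_norm_eq (Submodule.span 𝕜 (range x))
    (LinearMap.toContinuousLinearMap (b.constr 𝕜 v))
  refine ⟨g, fun j => ?_⟩
  have h1 := hg (b j)
  have h2 : ((b j : Submodule.span 𝕜 (range x)) : E) = x j := by
    simp [b, Basis.span_apply]
  rw [h2] at h1
  rw [h1]
  simp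

/-- The failure of unique extension, witnessed by `e`. -/
def Bad (𝕜 : Type*) [RCLike 𝕜] {E : Type*} [NormedAddCommGroup E] [NormedSpace 𝕜 E] {n : ℕ}
    (e : E) (δ : ℝ) (x : Fin n → E) : Prop :=
  ∃ (c : Fin n → 𝕜) (f₁ f₂ : StrongDual 𝕜 E), ‖c‖ = 1 ∧ ‖f₁‖ ≤ 1 ∧ ‖f₂‖ ≤ 1 ∧
    f₁ (∑ i, c i • x i) = (‖∑ i, c i • x i‖ : 𝕜) ∧ f₂ (∑ i, c i • x i) = (‖∑ i, c i • x i‖ : 𝕜) ∧
    (∀ i, f₁ (x i) = f₂ (x i)) ∧ δ ≤ ‖f₁ e - f₂ e‖

/-- the evaluation map -/
noncomputable def Phi (x : Fin n → E) (e : E) : StrongDual 𝕜 E →L[𝕜] (Fin n → 𝕜) × 𝕜 :=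
  (ContinuousLinearMap.pi fun i => ContinuousLinearMap.apply 𝕜 𝕜 (x i)).prod
    (ContinuousLinearMap.apply 𝕜 𝕜 e)

theorem Phi_apply (x : Fin n → E) (e : E) (f : StrongDual 𝕜 E) :
    Phi x e f = (fun i => f (x i), f e) := rfl

theorem perturb {x : Fin n → E} {e : E}
    (hli : LinearIndependent 𝕜 (Sum.elim x (fun _ : Unit => e))) {r δ : ℝ} (hr : 0 < r) (hδ : 0 < δ) :
    ∃ t : Fin n → 𝕜, ‖t‖ < r ∧ ¬ Bad 𝕜 e δ (fun i => x i + t i • e) := by
  by_contra hcon
  push Not at hcon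
  set K : Set ((Fin n → 𝕜) × 𝕜) := closure (Phi (𝕜 := 𝕜) x e '' Metric.closedBall 0 1) with hK
  have hsurj : Function.Surjective (Phi (𝕜 := 𝕜) x e) := by
    rintro ⟨y, z⟩
    obtain ⟨f, hf⟩ := exists_dual_eq hli (Sum.elim y (fun _ => z))
    refine ⟨f, ?_⟩
    rw [Phi_apply]
    ext j
    · exact hf (Sum.inl j)
    · exact hf (Sum.inr ())
  have hKc : Convex ℝ K := by
    apply Convex.closure
    rintro _ ⟨f, hf, rfl⟩ _ ⟨g, hg, rfl⟩ a b ha hb hab
    refine ⟨(a : 𝕜) • f + (b : 𝕜) • g, ?_, ?_⟩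
    · rw [mem_closedBall_zero_iff] at hf hg ⊢
      calc ‖(a : 𝕜) • f + (b : 𝕜) • g‖ ≤ ‖(a : 𝕜) • f‖ + ‖(b : 𝕜) • g‖ := norm_add_le _ _
        _ = a * ‖f‖ + b * ‖g‖ := by
            rw [norm_smul, norm_smul, RCLike.norm_ofReal, RCLike.norm_ofReal, abs_of_nonneg ha,
              abs_of_nonneg hb]
        _ ≤ a * 1 + b * 1 := by gcongr
        _ = 1 := by rw [mul_one, mul_one, hab]
    · rw [map_add, map_smul, map_smul, ← RCLike.real_smul_eq_coe_smul, ← RCLike.real_smul_eq_coe_smul]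
  have hKb : Bornology.IsBounded K := by
    apply Bornology.IsBounded.closure
    exact (Phi (𝕜 := 𝕜) x e).lipschitz.isBounded_image Metric.isBounded_closedBall
  have hKk : IsCompact K := Metric.isCompact_of_isClosed_isBounded isClosed_closure hKb
  have hKi : (interior K).Nonempty := by
    have h1 := (Phi (𝕜 := 𝕜) x e).isOpenMap hsurj _ (Metric.isOpen_ball (x := (0 : StrongDual 𝕜 E)) (ε := 1))
    have h2 : (Phi (𝕜 := 𝕜) x e) '' Metric.ball 0 1 ⊆ K :=
      (image_mono Metric.ball_subset_closedBall).trans subset_closure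
    exact ⟨Phi x e 0, (interior_maximal h2 h1) ⟨0, Metric.mem_ball_self one_pos, rfl⟩⟩
  have hemp := chords_interior hKk hKc hKi
  -- an open set of chords
  set O : Set ((Fin n → 𝕜) × 𝕜) := {p | 0 < ‖p.2‖ ∧ ‖p.2‖ < δ / 2 ∧ ‖p.1‖ < r * ‖p.2‖} with hO
  have hOo : IsOpen O := by
    refine IsOpen.inter (isOpen_lt continuous_const continuous_snd.norm)
      (IsOpen.inter (isOpen_lt continuous_snd.norm continuous_const)
        (isOpen_lt continuous_fst.norm (continuous_const.mul continuous_snd.norm)))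
  have hOne : O.Nonempty := by
    refine ⟨(0, ((δ / 4 : ℝ) : 𝕜)), ?_, ?_, ?_⟩
    · show 0 < ‖((δ / 4 : ℝ) : 𝕜)‖
      rw [RCLike.norm_ofReal, abs_of_pos (by linarith)]
      linarith
    · show ‖((δ / 4 : ℝ) : 𝕜)‖ < δ / 2
      rw [RCLike.norm_ofReal, abs_of_pos (by linarith)]
      linarith
    · show ‖(0 : Fin n → 𝕜)‖ < r * ‖((δ / 4 : ℝ) : 𝕜)‖
      rw [RCLike.norm_ofReal, abs_of_pos (by linarith), norm_zero]
      positivity
  have hOsub : O ⊆ Chords K := by
    rintro ⟨y, z⟩ ⟨hz0, hz1, hyz⟩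
    simp only at hz0 hz1 hyz
    have hz : z ≠ 0 := norm_pos_iff.1 hz0
    set t : Fin n → 𝕜 := fun i => -(z⁻¹ * y i) with ht
    have htr : ‖t‖ < r := by
      rw [pi_norm_lt_iff hr]
      intro i
      rw [ht]
      simp only [norm_neg, norm_mul, norm_inv]
      rw [inv_mul_lt_iff₀ hz0, mul_comm]
      exact lt_of_le_of_lt (norm_le_pi_norm y i) hyz
    obtain ⟨c, f₁, f₂, hc1, hf₁, hf₂, e₁, e₂, e₃, e₄⟩ := hcon t htr
    set g : E := ∑ i, c i • (x i + t i • e) with hg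
    have hg0 : g ≠ 0 := by
      intro h0
      have h1 : ∑ i, c i • x i + (∑ i, c i * t i) • e = 0 := by
        rw [← h0, hg, Finset.sum_smul, ← Finset.sum_add_distrib]
        apply Finset.sum_congr rfl
        intro i _
        rw [smul_add, smul_smul]
      have h2 := Fintype.linearIndependent_iff.1 hli (Sum.elim c (fun _ => ∑ i, c i * t i)) (by
        rw [Fintype.sum_sum_type]
        simpa using h1)
      have h3 : c = 0 := by
        funext i
        exact h2 (Sum.inl i)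
      rw [h3, norm_zero] at hc1
      exact zero_ne_one hc1
    set lam : 𝕜 := f₁ e - f₂ e with hlam
    have hlam0 : 0 < ‖lam‖ := lt_of_lt_of_le hδ e₄
    have hlamne : lam ≠ 0 := norm_pos_iff.1 hlam0
    have hdiff : ∀ i, f₁ (x i) - f₂ (x i) = -(t i * lam) := by
      intro i
      have := e₃ i
      rw [map_add, map_add, map_smul, map_smul, smul_eq_mul, smul_eq_mul] at this
      rw [hlam]
      linear_combination this
    -- the scalar
    set κ : 𝕜 := 2 * z / lam with hκ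
    have hκ1 : ‖κ‖ ≤ 1 := by
      rw [hκ, norm_div, norm_mul, RCLike.norm_ofNat, div_le_one hlam0]
      linarith
    have hκ0 : 0 < ‖κ‖ := by
      rw [hκ, norm_div, norm_mul, RCLike.norm_ofNat]
      positivity
    set s : ℝ := ‖κ‖ with hs
    set ω : 𝕜 := κ / (s : 𝕜) with hω
    have hsne : (s : 𝕜) ≠ 0 := by exact_mod_cast hκ0.ne'
    have hω1 : ‖ω‖ = 1 := by
      rw [hω, norm_div, RCLike.norm_ofReal, abs_of_pos hκ0]
      exact div_self hκ0.ne'
    have hωne : ω ≠ 0 := by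
      rw [← norm_pos_iff, hω1]; exact one_pos
    have hκω : κ = (s : 𝕜) * ω := by
      rw [hω]; field_simp
    -- the functional
    let L : ((Fin n → 𝕜) × 𝕜) →ₗ[𝕜] 𝕜 :=
      { toFun := fun p => ω⁻¹ * (∑ i, c i * p.1 i + (∑ i, c i * t i) * p.2)
        map_add' := by
          intro p q
          simp only [Prod.fst_add, Pi.add_apply, Prod.snd_add, mul_add, Finset.sum_add_distrib]
          ring
        map_smul' := by
          intro a p
          simp only [Prod.smul_fst, Pi.smul_apply, Prod.smul_snd, smul_eq_mul, RingHom.id_apply]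
          have : ∑ i, c i * (a * p.1 i) = a * ∑ i, c i * p.1 i := by
            rw [Finset.mul_sum]
            exact Finset.sum_congr rfl fun i _ => by ring
          rw [this]
          ring }
    have hLf : ∀ f : StrongDual 𝕜 E, L (Phi x e f) = ω⁻¹ * f g := by
      intro f
      show ω⁻¹ * (∑ i, c i * f (x i) + (∑ i, c i * t i) * f e) = ω⁻¹ * f g
      congr 1
      rw [hg, map_sum, Finset.sum_mul, ← Finset.sum_add_distrib]
      apply Finset.sum_congr rfl
      intro i _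
      rw [map_smul, map_add, map_smul, smul_eq_mul, smul_eq_mul]
      ring
    let Lc : ((Fin n → 𝕜) × 𝕜) →L[𝕜] 𝕜 := LinearMap.toContinuousLinearMap L
    let ℓ : ((Fin n → 𝕜) × 𝕜) →L[ℝ] ℝ := RCLike.reCLM.comp (Lc.restrictScalars ℝ)
    have hℓ : ∀ p, ℓ p = RCLike.re (L p) := fun p => rfl
    have hℓK : ∀ p ∈ K, ℓ p ≤ ‖g‖ := by
      intro p hp
      apply closure_minimal (s := Phi (𝕜 := 𝕜) x e '' Metric.closedBall 0 1) (t := {p | ℓ p ≤ ‖g‖}) _
        (isClosed_le ℓ.continuous continuous_const) hp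
      rintro _ ⟨f, hf, rfl⟩
      rw [mem_closedBall_zero_iff] at hf
      show ℓ (Phi x e f) ≤ ‖g‖
      rw [hℓ, hLf]
      calc RCLike.re (ω⁻¹ * f g) ≤ ‖ω⁻¹ * f g‖ := RCLike.re_le_norm _
        _ = ‖f g‖ := by rw [norm_mul, norm_inv, hω1, inv_one, one_mul]
        _ ≤ ‖f‖ * ‖g‖ := f.le_opNorm g
        _ ≤ 1 * ‖g‖ := by gcongr
        _ = ‖g‖ := one_mul _
    have hv : ∀ f : StrongDual 𝕜 E, ‖f‖ ≤ 1 → f g = (‖g‖ : 𝕜) →
        Phi x e (ω • f) ∈ K ∧ ℓ (Phi x e (ω • f)) = ‖g‖ := by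
      intro f hf hfg
      refine ⟨subset_closure ⟨ω • f, ?_, rfl⟩, ?_⟩
      · rw [mem_closedBall_zero_iff, norm_smul, hω1, one_mul]
        exact hf
      · rw [hℓ, hLf]
        show RCLike.re (ω⁻¹ * (ω * f g)) = ‖g‖
        rw [← mul_assoc, inv_mul_cancel₀ hωne, one_mul, hfg, RCLike.ofReal_re]
    obtain ⟨k1, l1⟩ := hv f₁ hf₁ e₁
    obtain ⟨k2, l2⟩ := hv f₂ hf₂ e₂
    set p1 := Phi x e (ω • f₁) with hp1
    set p2 := Phi x e (ω • f₂) with hp2
    have hyz2 : (y, z) = (s / 2 : ℝ) • (p1 - p2) := by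
      have h1 : p1 - p2 = ω • (Phi x e f₁ - Phi x e f₂) := by
        rw [hp1, hp2, map_smul, map_smul, smul_sub]
      have h2 : (s / 2 : ℝ) • (p1 - p2) = (κ / 2) • (Phi x e f₁ - Phi x e f₂) := by
        rw [h1, RCLike.real_smul_eq_coe_smul (K := 𝕜), smul_smul]
        congr 1
        rw [hκω]
        push_cast
        ring
      rw [h2, Phi_apply, Phi_apply]
      ext i
      · show y i = κ / 2 * (f₁ (x i) - f₂ (x i))
        rw [hdiff, ht, hκ]
        field_simp
      · show z = κ / 2 * (f₁ e - f₂ e)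
        rw [← hlam, hκ]
        field_simp
    have hs1 : s ≤ 1 := hκ1
    -- conclude
    have e5 : (1 / 2 : ℝ) • (p1 + p2) + (s / 2 : ℝ) • (p1 - p2) = ((1 + s) / 2 : ℝ) • p1 + ((1 - s) / 2 : ℝ) • p2 := by
      module
    have e6 : (1 / 2 : ℝ) • (p1 + p2) - (s / 2 : ℝ) • (p1 - p2) = ((1 - s) / 2 : ℝ) • p1 + ((1 + s) / 2 : ℝ) • p2 := by
      module
    refine ⟨(1 / 2 : ℝ) • (p1 + p2), ℓ, ?_, ?_, ?_, ?_, ?_⟩
    · intro h0
      rw [h0] at l1
      have : ‖g‖ = 0 := l1.symm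
      exact hg0 (norm_eq_zero.1 this)
    · rw [hyz2, e5]
      exact hKc k1 k2 (by linarith) (by linarith) (by ring)
    · rw [hyz2, e6]
      exact hKc k1 k2 (by linarith) (by linarith) (by ring)
    · intro p hp
      rw [hyz2, e5, map_add, map_smul, map_smul, l1, l2, smul_eq_mul, smul_eq_mul]
      have := hℓK p hp
      linarith
    · intro p hp
      rw [hyz2, e6, map_add, map_smul, map_smul, l1, l2, smul_eq_mul, smul_eq_mul]
      have := hℓK p hp
      linarith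
  have : O ⊆ interior (Chords K) := interior_maximal hOsub hOo
  rw [hemp] at this
  obtain ⟨p, hp⟩ := hOne
  exact this hp

end Pool.Agent.R274.Cheb
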