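import Mathlib
import Pool.Agent.R274.Cheb1

namespace Pool.Agent.R274.Cheb

open Module Set Filter Topology

variable {𝕜 : Type*} [RCLike 𝕜] {E : Type*} [NormedAddCommGroup E] [NormedSpace 𝕜 E] {n : ℕ}

theorem tendsto_apply {f : ℕ → StrongDual 𝕜 E} {g : StrongDual 𝕜 E} {C : ℝ} (hf : ∀ k, ‖f k‖ ≤ C)
    (hfg : ∀ y, Tendsto (fun k => f k y) atTop (𝓝 (g y))) {x : ℕ → E} {y : E}
    (hx : Tendsto x atTop (𝓝 y)) : Tendsto (fun k => f k (x k)) atTop (𝓝 (g y)) := by
  have h1 : Tendsto (fun k => f k (x k) - f k y) atTop (𝓝 0) := by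
    rw [tendsto_zero_iff_norm_tendsto_zero]
    have h2 : Tendsto (fun k => C * ‖x k - y‖) atTop (𝓝 (C * 0)) := by
      apply Tendsto.const_mul
      rw [← tendsto_iff_norm_sub_tendsto_zero]
      exact hx
    rw [mul_zero] at h2
    refine squeeze_zero (fun k => norm_nonneg _) (fun k => ?_) h2
    rw [← map_sub]
    exact ((f k).le_opNorm _).trans (mul_le_mul_of_nonneg_right (hf k) (norm_nonneg _))
  have h3 := h1.add (hfg y)
  simpa using h3

theorem isClosed_bad [TopologicalSpace.SeparableSpace E] (e : E) (δ : ℝ) :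
    IsClosed {x : Fin n → E | Bad 𝕜 e δ x} := by
  apply IsSeqClosed.isClosed
  intro xs x hxs hx
  have hdata : ∀ k, ∃ (c : Fin n → 𝕜) (f₁ f₂ : WeakDual 𝕜 E), ‖c‖ = 1 ∧
      ‖WeakDual.toStrongDual f₁‖ ≤ 1 ∧ ‖WeakDual.toStrongDual f₂‖ ≤ 1 ∧
      f₁ (∑ i, c i • xs k i) = (‖∑ i, c i • xs k i‖ : 𝕜) ∧
      f₂ (∑ i, c i • xs k i) = (‖∑ i, c i • xs k i‖ : 𝕜) ∧
      (∀ i, f₁ (xs k i) = f₂ (xs k i)) ∧ δ ≤ ‖f₁ e - f₂ e‖ := by
    intro k
    obtain ⟨c, f₁, f₂, h1, h2, h3, h4, h5, h6, h7⟩ := hxs k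
    exact ⟨c, StrongDual.toWeakDual f₁, StrongDual.toWeakDual f₂, h1, h2, h3, h4, h5, h6, h7⟩
  choose c f₁ f₂ h1 h2 h3 h4 h5 h6 h7 using hdata
  -- compactness
  have hcs : IsSeqCompact (Metric.sphere (0 : Fin n → 𝕜) 1) := (isCompact_sphere _ _).isSeqCompact
  have hbs := WeakDual.isSeqCompact_closedBall 𝕜 E (0 : StrongDual 𝕜 E) 1
  obtain ⟨c0, hc0, φ1, hφ1, hc⟩ := hcs (x := c) (fun k => by
    rw [mem_sphere_zero_iff_norm]; exact h1 k)
  obtain ⟨g₁, hg₁, φ2, hφ2, hf₁⟩ := hbs (x := f₁ ∘ φ1) (fun k => by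
    have h : WeakDual.toStrongDual (f₁ (φ1 k)) ∈ Metric.closedBall (0 : StrongDual 𝕜 E) 1 := by
      rw [mem_closedBall_zero_iff]
      exact h2 _
    exact h)
  obtain ⟨g₂, hg₂, φ3, hφ3, hf₂⟩ := hbs (x := f₂ ∘ φ1 ∘ φ2) (fun k => by
    have h : WeakDual.toStrongDual (f₂ (φ1 (φ2 k))) ∈ Metric.closedBall (0 : StrongDual 𝕜 E) 1 := by
      rw [mem_closedBall_zero_iff]
      exact h3 _
    exact h)
  set ψ := φ1 ∘ φ2 ∘ φ3 with hψ
  have hψm : Tendsto ψ atTop atTop :=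
    hφ1.tendsto_atTop.comp (hφ2.tendsto_atTop.comp hφ3.tendsto_atTop)
  have hxψ : Tendsto (fun k => xs (ψ k)) atTop (𝓝 x) := hx.comp hψm
  have hcψ : Tendsto (fun k => c (ψ k)) atTop (𝓝 c0) :=
    hc.comp (hφ2.tendsto_atTop.comp hφ3.tendsto_atTop)
  have hf₁ψ : Tendsto (fun k => f₁ (ψ k)) atTop (𝓝 g₁) := hf₁.comp hφ3.tendsto_atTop
  have hf₂ψ : Tendsto (fun k => f₂ (ψ k)) atTop (𝓝 g₂) := hf₂
  have ev₁ : ∀ y, Tendsto (fun k => WeakDual.toStrongDual (f₁ (ψ k)) y) atTop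
      (𝓝 (WeakDual.toStrongDual g₁ y)) := fun y =>
    ((WeakDual.eval_continuous y).tendsto g₁).comp hf₁ψ
  have ev₂ : ∀ y, Tendsto (fun k => WeakDual.toStrongDual (f₂ (ψ k)) y) atTop
      (𝓝 (WeakDual.toStrongDual g₂ y)) := fun y =>
    ((WeakDual.eval_continuous y).tendsto g₂).comp hf₂ψ
  have hxi : ∀ i, Tendsto (fun k => xs (ψ k) i) atTop (𝓝 (x i)) := fun i =>
    (tendsto_pi_nhds.1 hxψ) i
  have hci : ∀ i, Tendsto (fun k => c (ψ k) i) atTop (𝓝 (c0 i)) := fun i =>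
    (tendsto_pi_nhds.1 hcψ) i
  have hsum : Tendsto (fun k => ∑ i, c (ψ k) i • xs (ψ k) i) atTop (𝓝 (∑ i, c0 i • x i)) :=
    tendsto_finsetSum _ fun i _ => (hci i).smul (hxi i)
  have hnorm : Tendsto (fun k => ((‖∑ i, c (ψ k) i • xs (ψ k) i‖ : ℝ) : 𝕜)) atTop
      (𝓝 ((‖∑ i, c0 i • x i‖ : ℝ) : 𝕜)) :=
    (RCLike.continuous_ofReal.tendsto _).comp hsum.norm
  refine ⟨c0, WeakDual.toStrongDual g₁, WeakDual.toStrongDual g₂, ?_, ?_, ?_, ?_, ?_, ?_, ?_⟩
  · rwa [mem_sphere_zero_iff_norm] at hc0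
  · have : WeakDual.toStrongDual g₁ ∈ Metric.closedBall (0 : StrongDual 𝕜 E) 1 := hg₁
    rwa [mem_closedBall_zero_iff] at this
  · have : WeakDual.toStrongDual g₂ ∈ Metric.closedBall (0 : StrongDual 𝕜 E) 1 := hg₂
    rwa [mem_closedBall_zero_iff] at this
  · exact tendsto_nhds_unique (tendsto_apply (fun k => h2 _) ev₁ hsum)
      (hnorm.congr fun k => (h4 (ψ k)).symm)
  · exact tendsto_nhds_unique (tendsto_apply (fun k => h3 _) ev₂ hsum)
      (hnorm.congr fun k => (h5 (ψ k)).symm)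
  · intro i
    exact tendsto_nhds_unique (tendsto_apply (fun k => h2 _) ev₁ (hxi i))
      ((tendsto_apply (fun k => h3 _) ev₂ (hxi i)).congr fun k => (h6 (ψ k) i).symm)
  · have := ((ev₁ e).sub (ev₂ e)).norm
    exact ge_of_tendsto' this (fun k => h7 (ψ k))

/-- A generic independent family is good. -/
theorem exists_good [CompleteSpace E] [TopologicalSpace.SeparableSpace E]
    (hn : (n : Cardinal) ≤ Module.rank 𝕜 E) :
    ∃ x : Fin n → E, LinearIndependent 𝕜 x ∧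
      ∀ (j m : ℕ), ¬ Bad 𝕜 (TopologicalSpace.denseSeq E j) (1 / ((m : ℝ) + 1)) x := by
  set I : Set (Fin n → E) := {x | LinearIndependent 𝕜 x} with hI
  have hIo : IsOpen I := isOpen_setOfPred_linearIndependent
  obtain ⟨x0, hx0⟩ := exists_linearIndependent_of_le_rank hn
  let W : ℕ × ℕ → Set (Fin n → E) := fun p =>
    {x | Bad 𝕜 (TopologicalSpace.denseSeq E p.1) (1 / ((p.2 : ℝ) + 1)) x}ᶜ ∪ (closure I)ᶜ
  have hWo : ∀ p, IsOpen (W p) := fun p =>
    (isClosed_bad _ _).isOpen_compl.union isClosed_closure.isOpen_compl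
  have hWd : ∀ p, Dense (W p) := by
    intro p
    rw [dense_iff_inter_open]
    intro O hO hOne
    by_cases hOI : (O ∩ I).Nonempty
    · obtain ⟨x, hxO, hxI⟩ := hOI
      set e := TopologicalSpace.denseSeq E p.1 with he
      have hδ : (0 : ℝ) < 1 / ((p.2 : ℝ) + 1) := by positivity
      by_cases hes : e ∈ Submodule.span 𝕜 (range x)
      · refine ⟨x, hxO, Or.inl ?_⟩
        rintro ⟨c, f₁, f₂, h1, h2, h3, h4, h5, h6, h7⟩
        have : f₁ e = f₂ e := by
          have h8 : Submodule.span 𝕜 (range x) ≤ LinearMap.eqLocus f₁.toLinearMap f₂.toLinearMap := by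
            rw [Submodule.span_le]
            rintro _ ⟨i, rfl⟩
            exact h6 i
          exact h8 hes
        rw [← he, this, sub_self, norm_zero] at h7
        linarith
      · have he0 : e ≠ 0 := fun h => hes (by rw [h]; exact Submodule.zero_mem _)
        have hli : LinearIndependent 𝕜 (Sum.elim x (fun _ : Unit => e)) := by
          apply LinearIndependent.sum_type hxI (LinearIndependent.of_subsingleton () he0)
          rw [Set.range_const, Submodule.disjoint_span_singleton' he0]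
          exact hes
        -- a small perturbation stays in `O`
        obtain ⟨ρ, hρ, hball⟩ := Metric.isOpen_iff.1 hO x hxO
        obtain ⟨t, ht, hbad⟩ := perturb hli (r := ρ / (‖e‖ + 1)) (by positivity) hδ
        refine ⟨fun i => x i + t i • e, hball ?_, Or.inl hbad⟩
        rw [mem_ball_iff_norm, pi_norm_lt_iff hρ]
        intro i
        have h1 : ‖t i‖ < ρ / (‖e‖ + 1) := lt_of_le_of_lt (norm_le_pi_norm t i) ht
        show ‖x i + t i • e - x i‖ < ρ
        rw [add_sub_cancel_left, norm_smul]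
        rw [lt_div_iff₀ (by positivity)] at h1
        nlinarith [norm_nonneg (t i), norm_nonneg e]
    · obtain ⟨x, hxO⟩ := hOne
      refine ⟨x, hxO, Or.inr ?_⟩
      intro hxc
      rw [mem_closure_iff] at hxc
      exact hOI (hxc O hO hxO)
  have hd := dense_iInter_of_isOpen hWo hWd
  obtain ⟨x, hxI, hxW⟩ := hd.inter_open_nonempty I hIo ⟨x0, hx0⟩
  refine ⟨x, hxI, fun j m => ?_⟩
  rw [mem_iInter] at hxW
  rcases hxW (j, m) with h | h
  · exact h
  · exact absurd (subset_closure hxI) h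

/-- unique extension property -/
theorem unique_ext [TopologicalSpace.SeparableSpace E] {x : Fin n → E} (hx : LinearIndependent 𝕜 x)
    (hgood : ∀ (j m : ℕ), ¬ Bad 𝕜 (TopologicalSpace.denseSeq E j) (1 / ((m : ℝ) + 1)) x)
    {F₁ F₂ : StrongDual 𝕜 E} (hF : ∀ i, F₁ (x i) = F₂ (x i))
    (h₁ : ‖F₁‖ ≤ ‖F₁.comp (Submodule.span 𝕜 (range x)).subtypeL‖)
    (h₂ : ‖F₂‖ ≤ ‖F₁.comp (Submodule.span 𝕜 (range x)).subtypeL‖) : F₁ = F₂ := by
  set G := Submodule.span 𝕜 (range x) with hG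
  have : FiniteDimensional 𝕜 G := (Basis.span hx).finiteDimensional_of_finite
  set r := ‖F₁.comp G.subtypeL‖ with hr
  rcases eq_or_lt_of_le (norm_nonneg (F₁.comp G.subtypeL)) with h0 | h0
  · rw [← hr] at h0
    rw [← h0] at h₁ h₂
    rw [norm_le_zero_iff.1 h₁, norm_le_zero_iff.1 h₂]
  · rw [← hr] at h0
    -- the norm is attained on `G`
    obtain ⟨g, hgn, hgr⟩ : ∃ g : G, ‖g‖ = 1 ∧ F₁ g = (r : 𝕜) := by
      have : ProperSpace G := FiniteDimensional.proper 𝕜 G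
      obtain ⟨g, hg, hmax⟩ := (isCompact_closedBall (0 : G) 1).exists_isMaxOn ⟨0, by simp⟩
        ((F₁.comp G.subtypeL).continuous.norm.continuousOn)
      rw [mem_closedBall_zero_iff] at hg
      have h3 : r ≤ ‖F₁ g‖ := by
        apply ContinuousLinearMap.opNorm_le_bound _ (norm_nonneg _)
        intro y
        rcases eq_or_ne y 0 with hy | hy
        · rw [hy]; simp
        · have hy' : 0 < ‖y‖ := norm_pos_iff.2 hy
          have h4 := hmax (show ((‖y‖ : 𝕜)⁻¹ • y) ∈ Metric.closedBall (0 : G) 1 by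
            rw [mem_closedBall_zero_iff, norm_smul, norm_inv, RCLike.norm_ofReal, abs_norm,
              inv_mul_cancel₀ hy'.ne'])
          have h5 : ‖(F₁.comp G.subtypeL) ((‖y‖ : 𝕜)⁻¹ • y)‖ ≤ ‖(F₁.comp G.subtypeL) g‖ := h4
          rw [map_smul, norm_smul, norm_inv, RCLike.norm_ofReal, abs_norm, inv_mul_le_iff₀ hy'] at h5
          rw [mul_comm]
          exact h5
      have h4 : ‖F₁ g‖ ≤ r * ‖g‖ := (F₁.comp G.subtypeL).le_opNorm g
      have hg1 : ‖g‖ = 1 := by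
        apply le_antisymm hg
        by_contra hc
        push Not at hc
        nlinarith
      have h5 : ‖F₁ g‖ = r := le_antisymm (by rw [hg1, mul_one] at h4; exact h4) h3
      have hFg : F₁ g ≠ 0 := by
        rw [← norm_pos_iff, h5]; exact h0
      refine ⟨((starRingEnd 𝕜) (F₁ g) / (r : 𝕜)) • g, ?_, ?_⟩
      · rw [norm_smul, norm_div, RCLike.norm_conj, RCLike.norm_ofReal, abs_of_pos h0, h5, hg1, mul_one]
        exact div_self h0.ne'
      · rw [Submodule.coe_smul, map_smul, smul_eq_mul, div_mul_eq_mul_div, RCLike.conj_mul, h5]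
        have : (r : 𝕜) ≠ 0 := by exact_mod_cast h0.ne'
        field_simp
    -- coordinates of `g`
    obtain ⟨c, hc⟩ := (Submodule.mem_span_range_iff_exists_fun 𝕜).1 g.2
    have hc0 : c ≠ 0 := by
      rintro rfl
      have : (g : E) = 0 := by rw [← hc]; simp
      have h3 : ‖g‖ = ‖(g : E)‖ := rfl
      rw [this, norm_zero] at h3
      rw [h3] at hgn
      exact zero_ne_one hgn
    have hcn : 0 < ‖c‖ := norm_pos_iff.2 hc0
    by_contra hne
    -- a point of the dense sequence where they differ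
    obtain ⟨j, hj⟩ : ∃ j, F₁ (TopologicalSpace.denseSeq E j) ≠ F₂ (TopologicalSpace.denseSeq E j) := by
      by_contra hcon
      push Not at hcon
      apply hne
      have h3 := (TopologicalSpace.denseRange_denseSeq E).equalizer F₁.continuous F₂.continuous
        (funext hcon)
      exact DFunLike.coe_injective h3
    set e := TopologicalSpace.denseSeq E j with he
    have hpos : 0 < ‖F₁ e - F₂ e‖ / r := by
      apply div_pos _ h0
      rw [norm_pos_iff, sub_ne_zero]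
      exact hj
    obtain ⟨m, hm⟩ := exists_nat_one_div_lt hpos
    apply hgood j m
    have hrk : (r : 𝕜) ≠ 0 := by exact_mod_cast h0.ne'
    have hck : ((‖c‖ : ℝ) : 𝕜) ≠ 0 := by exact_mod_cast hcn.ne'
    have hnormf : ∀ F : StrongDual 𝕜 E, ‖F‖ ≤ r → ‖(r : 𝕜)⁻¹ • F‖ ≤ 1 := by
      intro F hF
      rw [norm_smul, norm_inv, RCLike.norm_ofReal, abs_of_pos h0, inv_mul_le_iff₀ h0, mul_one]
      exact hF
    have hF₂g : F₂ g = F₁ g := by
      rw [← hc, map_sum, map_sum]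
      apply Finset.sum_congr rfl
      intro i _
      rw [map_smul, map_smul, hF]
    have hgsum : ∑ i, ((‖c‖ : 𝕜)⁻¹ • c) i • x i = (‖c‖ : 𝕜)⁻¹ • (g : E) := by
      rw [← hc, Finset.smul_sum]
      apply Finset.sum_congr rfl
      intro i _
      rw [Pi.smul_apply, smul_eq_mul, mul_smul]
    have hgnorm : ‖(‖c‖ : 𝕜)⁻¹ • (g : E)‖ = ‖c‖⁻¹ := by
      rw [norm_smul, norm_inv, RCLike.norm_ofReal, abs_norm]
      have : ‖(g : E)‖ = 1 := hgn
      rw [this, mul_one]
    refine ⟨(‖c‖ : 𝕜)⁻¹ • c, (r : 𝕜)⁻¹ • F₁, (r : 𝕜)⁻¹ • F₂, ?_, hnormf F₁ h₁, hnormf F₂ h₂, ?_, ?_, ?_, ?_⟩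
    · rw [norm_smul, norm_inv, RCLike.norm_ofReal, abs_norm]
      exact inv_mul_cancel₀ hcn.ne'
    · rw [hgsum, hgnorm]
      show (r : 𝕜)⁻¹ * F₁ ((‖c‖ : 𝕜)⁻¹ • (g : E)) = _
      rw [map_smul, smul_eq_mul, hgr]
      push_cast
      field_simp
    · rw [hgsum, hgnorm]
      show (r : 𝕜)⁻¹ * F₂ ((‖c‖ : 𝕜)⁻¹ • (g : E)) = _
      rw [map_smul, smul_eq_mul, hF₂g, hgr]
      push_cast
      field_simp
    · intro i
      show (r : 𝕜)⁻¹ * F₁ (x i) = (r : 𝕜)⁻¹ * F₂ (x i)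
      rw [hF]
    · show 1 / ((m : ℝ) + 1) ≤ ‖(r : 𝕜)⁻¹ * F₁ e - (r : 𝕜)⁻¹ * F₂ e‖
      rw [← mul_sub, norm_mul, norm_inv, RCLike.norm_ofReal, abs_of_pos h0]
      have hm' := hm.le
      rwa [div_eq_inv_mul ‖F₁ e - F₂ e‖ r] at hm'

/-- `G` is a Chebyshev subspace: every point has exactly one best approximation in `G`. -/
def IsChebyshev (𝕜 : Type*) [RCLike 𝕜] {X : Type*} [NormedAddCommGroup X] [NormedSpace 𝕜 X]
    (G : Submodule 𝕜 X) : Prop :=
  ∀ x : X, ∃! g, g ∈ G ∧ ∀ g' ∈ G, ‖x - g‖ ≤ ‖x - g'‖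

theorem exists_chebyshev [CompleteSpace E] [TopologicalSpace.SeparableSpace E]
    (hn : (n : Cardinal) ≤ Module.rank 𝕜 E) :
    ∃ Γ : Submodule 𝕜 (StrongDual 𝕜 E),
      IsClosed (WeakDual.toStrongDual ⁻¹' (Γ : Set (StrongDual 𝕜 E))) ∧
      finrank 𝕜 (StrongDual 𝕜 E ⧸ Γ) = n ∧ IsChebyshev 𝕜 Γ := by
  obtain ⟨x, hx, hgood⟩ := exists_good hn
  let Ψ : StrongDual 𝕜 E →ₗ[𝕜] (Fin n → 𝕜) :=
    { toFun := fun f i => f (x i)
      map_add' := fun _ _ => rfl
      map_smul' := fun _ _ => rfl }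
  have hΨ : Function.Surjective Ψ := by
    intro v
    obtain ⟨f, hf⟩ := exists_dual_eq hx v
    exact ⟨f, funext hf⟩
  have hmem : ∀ f, f ∈ LinearMap.ker Ψ ↔ ∀ i, f (x i) = 0 := by
    intro f
    rw [LinearMap.mem_ker]
    exact ⟨fun h i => congrFun h i, fun h => funext h⟩
  refine ⟨LinearMap.ker Ψ, ?_, ?_, ?_⟩
  · have : (WeakDual.toStrongDual ⁻¹' (LinearMap.ker Ψ : Set (StrongDual 𝕜 E)) : Set (WeakDual 𝕜 E)) =
        ⋂ i, {f : WeakDual 𝕜 E | f (x i) = 0} := by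
      ext f
      rw [mem_iInter]
      exact hmem _
    rw [this]
    exact isClosed_iInter fun i => isClosed_eq (WeakDual.eval_continuous _) continuous_const
  · have h1 := (Ψ.quotKerEquivOfSurjective hΨ).finrank_eq
    rw [h1]
    simp
  · intro f
    set G := Submodule.span 𝕜 (range x) with hG
    obtain ⟨F, hF1, hF2⟩ := exists_extension_norm_eq G (f.comp G.subtypeL)
    have hFx : ∀ i, F (x i) = f (x i) := fun i => hF1 ⟨x i, Submodule.subset_span ⟨i, rfl⟩⟩
    have hlow : ∀ γ ∈ LinearMap.ker Ψ, ‖f.comp G.subtypeL‖ ≤ ‖f - γ‖ := by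
      intro γ hγ
      rw [hmem] at hγ
      have h1 : f.comp G.subtypeL = (f - γ).comp G.subtypeL := by
        ext ⟨y, hy⟩
        show f y = f y - γ y
        have h2 : G ≤ LinearMap.ker γ.toLinearMap := by
          rw [hG, Submodule.span_le]
          rintro _ ⟨i, rfl⟩
          exact hγ i
        have h3 : γ y = 0 := h2 hy
        rw [h3, sub_zero]
      rw [h1]
      refine ((f - γ).opNorm_comp_le _).trans ?_
      have := G.norm_subtypeL_le
      nlinarith [norm_nonneg (f - γ)]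
    refine ⟨f - F, ⟨?_, ?_⟩, ?_⟩
    · rw [hmem]
      intro i
      show f (x i) - F (x i) = 0
      rw [hFx, sub_self]
    · intro γ hγ
      rw [sub_sub_cancel, hF2]
      exact hlow γ hγ
    · rintro γ ⟨hγ, hbest⟩
      have h1 := hbest (f - F) (by
        rw [hmem]
        intro i
        show f (x i) - F (x i) = 0
        rw [hFx, sub_self])
      rw [sub_sub_cancel] at h1
      have hrestr : F.comp G.subtypeL = f.comp G.subtypeL := by
        ext y
        exact hF1 y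
      have h2 : F = f - γ := by
        apply unique_ext hx hgood
        · intro i
          rw [hmem] at hγ
          show F (x i) = f (x i) - γ (x i)
          rw [hγ, sub_zero, hFx]
        · rw [hrestr, hF2]
        · rw [hrestr, ← hF2]
          exact h1
      rw [h2, sub_sub_cancel]

end Pool.Agent.R274.Cheb
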