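import Mathlib
import Pool.Agent.R274.Cheb2

namespace Pool.Agent.R274.Cheb

open Module Set Filter Topology

variable (𝕜 : Type*) [RCLike 𝕜]

/-- The finitely supported sequences with the `ℓ¹` norm. -/
noncomputable abbrev c00 : Submodule 𝕜 (lp (fun _ : ℕ => 𝕜) 1) :=
  Submodule.span 𝕜 (range fun k : ℕ => (lp.single 1 k (1 : 𝕜) : lp (fun _ : ℕ => 𝕜) 1))

theorem c00_sep : TopologicalSpace.SeparableSpace (c00 𝕜) :=
  ((countable_range _).isSeparable.span (R := 𝕜)).separableSpace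

/-- the unit vectors -/
noncomputable def b (k : ℕ) : c00 𝕜 := ⟨lp.single 1 k (1 : 𝕜), Submodule.subset_span ⟨k, rfl⟩⟩

/-- the coordinate functionals -/
noncomputable def co (k : ℕ) : StrongDual 𝕜 (c00 𝕜) :=
  (lp.evalCLM 𝕜 (fun _ => 𝕜) 1 k).comp (c00 𝕜).subtypeL

variable {𝕜}

theorem co_apply (k : ℕ) (x : c00 𝕜) : co 𝕜 k x = (x : lp (fun _ : ℕ => 𝕜) 1) k := rfl

theorem co_b (k j : ℕ) : co 𝕜 k (b 𝕜 j) = if k = j then 1 else 0 := by
  rw [co_apply]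
  show (lp.single 1 j (1 : 𝕜) : lp (fun _ : ℕ => 𝕜) 1) k = _
  split_ifs with h
  · subst h
    exact lp.single_apply_self ..
  · exact lp.single_apply_ne _ _ _ h

theorem c00_support (x : c00 𝕜) : ∃ N, ∀ k, N ≤ k → co 𝕜 k x = 0 := by
  obtain ⟨x, hx⟩ := x
  induction hx using Submodule.span_induction with
  | mem x h =>
    obtain ⟨j, rfl⟩ := h
    refine ⟨j + 1, fun k hk => ?_⟩
    exact (co_b k j).trans (if_neg (by omega))
  | zero => exact ⟨0, fun k _ => rfl⟩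
  | add x y hx hy ihx ihy =>
    obtain ⟨N, hN⟩ := ihx
    obtain ⟨M, hM⟩ := ihy
    refine ⟨max N M, fun k hk => ?_⟩
    have h1 := hN k (le_of_max_le_left hk)
    have h2 := hM k (le_of_max_le_right hk)
    have h3 : co 𝕜 k ⟨x + y, Submodule.add_mem _ hx hy⟩ = co 𝕜 k ⟨x, hx⟩ + co 𝕜 k ⟨y, hy⟩ := by
      rw [← map_add]; rfl
    rw [h3, h1, h2, add_zero]
  | smul a x hx ih =>
    obtain ⟨N, hN⟩ := ih
    refine ⟨N, fun k hk => ?_⟩
    have h3 : co 𝕜 k ⟨a • x, Submodule.smul_mem _ a hx⟩ = a • co 𝕜 k ⟨x, hx⟩ := by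
      rw [← map_smul]; rfl
    rw [h3, hN k hk, smul_zero]

theorem c00_repr (x : c00 𝕜) {N : ℕ} (hN : ∀ k, N ≤ k → co 𝕜 k x = 0) :
    x = ∑ k ∈ Finset.range N, co 𝕜 k x • b 𝕜 k := by
  have h : ∀ y : c00 𝕜, (∀ j, co 𝕜 j y = 0) → y = 0 := by
    intro y hy
    apply Subtype.ext
    apply lp.ext
    funext j
    exact hy j
  rw [← sub_eq_zero]
  apply h
  intro j
  rw [map_sub, map_sum, sub_eq_zero]
  simp only [map_smul, co_b, smul_eq_mul, mul_ite, mul_one, mul_zero, Finset.sum_ite_eq,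
    Finset.mem_range]
  split_ifs with h1
  · rfl
  · exact hN j (by omega)

theorem norm_b (k : ℕ) : ‖b 𝕜 k‖ = 1 := by
  show ‖(lp.single 1 k (1 : 𝕜) : lp (fun _ : ℕ => 𝕜) 1)‖ = 1
  rw [lp.norm_single (by norm_num), norm_one]

theorem sum_le_norm (x : c00 𝕜) (N : ℕ) : ∑ k ∈ Finset.range N, ‖co 𝕜 k x‖ ≤ ‖x‖ := by
  have h1 := lp.sum_rpow_le_norm_rpow (p := 1) (by simp) (x : lp (fun _ : ℕ => 𝕜) 1)
    (Finset.range N)
  simp only [ENNReal.toReal_one, Real.rpow_one] at h1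
  exact h1

theorem norm_le_of (F : StrongDual 𝕜 (c00 𝕜)) {C : ℝ} (hC : 0 ≤ C)
    (h : ∀ k, ‖F (b 𝕜 k)‖ ≤ C) : ‖F‖ ≤ C := by
  apply F.opNorm_le_bound hC
  intro x
  obtain ⟨N, hN⟩ := c00_support x
  have h1 := c00_repr x hN
  calc ‖F x‖ = ‖∑ k ∈ Finset.range N, co 𝕜 k x • F (b 𝕜 k)‖ := by
        conv_lhs => rw [h1]
        rw [map_sum]
        simp only [map_smul]
    _ ≤ ∑ k ∈ Finset.range N, ‖co 𝕜 k x • F (b 𝕜 k)‖ := norm_sum_le _ _
    _ ≤ ∑ k ∈ Finset.range N, ‖co 𝕜 k x‖ * C := by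
        apply Finset.sum_le_sum
        intro k _
        rw [norm_smul]
        exact mul_le_mul_of_nonneg_left (h k) (norm_nonneg _)
    _ = (∑ k ∈ Finset.range N, ‖co 𝕜 k x‖) * C := by rw [Finset.sum_mul]
    _ ≤ ‖x‖ * C := mul_le_mul_of_nonneg_right (sum_le_norm x N) hC
    _ = C * ‖x‖ := mul_comm _ _

theorem linearIndependent_b : LinearIndependent 𝕜 (b 𝕜) := by
  rw [linearIndependent_iff']
  intro s g hg i hi
  have h1 := congrArg (co 𝕜 i) hg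
  rw [map_sum, map_zero] at h1
  simp only [map_smul, co_b, smul_eq_mul, mul_ite, mul_one, mul_zero, Finset.sum_ite_eq] at h1
  rwa [if_pos hi] at h1

theorem rank_c00 (n : ℕ) : (n : Cardinal) ≤ Module.rank 𝕜 (c00 𝕜) :=
  (Cardinal.natCast_lt_aleph0 (n := n)).le.trans linearIndependent_b.aleph0_le_rank

section Abstract

variable {E : Type*} [NormedAddCommGroup E] [NormedSpace 𝕜 E]

/-- A weak-star closed subspace of finite codimension contains a coordinate functional. -/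
theorem exists_co_mem (co : ℕ → StrongDual 𝕜 E) (hsupp : ∀ x, ∃ N, ∀ k, N ≤ k → co k x = 0)
    (Γ : Submodule 𝕜 (StrongDual 𝕜 E))
    (hc : IsClosed (WeakDual.toStrongDual ⁻¹' (Γ : Set (StrongDual 𝕜 E))))
    (hf : FiniteDimensional 𝕜 (StrongDual 𝕜 E ⧸ Γ)) : ∃ k, co k ∈ Γ := by
  set Γ' : Submodule 𝕜 (WeakDual 𝕜 E) :=
    Γ.comap (WeakDual.toStrongDual : WeakDual 𝕜 E ≃ₗ[𝕜] StrongDual 𝕜 E).toLinearMap
    with hΓ'
  have hcl : IsClosed (Γ' : Set (WeakDual 𝕜 E)) := hc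
  have hfd : FiniteDimensional 𝕜 (WeakDual 𝕜 E ⧸ Γ') := by
    have e := Submodule.Quotient.equiv Γ' Γ
      (WeakDual.toStrongDual : WeakDual 𝕜 E ≃ₗ[𝕜] StrongDual 𝕜 E) (by
        rw [hΓ']
        exact Submodule.map_comap_eq_of_surjective
          (WeakDual.toStrongDual : WeakDual 𝕜 E ≃ₗ[𝕜] StrongDual 𝕜 E).surjective Γ)
    exact Module.Finite.equiv e.symm
  have := hcl
  have ht3 : T3Space (WeakDual 𝕜 E ⧸ Γ') := inferInstance
  let B := Module.finBasis 𝕜 (WeakDual 𝕜 E ⧸ Γ')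
  have hcont : Continuous B.equivFun.toLinearMap := LinearMap.continuous_of_finiteDimensional _
  let ψ : WeakDual 𝕜 E →ₗ[𝕜] (Fin (finrank 𝕜 (WeakDual 𝕜 E ⧸ Γ')) → 𝕜) :=
    B.equivFun.toLinearMap.comp Γ'.mkQ
  have hψ : Continuous ψ := hcont.comp continuous_quot_mk
  by_contra hcon
  push Not at hcon
  have hne : ∀ k, ψ (StrongDual.toWeakDual (co k)) ≠ 0 := by
    intro k hk
    apply hcon k
    have h1 : B.equivFun (Γ'.mkQ (StrongDual.toWeakDual (co k))) = 0 := hk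
    rw [LinearEquiv.map_eq_zero_iff, Submodule.mkQ_apply, Submodule.Quotient.mk_eq_zero] at h1
    exact h1
  set a : ℕ → 𝕜 := fun k => ((‖ψ (StrongDual.toWeakDual (co k))‖ : ℝ) : 𝕜)⁻¹ with ha
  have hlim : Tendsto (fun k => a k • StrongDual.toWeakDual (co k)) atTop
      (𝓝 (0 : WeakDual 𝕜 E)) := by
    rw [tendsto_iff_forall_eval_tendsto_topDualPairing]
    intro x
    obtain ⟨N, hN⟩ := hsupp x
    apply tendsto_const_nhds.congr'
    filter_upwards [eventually_ge_atTop N] with k hk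
    show (0 : 𝕜) = a k * co k x
    rw [hN k hk, mul_zero]
  have h2 := ((hψ.tendsto 0).comp hlim).norm
  rw [map_zero, norm_zero] at h2
  have h3 : ∀ k, ‖ψ (a k • StrongDual.toWeakDual (co k))‖ = 1 := by
    intro k
    rw [map_smul, norm_smul, ha]
    simp only []
    rw [norm_inv, RCLike.norm_ofReal, abs_norm]
    exact inv_mul_cancel₀ (norm_ne_zero_iff.2 (hne k))
  have h4 : Tendsto (fun k : ℕ => (1 : ℝ)) atTop (𝓝 0) := h2.congr h3
  exact one_ne_zero (tendsto_nhds_unique tendsto_const_nhds h4)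

theorem not_chebyshev_aux (b : ℕ → E) (co : ℕ → StrongDual 𝕜 E)
    (co_b : ∀ k j, co k (b j) = if k = j then 1 else 0)
    (hsupp : ∀ x, ∃ N, ∀ k, N ≤ k → co k x = 0) (norm_b : ∀ k, ‖b k‖ = 1)
    (norm_le_of : ∀ (F : StrongDual 𝕜 E) (C : ℝ), 0 ≤ C → (∀ k, ‖F (b k)‖ ≤ C) → ‖F‖ ≤ C)
    {n : ℕ} (hn : 1 ≤ n) (Γ : Submodule 𝕜 (StrongDual 𝕜 E))
    (hc : IsClosed (WeakDual.toStrongDual ⁻¹' (Γ : Set (StrongDual 𝕜 E))))
    (hf : finrank 𝕜 (StrongDual 𝕜 E ⧸ Γ) = n) : ¬ IsChebyshev 𝕜 Γ := by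
  intro hcheb
  have hfd : FiniteDimensional 𝕜 (StrongDual 𝕜 E ⧸ Γ) :=
    FiniteDimensional.of_finrank_pos (by omega)
  obtain ⟨k, hk⟩ := exists_co_mem co hsupp Γ hc hfd
  obtain ⟨f, hfΓ⟩ : ∃ f, f ∉ Γ := by
    by_contra hcon
    push Not at hcon
    have : Γ = ⊤ := by
      rw [eq_top_iff]
      intro f _
      exact hcon f
    subst this
    have h1 : Subsingleton (StrongDual 𝕜 E ⧸ (⊤ : Submodule 𝕜 (StrongDual 𝕜 E))) :=
      inferInstance
    rw [finrank_zero_of_subsingleton] at hf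
    omega
  obtain ⟨γ₀, ⟨hγ₀, hbest⟩, huniq⟩ := hcheb f
  set F := f - γ₀ with hF
  have hF0 : 0 < ‖F‖ := by
    rw [norm_pos_iff, hF, sub_ne_zero]
    rintro rfl
    exact hfΓ hγ₀
  -- a different value in the `k`-th coordinate
  obtain ⟨t, ht, htn⟩ : ∃ t : 𝕜, t ≠ F (b k) ∧ ‖t‖ ≤ ‖F‖ := by
    by_cases h0 : F (b k) = 0
    · refine ⟨((‖F‖ : ℝ) : 𝕜), ?_, ?_⟩
      · rw [h0]
        exact_mod_cast hF0.ne'
      · rw [RCLike.norm_ofReal, abs_norm]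
    · exact ⟨0, fun h => h0 h.symm, by rw [norm_zero]; exact norm_nonneg _⟩
  set γ₁ := γ₀ + (F (b k) - t) • co k with hγ₁
  have hγ₁m : γ₁ ∈ Γ := Γ.add_mem hγ₀ (Γ.smul_mem _ hk)
  have hF' : ‖f - γ₁‖ ≤ ‖F‖ := by
    apply norm_le_of _ _ (norm_nonneg _)
    intro j
    have h1 : (f - γ₁) (b j) = F (b j) - (F (b k) - t) * co k (b j) := by
      rw [hγ₁, hF]
      simp only [sub_apply, add_apply, smul_apply, smul_eq_mul]
      ring
    rw [h1, co_b]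
    split_ifs with hkj
    · subst hkj
      rw [mul_one, sub_sub_cancel]
      exact htn
    · rw [mul_zero, sub_zero]
      have h2 := F.le_opNorm (b j)
      rwa [norm_b, mul_one] at h2
  have h2 := huniq γ₁ ⟨hγ₁m, fun g' hg' => hF'.trans (hbest g' hg')⟩
  have h3 : (F (b k) - t) • co k = 0 := by
    rw [hγ₁] at h2
    simpa using h2
  have h4 := congrArg (fun G : StrongDual 𝕜 E => G (b k)) h3
  simp only [smul_apply, co_b, if_true, smul_eq_mul, mul_one, zero_apply] at h4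
  exact ht (sub_eq_zero.1 h4).symm

end Abstract

theorem exists_incomplete.{u} (𝕜 : Type u) [RCLike 𝕜] : ∃ (E : Type u) (_ : NormedAddCommGroup E)
    (_ : NormedSpace 𝕜 E), TopologicalSpace.SeparableSpace E ∧
      (∀ n : ℕ, (n : Cardinal) ≤ Module.rank 𝕜 E) ∧
      ∀ n : ℕ, 1 ≤ n → ∀ Γ : Submodule 𝕜 (StrongDual 𝕜 E),
        IsClosed (WeakDual.toStrongDual ⁻¹' (Γ : Set (StrongDual 𝕜 E))) →
        finrank 𝕜 (StrongDual 𝕜 E ⧸ Γ) = n → ¬ IsChebyshev 𝕜 Γ := by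
  refine ⟨c00 𝕜, inferInstance, inferInstance, c00_sep 𝕜, rank_c00, ?_⟩
  intro n hn Γ hc hf
  exact not_chebyshev_aux (b 𝕜) (co 𝕜) co_b c00_support norm_b
    (fun F C hC h => norm_le_of F hC h) hn Γ hc hf

end Pool.Agent.R274.Cheb
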