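import Mathlib

/-!
Legendre polynomials `D k x = P_k (2 x - 1)`: recurrence and the expansion of `x ^ a`.
-/

namespace Pool.Agent.R274.ES

open Finset

/-- The Legendre polynomial `P_k` at `2 x - 1`. -/
noncomputable def D (k : ℕ) (x : ℝ) : ℝ :=
  ∑ i ∈ range (k + 1), ((k.choose i : ℕ) : ℝ) ^ 2 * x ^ (k - i) * (x - 1) ^ i

theorem choose_rel (k j : ℕ) :
    ((j : ℝ) + 1) * ((k.choose (j + 1) : ℕ) : ℝ) = ((k : ℝ) - j) * ((k.choose j : ℕ) : ℝ) := by
  rcases le_or_gt j k with h | h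
  · have h1 := Nat.choose_succ_right_eq k j
    have h2 : ((k.choose (j + 1) * (j + 1) : ℕ) : ℝ) = ((k.choose j * (k - j) : ℕ) : ℝ) := by
      rw [h1]
    push_cast [Nat.cast_sub h] at h2
    linarith
  · rw [Nat.choose_eq_zero_of_lt (by omega : k < j + 1), Nat.choose_eq_zero_of_lt h]
    simp

/-- coefficients, with a shift -/
noncomputable def c (k i : ℕ) : ℝ := ((k.choose i : ℕ) : ℝ) ^ 2

noncomputable def c1 (k : ℕ) : ℕ → ℝ
  | 0 => 0
  | (i + 1) => c k i

noncomputable def c2 (k : ℕ) : ℕ → ℝ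
  | 0 => 0
  | 1 => 0
  | (i + 2) => c k i

theorem coef_rec (k i : ℕ) : ((k : ℝ) + 2) * c (k + 2) i =
    (2 * (k : ℝ) + 3) * (c (k + 1) i + c1 (k + 1) i) -
      ((k : ℝ) + 1) * (c k i - 2 * c1 k i + c2 k i) := by
  match i with
  | 0 =>
    simp only [c, c1, c2, Nat.choose_zero_right]
    push_cast
    ring
  | 1 =>
    simp only [c, c1, c2, Nat.choose_zero_right, Nat.choose_one_right]
    push_cast
    ring
  | (j + 2) =>
    simp only [c, c1, c2]
    have h1 := choose_rel k j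
    have h2 := choose_rel k (j + 1)
    have e1 : (k + 1).choose (j + 1) = k.choose j + k.choose (j + 1) := Nat.choose_succ_succ ..
    have e2 : (k + 1).choose (j + 2) = k.choose (j + 1) + k.choose (j + 2) :=
      Nat.choose_succ_succ ..
    have e3 : (k + 2).choose (j + 2) = (k + 1).choose (j + 1) + (k + 1).choose (j + 2) :=
      Nat.choose_succ_succ ..
    rw [e3, e1, e2]
    push_cast
    push_cast at h2
    set A := ((k.choose j : ℕ) : ℝ)
    set B := ((k.choose (j + 1) : ℕ) : ℝ)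
    set G := ((k.choose (j + 2) : ℕ) : ℝ)
    have h3 : ((j : ℝ) + 2) * ((k + 2) * A * G + A * B + B * G - k * B ^ 2) = 0 := by
      have h2' : ((j : ℝ) + 2) * G = ((k : ℝ) - (j + 1)) * B := by
        have : (j : ℝ) + 1 + 1 = j + 2 := by ring
        rw [← this]; exact h2
      linear_combination ((k + 2) * A + B) * h2' - (k + 1) * B * h1
    have h4 : ((k : ℝ) + 2) * A * G + A * B + B * G - k * B ^ 2 = 0 := by
      have : ((j : ℝ) + 2) ≠ 0 := by positivity
      exact (mul_eq_zero.1 h3).resolve_left this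
    linear_combination 2 * h4

theorem c_zero {k i : ℕ} (h : k < i) : c k i = 0 := by
  rw [c, Nat.choose_eq_zero_of_lt h]; simp

/-- the homogeneous form -/
noncomputable def H (k : ℕ) (a b : ℝ) : ℝ := ∑ i ∈ range (k + 1), c k i * a ^ (k - i) * b ^ i

theorem mul_b (f g : ℕ → ℝ) (hg0 : g 0 = 0) (hg : ∀ i, g (i + 1) = f i) (n N : ℕ) (a b : ℝ)
    (hN : n ≤ N + 1) :
    b * ∑ i ∈ range n, f i * a ^ (N - i) * b ^ i =
      ∑ i ∈ range (n + 1), g i * a ^ (N + 1 - i) * b ^ i := by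
  rw [sum_range_succ', hg0, zero_mul, zero_mul, add_zero, mul_sum]
  apply sum_congr rfl
  intro i hi
  rw [mem_range] at hi
  rw [hg, show N + 1 - (i + 1) = N - i by omega, pow_succ]
  ring

theorem mul_a (f : ℕ → ℝ) (n N : ℕ) (a b : ℝ) (hN : n ≤ N + 1) :
    a * ∑ i ∈ range n, f i * a ^ (N - i) * b ^ i =
      ∑ i ∈ range n, f i * a ^ (N + 1 - i) * b ^ i := by
  rw [mul_sum]
  apply sum_congr rfl
  intro i hi
  rw [mem_range] at hi
  rw [show N + 1 - i = (N - i) + 1 by omega, pow_succ]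
  ring

theorem H_rec (k : ℕ) (a b : ℝ) : ((k : ℝ) + 2) * H (k + 2) a b =
    (2 * (k : ℝ) + 3) * (a + b) * H (k + 1) a b - ((k : ℝ) + 1) * (a - b) ^ 2 * H k a b := by
  have e1 : a * H (k + 1) a b = ∑ i ∈ range (k + 3), c (k + 1) i * a ^ (k + 2 - i) * b ^ i := by
    rw [H, mul_a _ _ _ _ _ (by omega), sum_range_succ _ (k + 2), c_zero (by omega : k + 1 < k + 2)]
    simp
  have e2 : b * H (k + 1) a b = ∑ i ∈ range (k + 3), c1 (k + 1) i * a ^ (k + 2 - i) * b ^ i := by
    rw [H, mul_b (c (k + 1)) (c1 (k + 1)) rfl (fun _ => rfl) _ _ _ _ (by omega)]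
  have e3 : a * (a * H k a b) = ∑ i ∈ range (k + 3), c k i * a ^ (k + 2 - i) * b ^ i := by
    rw [H, mul_a _ _ _ _ _ (by omega), mul_a _ _ _ _ _ (by omega), sum_range_succ _ (k + 2),
      sum_range_succ _ (k + 1), c_zero (by omega : k < k + 2), c_zero (by omega : k < k + 1)]
    simp
  have e4 : a * (b * H k a b) = ∑ i ∈ range (k + 3), c1 k i * a ^ (k + 2 - i) * b ^ i := by
    rw [H, mul_b (c k) (c1 k) rfl (fun _ => rfl) _ _ _ _ (by omega), mul_a _ _ _ _ _ (by omega),
      sum_range_succ _ (k + 2)]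
    have : c1 k (k + 2) = 0 := c_zero (by omega : k < k + 1)
    rw [this]; simp
  have e5 : b * (b * H k a b) = ∑ i ∈ range (k + 3), c2 k i * a ^ (k + 2 - i) * b ^ i := by
    rw [H, mul_b (c k) (c1 k) rfl (fun _ => rfl) _ _ _ _ (by omega),
      mul_b (c1 k) (c2 k) rfl (fun i => by cases i <;> rfl) _ _ _ _ (by omega)]
  have e6 : ((k : ℝ) + 2) * H (k + 2) a b =
      (2 * (k : ℝ) + 3) * (a * H (k + 1) a b + b * H (k + 1) a b) -
        ((k : ℝ) + 1) * (a * (a * H k a b) - 2 * (a * (b * H k a b)) + b * (b * H k a b)) := by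
    rw [e1, e2, e3, e4, e5, H, mul_sum, ← sum_add_distrib, mul_sum, mul_sum, ← sum_sub_distrib,
      ← sum_add_distrib, mul_sum, ← sum_sub_distrib]
    apply sum_congr rfl
    intro i _
    linear_combination (a ^ (k + 2 - i) * b ^ i) * coef_rec k i
  rw [e6]; ring

theorem D_eq_H (k : ℕ) (x : ℝ) : D k x = H k x (x - 1) := rfl

theorem D_rec (k : ℕ) (x : ℝ) : ((k : ℝ) + 2) * D (k + 2) x =
    (2 * (k : ℝ) + 3) * (2 * x - 1) * D (k + 1) x - ((k : ℝ) + 1) * D k x := by
  rw [D_eq_H, D_eq_H, D_eq_H, H_rec]; ring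

theorem D_zero (x : ℝ) : D 0 x = 1 := by simp [D]

theorem D_one (x : ℝ) : D 1 x = 2 * x - 1 := by
  simp [D, sum_range_succ]; ring

theorem D_at_one (k : ℕ) : D k 1 = 1 := by
  rw [D, sum_range_succ']
  simp

/-! ### Expansion of powers -/

/-- The Legendre coefficient of `x ^ a` divided by `2 k + 1`. -/
noncomputable def bb (a k : ℕ) : ℝ :=
  if k ≤ a then ((a.factorial : ℝ)) ^ 2 / (((a - k).factorial : ℝ) * ((a + k + 1).factorial : ℝ))
  else 0

theorem bb_nonneg (a k : ℕ) : 0 ≤ bb a k := by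
  rw [bb]; split_ifs <;> positivity

theorem bb_of_lt {a k : ℕ} (h : a < k) : bb a k = 0 := by
  rw [bb, if_neg (by omega)]

theorem bb_ratio (a k : ℕ) : ((a : ℝ) - k) * bb a k = ((a : ℝ) + k + 2) * bb a (k + 1) := by
  rcases lt_trichotomy k a with h | h | h
  · rw [bb, bb, if_pos (by omega), if_pos (by omega)]
    obtain ⟨d, rfl⟩ : ∃ d, a = k + d + 1 := ⟨a - k - 1, by omega⟩
    rw [show k + d + 1 - k = d + 1 by omega, show k + d + 1 - (k + 1) = d by omega,
      show k + d + 1 + (k + 1) + 1 = (k + d + 1 + k + 1) + 1 by ring,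
      Nat.factorial_succ d, Nat.factorial_succ (k + d + 1 + k + 1)]
    push_cast
    have h1 : ((d.factorial : ℕ) : ℝ) ≠ 0 := by positivity
    have h2 : (((k + d + 1 + k + 1).factorial : ℕ) : ℝ) ≠ 0 := by positivity
    field_simp
    ring
  · subst h
    rw [bb_of_lt (by omega : k < k + 1)]; simp
  · rw [bb_of_lt h, bb_of_lt (by omega : a < k + 1)]; simp

theorem bb_rel (a k : ℕ) : ((a : ℝ) + 1) ^ 2 * bb a k =
    (((a : ℝ) + 1) * (a + 2) - k * (k + 1)) * bb (a + 1) k := by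
  rcases lt_trichotomy k (a + 1) with h | h | h
  · rw [bb, bb, if_pos (by omega), if_pos (by omega)]
    obtain ⟨d, rfl⟩ : ∃ d, a = k + d := ⟨a - k, by omega⟩
    rw [show k + d - k = d by omega, show k + d + 1 - k = d + 1 by omega,
      show k + d + 1 + k + 1 = (k + d + k + 1) + 1 by ring,
      Nat.factorial_succ d, Nat.factorial_succ (k + d + k + 1), Nat.factorial_succ (k + d)]
    push_cast
    have h1 : ((d.factorial : ℕ) : ℝ) ≠ 0 := by positivity
    have h2 : (((k + d + k + 1).factorial : ℕ) : ℝ) ≠ 0 := by positivity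
    field_simp
    ring
  · subst h
    rw [bb_of_lt (by omega : a < a + 1)]; push_cast; ring
  · rw [bb_of_lt h, bb_of_lt (by omega : a < k)]; simp

theorem bb_top (a : ℕ) : 2 * (2 * ((a : ℝ) + 1) + 1) * bb (a + 1) (a + 1) =
    ((a : ℝ) + 1) * bb a a := by
  rw [bb, bb, if_pos le_rfl, if_pos le_rfl, Nat.sub_self, Nat.sub_self,
    show a + 1 + (a + 1) + 1 = (a + a + 1) + 1 + 1 by ring, Nat.factorial_succ (a + a + 1 + 1),
    Nat.factorial_succ (a + a + 1), Nat.factorial_succ a]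
  push_cast
  have h2 : (((a + a + 1).factorial : ℕ) : ℝ) ≠ 0 := by positivity
  simp only [Nat.factorial_zero, Nat.cast_one, one_mul]
  field_simp
  ring

/-- the recurrence of the coefficients, shifted index -/
theorem bb_step_succ (a k : ℕ) : 2 * (2 * ((k : ℝ) + 1) + 1) * bb (a + 1) (k + 1) =
    (2 * ((k : ℝ) + 1) + 1) * bb a (k + 1) + ((k : ℝ) + 1) * bb a k +
      ((k : ℝ) + 2) * bb a (k + 2) := by
  rcases lt_trichotomy k a with h | h | h
  · -- everything in terms of `bb a (k+1)`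
    have r1 := bb_ratio a k
    have r2 := bb_ratio a (k + 1)
    have r3 := bb_rel a (k + 1)
    push_cast at r1 r2 r3
    have hk : (0 : ℝ) < (a : ℝ) - k := by
      have : (k : ℝ) < a := by exact_mod_cast h
      linarith
    have hk2 : (0 : ℝ) < (a : ℝ) + k + 3 := by positivity
    have hf : ((a : ℝ) + 1) * (a + 2) - (k + 1) * (k + 1 + 1) = (a - k) * (a + k + 3) := by ring
    rw [hf] at r3
    have hne : ((a : ℝ) - k) * (a + k + 3) ≠ 0 := by positivity
    apply mul_left_cancel₀ hne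
    linear_combination (-2 * (2 * ((k : ℝ) + 1) + 1)) * r3 - ((k : ℝ) + 1) * (a + k + 3) * r1 +
      ((k : ℝ) + 2) * (a - k) * r2
  · subst h
    rw [bb_of_lt (by omega : k < k + 1), bb_of_lt (by omega : k < k + 2), bb_top]
    ring
  · rw [bb_of_lt (by omega : a + 1 < k + 1), bb_of_lt (by omega : a < k + 1), bb_of_lt h,
      bb_of_lt (by omega : a < k + 2)]
    ring

theorem bb_step_zero (a : ℕ) : 2 * bb (a + 1) 0 = bb a 0 + bb a 1 := by
  have r1 := bb_ratio a 0
  have r3 := bb_rel a 0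
  push_cast at r1 r3
  have hne : ((a : ℝ) + 1) * (a + 2) ≠ 0 := by positivity
  apply mul_left_cancel₀ hne
  linear_combination (-2) * r3 + ((a : ℝ) + 1) * r1

theorem xD (k : ℕ) (x : ℝ) : x * ((2 * ((k : ℝ) + 1) + 1) * D (k + 1) x) =
    ((2 * ((k : ℝ) + 1) + 1) * D (k + 1) x + ((k : ℝ) + 2) * D (k + 2) x +
      ((k : ℝ) + 1) * D k x) / 2 := by
  have := D_rec k x
  linear_combination (-1 / 2 : ℝ) * this

theorem pow_expand (a : ℕ) (x : ℝ) :
    x ^ a = ∑ k ∈ range (a + 1), (2 * (k : ℝ) + 1) * bb a k * D k x := by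
  induction a with
  | zero => simp [bb, D_zero]
  | succ a ih =>
    rw [pow_succ, mul_comm, ih, mul_sum, sum_range_succ']
    have e1 : ∀ k ∈ range a, x * ((2 * ((k + 1 : ℕ) : ℝ) + 1) * bb a (k + 1) * D (k + 1) x) =
        ((2 * ((k : ℝ) + 1) + 1) * bb a (k + 1) * D (k + 1) x +
          ((k : ℝ) + 2) * bb a (k + 1) * D (k + 2) x +
          ((k : ℝ) + 1) * bb a (k + 1) * D k x) / 2 := by
      intro k _
      push_cast
      linear_combination bb a (k + 1) * xD k x
    rw [sum_congr rfl e1]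
    -- the three sums
    have s1 : ∑ k ∈ range a, (2 * ((k : ℝ) + 1) + 1) * bb a (k + 1) * D (k + 1) x =
        ∑ k ∈ range (a + 1), (2 * ((k : ℝ) + 1) + 1) * bb a (k + 1) * D (k + 1) x := by
      rw [sum_range_succ, bb_of_lt (by omega : a < a + 1)]; ring
    have s2 : ∑ k ∈ range a, ((k : ℝ) + 2) * bb a (k + 1) * D (k + 2) x + bb a 0 * D 1 x =
        ∑ k ∈ range (a + 1), ((k : ℝ) + 1) * bb a k * D (k + 1) x := by
      rw [sum_range_succ']
      congr 1
      · apply sum_congr rfl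
        intro k _
        push_cast
        ring
      · push_cast; ring
    have s3 : ∑ k ∈ range a, ((k : ℝ) + 1) * bb a (k + 1) * D k x =
        ∑ k ∈ range (a + 1), ((k : ℝ) + 2) * bb a (k + 2) * D (k + 1) x + bb a 1 * D 0 x := by
      have h1 : ∑ k ∈ range (a + 1 + 1), ((k : ℝ) + 1) * bb a (k + 1) * D k x =
          ∑ k ∈ range (a + 1), ((k : ℝ) + 2) * bb a (k + 2) * D (k + 1) x + bb a 1 * D 0 x := by
        rw [sum_range_succ']
        congr 1
        · apply sum_congr rfl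
          intro k _
          push_cast
          ring
        · push_cast; ring
      rw [← h1, sum_range_succ, sum_range_succ, bb_of_lt (by omega : a < a + 1),
        bb_of_lt (by omega : a < a + 1 + 1)]
      ring
    rw [sum_range_succ' _ (a + 1)]
    have e2 : ∀ k ∈ range (a + 1), (2 * ((k + 1 : ℕ) : ℝ) + 1) * bb (a + 1) (k + 1) * D (k + 1) x =
        ((2 * ((k : ℝ) + 1) + 1) * bb a (k + 1) * D (k + 1) x +
          ((k : ℝ) + 1) * bb a k * D (k + 1) x +
          ((k : ℝ) + 2) * bb a (k + 2) * D (k + 1) x) / 2 := by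
      intro k _
      push_cast
      linear_combination (D (k + 1) x / 2) * bb_step_succ a k
    rw [sum_congr rfl e2, ← sum_div, ← sum_div, sum_add_distrib, sum_add_distrib,
      sum_add_distrib, sum_add_distrib]
    have h0 := bb_step_zero a
    push_cast
    rw [D_zero] at *
    rw [D_one] at s2
    linear_combination (1 / 2 : ℝ) * s1 + (1 / 2 : ℝ) * s2 + (1 / 2 : ℝ) * s3 - (1 / 2 : ℝ) * h0

end Pool.Agent.R274.ES
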