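import Mathlib
import Pool.Agent.R274.ES1

/-!
Positive definiteness of the Legendre kernels on the two-sphere, through spinors.
-/

namespace Pool.Agent.R274.ES

open Finset Polynomial ComplexConjugate

section Alg

variable {R : Type*} [CommRing R]

theorem coeff_lin_pow (p q : R) (n k : ℕ) :
    ((C p + X * C q) ^ n).coeff k = (n.choose k : R) * p ^ (n - k) * q ^ k := by
  rcases le_or_gt k n with h | h
  · rw [add_comm, add_pow, finsetSum_coeff, sum_eq_single k]
    · rw [mul_pow, ← C_pow, ← C_pow, ← C_eq_natCast]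
      rw [show X ^ k * C (q ^ k) * C (p ^ (n - k)) * C ((n.choose k : ℕ) : R) =
        C (q ^ k * p ^ (n - k) * ((n.choose k : ℕ) : R)) * X ^ k by
          simp only [C_mul]; ring]
      rw [coeff_C_mul, coeff_X_pow_self]
      ring
    · intro b _ hbk
      rw [mul_pow, ← C_pow, ← C_pow, ← C_eq_natCast]
      rw [show X ^ b * C (q ^ b) * C (p ^ (n - b)) * C ((n.choose b : ℕ) : R) =
        C (q ^ b * p ^ (n - b) * ((n.choose b : ℕ) : R)) * X ^ b by
          simp only [C_mul]; ring]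
      rw [coeff_C_mul, coeff_X_pow, if_neg (Ne.symm hbk), mul_zero]
    · intro hk
      exact absurd (mem_range.2 (by omega)) hk
  · rw [Nat.choose_eq_zero_of_lt h]
    simp only [Nat.cast_zero, zero_mul]
    apply coeff_eq_zero_of_natDegree_lt
    refine lt_of_le_of_lt (natDegree_pow_le.trans ?_) h
    have h1 : (C p + X * C q).natDegree ≤ 1 := by
      apply natDegree_add_le_of_degree_le
      · rw [natDegree_C]; omega
      · exact (natDegree_mul_C_le _ _).trans natDegree_X_le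
    nlinarith

/-- feature vector -/
noncomputable def Ph (k : ℕ) (a a' : Fin 2 → R) (f : Fin (2 * k) → Fin 2) : R :=
  (∏ l, (C (a (f l)) + X * C (a' (f l)))).coeff k

theorem feature (k : ℕ) (a a' b b' : Fin 2 → R) :
    ∑ f : Fin (2 * k) → Fin 2, Ph k a a' f * Ph k b b' f =
      ((2 * k).choose k : R) * ∑ i ∈ range (k + 1), (k.choose i : R) ^ 2 *
        ((∑ e, a e * b e) * (∑ e, a' e * b' e)) ^ (k - i) *
        ((∑ e, a' e * b e) * (∑ e, a e * b' e)) ^ i := by
  -- the double generating polynomial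
  set A' : R[X] := ∑ e, C (a e) * (C (b e) + X * C (b' e)) with hA'
  set B' : R[X] := ∑ e, C (a' e) * (C (b e) + X * C (b' e)) with hB'
  have hA : A' = C (∑ e, a e * b e) + X * C (∑ e, a e * b' e) := by
    rw [hA']
    simp only [Fin.sum_univ_two, C_add, C_mul]
    ring
  have hB : B' = C (∑ e, a' e * b e) + X * C (∑ e, a' e * b' e) := by
    rw [hB']
    simp only [Fin.sum_univ_two, C_add, C_mul]
    ring
  have hW : (∑ f : Fin (2 * k) → Fin 2,
      (∏ l, (C (C (a (f l))) + X * C (C (a' (f l))) : R[X][X])) *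
        C (∏ l, (C (b (f l)) + X * C (b' (f l))))) = (C A' + X * C B') ^ (2 * k) := by
    have h1 : (C A' + X * C B' : R[X][X]) =
        ∑ e, (C (C (a e)) + X * C (C (a' e))) * C (C (b e) + X * C (b' e)) := by
      rw [hA', hB']
      simp only [Fin.sum_univ_two, C_add, C_mul]
      ring
    rw [h1, Fintype.sum_pow]
    apply sum_congr rfl
    intro f _
    rw [prod_mul_distrib, map_prod]
  have hW2 := congrArg (fun p : R[X][X] => (p.coeff k).coeff k) hW
  beta_reduce at hW2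
  rw [coeff_lin_pow, show 2 * k - k = k by omega] at hW2
  rw [finsetSum_coeff, finsetSum_coeff] at hW2
  have hL : ∀ f : Fin (2 * k) → Fin 2,
      (((∏ l, (C (C (a (f l))) + X * C (C (a' (f l))) : R[X][X])) *
        C (∏ l, (C (b (f l)) + X * C (b' (f l))))).coeff k).coeff k = Ph k a a' f * Ph k b b' f := by
    intro f
    have h1 : (∏ l, (C (C (a (f l))) + X * C (C (a' (f l))) : R[X][X])) =
        (∏ l, (C (a (f l)) + X * C (a' (f l)))).map C := by
      rw [Polynomial.map_prod]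
      apply prod_congr rfl
      intro l _
      simp
    rw [coeff_mul_C, h1, coeff_map, coeff_C_mul]
    rfl
  rw [sum_congr rfl fun f _ => hL f] at hW2
  rw [hW2]
  rw [mul_assoc, show ((((2 * k).choose k : ℕ) : R[X])) = C (((2 * k).choose k : ℕ) : R) by simp,
    coeff_C_mul]
  congr 1
  rw [hA, hB, coeff_mul, Nat.sum_antidiagonal_eq_sum_range_succ_mk]
  apply sum_congr rfl
  intro i hi
  rw [mem_range] at hi
  simp only []
  rw [coeff_lin_pow, coeff_lin_pow, Nat.choose_symm (by omega : i ≤ k), show k - (k - i) = i by omega,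
    mul_pow, mul_pow]
  ring

end Alg

/-- The kernel of spinors. -/
theorem spinor_kernel (k : ℕ) (α β α' β' : ℂ) (h : ‖α‖ ^ 2 + ‖β‖ ^ 2 = 1)
    (h' : ‖α'‖ ^ 2 + ‖β'‖ ^ 2 = 1) {x : ℝ} (hx : ‖α * conj α' + β * conj β'‖ ^ 2 = x) :
    ∑ f : Fin (2 * k) → Fin 2, Ph k ![α, β] ![-conj β, conj α] f *
      conj (Ph k ![α', β'] ![-conj β', conj α'] f) = ((((2 * k).choose k : ℕ) : ℝ) * D k x : ℝ) := by
  have hconj : ∀ f : Fin (2 * k) → Fin 2, conj (Ph k ![α', β'] ![-conj β', conj α'] f) =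
      Ph k ![conj α', conj β'] ![-β', α'] f := by
    intro f
    rw [Ph, Ph, ← coeff_map, Polynomial.map_prod]
    congr 1
    apply prod_congr rfl
    intro l _
    have : ∀ e : Fin 2, conj ((![α', β'] : Fin 2 → ℂ) e) = (![conj α', conj β'] : Fin 2 → ℂ) e := by
      intro e; fin_cases e <;> simp
    have t : ∀ e : Fin 2, conj ((![-conj β', conj α'] : Fin 2 → ℂ) e) =
        (![-β', α'] : Fin 2 → ℂ) e := by
      intro e; fin_cases e <;> simp
    simp [this, t]
  simp only [hconj]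
  rw [feature]
  have hn : ∀ z : ℂ, z * conj z = ((‖z‖ ^ 2 : ℝ) : ℂ) := by
    intro z
    rw [Complex.mul_conj, Complex.normSq_eq_norm_sq]
  have hα : α * conj α + β * conj β = 1 := by
    rw [hn, hn, ← Complex.ofReal_add, h, Complex.ofReal_one]
  have hα' : α' * conj α' + β' * conj β' = 1 := by
    rw [hn, hn, ← Complex.ofReal_add, h', Complex.ofReal_one]
  have hxc : (α * conj α' + β * conj β') * (conj α * α' + conj β * β') = (x : ℂ) := by
    have := hn (α * conj α' + β * conj β')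
    rw [hx] at this
    rw [← this]
    simp
  have e1 : (∑ e, (![α, β] : Fin 2 → ℂ) e * (![conj α', conj β'] : Fin 2 → ℂ) e) *
      (∑ e, (![-conj β, conj α] : Fin 2 → ℂ) e * (![-β', α'] : Fin 2 → ℂ) e) = (x : ℂ) := by
    simp only [Fin.sum_univ_two, Matrix.cons_val_zero, Matrix.cons_val_one]
    rw [← hxc]; ring
  have e2 : (∑ e, (![-conj β, conj α] : Fin 2 → ℂ) e * (![conj α', conj β'] : Fin 2 → ℂ) e) *
      (∑ e, (![α, β] : Fin 2 → ℂ) e * (![-β', α'] : Fin 2 → ℂ) e) = ((x : ℂ) - 1) := by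
    simp only [Fin.sum_univ_two, Matrix.cons_val_zero, Matrix.cons_val_one]
    rw [← hxc]
    have : (1 : ℂ) = (α * conj α + β * conj β) * (α' * conj α' + β' * conj β') := by
      rw [hα, hα', one_mul]
    rw [this]
    ring
  rw [e1, e2, D]
  push_cast
  rfl

/-- Real vectors of the sphere come from spinors. -/
theorem exists_spinor (x1 x2 x3 : ℝ) (h : x1 ^ 2 + x2 ^ 2 + x3 ^ 2 = 1) :
    ∃ α β : ℂ, ‖α‖ ^ 2 = (1 + x3) / 2 ∧ ‖β‖ ^ 2 = (1 - x3) / 2 ∧
      α * conj β = ((x1 / 2 : ℝ) : ℂ) + ((x2 / 2 : ℝ) : ℂ) * Complex.I := by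
  have hx3 : -1 ≤ x3 ∧ x3 ≤ 1 := ⟨by nlinarith [sq_nonneg x1, sq_nonneg x2],
    by nlinarith [sq_nonneg x1, sq_nonneg x2]⟩
  rcases eq_or_lt_of_le hx3.1 with h0 | h0
  · have h1 : x1 = 0 := by
      have : x1 ^ 2 + x2 ^ 2 = 0 := by rw [← h0] at h; linarith
      nlinarith [sq_nonneg x1, sq_nonneg x2]
    have h2 : x2 = 0 := by
      have : x1 ^ 2 + x2 ^ 2 = 0 := by rw [← h0] at h; linarith
      nlinarith [sq_nonneg x1, sq_nonneg x2]
    refine ⟨0, 1, ?_, ?_, ?_⟩
    · rw [← h0]; simp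
    · rw [← h0]; norm_num
    · rw [h1, h2]; simp
  · set s := Real.sqrt ((1 + x3) / 2) with hs
    have hs2 : s ^ 2 = (1 + x3) / 2 := Real.sq_sqrt (by linarith)
    have hs0 : 0 < s := Real.sqrt_pos.2 (by linarith)
    refine ⟨(s : ℂ), ((x1 / (2 * s) : ℝ) : ℂ) - ((x2 / (2 * s) : ℝ) : ℂ) * Complex.I, ?_, ?_, ?_⟩
    · rw [Complex.norm_real, Real.norm_eq_abs, sq_abs, hs2]
    · rw [← Complex.normSq_eq_norm_sq, Complex.normSq_apply]
      simp only [Complex.sub_re, Complex.ofReal_re, Complex.mul_re, Complex.I_re, mul_zero,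
        Complex.ofReal_im, Complex.I_im, mul_one, sub_self, sub_zero, Complex.sub_im,
        Complex.mul_im, add_zero, zero_sub]
      have h3 : x1 ^ 2 + x2 ^ 2 = (1 - x3) * (2 * s ^ 2) := by rw [hs2]; nlinarith
      field_simp
      nlinarith
    · have hsc : (s : ℂ) ≠ 0 := by exact_mod_cast hs0.ne'
      rw [map_sub, map_mul, Complex.conj_ofReal, Complex.conj_ofReal, Complex.conj_I]
      push_cast
      field_simp
      ring

theorem spinor_inner {x1 x2 x3 y1 y2 y3 : ℝ} {α β α' β' : ℂ}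
    (h1 : ‖α‖ ^ 2 = (1 + x3) / 2) (h2 : ‖β‖ ^ 2 = (1 - x3) / 2)
    (h3 : α * conj β = ((x1 / 2 : ℝ) : ℂ) + ((x2 / 2 : ℝ) : ℂ) * Complex.I)
    (h1' : ‖α'‖ ^ 2 = (1 + y3) / 2) (h2' : ‖β'‖ ^ 2 = (1 - y3) / 2)
    (h3' : α' * conj β' = ((y1 / 2 : ℝ) : ℂ) + ((y2 / 2 : ℝ) : ℂ) * Complex.I) :
    ‖α * conj α' + β * conj β'‖ ^ 2 = (1 + (x1 * y1 + x2 * y2 + x3 * y3)) / 2 := by
  have hn : ∀ z : ℂ, z * conj z = ((‖z‖ ^ 2 : ℝ) : ℂ) := by
    intro z
    rw [Complex.mul_conj, Complex.normSq_eq_norm_sq]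
  have g3 : conj α * β = ((x1 / 2 : ℝ) : ℂ) - ((x2 / 2 : ℝ) : ℂ) * Complex.I := by
    have := congrArg conj h3
    rw [map_mul, Complex.conj_conj, map_add, map_mul, Complex.conj_ofReal, Complex.conj_ofReal,
      Complex.conj_I] at this
    rw [this]; ring
  have g3' : conj α' * β' = ((y1 / 2 : ℝ) : ℂ) - ((y2 / 2 : ℝ) : ℂ) * Complex.I := by
    have := congrArg conj h3'
    rw [map_mul, Complex.conj_conj, map_add, map_mul, Complex.conj_ofReal, Complex.conj_ofReal,
      Complex.conj_I] at this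
    rw [this]; ring
  have key : ((‖α * conj α' + β * conj β'‖ ^ 2 : ℝ) : ℂ) =
      (((1 + (x1 * y1 + x2 * y2 + x3 * y3)) / 2 : ℝ) : ℂ) := by
    rw [← hn, map_add, map_mul, map_mul, Complex.conj_conj, Complex.conj_conj]
    have e1 := hn α
    have e2 := hn β
    have e1' := hn α'
    have e2' := hn β'
    rw [h1] at e1; rw [h2] at e2; rw [h1'] at e1'; rw [h2'] at e2'
    calc (α * conj α' + β * conj β') * (conj α * α' + conj β * β')
        = (α * conj α) * (α' * conj α') + (β * conj β) * (β' * conj β') +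
          (α * conj β) * (conj α' * β') + (conj α * β) * (α' * conj β') := by ring
      _ = _ := by
        rw [e1, e2, e1', e2', h3, h3', g3, g3']
        push_cast
        ring_nf
        rw [Complex.I_sq]
        ring
  exact_mod_cast key

/-- **Positive definiteness** of the Legendre kernels. -/
theorem D_posdef (k : ℕ) {ι : Type*} (s : Finset ι) (c : ι → ℝ) (ζ : ι → EuclideanSpace ℝ (Fin 3))
    (hζ : ∀ i, ‖ζ i‖ = 1) :
    0 ≤ ∑ i ∈ s, ∑ j ∈ s, c i * c j * D k ((1 + inner ℝ (ζ i) (ζ j)) / 2) := by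
  have hex : ∀ i, ∃ α β : ℂ, ‖α‖ ^ 2 = (1 + ζ i 2) / 2 ∧ ‖β‖ ^ 2 = (1 - ζ i 2) / 2 ∧
      α * conj β = ((ζ i 0 / 2 : ℝ) : ℂ) + ((ζ i 1 / 2 : ℝ) : ℂ) * Complex.I := by
    intro i
    apply exists_spinor
    have h1 := hζ i
    have h2 : ‖ζ i‖ ^ 2 = 1 := by rw [h1, one_pow]
    rw [EuclideanSpace.norm_sq_eq, Fin.sum_univ_three] at h2
    simpa using h2
  choose α β hα hβ hαβ using hex
  have hin : ∀ i j, ‖α i * conj (α j) + β i * conj (β j)‖ ^ 2 =
      (1 + inner ℝ (ζ i) (ζ j)) / 2 := by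
    intro i j
    rw [spinor_inner (hα i) (hβ i) (hαβ i) (hα j) (hβ j) (hαβ j)]
    congr 2
    rw [PiLp.inner_apply, Fin.sum_univ_three]
    simp [mul_comm]
  have hsp : ∀ i, ‖α i‖ ^ 2 + ‖β i‖ ^ 2 = 1 := by
    intro i; rw [hα, hβ]; ring
  set ch : ℝ := (((2 * k).choose k : ℕ) : ℝ) with hch
  have hchpos : 0 < ch := by
    have := Nat.centralBinom_pos k
    rw [Nat.centralBinom] at this
    rw [hch]
    exact_mod_cast this
  set P : ι → (Fin (2 * k) → Fin 2) → ℂ := fun i =>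
    Ph k ![α i, β i] ![-conj (β i), conj (α i)] with hP
  have hker : ∀ i j, ∑ f, P i f * conj (P j f) =
      ((ch * D k ((1 + inner ℝ (ζ i) (ζ j)) / 2) : ℝ) : ℂ) := fun i j =>
    spinor_kernel k (α i) (β i) (α j) (β j) (hsp i) (hsp j) (hin i j)
  have hsum : ((ch * ∑ i ∈ s, ∑ j ∈ s, c i * c j * D k ((1 + inner ℝ (ζ i) (ζ j)) / 2) : ℝ) : ℂ) =
      ((∑ f, ‖∑ i ∈ s, (c i : ℂ) * P i f‖ ^ 2 : ℝ) : ℂ) := by
    push_cast
    have hn : ∀ z : ℂ, ((‖z‖ : ℝ) : ℂ) ^ 2 = z * conj z := by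
      intro z
      rw [Complex.mul_conj, Complex.normSq_eq_norm_sq]; push_cast; rfl
    simp only [hn]
    calc (ch : ℂ) * ∑ i ∈ s, ∑ j ∈ s, (c i : ℂ) * c j *
          (D k ((1 + inner ℝ (ζ i) (ζ j)) / 2) : ℝ)
        = ∑ i ∈ s, ∑ j ∈ s, (c i : ℂ) * c j *
          ((ch * D k ((1 + inner ℝ (ζ i) (ζ j)) / 2) : ℝ) : ℂ) := by
          rw [mul_sum]
          apply sum_congr rfl
          intro i _
          rw [mul_sum]
          apply sum_congr rfl
          intro j _
          push_cast; ring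
      _ = ∑ i ∈ s, ∑ j ∈ s, ∑ f, (c i : ℂ) * c j * (P i f * conj (P j f)) := by
          apply sum_congr rfl
          intro i _
          apply sum_congr rfl
          intro j _
          rw [← hker, mul_sum]
      _ = ∑ f, ∑ i ∈ s, ∑ j ∈ s, (c i : ℂ) * c j * (P i f * conj (P j f)) := by
          symm
          rw [sum_comm]
          apply sum_congr rfl
          intro i _
          rw [sum_comm]
      _ = ∑ f, (∑ i ∈ s, (c i : ℂ) * P i f) * conj (∑ i ∈ s, (c i : ℂ) * P i f) := by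
          apply sum_congr rfl
          intro f _
          rw [map_sum, sum_mul_sum]
          apply sum_congr rfl
          intro i _
          apply sum_congr rfl
          intro j _
          rw [map_mul, Complex.conj_ofReal]
          ring
  have hsum' : ch * ∑ i ∈ s, ∑ j ∈ s, c i * c j * D k ((1 + inner ℝ (ζ i) (ζ j)) / 2) =
      ∑ f, ‖∑ i ∈ s, (c i : ℂ) * P i f‖ ^ 2 := by exact_mod_cast hsum
  have hnn : 0 ≤ ch * ∑ i ∈ s, ∑ j ∈ s, c i * c j * D k ((1 + inner ℝ (ζ i) (ζ j)) / 2) := by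
    rw [hsum']; positivity
  exact nonneg_of_mul_nonneg_right hnn hchpos

end Pool.Agent.R274.ES
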