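import Mathlib
import Pool.Agent.R274.ES2

/-!
The generating function of the Legendre polynomials and the radial derivative of the potential.
-/

namespace Pool.Agent.R274.ES

open Finset Filter Topology

abbrev E3 := EuclideanSpace ℝ (Fin 3)

theorem abs_D_le {ζ η : E3} (hζ : ‖ζ‖ = 1) (hη : ‖η‖ = 1) (k : ℕ) :
    |D k ((1 + inner ℝ ζ η) / 2)| ≤ 1 := by
  have hζζ : inner ℝ ζ ζ = (1 : ℝ) := by rw [real_inner_self_eq_norm_sq, hζ, one_pow]
  have hηη : inner ℝ η η = (1 : ℝ) := by rw [real_inner_self_eq_norm_sq, hη, one_pow]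
  have h1 : ∀ i : Bool, ‖(fun i : Bool => cond i ζ η) i‖ = 1 := by
    intro i; cases i <;> simp [hζ, hη]
  have hp := D_posdef k (univ : Finset Bool) (fun _ => 1) _ h1
  have hm := D_posdef k (univ : Finset Bool) (fun i => cond i 1 (-1)) _ h1
  simp only [Fintype.sum_bool, cond_true, cond_false, hζζ, hηη, real_inner_comm ζ η] at hp hm
  have h11 : ((1 : ℝ) + 1) / 2 = 1 := by norm_num
  rw [h11, D_at_one] at hp hm
  rw [abs_le]
  constructor <;> linarith

theorem summable_u {R : ℝ} (h0 : 0 ≤ R) (h1 : R < 1) :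
    Summable (fun n : ℕ => (n : ℝ) * R ^ (n - 1)) := by
  have h := summable_pow_mul_geometric_of_norm_lt_one (R := ℝ) 1
    (r := R) (by rw [Real.norm_eq_abs, abs_of_nonneg h0]; exact h1)
  have h2 : Summable (fun n : ℕ => R ^ n) := summable_geometric_of_lt_one h0 h1
  rw [← summable_nat_add_iff 1]
  have h3 : (fun n : ℕ => ((n + 1 : ℕ) : ℝ) * R ^ (n + 1 - 1)) =
      fun n : ℕ => (n : ℝ) ^ 1 * R ^ n + R ^ n := by
    funext n
    push_cast
    ring
  rw [h3]
  exact h.add h2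

section

variable {d : ℕ → ℝ} {t : ℝ} (hd : ∀ k, |d k| ≤ 1) (h0 : d 0 = 1) (h1 : d 1 = t)
  (hrec : ∀ k : ℕ, ((k : ℝ) + 2) * d (k + 2) =
    (2 * (k : ℝ) + 3) * t * d (k + 1) - ((k : ℝ) + 1) * d k)

include hd

theorem summable_a {ρ : ℝ} (hρ : |ρ| < 1) : Summable (fun k => d k * ρ ^ k) := by
  apply Summable.of_norm_bounded (summable_geometric_of_lt_one (abs_nonneg ρ) hρ)
  intro k
  rw [norm_mul, norm_pow, Real.norm_eq_abs, Real.norm_eq_abs]
  exact mul_le_of_le_one_left (by positivity) (hd k)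

theorem summable_b {ρ : ℝ} (hρ : |ρ| < 1) : Summable (fun k : ℕ => ((k : ℝ) + 1) * d (k + 1) * ρ ^ k) := by
  have := (summable_nat_add_iff 1).2 (summable_u (abs_nonneg ρ) hρ)
  apply Summable.of_norm_bounded this
  intro k
  rw [norm_mul, norm_mul, norm_pow, Real.norm_eq_abs, Real.norm_eq_abs, Real.norm_eq_abs,
    abs_of_nonneg (by positivity : (0 : ℝ) ≤ (k : ℝ) + 1)]
  push_cast
  have := hd (k + 1)
  have h3 : 0 ≤ |ρ| ^ k := by positivity
  have h4 : ((k : ℝ) + 1) * |d (k + 1)| ≤ (k : ℝ) + 1 := mul_le_of_le_one_right (by positivity) this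
  exact mul_le_mul_of_nonneg_right h4 h3

theorem hasDerivAt_f {ρ : ℝ} (hρ : |ρ| < 1) : HasDerivAt (fun y => ∑' k, d k * y ^ k)
    (∑' k : ℕ, ((k : ℝ) + 1) * d (k + 1) * ρ ^ k) ρ := by
  obtain ⟨R, hR1, hR2⟩ := exists_between hρ
  have hR0 : 0 ≤ R := (abs_nonneg ρ).trans hR1.le
  have key := hasDerivAt_tsum_of_isPreconnected (u := fun n : ℕ => (n : ℝ) * R ^ (n - 1))
    (g := fun n y => d n * y ^ n) (g' := fun n y => d n * (n * y ^ (n - 1)))
    (t := Metric.ball (0 : ℝ) R) (y₀ := 0) (y := ρ) (summable_u hR0 hR2) Metric.isOpen_ball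
    (convex_ball _ _).isPreconnected
    (fun n y _ => (hasDerivAt_pow n y).const_mul (d n))
    (fun n y hy => by
      rw [mem_ball_zero_iff, Real.norm_eq_abs] at hy
      rw [norm_mul, norm_mul, norm_pow, Real.norm_eq_abs, Real.norm_eq_abs, Real.norm_eq_abs,
        abs_of_nonneg (by positivity : (0 : ℝ) ≤ (n : ℝ))]
      have h2 : |y| ^ (n - 1) ≤ R ^ (n - 1) := pow_le_pow_left₀ (abs_nonneg y) hy.le _
      have h3 : (n : ℝ) * |y| ^ (n - 1) ≤ n * R ^ (n - 1) :=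
        mul_le_mul_of_nonneg_left h2 (by positivity)
      have h4 : 0 ≤ (n : ℝ) * |y| ^ (n - 1) := by positivity
      nlinarith [hd n, abs_nonneg (d n)])
    (by rw [mem_ball_zero_iff, norm_zero]; exact lt_of_le_of_lt (abs_nonneg ρ) hR1)
    (summable_a hd (by rw [abs_zero]; exact zero_lt_one))
    (by rw [mem_ball_zero_iff, Real.norm_eq_abs]; exact hR1)
  have e : (∑' n : ℕ, d n * ((n : ℝ) * ρ ^ (n - 1))) =
      ∑' k : ℕ, ((k : ℝ) + 1) * d (k + 1) * ρ ^ k := by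
    have hs : Summable (fun n : ℕ => d n * ((n : ℝ) * ρ ^ (n - 1))) := by
      rw [← summable_nat_add_iff 1]
      apply (summable_b hd hρ).congr
      intro k
      push_cast
      ring
    rw [hs.tsum_eq_zero_add]
    simp only [Nat.cast_zero, zero_mul, mul_zero, zero_add]
    apply tsum_congr
    intro k
    push_cast
    ring
  rw [e] at key
  exact key

include h0 h1 hrec

theorem ode {ρ : ℝ} (hρ : |ρ| < 1) : (1 - 2 * t * ρ + ρ ^ 2) *
    (∑' k : ℕ, ((k : ℝ) + 1) * d (k + 1) * ρ ^ k) = (t - ρ) * ∑' k, d k * ρ ^ k := by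
  have ha := (summable_a hd hρ).hasSum
  have hb := (summable_b hd hρ).hasSum
  set f := ∑' k, d k * ρ ^ k
  set g := ∑' k : ℕ, ((k : ℝ) + 1) * d (k + 1) * ρ ^ k
  -- `k d_k ρ^k` sums to `ρ g`
  have he : HasSum (fun k : ℕ => (k : ℝ) * d k * ρ ^ k) (ρ * g) := by
    have := hb.mul_left ρ
    rw [← hasSum_nat_add_iff' 1]
    simp only [Finset.range_one, Finset.sum_singleton, Nat.cast_zero, zero_mul, sub_zero]
    apply this.congr_fun
    intro k
    push_cast
    ring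
  have ha1 : HasSum (fun k : ℕ => d (k + 1) * ρ ^ (k + 1)) (f - 1) := by
    have := (hasSum_nat_add_iff' 1).2 ha
    simpa [h0] using this
  have hb1 : HasSum (fun k : ℕ => ((k : ℝ) + 2) * d (k + 2) * ρ ^ (k + 1)) (g - t) := by
    have := (hasSum_nat_add_iff' 1).2 hb
    simp only [Finset.range_one, Finset.sum_singleton, Nat.cast_zero, zero_add, pow_zero, mul_one,
      one_mul, h1] at this
    apply this.congr_fun
    intro k
    push_cast
    ring
  have hR : HasSum (fun k : ℕ => ((k : ℝ) + 2) * d (k + 2) * ρ ^ (k + 1))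
      (t * (2 * (ρ * g) + (f - 1)) - (ρ * (ρ * g) + ρ * f)) := by
    have h3 := (((hb.mul_left ρ).mul_left 2).add ha1).mul_left t
    have h4 := (he.mul_left ρ).add (ha.mul_left ρ)
    apply (h3.sub h4).congr_fun
    intro k
    have := hrec k
    have h5 : ((k : ℝ) + 2) * d (k + 2) * ρ ^ (k + 1) =
      ((2 * (k : ℝ) + 3) * t * d (k + 1) - ((k : ℝ) + 1) * d k) * ρ ^ (k + 1) := by rw [this]
    rw [h5]
    ring
  have := hb1.unique hR
  linarith

theorem gen_sq {ρ : ℝ} (hρ : |ρ| < 1) :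
    (∑' k, d k * ρ ^ k) ^ 2 * (1 - 2 * t * ρ + ρ ^ 2) = 1 := by
  set f : ℝ → ℝ := fun y => ∑' k, d k * y ^ k with hf
  have hder : ∀ y ∈ Metric.ball (0 : ℝ) 1,
      HasDerivAt (fun y => f y ^ 2 * (1 - 2 * t * y + y ^ 2)) 0 y := by
    intro y hy
    rw [mem_ball_zero_iff, Real.norm_eq_abs] at hy
    have h2 := hasDerivAt_f hd hy
    have h3 := ode hd h0 h1 hrec hy
    have h4 : HasDerivAt (fun y : ℝ => 1 - 2 * t * y + y ^ 2) (-(2 * t) + 2 * y) y := by
      have := (((hasDerivAt_id y).const_mul (2 * t)).const_sub 1).add (hasDerivAt_pow 2 y)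
      refine HasDerivAt.congr_deriv (f := fun y : ℝ => 1 - 2 * t * y + y ^ 2) this ?_
      simp
    have h5 := (h2.pow 2).mul h4
    refine HasDerivAt.congr_deriv (f := fun y => f y ^ 2 * (1 - 2 * t * y + y ^ 2)) h5 ?_
    simp only [Pi.pow_apply, Nat.cast_ofNat]
    linear_combination (2 * (∑' k, d k * y ^ k)) * h3
  have hconst := (convex_ball (0 : ℝ) 1).is_const_of_fderivWithin_eq_zero (𝕜 := ℝ)
    (f := fun y => f y ^ 2 * (1 - 2 * t * y + y ^ 2))
    (fun y hy => (hder y hy).differentiableAt.differentiableWithinAt)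
    (fun y hy => by
      have h2 := (hder y hy).hasFDerivAt
      rw [fderivWithin_eq_fderiv (Metric.isOpen_ball.uniqueDiffWithinAt hy) h2.differentiableAt,
        h2.fderiv]
      ext; simp)
    (x := ρ) (y := 0) (by rw [mem_ball_zero_iff, Real.norm_eq_abs]; exact hρ)
    (by rw [mem_ball_zero_iff, norm_zero]; exact zero_lt_one)
  have hf0 : f 0 = 1 := by
    rw [hf]
    show ∑' k, d k * (0 : ℝ) ^ k = 1
    rw [tsum_eq_single 0 (fun k hk => by rw [zero_pow hk, mul_zero]), h0]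
    simp
  simp only [hf0] at hconst
  rw [show (∑' k, d k * ρ ^ k) = f ρ from rfl, hconst]
  ring

theorem gen_pos {ρ : ℝ} (hρ : |ρ| < 1) : 0 < ∑' k, d k * ρ ^ k := by
  set f : ℝ → ℝ := fun y => ∑' k, d k * y ^ k with hf
  have hcont : ContinuousOn f (Metric.ball (0 : ℝ) 1) := by
    intro y hy
    rw [mem_ball_zero_iff, Real.norm_eq_abs] at hy
    exact (hasDerivAt_f hd hy).continuousAt.continuousWithinAt
  have hne : ∀ y ∈ Metric.ball (0 : ℝ) 1, f y ≠ 0 := by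
    intro y hy h
    rw [mem_ball_zero_iff, Real.norm_eq_abs] at hy
    have := gen_sq hd h0 h1 hrec hy
    rw [show (∑' k, d k * y ^ k) = f y from rfl, h] at this
    norm_num at this
  have hf0 : f 0 = 1 := by
    rw [hf]
    show ∑' k, d k * (0 : ℝ) ^ k = 1
    rw [tsum_eq_single 0 (fun k hk => by rw [zero_pow hk, mul_zero]), h0]
    simp
  by_contra hcon
  push Not at hcon
  have hρm : ρ ∈ Metric.ball (0 : ℝ) 1 := by rw [mem_ball_zero_iff, Real.norm_eq_abs]; exact hρ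
  have h0m : (0 : ℝ) ∈ Metric.ball (0 : ℝ) 1 := by
    rw [mem_ball_zero_iff, norm_zero]; exact zero_lt_one
  obtain ⟨y, hy, hy0⟩ := (convex_ball (0 : ℝ) 1).isPreconnected.intermediate_value hρm h0m hcont
    (show (0 : ℝ) ∈ Set.Icc (f ρ) (f 0) from ⟨hcon, by rw [hf0]; exact zero_le_one⟩)
  exact hne y hy hy0

end

/-- The expansion of the potential of a unit charge along a ray. -/
theorem potential_expand {ζ η : E3} (hζ : ‖ζ‖ = 1) (hη : ‖η‖ = 1) {ρ : ℝ} (hρ : |ρ| < 1) :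
    ‖η - ρ • ζ‖⁻¹ = ∑' k, D k ((1 + inner ℝ ζ η) / 2) * ρ ^ k := by
  set x : ℝ := (1 + inner ℝ ζ η) / 2 with hx
  have hd := abs_D_le hζ hη
  have hrec : ∀ k : ℕ, ((k : ℝ) + 2) * D (k + 2) x =
      (2 * (k : ℝ) + 3) * inner ℝ ζ η * D (k + 1) x - ((k : ℝ) + 1) * D k x := by
    intro k
    rw [D_rec, hx]
    ring
  have h0 : D 0 x = 1 := D_zero x
  have h1 : D 1 x = inner ℝ ζ η := by rw [D_one, hx]; ring
  have hsq := gen_sq (d := fun k => D k x) hd h0 h1 hrec hρ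
  have hpos := gen_pos (d := fun k => D k x) hd h0 h1 hrec hρ
  have hnorm : ‖η - ρ • ζ‖ ^ 2 = 1 - 2 * inner ℝ ζ η * ρ + ρ ^ 2 := by
    rw [norm_sub_sq_real, norm_smul, hζ, hη, inner_smul_right, real_inner_comm, Real.norm_eq_abs,
      mul_one, sq_abs]
    ring
  rw [← hnorm, ← mul_pow] at hsq
  have h3 : (∑' k, D k x * ρ ^ k) * ‖η - ρ • ζ‖ = 1 := by
    have h4 : 0 ≤ (∑' k, D k x * ρ ^ k) * ‖η - ρ • ζ‖ := by positivity
    nlinarith [sq_nonneg ((∑' k, D k x * ρ ^ k) * ‖η - ρ • ζ‖ - 1)]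
  exact (eq_inv_of_mul_eq_one_left h3).symm

theorem potential_deriv {ζ η : E3} (hζ : ‖ζ‖ = 1) (hη : ‖η‖ = 1) {ρ : ℝ} (hρ : |ρ| < 1) :
    HasDerivAt (fun y : ℝ => ‖η - y • ζ‖⁻¹)
      (∑' k : ℕ, ((k : ℝ) + 1) * D (k + 1) ((1 + inner ℝ ζ η) / 2) * ρ ^ k) ρ := by
  have h := hasDerivAt_f (d := fun k => D k ((1 + inner ℝ ζ η) / 2)) (abs_D_le hζ hη) hρ
  apply h.congr_of_eventuallyEq
  have : ∀ᶠ y in 𝓝 ρ, |y| < 1 :=
    (continuous_abs.tendsto ρ).eventually (gt_mem_nhds hρ)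
  filter_upwards [this] with y hy
  exact potential_expand hζ hη hy

end Pool.Agent.R274.ES
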