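import Mathlib
import Pool.Agent.R274.ES3

/-!
The linear programming polynomial and the resulting bound.
-/

namespace Pool.Agent.R274.ES

open Finset Filter Topology

theorem bb_zero (a : ℕ) : bb a 0 = 1 / ((a : ℝ) + 1) := by
  rw [bb, if_pos (Nat.zero_le _), Nat.sub_zero, add_zero, Nat.factorial_succ]
  push_cast
  have h1 : ((a.factorial : ℕ) : ℝ) ≠ 0 := by positivity
  field_simp

theorem bb_succ_le (a k : ℕ) : bb a (k + 1) ≤ bb a k := by
  rcases lt_or_ge k a with h | h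
  · have h1 := bb_ratio a k
    have h2 := bb_nonneg a k
    have h3 := bb_nonneg a (k + 1)
    have hk : (k : ℝ) < a := by exact_mod_cast h
    have hk0 : (0 : ℝ) ≤ k := by positivity
    by_contra hc
    push Not at hc
    nlinarith
  · rw [bb_of_lt (by omega : a < k + 1)]
    exact bb_nonneg _ _

theorem bb_le_zero (a k : ℕ) : bb a k ≤ bb a 0 := by
  induction k with
  | zero => exact le_rfl
  | succ k ih => exact (bb_succ_le a k).trans ih

/-- the coefficients of the polynomial, `u = m` real -/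
noncomputable def g0 (u : ℝ) : ℝ := (4 * u) ^ 2 * (4 * u - 1) ^ 2 * (4 * u - 2) ^ 2
noncomputable def g1 (u : ℝ) : ℝ := (4 * u) ^ 2 * (4 * u - 1) ^ 2 * (-48 * u ^ 2 + 53 * u - 2)
noncomputable def g2 (u : ℝ) : ℝ := (4 * u) ^ 2 * (768 * u ^ 4 - 1312 * u ^ 3 + 520 * u ^ 2)
noncomputable def g3 (u : ℝ) : ℝ := -4096 * u ^ 6 + 7424 * u ^ 5 - 3584 * u ^ 4 + 196 * u ^ 3

/-- the polynomial -/
noncomputable def Fp (a : ℕ) (u x : ℝ) : ℝ :=
  g0 u * x ^ a + g1 u * x ^ (a + 1) + g2 u * x ^ (a + 2) + g3 u * x ^ (a + 3)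

theorem Fp_one (a : ℕ) (u : ℝ) : Fp a u 1 = 532 * u ^ 3 + 32 * u ^ 2 := by
  simp only [Fp, one_pow, mul_one, g0, g1, g2, g3]
  ring

theorem Fp_nonneg (a : ℕ) {u x : ℝ} (hu : 2 ≤ u) (hx0 : 0 ≤ x) (hx1 : x ≤ 1) : 0 ≤ Fp a u x := by
  have h : Fp a u x = x ^ a * ((532 * u ^ 3 + 32 * u ^ 2) +
      (2176 * u ^ 4 - 1692 * u ^ 3 + 32 * u ^ 2) * (1 - x) +
      (1280 * u ^ 5 - 2432 * u ^ 4 + 588 * u ^ 3) * (1 - x) ^ 2 +
      (4096 * u ^ 6 - 7424 * u ^ 5 + 3584 * u ^ 4 - 196 * u ^ 3) * (1 - x) ^ 3) := by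
    simp only [Fp, g0, g1, g2, g3]
    ring
  rw [h]
  have h1 : 0 ≤ 1 - x := by linarith
  obtain ⟨v, hv, rfl⟩ : ∃ v : ℝ, 0 ≤ v ∧ u = v + 2 := ⟨u - 2, by linarith, by ring⟩
  have e1 : 2176 * (v + 2) ^ 4 - 1692 * (v + 2) ^ 3 + 32 * (v + 2) ^ 2 =
      2176 * v ^ 4 + 15716 * v ^ 3 + 42104 * v ^ 2 + 49456 * v + 21408 := by ring
  have e2 : 1280 * (v + 2) ^ 5 - 2432 * (v + 2) ^ 4 + 588 * (v + 2) ^ 3 =
      1280 * v ^ 5 + 10368 * v ^ 4 + 32332 * v ^ 3 + 47560 * v ^ 2 + 31632 * v + 6752 := by ring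
  have e3 : 4096 * (v + 2) ^ 6 - 7424 * (v + 2) ^ 5 + 3584 * (v + 2) ^ 4 - 196 * (v + 2) ^ 3 =
      4096 * v ^ 6 + 41728 * v ^ 5 + 175104 * v ^ 4 + 386876 * v ^ 3 + 473960 * v ^ 2 +
      304848 * v + 80352 := by ring
  rw [e1, e2, e3]
  positivity

theorem comb_coef (a k : ℕ) (u : ℝ) (hu : (a : ℝ) = 4 * u - 3) :
    g0 u * bb a k + g1 u * bb (a + 1) k + g2 u * bb (a + 2) k + g3 u * bb (a + 3) k =
      bb (a + 3) k * ((5 * u - k * (k + 1)) * ((k : ℝ) * (k + 1) - 18 * u) ^ 2) := by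
  have r0 := bb_rel a k
  have r1 := bb_rel (a + 1) k
  have r2 := bb_rel (a + 2) k
  push_cast at r0 r1 r2
  rw [hu] at r0 r1 r2
  set K : ℝ := (k : ℝ) * (k + 1)
  set B0 := bb a k
  set B1 := bb (a + 1) k
  set B2 := bb (a + 2) k
  set B3 := bb (a + 3) k
  have e0 : g0 u * B0 = (4 * u) ^ 2 * (4 * u - 1) ^ 2 * (((4 * u - 2) * (4 * u - 1) - K) * B1) := by
    rw [g0]
    linear_combination ((4 * u) ^ 2 * (4 * u - 1) ^ 2) * r0
  have e1 : (4 * u - 1) ^ 2 * B1 = ((4 * u - 1) * (4 * u) - K) * B2 := by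
    linear_combination r1
  have e2 : (4 * u) ^ 2 * B2 = ((4 * u) * (4 * u + 1) - K) * B3 := by
    linear_combination r2
  have f0 : g0 u * B0 = ((4 * u - 2) * (4 * u - 1) - K) * ((4 * u - 1) * (4 * u) - K) *
      ((4 * u) * (4 * u + 1) - K) * B3 := by
    rw [e0]
    linear_combination (4 * u) ^ 2 * ((4 * u - 2) * (4 * u - 1) - K) * e1 +
      ((4 * u - 2) * (4 * u - 1) - K) * ((4 * u - 1) * (4 * u) - K) * e2
  have f1 : g1 u * B1 = (-48 * u ^ 2 + 53 * u - 2) * ((4 * u - 1) * (4 * u) - K) *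
      ((4 * u) * (4 * u + 1) - K) * B3 := by
    rw [g1]
    linear_combination (4 * u) ^ 2 * (-48 * u ^ 2 + 53 * u - 2) * e1 +
      (-48 * u ^ 2 + 53 * u - 2) * ((4 * u - 1) * (4 * u) - K) * e2
  have f2 : g2 u * B2 = (768 * u ^ 4 - 1312 * u ^ 3 + 520 * u ^ 2) *
      ((4 * u) * (4 * u + 1) - K) * B3 := by
    rw [g2]
    linear_combination (768 * u ^ 4 - 1312 * u ^ 3 + 520 * u ^ 2) * e2
  rw [f0, f1, f2, g3]
  ring

theorem pow_expand' (a n : ℕ) (h : a ≤ n) (x : ℝ) :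
    x ^ a = ∑ k ∈ range (n + 1), (2 * (k : ℝ) + 1) * bb a k * D k x := by
  rw [pow_expand]
  apply sum_subset (range_subset_range.2 (by omega))
  intro k _ hk
  rw [mem_range, not_lt] at hk
  rw [bb_of_lt (by omega : a < k)]
  ring

theorem Fp_expand (a : ℕ) (u x : ℝ) (hu : (a : ℝ) = 4 * u - 3) : Fp a u x =
    ∑ k ∈ range (a + 3 + 1), (2 * (k : ℝ) + 1) *
      (bb (a + 3) k * ((5 * u - k * (k + 1)) * ((k : ℝ) * (k + 1) - 18 * u) ^ 2)) * D k x := by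
  rw [Fp, pow_expand' a (a + 3) (by omega), pow_expand' (a + 1) (a + 3) (by omega),
    pow_expand' (a + 2) (a + 3) (by omega), pow_expand' (a + 3) (a + 3) (by omega),
    mul_sum, mul_sum, mul_sum, mul_sum, ← sum_add_distrib, ← sum_add_distrib, ← sum_add_distrib]
  apply sum_congr rfl
  intro k _
  rw [← comb_coef a k u hu]
  ring

/-- the moments of a configuration -/
noncomputable def mom {N : ℕ} (ζ : Fin N → E3) (k : ℕ) : ℝ :=
  (∑ i, ∑ j, D k ((1 + inner ℝ (ζ i) (ζ j)) / 2)) / (N : ℝ) ^ 2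

theorem mom_nonneg {N : ℕ} {ζ : Fin N → E3} (hζ : ∀ i, ‖ζ i‖ = 1) (k : ℕ) : 0 ≤ mom ζ k := by
  have := D_posdef k (univ : Finset (Fin N)) (fun _ => 1) ζ hζ
  simp only [one_mul] at this
  exact div_nonneg this (by positivity)

theorem mom_zero {N : ℕ} (hN : 0 < N) (ζ : Fin N → E3) : mom ζ 0 = 1 := by
  rw [mom]
  simp only [D_zero, sum_const, card_univ, Fintype.card_fin, nsmul_eq_mul, mul_one]
  have : (N : ℝ) ≠ 0 := by positivity
  field_simp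

theorem x_mem {N : ℕ} {ζ : Fin N → E3} (hζ : ∀ i, ‖ζ i‖ = 1) (i j : Fin N) :
    0 ≤ (1 + inner ℝ (ζ i) (ζ j)) / 2 ∧ (1 + inner ℝ (ζ i) (ζ j)) / 2 ≤ 1 := by
  have := abs_real_inner_le_norm (ζ i) (ζ j)
  rw [hζ, hζ, mul_one, abs_le] at this
  constructor <;> linarith [this.1, this.2]

theorem lp_bound {N : ℕ} (hN : 0 < N) {ζ : Fin N → E3} (hζ : ∀ i, ‖ζ i‖ = 1) {a : ℕ} {u : ℝ}
    (hu : (a : ℝ) = 4 * u - 3) (hu2 : 2 ≤ u) :
    (532 * u ^ 3 + 32 * u ^ 2) / N ≤ ∑ k ∈ range (a + 3 + 1), (2 * (k : ℝ) + 1) *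
      (bb (a + 3) k * ((5 * u - k * (k + 1)) * ((k : ℝ) * (k + 1) - 18 * u) ^ 2)) * mom ζ k := by
  have hN' : (0 : ℝ) < N := by exact_mod_cast hN
  have h1 : (N : ℝ) * (532 * u ^ 3 + 32 * u ^ 2) ≤
      ∑ i, ∑ j, Fp a u ((1 + inner ℝ (ζ i) (ζ j)) / 2) := by
    have h2 : ∀ i : Fin N, 532 * u ^ 3 + 32 * u ^ 2 ≤
        ∑ j, Fp a u ((1 + inner ℝ (ζ i) (ζ j)) / 2) := by
      intro i
      have h3 : Fp a u ((1 + inner ℝ (ζ i) (ζ i)) / 2) = 532 * u ^ 3 + 32 * u ^ 2 := by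
        rw [real_inner_self_eq_norm_sq, hζ, one_pow, show ((1 : ℝ) + 1) / 2 = 1 by norm_num, Fp_one]
      rw [← h3]
      exact single_le_sum (f := fun j => Fp a u ((1 + inner ℝ (ζ i) (ζ j)) / 2))
        (fun j _ => Fp_nonneg a hu2 (x_mem hζ i j).1 (x_mem hζ i j).2) (mem_univ i)
    calc (N : ℝ) * (532 * u ^ 3 + 32 * u ^ 2) = ∑ _i : Fin N, (532 * u ^ 3 + 32 * u ^ 2) := by
          rw [sum_const, card_univ, Fintype.card_fin, nsmul_eq_mul]
      _ ≤ _ := sum_le_sum fun i _ => h2 i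
  have h4 : ∑ i, ∑ j, Fp a u ((1 + inner ℝ (ζ i) (ζ j)) / 2) = (N : ℝ) ^ 2 *
      ∑ k ∈ range (a + 3 + 1), (2 * (k : ℝ) + 1) *
      (bb (a + 3) k * ((5 * u - k * (k + 1)) * ((k : ℝ) * (k + 1) - 18 * u) ^ 2)) * mom ζ k := by
    simp only [Fp_expand a u _ hu]
    rw [mul_sum]
    rw [sum_congr rfl fun i _ => sum_comm, sum_comm]
    apply sum_congr rfl
    intro k _
    rw [mom]
    have : (N : ℝ) ≠ 0 := hN'.ne'
    simp only [← mul_sum]
    field_simp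
  rw [h4] at h1
  rw [div_le_iff₀ hN']
  have h5 : (N : ℝ) * (532 * u ^ 3 + 32 * u ^ 2) ≤ (N : ℝ) * ((∑ k ∈ range (a + 3 + 1),
      (2 * (k : ℝ) + 1) *
      (bb (a + 3) k * ((5 * u - k * (k + 1)) * ((k : ℝ) * (k + 1) - 18 * u) ^ 2)) * mom ζ k) * N) := by
    refine h1.trans (le_of_eq ?_)
    ring
  exact le_of_mul_le_mul_left h5 hN'

/-- The main inequality. `S` dominates the weighted sum of the moments. -/
theorem main_ineq {N : ℕ} (hN : 0 < N) {ζ : Fin N → E3} (hζ : ∀ i, ‖ζ i‖ = 1) {m : ℕ}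
    (hm : 2 ≤ m) {r S : ℝ} (hr0 : 0 < r) (hr1 : r < 1)
    (hS : ∀ n, ∑ k ∈ range n, ((k : ℝ) + 1) * mom ζ (k + 1) * r ^ k ≤ S) :
    (532 * (m : ℝ) / (405 * N) - 1) * r ^ Real.sqrt (5 * m) / 3 ≤ S := by
  have hN' : (0 : ℝ) < N := by exact_mod_cast hN
  obtain ⟨a, ha⟩ : ∃ a : ℕ, a + 3 = 4 * m := ⟨4 * m - 3, by omega⟩
  have hu : (a : ℝ) = 4 * (m : ℝ) - 3 := by
    have : ((a + 3 : ℕ) : ℝ) = ((4 * m : ℕ) : ℝ) := by rw [ha]
    push_cast at this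
    linarith
  have hm' : (2 : ℝ) ≤ m := by exact_mod_cast hm
  have hlp := lp_bound hN hζ hu hm'
  set u : ℝ := (m : ℝ) with hudef
  set F0 : ℝ := 1620 * u ^ 3 / (4 * u + 1) with hF0
  have hF0pos : 0 < F0 := by positivity
  have hb0 : bb (a + 3) 0 = 1 / (4 * u + 1) := by
    rw [bb_zero]
    push_cast
    rw [hu]
    congr 1
    ring
  rw [sum_range_succ'] at hlp
  -- the zeroth term
  have hz : (2 * ((0 : ℕ) : ℝ) + 1) * (bb (a + 3) 0 * ((5 * u - ((0 : ℕ) : ℝ) * (((0 : ℕ) : ℝ) + 1)) *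
      (((0 : ℕ) : ℝ) * (((0 : ℕ) : ℝ) + 1) - 18 * u) ^ 2)) * mom ζ 0 = F0 := by
    rw [mom_zero hN, hb0, hF0]
    push_cast
    field_simp
    ring
  rw [hz] at hlp
  set R : ℝ := r ^ Real.sqrt (5 * u) with hR
  have hRpos : 0 < R := Real.rpow_pos_of_pos hr0 _
  -- the other terms
  have hterm : ∀ k ∈ range (a + 3), (2 * ((k + 1 : ℕ) : ℝ) + 1) *
      (bb (a + 3) (k + 1) * ((5 * u - ((k + 1 : ℕ) : ℝ) * (((k + 1 : ℕ) : ℝ) + 1)) *
      (((k + 1 : ℕ) : ℝ) * (((k + 1 : ℕ) : ℝ) + 1) - 18 * u) ^ 2)) * mom ζ (k + 1) ≤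
      (3 * F0 / R) * (((k : ℝ) + 1) * mom ζ (k + 1) * r ^ k) := by
    intro k _
    push_cast
    have hmk := mom_nonneg hζ (k + 1)
    have hbk := bb_nonneg (a + 3) (k + 1)
    have hk0 : (0 : ℝ) ≤ k := by positivity
    rcases le_or_gt (5 * u) (((k : ℝ) + 1) * ((k : ℝ) + 1 + 1)) with h | h
    · have h1 : (2 * ((k : ℝ) + 1) + 1) * (bb (a + 3) (k + 1) *
          ((5 * u - ((k : ℝ) + 1) * ((k : ℝ) + 1 + 1)) *
          (((k : ℝ) + 1) * ((k : ℝ) + 1 + 1) - 18 * u) ^ 2)) * mom ζ (k + 1) ≤ 0 := by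
        apply mul_nonpos_of_nonpos_of_nonneg _ hmk
        apply mul_nonpos_of_nonneg_of_nonpos (by positivity)
        apply mul_nonpos_of_nonneg_of_nonpos hbk
        exact mul_nonpos_of_nonpos_of_nonneg (by linarith) (sq_nonneg _)
      refine h1.trans ?_
      positivity
    · -- bounds of the coefficient
      set K : ℝ := ((k : ℝ) + 1) * ((k : ℝ) + 1 + 1) with hK
      have hK0 : 0 ≤ K := by positivity
      have hQ : (5 * u - K) * (K - 18 * u) ^ 2 ≤ 1620 * u ^ 3 := by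
        have h1 : (K - 18 * u) ^ 2 ≤ (18 * u) ^ 2 := by nlinarith
        have h2 : 0 ≤ 5 * u - K := by linarith
        nlinarith [mul_le_mul_of_nonneg_left h1 h2]
      have hQ0 : 0 ≤ (5 * u - K) * (K - 18 * u) ^ 2 :=
        mul_nonneg (by linarith) (sq_nonneg _)
      have hb : bb (a + 3) (k + 1) ≤ 1 / (4 * u + 1) := by
        rw [← hb0]; exact bb_le_zero _ _
      have hbQ : bb (a + 3) (k + 1) * ((5 * u - K) * (K - 18 * u) ^ 2) ≤ F0 := by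
        calc bb (a + 3) (k + 1) * ((5 * u - K) * (K - 18 * u) ^ 2)
            ≤ (1 / (4 * u + 1)) * (1620 * u ^ 3) := mul_le_mul hb hQ hQ0 (by positivity)
          _ = F0 := by rw [hF0]; ring
      -- the power of `r`
      have hrk : R ≤ r ^ k := by
        rw [hR, ← Real.rpow_natCast]
        apply Real.rpow_le_rpow_of_exponent_ge hr0 hr1.le
        apply Real.le_sqrt_of_sq_le
        nlinarith
      have hrk' : 1 ≤ r ^ k / R := by rwa [one_le_div hRpos]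
      calc (2 * ((k : ℝ) + 1) + 1) * (bb (a + 3) (k + 1) *
            ((5 * u - K) * (K - 18 * u) ^ 2)) * mom ζ (k + 1)
          ≤ (3 * ((k : ℝ) + 1)) * F0 * mom ζ (k + 1) := by
            apply mul_le_mul_of_nonneg_right _ hmk
            apply mul_le_mul (by linarith) hbQ (mul_nonneg hbk hQ0) (by positivity)
        _ ≤ (3 * ((k : ℝ) + 1)) * F0 * mom ζ (k + 1) * (r ^ k / R) := by
            apply le_mul_of_one_le_right (by positivity) hrk'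
        _ = (3 * F0 / R) * (((k : ℝ) + 1) * mom ζ (k + 1) * r ^ k) := by ring
  have hsum := sum_le_sum hterm
  rw [← mul_sum] at hsum
  have hS' := hS (a + 3)
  have h6 : (532 * u ^ 3 + 32 * u ^ 2) / N ≤ 3 * F0 / R * S + F0 := by
    have h7 : (3 * F0 / R) * ∑ k ∈ range (a + 3), ((k : ℝ) + 1) * mom ζ (k + 1) * r ^ k ≤
        3 * F0 / R * S := mul_le_mul_of_nonneg_left hS' (by positivity)
    linarith
  -- compare `F(1)` and `F0`
  have h8 : F0 * (532 * u / (405 * N)) ≤ (532 * u ^ 3 + 32 * u ^ 2) / N := by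
    rw [hF0, div_mul_div_comm, div_le_div_iff₀ (by positivity) hN']
    have : 0 ≤ u ^ 3 * N := by positivity
    have : 0 ≤ u ^ 2 * N := by positivity
    nlinarith
  have h9 : F0 * (532 * u / (405 * N)) ≤ F0 * (3 / R * S + 1) := by
    refine h8.trans (h6.trans (le_of_eq ?_))
    ring
  have h10 := le_of_mul_le_mul_left h9 hF0pos
  have h11 : (532 * u / (405 * N) - 1) * R ≤ 3 / R * S * R := by
    apply mul_le_mul_of_nonneg_right _ hRpos.le
    linarith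
  have h12 : 3 / R * S * R = 3 * S := by field_simp
  rw [h12] at h11
  linarith

end Pool.Agent.R274.ES
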