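import Mathlib
import Pool.Agent.R274.ES4

/-!
The electrostatic field of `N` equal charges on the sphere.
-/

namespace Pool.Agent.R274.ES

open Finset Filter Topology

/-- The potential of the charges `1 / N` at the points `ζ j`. -/
noncomputable def U {N : ℕ} (ζ : Fin N → E3) (x : E3) : ℝ := (1 / (N : ℝ)) * ∑ j, 1 / ‖ζ j - x‖

/-- The electrostatic field. -/
noncomputable def field {N : ℕ} (ζ : Fin N → E3) (x : E3) : E3 := -gradient (U ζ) x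

/-- `Φ_N(r)`: the least possible maximal field strength on the sphere of radius `r`. -/
noncomputable def Phi (N : ℕ) (r : ℝ) : ℝ :=
  ⨅ ζ : Fin N → Metric.sphere (0 : E3) 1, ⨆ x : Metric.sphere (0 : E3) r,
    ‖field (fun j => (ζ j : E3)) x‖

theorem norm_field {N : ℕ} (ζ : Fin N → E3) (x : E3) : ‖field ζ x‖ = ‖fderiv ℝ (U ζ) x‖ := by
  rw [field, norm_neg, gradient, LinearIsometryEquiv.norm_map]

theorem contDiffAt_U {N : ℕ} {ζ : Fin N → E3} (hζ : ∀ i, ‖ζ i‖ = 1) {x : E3} (hx : ‖x‖ < 1) :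
    ContDiffAt ℝ 1 (U ζ) x := by
  have h : ∀ j, ζ j - x ≠ 0 := by
    intro j h0
    rw [sub_eq_zero] at h0
    rw [← h0, hζ] at hx
    exact lt_irrefl _ hx
  apply ContDiffAt.mul contDiffAt_const
  apply ContDiffAt.sum
  intro j _
  have h1 : ContDiffAt ℝ 1 (fun y => ‖ζ j - y‖) x :=
    (contDiffAt_const.sub contDiffAt_id).norm ℝ (h j)
  exact contDiffAt_const.div h1 (norm_ne_zero_iff.2 (h j))

theorem bddAbove_field {N : ℕ} {ζ : Fin N → E3} (hζ : ∀ i, ‖ζ i‖ = 1) {r : ℝ} (hr1 : r < 1) :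
    BddAbove (Set.range fun x : Metric.sphere (0 : E3) r => ‖field ζ x‖) := by
  have h1 : ContDiffOn ℝ 1 (U ζ) (Metric.ball 0 1) := fun x hx =>
    (contDiffAt_U hζ (by rwa [mem_ball_zero_iff] at hx)).contDiffWithinAt
  have h2 := h1.continuousOn_fderiv_of_isOpen Metric.isOpen_ball le_rfl
  have h3 : ContinuousOn (fun x => ‖fderiv ℝ (U ζ) x‖) (Metric.sphere (0 : E3) r) := by
    apply h2.norm.mono
    intro x hx
    rw [mem_sphere_zero_iff_norm] at hx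
    rw [mem_ball_zero_iff, hx]
    exact hr1
  have h4 := ((isCompact_sphere (0 : E3) r).image_of_continuousOn h3).bddAbove
  obtain ⟨C, hC⟩ := h4
  refine ⟨C, ?_⟩
  rintro _ ⟨x, rfl⟩
  show ‖field ζ x‖ ≤ C
  rw [norm_field]
  exact hC ⟨x, x.2, rfl⟩

theorem radial {N : ℕ} {ζ : Fin N → E3} (hζ : ∀ i, ‖ζ i‖ = 1) {r : ℝ} (hr0 : 0 < r) (hr1 : r < 1)
    (i : Fin N) : (1 / (N : ℝ)) * ∑ j, (∑' k : ℕ, ((k : ℝ) + 1) *
      D (k + 1) ((1 + inner ℝ (ζ i) (ζ j)) / 2) * r ^ k) ≤ ‖field ζ (r • ζ i)‖ := by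
  have hx : ‖r • ζ i‖ < 1 := by
    rw [norm_smul, hζ, mul_one, Real.norm_eq_abs, abs_of_pos hr0]; exact hr1
  have hρ : |r| < 1 := by rw [abs_of_pos hr0]; exact hr1
  have hd := ((contDiffAt_U hζ hx).differentiableAt one_ne_zero).hasFDerivAt
  have hray : HasDerivAt (fun y : ℝ => y • ζ i) (ζ i) r := by
    simpa using (hasDerivAt_id r).smul_const (ζ i)
  have hd' : HasFDerivAt (U ζ) (fderiv ℝ (U ζ) (r • ζ i)) ((fun y : ℝ => y • ζ i) r) := hd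
  have h1 : HasDerivAt (fun y : ℝ => U ζ (y • ζ i)) (fderiv ℝ (U ζ) (r • ζ i) (ζ i)) r :=
    HasFDerivAt.comp_hasDerivAt (l := U ζ) (f := fun y : ℝ => y • ζ i) r hd' hray
  have h2 : HasDerivAt (fun y : ℝ => U ζ (y • ζ i)) ((1 / (N : ℝ)) * ∑ j, (∑' k : ℕ, ((k : ℝ) + 1) *
      D (k + 1) ((1 + inner ℝ (ζ i) (ζ j)) / 2) * r ^ k)) r := by
    have h3 : HasDerivAt (fun y : ℝ => (1 / (N : ℝ)) * ∑ j, ‖ζ j - y • ζ i‖⁻¹)
        ((1 / (N : ℝ)) * ∑ j, (∑' k : ℕ, ((k : ℝ) + 1) *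
        D (k + 1) ((1 + inner ℝ (ζ i) (ζ j)) / 2) * r ^ k)) r := by
      apply HasDerivAt.const_mul
      apply HasDerivAt.fun_sum
      intro j _
      exact potential_deriv (hζ i) (hζ j) hρ
    have h4 : (fun y : ℝ => U ζ (y • ζ i)) =
        fun y : ℝ => (1 / (N : ℝ)) * ∑ j, ‖ζ j - y • ζ i‖⁻¹ := by
      funext y
      simp only [U, one_div]
    rw [h4]
    exact h3
  rw [h2.unique h1, norm_field]
  calc fderiv ℝ (U ζ) (r • ζ i) (ζ i) ≤ ‖fderiv ℝ (U ζ) (r • ζ i) (ζ i)‖ := Real.le_norm_self _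
    _ ≤ ‖fderiv ℝ (U ζ) (r • ζ i)‖ * ‖ζ i‖ := ContinuousLinearMap.le_opNorm _ _
    _ = ‖fderiv ℝ (U ζ) (r • ζ i)‖ := by rw [hζ, mul_one]

theorem partial_le {N : ℕ} (hN : 0 < N) {ζ : Fin N → E3} (hζ : ∀ i, ‖ζ i‖ = 1) {r S : ℝ}
    (hr0 : 0 < r) (hr1 : r < 1) (hS : ∀ i, ‖field ζ (r • ζ i)‖ ≤ S) (n : ℕ) :
    ∑ k ∈ range n, ((k : ℝ) + 1) * mom ζ (k + 1) * r ^ k ≤ S := by
  have hN' : (0 : ℝ) < N := by exact_mod_cast hN
  have hρ : |r| < 1 := by rw [abs_of_pos hr0]; exact hr1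
  have h1 : ∀ i j, HasSum (fun k : ℕ => ((k : ℝ) + 1) *
      D (k + 1) ((1 + inner ℝ (ζ i) (ζ j)) / 2) * r ^ k) (∑' k : ℕ, ((k : ℝ) + 1) *
      D (k + 1) ((1 + inner ℝ (ζ i) (ζ j)) / 2) * r ^ k) := fun i j =>
    (summable_b (abs_D_le (hζ i) (hζ j)) hρ).hasSum
  have h2 : HasSum (fun k : ℕ => ∑ i, ∑ j, ((k : ℝ) + 1) *
      D (k + 1) ((1 + inner ℝ (ζ i) (ζ j)) / 2) * r ^ k) (∑ i, ∑ j, (∑' k : ℕ, ((k : ℝ) + 1) *
      D (k + 1) ((1 + inner ℝ (ζ i) (ζ j)) / 2) * r ^ k)) :=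
    hasSum_sum fun i _ => hasSum_sum fun j _ => h1 i j
  have h3 : HasSum (fun k : ℕ => ((k : ℝ) + 1) * mom ζ (k + 1) * r ^ k)
      ((1 / (N : ℝ)) * ∑ i, ((1 / (N : ℝ)) * ∑ j, (∑' k : ℕ, ((k : ℝ) + 1) *
      D (k + 1) ((1 + inner ℝ (ζ i) (ζ j)) / 2) * r ^ k))) := by
    have h4 := h2.mul_left (1 / (N : ℝ) ^ 2)
    have h5 : (1 / (N : ℝ) ^ 2) * (∑ i, ∑ j, (∑' k : ℕ, ((k : ℝ) + 1) *
      D (k + 1) ((1 + inner ℝ (ζ i) (ζ j)) / 2) * r ^ k)) =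
      ((1 / (N : ℝ)) * ∑ i, ((1 / (N : ℝ)) * ∑ j, (∑' k : ℕ, ((k : ℝ) + 1) *
      D (k + 1) ((1 + inner ℝ (ζ i) (ζ j)) / 2) * r ^ k))) := by
      rw [← mul_sum, ← mul_assoc]
      congr 1
      field_simp
    rw [h5] at h4
    apply h4.congr_fun
    intro k
    rw [mom]
    simp only [mul_sum, sum_mul, sum_div]
    apply sum_congr rfl
    intro i _
    apply sum_congr rfl
    intro j _
    ring
  have h4 : ∑ k ∈ range n, ((k : ℝ) + 1) * mom ζ (k + 1) * r ^ k ≤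
      (1 / (N : ℝ)) * ∑ i, ((1 / (N : ℝ)) * ∑ j, (∑' k : ℕ, ((k : ℝ) + 1) *
      D (k + 1) ((1 + inner ℝ (ζ i) (ζ j)) / 2) * r ^ k)) := by
    apply sum_le_hasSum _ _ h3
    intro k _
    have := mom_nonneg hζ (k + 1)
    positivity
  refine h4.trans ?_
  have h5 : ∑ i, ((1 / (N : ℝ)) * ∑ j, (∑' k : ℕ, ((k : ℝ) + 1) *
      D (k + 1) ((1 + inner ℝ (ζ i) (ζ j)) / 2) * r ^ k)) ≤ ∑ _i : Fin N, S :=
    sum_le_sum fun i _ => (radial hζ hr0 hr1 i).trans (hS i)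
  rw [sum_const, card_univ, Fintype.card_fin, nsmul_eq_mul] at h5
  calc (1 / (N : ℝ)) * ∑ i, ((1 / (N : ℝ)) * ∑ j, (∑' k : ℕ, ((k : ℝ) + 1) *
      D (k + 1) ((1 + inner ℝ (ζ i) (ζ j)) / 2) * r ^ k)) ≤ (1 / (N : ℝ)) * (N * S) :=
        mul_le_mul_of_nonneg_left h5 (by positivity)
    _ = S := by field_simp

/-- The lower bound for `Φ_N(r)`. -/
theorem Phi_ge {N : ℕ} (hN : 0 < N) {m : ℕ} (hm : 2 ≤ m) {r : ℝ} (hr0 : 0 < r) (hr1 : r < 1) :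
    (532 * (m : ℝ) / (405 * N) - 1) * r ^ Real.sqrt (5 * m) / 3 ≤ Phi N r := by
  have hne : Nonempty (Metric.sphere (0 : E3) 1) :=
    ⟨⟨EuclideanSpace.single 0 1, by rw [mem_sphere_zero_iff_norm]; simp⟩⟩
  rw [Phi]
  apply le_ciInf
  intro ζ
  have hζ : ∀ i, ‖(fun j => (ζ j : E3)) i‖ = 1 := fun i => by
    have := (ζ i).2
    rwa [mem_sphere_zero_iff_norm] at this
  apply main_ineq hN hζ hm hr0 hr1
  apply partial_le hN hζ hr0 hr1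
  intro i
  have hmem : r • (ζ i : E3) ∈ Metric.sphere (0 : E3) r := by
    rw [mem_sphere_zero_iff_norm, norm_smul, hζ i, mul_one, Real.norm_eq_abs, abs_of_pos hr0]
  exact le_ciSup (bddAbove_field hζ hr1) (⟨r • (ζ i : E3), hmem⟩ : Metric.sphere (0 : E3) r)

theorem final {r c : ℝ} (hr0 : 0 < r) (hr1 : r < 1) (hc0 : 0 < c) (hc : 2025 / 532 < c ^ 2) :
    ∃ N₀ : ℕ, ∀ N : ℕ, N₀ ≤ N → r ^ (c * Real.sqrt N) < Phi N r := by
  -- intermediate constants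
  set θ : ℝ := (405 / 532 + c ^ 2 / 5) / 2 with hθ
  set θ' : ℝ := (θ + c ^ 2 / 5) / 2 with hθ'
  have hθ1 : 405 / 532 < θ := by rw [hθ]; linarith
  have hθ2 : θ < θ' := by rw [hθ', hθ]; linarith
  have hθ3 : θ' < c ^ 2 / 5 := by rw [hθ', hθ]; linarith
  have hθ0 : 0 < θ := by linarith
  set δ : ℝ := c - Real.sqrt (5 * θ') with hδ
  have hδ0 : 0 < δ := by
    rw [hδ, sub_pos, Real.sqrt_lt' hc0]
    linarith
  set κ : ℝ := (532 * θ / 405 - 1) / 3 with hκ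
  have hκ0 : 0 < κ := by rw [hκ]; linarith
  have hlim : Tendsto (fun N : ℕ => r ^ (δ * Real.sqrt N)) atTop (𝓝 0) := by
    apply (tendsto_rpow_atTop_of_base_lt_one r (by linarith) hr1).comp
    apply Tendsto.const_mul_atTop hδ0
    exact Real.tendsto_sqrt_atTop.comp tendsto_natCast_atTop_atTop
  have hev := hlim.eventually (gt_mem_nhds hκ0)
  obtain ⟨N₁, hN₁⟩ := eventually_atTop.1 hev
  obtain ⟨N₂, hN₂⟩ := exists_nat_gt (max (1 / (θ' - θ)) (2 / θ))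
  refine ⟨max N₁ (N₂ + 1), fun N hN => ?_⟩
  have hNN₁ : N₁ ≤ N := (le_max_left _ _).trans hN
  have hNN₂ : N₂ + 1 ≤ N := (le_max_right _ _).trans hN
  have hNpos : 0 < N := by omega
  have hNr : (0 : ℝ) < N := by exact_mod_cast hNpos
  have hNr₂ : (N₂ : ℝ) ≤ N := by exact_mod_cast (by omega : N₂ ≤ N)
  have hN3 : 1 / (θ' - θ) < N := lt_of_lt_of_le (lt_of_le_of_lt (le_max_left _ _) hN₂) hNr₂
  have hN4 : 2 / θ < N := lt_of_lt_of_le (lt_of_le_of_lt (le_max_right _ _) hN₂) hNr₂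
  rw [div_lt_iff₀ (by linarith)] at hN3
  rw [div_lt_iff₀ hθ0] at hN4
  have h1 := hN₁ N hNN₁
  set m : ℕ := ⌈θ * N⌉₊ with hm
  have hm1 : θ * N ≤ m := Nat.le_ceil _
  have hm2 : (m : ℝ) < θ * N + 1 := Nat.ceil_lt_add_one (by positivity)
  have hm3 : 2 ≤ m := by
    have : (2 : ℝ) ≤ m := by nlinarith
    exact_mod_cast this
  have h2 := Phi_ge hNpos hm3 hr0 hr1
  have hsq : Real.sqrt (5 * m) ≤ Real.sqrt (5 * θ') * Real.sqrt N := by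
    rw [← Real.sqrt_mul (by linarith)]
    apply Real.sqrt_le_sqrt
    nlinarith
  have h3 : r ^ (Real.sqrt (5 * θ') * Real.sqrt N) ≤ r ^ Real.sqrt (5 * m) :=
    Real.rpow_le_rpow_of_exponent_ge hr0 hr1.le hsq
  have h4 : 3 * κ ≤ 532 * (m : ℝ) / (405 * N) - 1 := by
    have : 532 * θ / 405 ≤ 532 * (m : ℝ) / (405 * N) := by
      rw [div_le_div_iff₀ (by norm_num) (by positivity)]
      nlinarith
    rw [hκ]
    linarith
  have h5 : (0 : ℝ) < r ^ Real.sqrt (5 * m) := Real.rpow_pos_of_pos hr0 _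
  calc r ^ (c * Real.sqrt N)
      = r ^ (δ * Real.sqrt N) * r ^ (Real.sqrt (5 * θ') * Real.sqrt N) := by
        rw [← Real.rpow_add hr0]
        congr 1
        rw [hδ]; ring
    _ < κ * r ^ (Real.sqrt (5 * θ') * Real.sqrt N) :=
        mul_lt_mul_of_pos_right h1 (Real.rpow_pos_of_pos hr0 _)
    _ ≤ κ * r ^ Real.sqrt (5 * m) := mul_le_mul_of_nonneg_left h3 hκ0.le
    _ ≤ (532 * (m : ℝ) / (405 * N) - 1) * r ^ Real.sqrt (5 * m) / 3 := by nlinarith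
    _ ≤ Phi N r := h2

end Pool.Agent.R274.ES
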