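import Mathlib

namespace Pool.Agent.R274.FUNTF

open Module

variable {𝕜 : Type*} [RCLike 𝕜] {X : Type*} [NormedAddCommGroup X] [NormedSpace 𝕜 X]
  {n N : ℕ}

/-- The product of all (ordered) minors of a family of vectors. -/
noncomputable def vol (b : Basis (Fin n) 𝕜 X) (x : Fin N → X) : ℝ :=
  ∏ e : Fin n ↪ Fin N, ‖b.det (x ∘ e)‖

theorem continuous_vol [FiniteDimensional 𝕜 X] (b : Basis (Fin n) 𝕜 X) :
    Continuous (vol b : (Fin N → X) → ℝ) := by
  have h : Continuous fun v : Fin n → X => b.det v := by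
    simp_rw [Basis.det_apply]
    apply Continuous.matrix_det
    refine continuous_matrix fun i j => ?_
    exact (b.coord i).continuous_of_finiteDimensional.comp (continuous_apply j)
  unfold vol
  refine continuous_finsetProd _ fun e _ => ?_
  refine (h.comp ?_).norm
  exact continuous_pi fun j => continuous_apply (e j)

theorem exists_general (b : Basis (Fin n) 𝕜 X) (N : ℕ) :
    ∃ x : Fin N → X, (∀ i, ‖x i‖ ≤ 1) ∧ 0 < vol b x := by
  let x0 : Fin N → X := fun i => ∑ k : Fin n, (((i : ℕ) : 𝕜) ^ (k : ℕ)) • b k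
  have h0 : ∀ e : Fin n ↪ Fin N, b.det (x0 ∘ e) ≠ 0 := by
    intro e
    have h1 : b.toMatrix (x0 ∘ e) = (Matrix.vandermonde (fun j => (((e j : Fin N) : ℕ) : 𝕜))).transpose := by
      ext i j
      rw [Basis.toMatrix_apply, Matrix.transpose_apply, Matrix.vandermonde_apply]
      simp only [x0, Function.comp_apply, map_sum, map_smul, Basis.repr_self, Finsupp.coe_finsetSum,
        Finset.sum_apply, Finsupp.smul_apply, smul_eq_mul]
      rw [Finset.sum_eq_single i]
      · simp
      · intro k _ hk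
        rw [Finsupp.single_eq_of_ne (Ne.symm hk), mul_zero]
      · simp
    rw [Basis.det_apply, h1, Matrix.det_transpose, Matrix.det_vandermonde_ne_zero_iff]
    intro i j hij
    have : ((e i : Fin N) : ℕ) = ((e j : Fin N) : ℕ) := Nat.cast_injective (R := 𝕜) hij
    exact e.injective (Fin.ext this)
  set R : ℝ := 1 + ∑ i, ‖x0 i‖ with hR
  have hR0 : 0 < R := by
    have : 0 ≤ ∑ i, ‖x0 i‖ := Finset.sum_nonneg fun i _ => norm_nonneg _
    linarith
  have hRi : ∀ i, ‖x0 i‖ ≤ R := by
    intro i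
    have : ‖x0 i‖ ≤ ∑ i, ‖x0 i‖ := Finset.single_le_sum (f := fun i => ‖x0 i‖) (fun i _ => norm_nonneg _) (Finset.mem_univ i)
    linarith
  have hRk : (R : 𝕜) ≠ 0 := by exact_mod_cast hR0.ne'
  refine ⟨fun i => ((R : 𝕜)⁻¹) • x0 i, fun i => ?_, ?_⟩
  · rw [norm_smul, norm_inv, RCLike.norm_ofReal, abs_of_pos hR0, inv_mul_le_iff₀ hR0, mul_one]
    exact hRi i
  · unfold vol
    apply Finset.prod_pos
    intro e _
    have h1 : b.det ((fun i => ((R : 𝕜)⁻¹) • x0 i) ∘ e) = ((R : 𝕜)⁻¹) ^ n * b.det (x0 ∘ e) := by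
      have := b.det.toMultilinearMap.map_smul_univ (fun _ => ((R : 𝕜)⁻¹)) (x0 ∘ e)
      rw [Finset.prod_const, Finset.card_univ, Fintype.card_fin, smul_eq_mul] at this
      exact this
    rw [h1, norm_pos_iff]
    exact mul_ne_zero (pow_ne_zero _ (inv_ne_zero hRk)) (h0 e)

theorem exists_max [FiniteDimensional 𝕜 X] (b : Basis (Fin n) 𝕜 X) (N : ℕ) :
    ∃ x : Fin N → X, (∀ i, ‖x i‖ ≤ 1) ∧ 0 < vol b x ∧
      ∀ y : Fin N → X, (∀ i, ‖y i‖ ≤ 1) → vol b y ≤ vol b x := by
  have : ProperSpace (Fin N → X) := FiniteDimensional.proper 𝕜 (Fin N → X)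
  obtain ⟨x, hx, hmax⟩ := (isCompact_closedBall (0 : Fin N → X) 1).exists_isMaxOn
    ⟨0, by simp⟩ (continuous_vol b).continuousOn
  have hmem : ∀ y : Fin N → X, y ∈ Metric.closedBall (0 : Fin N → X) 1 ↔ ∀ i, ‖y i‖ ≤ 1 := by
    intro y
    rw [mem_closedBall_zero_iff, pi_norm_le_iff_of_nonneg zero_le_one]
  have hmax' : ∀ y : Fin N → X, (∀ i, ‖y i‖ ≤ 1) → vol b y ≤ vol b x := by
    intro y hy
    exact hmax ((hmem y).2 hy)
  refine ⟨x, (hmem x).1 hx, ?_, hmax'⟩
  obtain ⟨x1, h1, h2⟩ := exists_general b N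
  exact h2.trans_le (hmax' x1 h1)

/-- a first order condition -/
theorem first_order {ι : Type*} (s : Finset ι) (z : ι → 𝕜)
    (h : ∀ t : ℝ, 0 ≤ t → t ≤ 1 → ∏ p ∈ s, ‖(1 - (t : 𝕜)) + (t : 𝕜) * z p‖ ≤ 1) :
    RCLike.re (∑ p ∈ s, z p) ≤ s.card := by
  set a : ι → ℝ := fun p => RCLike.re (z p) - 1 with ha
  suffices hs : ∑ p ∈ s, a p ≤ 0 by
    have : ∑ p ∈ s, a p = RCLike.re (∑ p ∈ s, z p) - s.card := by
      rw [ha, Finset.sum_sub_distrib, map_sum, Finset.sum_const, nsmul_eq_mul, mul_one]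
    linarith
  -- small parameters
  set A : ℝ := 1 + ∑ p ∈ s, |a p| with hA
  have hA0 : 1 ≤ A := by
    have : 0 ≤ ∑ p ∈ s, |a p| := Finset.sum_nonneg fun i _ => abs_nonneg _
    linarith
  have hAp : ∀ p ∈ s, |a p| ≤ A := by
    intro p hp
    have : |a p| ≤ ∑ p ∈ s, |a p| := Finset.single_le_sum (f := fun i => |a i|) (fun i _ => abs_nonneg _) hp
    linarith
  have hpos : ∀ t : ℝ, 0 < t → t ≤ 1 / (2 * A) → ∀ p ∈ s, 0 < 1 + t * a p := by
    intro t ht ht2 p hp
    have h1 : |t * a p| ≤ 1 / 2 := by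
      rw [abs_mul, abs_of_pos ht]
      calc t * |a p| ≤ 1 / (2 * A) * A := mul_le_mul ht2 (hAp p hp) (abs_nonneg _) (by positivity)
        _ = 1 / 2 := by field_simp
    have := (abs_le.1 h1).1
    linarith
  have hsum : ∀ t : ℝ, 0 < t → t ≤ 1 / (2 * A) → ∑ p ∈ s, a p / (1 + t * a p) ≤ 0 := by
    intro t ht ht2
    have ht1 : t ≤ 1 := ht2.trans (by rw [div_le_one (by linarith)]; linarith)
    have h1 : Real.exp (∑ p ∈ s, t * (a p / (1 + t * a p))) ≤ 1 := by
      rw [Real.exp_sum]
      refine le_trans (Finset.prod_le_prod (fun p _ => (Real.exp_pos _).le) fun p hp => ?_) (h t ht.le ht1)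
      have h2 := hpos t ht ht2 p hp
      have h3 : Real.exp (t * (a p / (1 + t * a p))) ≤ 1 + t * a p := by
        have h4 := Real.add_one_le_exp (-(t * (a p / (1 + t * a p))))
        have h5 : -(t * (a p / (1 + t * a p))) + 1 = 1 / (1 + t * a p) := by
          field_simp
          ring
        rw [h5, Real.exp_neg, one_div] at h4
        exact (inv_le_inv₀ h2 (Real.exp_pos _)).1 h4
      refine h3.trans ?_
      have h6 : RCLike.re ((1 - (t : 𝕜)) + (t : 𝕜) * z p) = 1 + t * a p := by
        simp only [map_add, map_sub, RCLike.one_re, RCLike.ofReal_re, RCLike.re_ofReal_mul, ha]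
        ring
      rw [← h6]
      exact RCLike.re_le_norm _
    rw [Real.exp_le_one_iff, ← Finset.mul_sum] at h1
    by_contra hc
    push Not at hc
    have := mul_pos ht hc
    linarith
  have hlim : Filter.Tendsto (fun t : ℝ => ∑ p ∈ s, a p / (1 + t * a p)) (nhdsWithin 0 (Set.Ioi 0))
      (nhds (∑ p ∈ s, a p)) := by
    have hc : ContinuousAt (fun t : ℝ => ∑ p ∈ s, a p / (1 + t * a p)) 0 := by
      apply tendsto_finsetSum
      intro p _
      apply ContinuousAt.div₀ continuousAt_const (by fun_prop)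
      simp
    have h2 : Filter.Tendsto (fun t : ℝ => ∑ p ∈ s, a p / (1 + t * a p)) (nhds 0) (nhds (∑ p ∈ s, a p)) := by
      have := hc.tendsto
      simp only [zero_mul, add_zero, div_one] at this
      exact this
    exact h2.mono_left nhdsWithin_le_nhds
  refine le_of_tendsto hlim ?_
  have hA2 : (0 : ℝ) < 1 / (2 * A) := by positivity
  filter_upwards [Ioc_mem_nhdsGT hA2] with t ht
  exact hsum t ht.1 ht.2

/-- the coordinates with respect to a subfamily -/
theorem exists_coord (b : Basis (Fin n) 𝕜 X) {v : Fin n → X} (hv : b.det v ≠ 0) :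
    ∃ f : Fin n → (X →ₗ[𝕜] 𝕜), (∀ k y, b.det (Function.update v k y) = b.det v * f k y) ∧
      ∀ y, ∑ k, f k y • v k = y := by
  obtain ⟨hli, hsp⟩ := b.is_basis_iff_det.2 (isUnit_iff_ne_zero.2 hv)
  refine ⟨fun k => (Basis.mk hli hsp.ge).coord k, fun k y => ?_, fun y => ?_⟩
  · have := b.det_smul_mk_coord_eq_det_update hli hsp.ge k
    have := LinearMap.congr_fun this y
    rw [LinearMap.smul_apply, smul_eq_mul] at this
    exact this.symm
  · have := (Basis.mk hli hsp.ge).sum_repr y
    simpa using this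

theorem main [FiniteDimensional 𝕜 X] (b : Basis (Fin n) 𝕜 X) (hn : 0 < n) (hN : n ≤ N) :
    ∃ (x : Fin N → X) (f : Fin N → StrongDual 𝕜 X),
      (∀ i, ‖x i‖ = 1 ∧ ‖f i‖ = 1 ∧ f i (x i) = 1) ∧
      ∃ c : 𝕜, ∀ y, ∑ i, f i y • x i = c • y := by
  classical
  obtain ⟨x, hx1, hx0, hmax⟩ := exists_max b N
  have hdet : ∀ e : Fin n ↪ Fin N, b.det (x ∘ e) ≠ 0 := by
    intro e he
    apply hx0.ne'
    unfold vol
    exact Finset.prod_eq_zero (Finset.mem_univ e) (by rw [he, norm_zero])
  choose g hg1 hg2 using fun e : Fin n ↪ Fin N => exists_coord b (hdet e)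
  have hgself : ∀ (e : Fin n ↪ Fin N) k, g e k (x (e k)) = 1 := by
    intro e k
    have h1 := hg1 e k (x (e k))
    have h2 : Function.update (x ∘ e) k (x (e k)) = x ∘ e := Function.update_eq_self k (x ∘ e)
    rw [h2] at h1
    exact (mul_left_cancel₀ (hdet e) ((mul_one _).trans h1)).symm
  -- the pairs hitting `i`
  let P : Fin N → Finset ((Fin n ↪ Fin N) × Fin n) := fun i => Finset.univ.filter fun p => p.1 p.2 = i
  have hPcard : ∀ i j, (P i).card = (P j).card := by
    intro i j
    have hmaps : ∀ (i j : Fin N) (p : (Fin n ↪ Fin N) × Fin n), p ∈ P i →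
        (p.1.trans (Equiv.swap i j).toEmbedding, p.2) ∈ P j := by
      intro i j p hp
      simp only [P, Finset.mem_filter, Finset.mem_univ, true_and] at hp ⊢
      simp [hp]
    apply le_antisymm
    · apply Finset.card_le_card_of_injOn (fun p => (p.1.trans (Equiv.swap i j).toEmbedding, p.2))
        (fun p hp => hmaps i j p hp)
      intro p _ q _ hpq
      simp only [Prod.mk.injEq] at hpq
      refine Prod.ext ?_ hpq.2
      ext k
      have := DFunLike.congr_fun hpq.1 k
      simp only [Function.Embedding.trans_apply, Equiv.coe_toEmbedding, EmbeddingLike.apply_eq_iff_eq] at this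
      rw [this]
    · apply Finset.card_le_card_of_injOn (fun p => (p.1.trans (Equiv.swap j i).toEmbedding, p.2))
        (fun p hp => hmaps j i p hp)
      intro p _ q _ hpq
      simp only [Prod.mk.injEq] at hpq
      refine Prod.ext ?_ hpq.2
      ext k
      have := DFunLike.congr_fun hpq.1 k
      simp only [Function.Embedding.trans_apply, Equiv.coe_toEmbedding, EmbeddingLike.apply_eq_iff_eq] at this
      rw [this]
  have hPpos : ∀ i, 0 < (P i).card := by
    intro i
    have h1 : (P ((Fin.castLEEmb hN) ⟨0, hn⟩)).Nonempty := by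
      refine ⟨(Fin.castLEEmb hN, ⟨0, hn⟩), ?_⟩
      simp [P]
    rw [hPcard i ((Fin.castLEEmb hN) ⟨0, hn⟩)]
    exact Finset.card_pos.2 h1
  -- the functionals
  let T : Fin N → (X →ₗ[𝕜] 𝕜) := fun i => ∑ p ∈ P i, g p.1 p.2
  have hTx : ∀ i, T i (x i) = (P i).card := by
    intro i
    simp only [T, LinearMap.sum_apply]
    rw [Finset.sum_congr rfl (g := fun _ => (1 : 𝕜))]
    · simp
    · intro p hp
      simp only [P, Finset.mem_filter, Finset.mem_univ, true_and] at hp
      rw [← hp]
      exact hgself _ _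
  -- first order condition
  have hre : ∀ i y, ‖y‖ ≤ 1 → RCLike.re (T i y) ≤ (P i).card := by
    intro i y hy
    have h0 : T i y = ∑ p ∈ P i, g p.1 p.2 y := by simp only [T, LinearMap.sum_apply]
    rw [h0]
    apply first_order
    intro t ht0 ht1
    set w : X := (1 - (t : 𝕜)) • x i + (t : 𝕜) • y with hw
    have hw1 : ‖w‖ ≤ 1 := by
      calc ‖w‖ ≤ ‖(1 - (t : 𝕜)) • x i‖ + ‖(t : 𝕜) • y‖ := norm_add_le _ _
        _ = (1 - t) * ‖x i‖ + t * ‖y‖ := by
            rw [norm_smul, norm_smul, RCLike.norm_ofReal, abs_of_nonneg ht0]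
            congr 2
            have : (1 - (t : 𝕜)) = ((1 - t : ℝ) : 𝕜) := by push_cast; ring
            rw [this, RCLike.norm_ofReal, abs_of_nonneg (by linarith)]
        _ ≤ (1 - t) * 1 + t * 1 := by
            have := hx1 i
            gcongr
        _ = 1 := by ring
    have h1 := hmax (Function.update x i w) (fun j => by
      by_cases hj : j = i
      · subst hj
        rw [Function.update_self]
        exact hw1
      · rw [Function.update_of_ne hj]
        exact hx1 j)
    -- factorization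
    have h2 : ∀ e : Fin n ↪ Fin N, ‖b.det (Function.update x i w ∘ e)‖ =
        ‖b.det (x ∘ e)‖ * ∏ k, (if e k = i then ‖(1 - (t : 𝕜)) + (t : 𝕜) * g e k y‖ else 1) := by
      intro e
      by_cases he : ∃ k, e k = i
      · obtain ⟨k, hk⟩ := he
        have h3 : Function.update x i w ∘ e = Function.update (x ∘ e) k w := by
          funext l
          by_cases hl : l = k
          · subst hl
            simp [hk]
          · rw [Function.update_of_ne hl]
            have : e l ≠ i := fun h => hl (e.injective (h.trans hk.symm))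
            simp [this]
        rw [h3, hg1, norm_mul]
        congr 1
        rw [Finset.prod_eq_single k]
        · rw [if_pos hk, hw, map_add, map_smul, map_smul, smul_eq_mul, smul_eq_mul, ← hk, hgself, mul_one]
        · intro l _ hl
          rw [if_neg]
          exact fun h => hl (e.injective (h.trans hk.symm))
        · simp
      · push Not at he
        have h3 : Function.update x i w ∘ e = x ∘ e := by
          funext l
          simp [he l]
        rw [h3, Finset.prod_eq_one, mul_one]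
        intro l _
        rw [if_neg (he l)]
    have h4 : vol b (Function.update x i w) = vol b x *
        ∏ p ∈ P i, ‖(1 - (t : 𝕜)) + (t : 𝕜) * g p.1 p.2 y‖ := by
      unfold vol
      simp_rw [h2]
      rw [Finset.prod_mul_distrib]
      congr 1
      simp only [P]
      rw [Finset.prod_filter, ← Finset.univ_product_univ, Finset.prod_product]
    rw [h4] at h1
    by_contra hc
    push Not at hc
    nlinarith
  have hbound : ∀ i y, ‖T i y‖ ≤ (P i).card * ‖y‖ := by
    intro i y
    rcases eq_or_ne (T i y) 0 with h0 | h0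
    · rw [h0, norm_zero]
      positivity
    · have hy : y ≠ 0 := by
        rintro rfl
        exact h0 (map_zero _)
      have hy' : 0 < ‖y‖ := norm_pos_iff.2 hy
      have hT' : 0 < ‖T i y‖ := norm_pos_iff.2 h0
      set c : 𝕜 := (starRingEnd 𝕜) (T i y) / ((‖T i y‖ * ‖y‖ : ℝ) : 𝕜) with hc
      have hcn : ‖c • y‖ ≤ 1 := by
        rw [norm_smul, hc, norm_div, RCLike.norm_conj, RCLike.norm_ofReal, abs_of_pos (mul_pos hT' hy')]
        apply le_of_eq
        field_simp
      have h1 := hre i (c • y) hcn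
      have h2 : T i (c • y) = ((‖T i y‖ / ‖y‖ : ℝ) : 𝕜) := by
        rw [map_smul, smul_eq_mul, hc, div_mul_eq_mul_div, RCLike.conj_mul]
        push_cast
        have e1 : ((‖T i y‖ : ℝ) : 𝕜) ≠ 0 := by exact_mod_cast hT'.ne'
        have e2 : ((‖y‖ : ℝ) : 𝕜) ≠ 0 := by exact_mod_cast hy'.ne'
        field_simp
      rw [h2, RCLike.ofReal_re, div_le_iff₀ hy'] at h1
      exact h1
  -- the frame
  let f : Fin N → StrongDual 𝕜 X := fun i =>
    (((P i).card : 𝕜)⁻¹) • LinearMap.toContinuousLinearMap (T i)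
  have hfy : ∀ i y, f i y = ((P i).card : 𝕜)⁻¹ * T i y := fun i y => rfl
  have hcn : ∀ i, ((P i).card : 𝕜) ≠ 0 := fun i => by exact_mod_cast (hPpos i).ne'
  have hfx : ∀ i, f i (x i) = 1 := by
    intro i
    rw [hfy, hTx]
    exact inv_mul_cancel₀ (hcn i)
  have hfn : ∀ i, ‖f i‖ ≤ 1 := by
    intro i
    apply ContinuousLinearMap.opNorm_le_bound _ zero_le_one
    intro y
    rw [hfy, norm_mul, norm_inv, RCLike.norm_natCast, one_mul, inv_mul_le_iff₀ (by exact_mod_cast hPpos i)]
    exact hbound i y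
  have hxn : ∀ i, ‖x i‖ = 1 := by
    intro i
    apply le_antisymm (hx1 i)
    have h1 := (f i).le_opNorm (x i)
    rw [hfx, norm_one] at h1
    have h2 := mul_le_mul_of_nonneg_right (hfn i) (norm_nonneg (x i))
    linarith
  refine ⟨x, f, fun i => ⟨hxn i, ?_, hfx i⟩, ?_⟩
  · apply le_antisymm (hfn i)
    have h1 := (f i).le_opNorm (x i)
    rw [hfx, norm_one, hxn i, mul_one] at h1
    exact h1
  · have hN0 : 0 < N := lt_of_lt_of_le hn hN
    set M : 𝕜 := ((P ⟨0, hN0⟩).card : 𝕜) with hM
    refine ⟨M⁻¹ * (Fintype.card (Fin n ↪ Fin N) : 𝕜), fun y => ?_⟩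
    have h1 : ∀ i, f i y • x i = M⁻¹ • (∑ p ∈ P i, g p.1 p.2 y • x (p.1 p.2)) := by
      intro i
      rw [hfy, mul_smul, hPcard i ⟨0, hN0⟩]
      congr 1
      simp only [T, LinearMap.sum_apply]
      rw [Finset.sum_smul]
      apply Finset.sum_congr rfl
      intro p hp
      simp only [P, Finset.mem_filter, Finset.mem_univ, true_and] at hp
      rw [hp]
    simp_rw [h1]
    rw [← Finset.smul_sum, mul_smul]
    congr 1
    have h2 : ∑ i, ∑ p ∈ P i, g p.1 p.2 y • x (p.1 p.2) =
        ∑ p : (Fin n ↪ Fin N) × Fin n, g p.1 p.2 y • x (p.1 p.2) := by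
      simp only [P]
      rw [Finset.sum_fiberwise]
    rw [h2, ← Finset.univ_product_univ, Finset.sum_product]
    have h3 : ∀ e : Fin n ↪ Fin N, ∑ k, g e k y • x (e k) = y := fun e => hg2 e y
    simp_rw [h3]
    rw [Finset.sum_const, Finset.card_univ, ← Nat.cast_smul_eq_nsmul 𝕜]

end Pool.Agent.R274.FUNTF
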