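import Mathlib

namespace Pool.Agent.R274.GT

open Finset

variable {m : ℕ}

/-- the pairing of matrices -/
def F (A G : Fin m → Fin m → ℝ) : ℝ := ∑ i, ∑ j, A i j * G i j

/-- the (sub-)elliptope -/
def El (m : ℕ) : Set (Fin m → Fin m → ℝ) :=
  {G | (∀ i j, G i j = G j i) ∧ (∀ ξ : Fin m → ℝ, 0 ≤ ∑ i, ∑ j, ξ i * ξ j * G i j) ∧ ∀ i, G i i ≤ 1}

theorem psd_two {G : Fin m → Fin m → ℝ} (hs : ∀ i j, G i j = G j i)
    (hp : ∀ ξ : Fin m → ℝ, 0 ≤ ∑ i, ∑ j, ξ i * ξ j * G i j) (i j : Fin m) (a b : ℝ) (hij : i ≠ j) :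
    0 ≤ a ^ 2 * G i i + 2 * a * b * G i j + b ^ 2 * G j j := by
  have h := hp (fun k => if k = i then a else if k = j then b else 0)
  have key : ∀ f : Fin m → ℝ, ∑ k, (if k = i then a else if k = j then b else 0) * f k =
      a * f i + b * f j := by
    intro f
    have h1 : ∀ k, (if k = i then a else if k = j then b else 0) * f k =
        (if k = i then a * f i else 0) + (if k = j then b * f j else 0) := by
      intro k
      by_cases h2 : k = i
      · subst h2
        rw [if_pos rfl, if_pos rfl, if_neg hij, add_zero]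
      · by_cases h3 : k = j
        · subst h3
          rw [if_neg h2, if_pos rfl, if_neg h2, if_pos rfl, zero_add]
        · rw [if_neg h2, if_neg h3, if_neg h2, if_neg h3]
          simp
    simp_rw [h1]
    rw [Finset.sum_add_distrib, Finset.sum_ite_eq', Finset.sum_ite_eq']
    simp
  have h2 : ∑ k, ∑ l, (if k = i then a else if k = j then b else 0) *
      (if l = i then a else if l = j then b else 0) * G k l =
      ∑ k, (if k = i then a else if k = j then b else 0) * (a * G k i + b * G k j) := by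
    apply Finset.sum_congr rfl
    intro k _
    have := key (fun l => G k l)
    rw [← this, Finset.mul_sum]
    apply Finset.sum_congr rfl
    intro l _
    ring
  rw [h2, key (fun k => a * G k i + b * G k j)] at h
  rw [hs j i] at h
  linarith

theorem diag_nonneg {G : Fin m → Fin m → ℝ}
    (hp : ∀ ξ : Fin m → ℝ, 0 ≤ ∑ i, ∑ j, ξ i * ξ j * G i j) (i : Fin m) : 0 ≤ G i i := by
  have h := hp (fun k => if k = i then 1 else 0)
  simpa using h

theorem El_bound {G : Fin m → Fin m → ℝ} (hG : G ∈ El m) (i j : Fin m) : |G i j| ≤ 1 := by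
  obtain ⟨hs, hp, hd⟩ := hG
  by_cases hij : i = j
  · subst hij
    rw [abs_of_nonneg (diag_nonneg hp i)]
    exact hd i
  · have h1 := psd_two hs hp i j 1 1 hij
    have h2 := psd_two hs hp i j 1 (-1) hij
    have h3 := hd i
    have h4 := hd j
    rw [abs_le]
    constructor <;> linarith

theorem isCompact_El : IsCompact (El m) := by
  apply Metric.isCompact_of_isClosed_isBounded
  · have h1 : El m = (⋂ i, ⋂ j, {G : Fin m → Fin m → ℝ | G i j = G j i}) ∩
        ((⋂ ξ : Fin m → ℝ, {G : Fin m → Fin m → ℝ | 0 ≤ ∑ i, ∑ j, ξ i * ξ j * G i j}) ∩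
        (⋂ i, {G : Fin m → Fin m → ℝ | G i i ≤ 1})) := by
      ext G
      simp only [El, Set.mem_setOf_eq, Set.mem_inter_iff, Set.mem_iInter]
    rw [h1]
    refine IsClosed.inter (isClosed_iInter fun i => isClosed_iInter fun j => ?_)
      (IsClosed.inter (isClosed_iInter fun ξ => ?_) (isClosed_iInter fun i => ?_))
    · exact isClosed_eq (by fun_prop) (by fun_prop)
    · exact isClosed_le continuous_const (by fun_prop)
    · exact isClosed_le (by fun_prop) continuous_const
  · rw [isBounded_iff_forall_norm_le]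
    refine ⟨1, fun G hG => ?_⟩
    rw [pi_norm_le_iff_of_nonneg zero_le_one]
    intro i
    rw [pi_norm_le_iff_of_nonneg zero_le_one]
    intro j
    exact El_bound hG i j

theorem continuous_F (A : Fin m → Fin m → ℝ) : Continuous (F A) := by
  unfold F
  fun_prop

theorem zero_mem_El : (0 : Fin m → Fin m → ℝ) ∈ El m := by
  refine ⟨fun _ _ => rfl, fun ξ => ?_, fun i => ?_⟩
  · simp
  · simp

/-- Rademacher functions with control of the fourth moment -/
theorem exists_rademacher (r : ℕ) : ∃ (Ω : Type) (_ : Fintype Ω) (_ : Nonempty Ω)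
    (R : Fin r → Ω → ℝ), ∀ b : Fin r → ℝ,
      ∑ ω, (∑ k, b k * R k ω) ^ 2 = Fintype.card Ω * ∑ k, b k ^ 2 ∧
      ∑ ω, (∑ k, b k * R k ω) ^ 4 ≤ 3 * Fintype.card Ω * (∑ k, b k ^ 2) ^ 2 := by
  induction r with
  | zero =>
    refine ⟨Unit, inferInstance, inferInstance, fun k => k.elim0, fun b => ?_⟩
    simp
  | succ r ih =>
    obtain ⟨Ω, _, _, R, hR⟩ := ih
    refine ⟨Ω × Bool, inferInstance, inferInstance,
      fun k p => Fin.cases (if p.2 then (1 : ℝ) else -1) (fun k => R k p.1) k, fun b => ?_⟩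
    obtain ⟨h1, h2⟩ := hR (fun k => b k.succ)
    have hS : ∀ p : Ω × Bool, ∑ k : Fin (r + 1), b k *
        (Fin.cases (motive := fun _ => ℝ) (if p.2 then (1 : ℝ) else -1) (fun k => R k p.1) k) =
        b 0 * (if p.2 then (1 : ℝ) else -1) + ∑ k : Fin r, b k.succ * R k p.1 := by
      intro p
      rw [Fin.sum_univ_succ]
      rfl
    have hB : ∑ k : Fin (r + 1), b k ^ 2 = b 0 ^ 2 + ∑ k : Fin r, b k.succ ^ 2 := Fin.sum_univ_succ _
    have hcard : (Fintype.card (Ω × Bool) : ℝ) = 2 * Fintype.card Ω := by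
      rw [Fintype.card_prod, Fintype.card_bool]
      push_cast
      ring
    constructor
    · simp_rw [hS]
      rw [Fintype.sum_prod_type, hcard, hB]
      have h3 : ∀ ω, ∑ s : Bool, (b 0 * (if s then (1 : ℝ) else -1) +
          ∑ k : Fin r, b k.succ * R k ω) ^ 2 =
          2 * b 0 ^ 2 + 2 * (∑ k : Fin r, b k.succ * R k ω) ^ 2 := by
        intro ω
        rw [Fintype.sum_bool]
        simp only [if_true, Bool.false_eq_true, if_false]
        ring
      simp_rw [h3]
      have e1 : ∑ ω, 2 * (∑ k : Fin r, b k.succ * R k ω) ^ 2 =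
          2 * ∑ ω, (∑ k : Fin r, b k.succ * R k ω) ^ 2 := by rw [Finset.mul_sum]
      rw [Finset.sum_add_distrib, e1, h1, Finset.sum_const, Finset.card_univ,
        nsmul_eq_mul]
      ring
    · simp_rw [hS]
      rw [Fintype.sum_prod_type, hcard, hB]
      have h3 : ∀ ω, ∑ s : Bool, (b 0 * (if s then (1 : ℝ) else -1) +
          ∑ k : Fin r, b k.succ * R k ω) ^ 4 =
          2 * b 0 ^ 4 + 12 * b 0 ^ 2 * (∑ k : Fin r, b k.succ * R k ω) ^ 2 +
            2 * (∑ k : Fin r, b k.succ * R k ω) ^ 4 := by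
        intro ω
        rw [Fintype.sum_bool]
        simp only [if_true, Bool.false_eq_true, if_false]
        ring
      simp_rw [h3]
      have e1 : ∑ ω, 12 * b 0 ^ 2 * (∑ k : Fin r, b k.succ * R k ω) ^ 2 =
          12 * b 0 ^ 2 * ∑ ω, (∑ k : Fin r, b k.succ * R k ω) ^ 2 := by rw [Finset.mul_sum]
      have e2 : ∑ ω, 2 * (∑ k : Fin r, b k.succ * R k ω) ^ 4 =
          2 * ∑ ω, (∑ k : Fin r, b k.succ * R k ω) ^ 4 := by rw [Finset.mul_sum]
      rw [Finset.sum_add_distrib, Finset.sum_add_distrib, e1, e2, h1,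
        Finset.sum_const, Finset.card_univ, nsmul_eq_mul]
      have h4 : (0 : ℝ) ≤ Fintype.card Ω := Nat.cast_nonneg _
      have h5 : 0 ≤ (Fintype.card Ω : ℝ) * b 0 ^ 4 := by positivity
      nlinarith

/-- Gram representation -/
theorem exists_gram {G : Fin m → Fin m → ℝ} (hG : G ∈ El m) :
    ∃ (r : ℕ) (v : Fin r → Fin m → ℝ), ∀ i j, G i j = ∑ k, v k i * v k j := by
  obtain ⟨hs, hp, -⟩ := hG
  have h1 : (Matrix.of G).PosSemidef := by
    apply Matrix.PosSemidef.of_dotProduct_mulVec_nonneg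
    · ext i j
      simp [Matrix.conjTranspose_apply, hs i j]
    · intro x
      have := hp x
      simp only [dotProduct, Matrix.mulVec, Matrix.of_apply, Pi.star_apply, star_trivial]
      refine this.trans (le_of_eq ?_)
      apply Finset.sum_congr rfl
      intro i _
      rw [Finset.mul_sum]
      apply Finset.sum_congr rfl
      intro j _
      ring
  obtain ⟨r, v, hv⟩ := Matrix.posSemidef_iff_eq_sum_vecMulVec.1 h1
  refine ⟨r, v, fun i j => ?_⟩
  have := congrFun (congrFun hv i) j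
  simp only [Matrix.of_apply, Matrix.sum_apply, Matrix.vecMulVec_apply, Pi.star_apply,
    star_trivial] at this
  exact this

section gram

variable {Ω : Type} [Fintype Ω]

/-- mixed Gram matrices -/
noncomputable def gr (U V : Fin m → Ω → ℝ) (i j : Fin m) : ℝ := (∑ ω, U i ω * V j ω) / Fintype.card Ω

theorem card_pos' [Nonempty Ω] : (0 : ℝ) < Fintype.card Ω := by exact_mod_cast Fintype.card_pos

theorem gr_mem [Nonempty Ω] {U : Fin m → Ω → ℝ} (h : ∀ i, ∑ ω, U i ω ^ 2 ≤ Fintype.card Ω) : gr U U ∈ El m := by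
  refine ⟨fun i j => ?_, fun ξ => ?_, fun i => ?_⟩
  · unfold gr
    congr 1
    exact Finset.sum_congr rfl fun ω _ => mul_comm _ _
  · have h1 : ∑ i, ∑ j, ξ i * ξ j * gr U U i j = (∑ ω, (∑ i, ξ i * U i ω) ^ 2) / Fintype.card Ω := by
      unfold gr
      rw [Finset.sum_div]
      have h2 : ∀ ω, (∑ i, ξ i * U i ω) ^ 2 / (Fintype.card Ω : ℝ) =
          ∑ i, ∑ j, ξ i * ξ j * (U i ω * U j ω) / Fintype.card Ω := by
        intro ω
        rw [pow_two, Finset.sum_mul_sum, Finset.sum_div]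
        apply Finset.sum_congr rfl
        intro i _
        rw [Finset.sum_div]
        apply Finset.sum_congr rfl
        intro j _
        ring
      simp_rw [h2]
      symm
      rw [Finset.sum_comm]
      apply Finset.sum_congr rfl
      intro i _
      rw [Finset.sum_comm]
      apply Finset.sum_congr rfl
      intro j _
      rw [Finset.sum_div, Finset.mul_sum]
      apply Finset.sum_congr rfl
      intro ω _
      ring
    rw [h1]
    have := card_pos' (Ω := Ω)
    positivity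
  · unfold gr
    rw [div_le_one card_pos']
    refine le_trans (le_of_eq ?_) (h i)
    exact Finset.sum_congr rfl fun ω _ => (pow_two _).symm

theorem F_gr_add_left (A : Fin m → Fin m → ℝ) (U U' V : Fin m → Ω → ℝ) :
    F A (gr (U + U') V) = F A (gr U V) + F A (gr U' V) := by
  unfold F gr
  simp only [Pi.add_apply, add_mul, Finset.sum_add_distrib, add_div, mul_add]

theorem F_gr_add_right (A : Fin m → Fin m → ℝ) (U V V' : Fin m → Ω → ℝ) :
    F A (gr U (V + V')) = F A (gr U V) + F A (gr U V') := by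
  unfold F gr
  simp only [Pi.add_apply, mul_add, Finset.sum_add_distrib, add_div]

theorem F_gr_smul_left (A : Fin m → Fin m → ℝ) (c : ℝ) (U V : Fin m → Ω → ℝ) :
    F A (gr (c • U) V) = c * F A (gr U V) := by
  unfold F gr
  simp only [Pi.smul_apply, smul_eq_mul, Finset.mul_sum]
  apply Finset.sum_congr rfl
  intro i _
  apply Finset.sum_congr rfl
  intro j _
  have : ∑ ω, c * U i ω * V j ω = c * ∑ ω, U i ω * V j ω := by
    rw [Finset.mul_sum]
    exact Finset.sum_congr rfl fun ω _ => by ring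
  rw [this]
  ring

theorem F_gr_smul_right (A : Fin m → Fin m → ℝ) (c : ℝ) (U V : Fin m → Ω → ℝ) :
    F A (gr U (c • V)) = c * F A (gr U V) := by
  unfold F gr
  simp only [Pi.smul_apply, smul_eq_mul, Finset.mul_sum]
  apply Finset.sum_congr rfl
  intro i _
  apply Finset.sum_congr rfl
  intro j _
  have : ∑ ω, U i ω * (c * V j ω) = c * ∑ ω, U i ω * V j ω := by
    rw [Finset.mul_sum]
    exact Finset.sum_congr rfl fun ω _ => by ring
  rw [this]
  ring

theorem F_gr_symm {A : Fin m → Fin m → ℝ} (hA : ∀ i j, A i j = A j i) (U V : Fin m → Ω → ℝ) :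
    F A (gr U V) = F A (gr V U) := by
  unfold F gr
  rw [Finset.sum_comm]
  apply Finset.sum_congr rfl
  intro i _
  apply Finset.sum_congr rfl
  intro j _
  rw [hA j i]
  congr 2
  exact Finset.sum_congr rfl fun ω _ => mul_comm _ _

/-- pointwise bounded vectors -/
theorem F_gr_bounded [Nonempty Ω] {A : Fin m → Fin m → ℝ}
    (hA1 : ∀ s : Fin m → ℝ, (∀ i, |s i| ≤ 1) → |∑ i, ∑ j, A i j * s i * s j| ≤ 1)
    {U : Fin m → Ω → ℝ} {M : ℝ} (hM : 0 < M) (hU : ∀ i ω, |U i ω| ≤ M) :
    |F A (gr U U)| ≤ M ^ 2 := by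
  have h1 : F A (gr U U) = (∑ ω, ∑ i, ∑ j, A i j * U i ω * U j ω) / Fintype.card Ω := by
    unfold F gr
    symm
    rw [Finset.sum_comm, Finset.sum_div]
    apply Finset.sum_congr rfl
    intro i _
    rw [Finset.sum_comm, Finset.sum_div]
    apply Finset.sum_congr rfl
    intro j _
    rw [← mul_div_assoc, Finset.mul_sum]
    congr 1
    exact Finset.sum_congr rfl fun ω _ => by ring
  have h2 : ∀ ω, |∑ i, ∑ j, A i j * U i ω * U j ω| ≤ M ^ 2 := by
    intro ω
    have h3 := hA1 (fun i => U i ω / M) (fun i => by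
      rw [abs_div, abs_of_pos hM, div_le_one hM]
      exact hU i ω)
    have h4 : ∑ i, ∑ j, A i j * (U i ω / M) * (U j ω / M) =
        (∑ i, ∑ j, A i j * U i ω * U j ω) / M ^ 2 := by
      rw [Finset.sum_div]
      apply Finset.sum_congr rfl
      intro i _
      rw [Finset.sum_div]
      apply Finset.sum_congr rfl
      intro j _
      field_simp
    rw [h4, abs_div, abs_of_pos (by positivity : (0 : ℝ) < M ^ 2), div_le_one (by positivity)] at h3
    exact h3
  rw [h1, abs_div, abs_of_pos card_pos', div_le_iff₀ card_pos']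
  calc |∑ ω, ∑ i, ∑ j, A i j * U i ω * U j ω| ≤ ∑ ω, |∑ i, ∑ j, A i j * U i ω * U j ω| :=
        Finset.abs_sum_le_sum_abs _ _
    _ ≤ ∑ _ω : Ω, M ^ 2 := Finset.sum_le_sum fun ω _ => h2 ω
    _ = _ := by rw [Finset.sum_const, Finset.card_univ, nsmul_eq_mul]; ring

end gram

/-- Grothendieck's inequality for symmetric forms -/
theorem grothendieck {A : Fin m → Fin m → ℝ} (hA : ∀ i j, A i j = A j i)
    (hA1 : ∀ s : Fin m → ℝ, (∀ i, |s i| ≤ 1) → |∑ i, ∑ j, A i j * s i * s j| ≤ 1)
    {G : Fin m → Fin m → ℝ} (hG : G ∈ El m) : |F A G| ≤ 600 := by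
  obtain ⟨G0, hG0, hmax⟩ := isCompact_El.exists_isMaxOn ⟨_, zero_mem_El (m := m)⟩
    (continuous_F A).abs.continuousOn
  set T := |F A G0| with hT
  have hT' : ∀ G ∈ El m, |F A G| ≤ T := fun G hG => hmax hG
  have hT0 : 0 ≤ T := abs_nonneg _
  refine (hT' G hG).trans ?_
  obtain ⟨r, v, hv⟩ := exists_gram hG0
  obtain ⟨Ω, _, _, R, hR⟩ := exists_rademacher r
  have hcard := card_pos' (Ω := Ω)
  let X : Fin m → Ω → ℝ := fun i ω => ∑ k, v k i * R k ω
  have hX2 : ∀ i, ∑ ω, X i ω ^ 2 ≤ Fintype.card Ω := by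
    intro i
    have h1 := (hR (fun k => v k i)).1
    simp only [X]
    rw [h1]
    have h2 : ∑ k, v k i ^ 2 = G0 i i := by
      rw [hv]
      exact Finset.sum_congr rfl fun k _ => pow_two _
    rw [h2]
    have h3 := hG0.2.2 i
    nlinarith
  have hX4 : ∀ i, ∑ ω, X i ω ^ 4 ≤ 3 * Fintype.card Ω := by
    intro i
    have h1 := (hR (fun k => v k i)).2
    have h2 : ∑ k, v k i ^ 2 = G0 i i := by
      rw [hv]
      exact Finset.sum_congr rfl fun k _ => pow_two _
    rw [h2] at h1
    have h3 := hG0.2.2 i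
    have h4 := diag_nonneg hG0.2.1 i
    have h5 : G0 i i ^ 2 ≤ 1 := by nlinarith
    have h6 : 3 * (Fintype.card Ω : ℝ) * G0 i i ^ 2 ≤ 3 * Fintype.card Ω * 1 := by gcongr
    simp only [X]
    linarith
  have hgrX : gr X X = G0 := by
    funext i j
    unfold gr
    rw [div_eq_iff hcard.ne']
    have h1 := (hR (fun k => v k i + v k j)).1
    have h2 := (hR (fun k => v k i)).1
    have h3 := (hR (fun k => v k j)).1
    have h4 : ∑ ω, (∑ k, (v k i + v k j) * R k ω) ^ 2 = ∑ ω, (∑ k, v k i * R k ω) ^ 2 +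
        ∑ ω, (∑ k, v k j * R k ω) ^ 2 + 2 * ∑ ω, X i ω * X j ω := by
      rw [Finset.mul_sum, ← Finset.sum_add_distrib, ← Finset.sum_add_distrib]
      apply Finset.sum_congr rfl
      intro ω _
      simp only [X, add_mul, Finset.sum_add_distrib]
      ring
    have h5 : ∑ k, (v k i + v k j) ^ 2 = ∑ k, v k i ^ 2 + ∑ k, v k j ^ 2 + 2 * G0 i j := by
      rw [hv, Finset.mul_sum, ← Finset.sum_add_distrib, ← Finset.sum_add_distrib]
      exact Finset.sum_congr rfl fun k _ => by ring
    rw [h4, h5, h2, h3] at h1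
    linarith
  -- truncation at height 16
  let Y : Fin m → Ω → ℝ := fun i ω => max (-16) (min 16 (X i ω))
  let Z : Fin m → Ω → ℝ := fun i ω => X i ω - Y i ω
  have hXYZ : X = Y + Z := by
    funext i ω
    simp only [Z, Pi.add_apply]
    ring
  have hYM : ∀ i ω, |Y i ω| ≤ 16 := by
    intro i ω
    rw [abs_le]
    exact ⟨le_max_left _ _, max_le (by norm_num) (min_le_left _ _)⟩
  have hYX : ∀ i ω, Y i ω ^ 2 ≤ X i ω ^ 2 := by
    intro i ω
    rw [sq_le_sq]
    simp only [Y]
    rcases le_total (X i ω) 16 with h1 | h1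
    · rw [min_eq_right h1]
      rcases le_total (-16) (X i ω) with h2 | h2
      · rw [max_eq_right h2]
      · rw [max_eq_left h2, abs_neg, abs_of_pos (by norm_num : (0 : ℝ) < 16),
          abs_of_nonpos (by linarith)]
        linarith
    · rw [min_eq_left h1, max_eq_right (by norm_num), abs_of_pos (by norm_num : (0 : ℝ) < 16),
        abs_of_nonneg (by linarith)]
      exact h1
  have hZX : ∀ i ω, 256 * Z i ω ^ 2 ≤ X i ω ^ 4 := by
    intro i ω
    simp only [Z, Y]
    rcases le_total (X i ω) 16 with h1 | h1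
    · rw [min_eq_right h1]
      rcases le_total (-16) (X i ω) with h2 | h2
      · rw [max_eq_right h2, sub_self]
        have : 0 ≤ X i ω ^ 4 := by positivity
        linarith
      · rw [max_eq_left h2]
        have h3 : (X i ω - -16) ^ 2 ≤ X i ω ^ 2 := by nlinarith
        have h4 : 256 ≤ X i ω ^ 2 := by nlinarith
        nlinarith [sq_nonneg (X i ω)]
    · rw [min_eq_left h1, max_eq_right (by norm_num)]
      have h3 : (X i ω - 16) ^ 2 ≤ X i ω ^ 2 := by nlinarith
      have h4 : 256 ≤ X i ω ^ 2 := by nlinarith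
      nlinarith [sq_nonneg (X i ω)]
  have hY2 : ∀ i, ∑ ω, Y i ω ^ 2 ≤ Fintype.card Ω := fun i =>
    (Finset.sum_le_sum fun ω _ => hYX i ω).trans (hX2 i)
  -- `8 Z` is in the unit ball
  have hZ2 : ∀ i, ∑ ω, ((8 : ℝ) • Z) i ω ^ 2 ≤ Fintype.card Ω := by
    intro i
    have h1 : ∑ ω, 256 * Z i ω ^ 2 ≤ (3 : ℝ) * Fintype.card Ω :=
      (Finset.sum_le_sum fun ω _ => hZX i ω).trans (hX4 i)
    rw [← Finset.mul_sum] at h1
    simp only [Pi.smul_apply, smul_eq_mul, mul_pow]
    rw [← Finset.mul_sum]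
    linarith
  have hF1 : |F A (gr Y Y)| ≤ 256 := by
    have := F_gr_bounded hA1 (by norm_num : (0 : ℝ) < 16) hYM
    norm_num at this
    exact this
  have hF2 : |F A (gr Z Z)| ≤ T / 64 := by
    have h1 := hT' _ (gr_mem hZ2)
    rw [F_gr_smul_left, F_gr_smul_right, ← mul_assoc, abs_mul] at h1
    norm_num at h1
    linarith
  have hF3 : |F A (gr Y Z)| ≤ T / 4 := by
    have hplus : ∀ i, ∑ ω, (((1 / 2 : ℝ)) • (Y + (8 : ℝ) • Z)) i ω ^ 2 ≤ Fintype.card Ω := by
      intro i
      calc ∑ ω, (((1 / 2 : ℝ)) • (Y + (8 : ℝ) • Z)) i ω ^ 2 ≤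
            ∑ ω, (Y i ω ^ 2 / 2 + ((8 : ℝ) • Z) i ω ^ 2 / 2) := by
            apply Finset.sum_le_sum
            intro ω _
            simp only [Pi.smul_apply, Pi.add_apply, smul_eq_mul]
            nlinarith [sq_nonneg (Y i ω - 8 * Z i ω)]
        _ ≤ _ := by
            rw [Finset.sum_add_distrib, ← Finset.sum_div, ← Finset.sum_div]
            linarith [hY2 i, hZ2 i]
    have hminus : ∀ i, ∑ ω, (((1 / 2 : ℝ)) • (Y + (-8 : ℝ) • Z)) i ω ^ 2 ≤ Fintype.card Ω := by
      intro i
      calc ∑ ω, (((1 / 2 : ℝ)) • (Y + (-8 : ℝ) • Z)) i ω ^ 2 ≤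
            ∑ ω, (Y i ω ^ 2 / 2 + ((8 : ℝ) • Z) i ω ^ 2 / 2) := by
            apply Finset.sum_le_sum
            intro ω _
            simp only [Pi.smul_apply, Pi.add_apply, smul_eq_mul]
            nlinarith [sq_nonneg (Y i ω + 8 * Z i ω)]
        _ ≤ _ := by
            rw [Finset.sum_add_distrib, ← Finset.sum_div, ← Finset.sum_div]
            linarith [hY2 i, hZ2 i]
    have h1 := hT' _ (gr_mem hplus)
    have h2 := hT' _ (gr_mem hminus)
    simp only [F_gr_smul_left, F_gr_smul_right, F_gr_add_left, F_gr_add_right] at h1 h2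
    rw [F_gr_symm hA Z Y] at h1 h2
    rw [abs_le] at h1 h2 ⊢
    constructor <;> linarith [h1.1, h1.2, h2.1, h2.2]
  have hfin : F A G0 = F A (gr Y Y) + 2 * F A (gr Y Z) + F A (gr Z Z) := by
    have e1 : F A G0 = F A (gr (Y + Z) (Y + Z)) := by rw [← hgrX, ← hXYZ]
    rw [e1, F_gr_add_left, F_gr_add_right, F_gr_add_right, F_gr_symm hA Z Y]
    ring
  have h9 : T ≤ 256 + 2 * (T / 4) + T / 64 := by
    have e : T = |F A (gr Y Y) + 2 * F A (gr Y Z) + F A (gr Z Z)| := by rw [hT, hfin]
    have e3 : |2 * F A (gr Y Z)| ≤ 2 * (T / 4) := by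
      rw [abs_mul, abs_two]
      linarith
    calc T = |F A (gr Y Y) + 2 * F A (gr Y Z) + F A (gr Z Z)| := e
      _ ≤ _ := (abs_add_le _ _).trans (add_le_add ((abs_add_le _ _).trans (add_le_add hF1 e3)) hF2)
  linarith

end Pool.Agent.R274.GT
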