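import Mathlib
import Pool.Agent.R274.GT

namespace Pool.Agent.R274.GT

open Finset

variable {m : ℕ}

theorem F_perturb {A G : Fin m → Fin m → ℝ} (hA : ∀ i j, A i j = A j i) (hG : ∀ i j, G i j = G j i)
    (w ξ : Fin m → ℝ) (c : ℝ) :
    F A (fun k l => (1 - w k) * (1 - w l) * G k l + c * (ξ k * ξ l)) =
      F A G - 2 * ∑ k, w k * ∑ l, A k l * G k l + ∑ k, ∑ l, A k l * (w k * w l * G k l) +
        c * ∑ k, ∑ l, A k l * ξ k * ξ l := by
  unfold F
  have h1 : ∑ k, w k * ∑ l, A k l * G k l = ∑ k, ∑ l, w l * (A k l * G k l) := by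
    rw [Finset.sum_comm]
    apply Finset.sum_congr rfl
    intro k _
    rw [Finset.mul_sum]
    apply Finset.sum_congr rfl
    intro l _
    rw [hA k l, hG k l]
  have h2 : 2 * ∑ k, w k * ∑ l, A k l * G k l =
      ∑ k, ∑ l, w k * (A k l * G k l) + ∑ k, ∑ l, w l * (A k l * G k l) := by
    rw [← h1, two_mul]
    congr 1
    apply Finset.sum_congr rfl
    intro k _
    rw [Finset.mul_sum]
  rw [h2, Finset.mul_sum, ← Finset.sum_add_distrib, ← Finset.sum_sub_distrib, ← Finset.sum_add_distrib,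
    ← Finset.sum_add_distrib]
  apply Finset.sum_congr rfl
  intro k _
  rw [Finset.mul_sum, ← Finset.sum_add_distrib, ← Finset.sum_sub_distrib, ← Finset.sum_add_distrib,
    ← Finset.sum_add_distrib]
  apply Finset.sum_congr rfl
  intro l _
  ring

theorem mem_perturb {G : Fin m → Fin m → ℝ} (hG : G ∈ El m) (w ξ : Fin m → ℝ) {c : ℝ} (hc : 0 ≤ c)
    (h : ∀ k, (1 - w k) * (1 - w k) * G k k + c * (ξ k * ξ k) ≤ 1) :
    (fun k l => (1 - w k) * (1 - w l) * G k l + c * (ξ k * ξ l)) ∈ El m := by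
  obtain ⟨hs, hp, -⟩ := hG
  refine ⟨fun i j => ?_, fun η => ?_, h⟩
  · simp only
    rw [hs i j]
    ring
  · have h1 := hp (fun k => η k * (1 - w k))
    have h2 : 0 ≤ c * (∑ k, η k * ξ k) ^ 2 := by positivity
    have h3 : c * (∑ k, η k * ξ k) ^ 2 = ∑ k, ∑ l, c * ((η k * ξ k) * (η l * ξ l)) := by
      rw [pow_two, Finset.sum_mul_sum, Finset.mul_sum]
      apply Finset.sum_congr rfl
      intro k _
      rw [Finset.mul_sum]
    have h4 : ∑ k, ∑ l, η k * η l * ((1 - w k) * (1 - w l) * G k l + c * (ξ k * ξ l)) =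
        (∑ k, ∑ l, η k * (1 - w k) * (η l * (1 - w l)) * G k l) +
        ∑ k, ∑ l, c * ((η k * ξ k) * (η l * ξ l)) := by
      rw [← Finset.sum_add_distrib]
      apply Finset.sum_congr rfl
      intro k _
      rw [← Finset.sum_add_distrib]
      apply Finset.sum_congr rfl
      intro l _
      ring
    rw [h4, ← h3]
    linarith

theorem le_of_lin {L R C : ℝ} (h : ∀ t : ℝ, 0 < t → t ≤ 1 / 2 → L ≤ R + t * C) : L ≤ R := by
  by_contra hc
  push Not at hc
  have hC : 0 < |C| + 1 := by positivity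
  set t := min (1 / 2) ((L - R) / (2 * (|C| + 1))) with ht
  have ht0 : 0 < t := lt_min (by norm_num) (div_pos (by linarith) (by positivity))
  have h1 := h t ht0 (min_le_left _ _)
  have h2 : t ≤ (L - R) / (2 * (|C| + 1)) := min_le_right _ _
  rw [le_div_iff₀ (by positivity)] at h2
  have h3 : t * C ≤ t * |C| := mul_le_mul_of_nonneg_left (le_abs_self C) ht0.le
  nlinarith

theorem abs_sum_bound {A G : Fin m → Fin m → ℝ} {w : Fin m → ℝ} (hw : ∀ k, |w k| ≤ 1)
    (hG : ∀ k l, |G k l| ≤ 1) : |∑ k, ∑ l, A k l * (w k * w l * G k l)| ≤ ∑ k, ∑ l, |A k l| := by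
  refine (Finset.abs_sum_le_sum_abs _ _).trans (Finset.sum_le_sum fun k _ => ?_)
  refine (Finset.abs_sum_le_sum_abs _ _).trans (Finset.sum_le_sum fun l _ => ?_)
  rw [abs_mul, abs_mul, abs_mul]
  have h1 := hw k
  have h2 := hw l
  have h3 := hG k l
  have h4 : |w k| * |w l| ≤ 1 := mul_le_one₀ h1 (abs_nonneg _) h2
  have h5 : |w k| * |w l| * |G k l| ≤ 1 := mul_le_one₀ h4 (abs_nonneg _) h3
  calc |A k l| * (|w k| * |w l| * |G k l|) ≤ |A k l| * 1 := by gcongr
    _ = |A k l| := mul_one _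

/-- factorization through a diagonal form (dual form of Grothendieck's inequality) -/
theorem exists_diag {A : Fin m → Fin m → ℝ} (hA : ∀ i j, A i j = A j i)
    (hA1 : ∀ s : Fin m → ℝ, (∀ i, |s i| ≤ 1) → |∑ i, ∑ j, A i j * s i * s j| ≤ 1) :
    ∃ μ : Fin m → ℝ, (∀ i, 0 ≤ μ i) ∧ ∑ i, μ i ≤ 600 ∧
      ∀ ξ : Fin m → ℝ, ∑ i, ∑ j, A i j * ξ i * ξ j ≤ ∑ i, μ i * ξ i ^ 2 := by
  obtain ⟨G0, hG0, hmax⟩ := isCompact_El.exists_isMaxOn ⟨_, zero_mem_El (m := m)⟩
    (continuous_F A).continuousOn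
  have hmax' : ∀ G ∈ El m, F A G ≤ F A G0 := fun G hG => hmax hG
  have hb := fun i j => El_bound hG0 i j
  have hd : ∀ i, G0 i i ≤ 1 := hG0.2.2
  have hd0 : ∀ i, 0 ≤ G0 i i := fun i => diag_nonneg hG0.2.1 i
  set μ : Fin m → ℝ := fun i => ∑ j, A i j * G0 i j with hμ
  have hkey : ∀ (w ξ : Fin m → ℝ) (c : ℝ), 0 ≤ c →
      (∀ k, (1 - w k) * (1 - w k) * G0 k k + c * (ξ k * ξ k) ≤ 1) →
      c * ∑ k, ∑ l, A k l * ξ k * ξ l ≤ 2 * ∑ k, w k * μ k -
        ∑ k, ∑ l, A k l * (w k * w l * G0 k l) := by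
    intro w ξ c hc h
    have h1 := hmax' _ (mem_perturb hG0 w ξ hc h)
    rw [F_perturb hA hG0.1] at h1
    simp only [hμ]
    linarith
  have hμ0 : ∀ i, 0 ≤ μ i := by
    intro i
    have h1 : ∀ t : ℝ, 0 < t → t ≤ 1 / 2 → -(2 * μ i) ≤ 0 + t * ∑ k, ∑ l, |A k l| := by
      intro t ht ht2
      have h2 := hkey (fun k => t * (if k = i then 1 else 0)) (fun _ => 0) 0 le_rfl (fun k => by
        have h3 := hd k
        have h4 := hd0 k
        by_cases h5 : k = i
        · rw [if_pos h5]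
          nlinarith
        · rw [if_neg h5]
          nlinarith)
      have h6 : ∑ k, t * (if k = i then (1 : ℝ) else 0) * μ k = t * μ i := by
        rw [Finset.sum_eq_single i]
        · simp
        · intro b _ hb
          simp [hb]
        · simp
      have h7 := abs_sum_bound (A := A) (G := G0) (w := fun k => if k = i then (1 : ℝ) else 0)
        (fun k => by split_ifs <;> simp) hb
      have h8 : ∑ k, ∑ l, A k l * (t * (if k = i then (1 : ℝ) else 0) * (t * (if l = i then 1 else 0)) * G0 k l) =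
          t ^ 2 * ∑ k, ∑ l, A k l * ((if k = i then (1 : ℝ) else 0) * (if l = i then 1 else 0) * G0 k l) := by
        rw [Finset.mul_sum]
        apply Finset.sum_congr rfl
        intro k _
        rw [Finset.mul_sum]
        apply Finset.sum_congr rfl
        intro l _
        ring
      rw [h6, h8] at h2
      simp only [zero_mul] at h2
      rw [abs_le] at h7
      set S := ∑ k, ∑ l, A k l * ((if k = i then (1 : ℝ) else 0) * (if l = i then 1 else 0) * G0 k l)
      set C := ∑ k, ∑ l, |A k l|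
      have h9 : t * S ≤ 2 * μ i := by
        have : t * (t * S) ≤ t * (2 * μ i) := by nlinarith
        exact le_of_mul_le_mul_left this ht
      nlinarith [h7.1]
    have := le_of_lin h1
    linarith
  refine ⟨μ, hμ0, ?_, ?_⟩
  · exact (le_abs_self _).trans (grothendieck hA hA1 hG0)
  · -- first on the cube
    have hcube : ∀ ξ : Fin m → ℝ, (∀ i, |ξ i| ≤ 1) →
        ∑ i, ∑ j, A i j * ξ i * ξ j ≤ ∑ i, μ i * ξ i ^ 2 := by
      intro ξ hξ
      have hξ2 : ∀ k, ξ k ^ 2 ≤ 1 := fun k => by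
        rw [← sq_abs]
        exact pow_le_one₀ (abs_nonneg _) (hξ k)
      apply le_of_lin (C := 2 * ∑ k, μ k + ∑ k, ∑ l, |A k l|)
      intro t ht ht2
      have h2 := hkey (fun k => t * (ξ k ^ 2 / 2 + t)) ξ t ht.le (fun k => by
        have h3 := hd k
        have h4 := hd0 k
        have h5 := hξ2 k
        have h6 : 0 ≤ ξ k ^ 2 := sq_nonneg _
        set a := ξ k ^ 2
        have h7 : (1 - t * (a / 2 + t)) * (1 - t * (a / 2 + t)) ≤ 1 - t * a := by
          have h8 : (a / 2 + t) * (a / 2 + t) ≤ 1 := by nlinarith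
          nlinarith [sq_nonneg t]
        have h9 : (1 - t * (a / 2 + t)) * (1 - t * (a / 2 + t)) * G0 k k ≤
            (1 - t * (a / 2 + t)) * (1 - t * (a / 2 + t)) * 1 :=
          mul_le_mul_of_nonneg_left h3 (mul_self_nonneg _)
        have h10 : ξ k * ξ k = a := (pow_two _).symm
        rw [h10]
        linarith)
      have h7 := abs_sum_bound (A := A) (G := G0) (w := fun k => ξ k ^ 2 / 2 + t)
        (fun k => by
          have h5 := hξ2 k
          have h6 : 0 ≤ ξ k ^ 2 := sq_nonneg _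
          rw [abs_of_nonneg (by positivity)]
          linarith) hb
      have h8 : ∑ k, ∑ l, A k l * (t * (ξ k ^ 2 / 2 + t) * (t * (ξ l ^ 2 / 2 + t)) * G0 k l) =
          t * (t * ∑ k, ∑ l, A k l * ((ξ k ^ 2 / 2 + t) * (ξ l ^ 2 / 2 + t) * G0 k l)) := by
        rw [Finset.mul_sum, Finset.mul_sum]
        apply Finset.sum_congr rfl
        intro k _
        rw [Finset.mul_sum, Finset.mul_sum]
        apply Finset.sum_congr rfl
        intro l _
        ring
      have h9 : ∑ k, t * (ξ k ^ 2 / 2 + t) * μ k = t * ((∑ k, μ k * ξ k ^ 2) / 2 + t * ∑ k, μ k) := by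
        rw [Finset.sum_div, Finset.mul_sum, ← Finset.sum_add_distrib, Finset.mul_sum]
        apply Finset.sum_congr rfl
        intro k _
        ring
      rw [h8, h9] at h2
      rw [abs_le] at h7
      set S := ∑ k, ∑ l, A k l * ((ξ k ^ 2 / 2 + t) * (ξ l ^ 2 / 2 + t) * G0 k l)
      set C := ∑ k, ∑ l, |A k l|
      set L := ∑ k, ∑ l, A k l * ξ k * ξ l
      set R := ∑ k, μ k * ξ k ^ 2
      set M := ∑ k, μ k
      have h10 : t * L ≤ t * (2 * (R / 2 + t * M) - t * S) := by nlinarith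
      have h11 := le_of_mul_le_mul_left h10 ht
      nlinarith [h7.1]
    intro ξ
    set c : ℝ := 1 + ∑ k, |ξ k| with hc
    have hc0 : 0 < c := by
      have : 0 ≤ ∑ k, |ξ k| := Finset.sum_nonneg fun k _ => abs_nonneg _
      linarith
    have hξc : ∀ k, |ξ k| ≤ c := by
      intro k
      have : |ξ k| ≤ ∑ k, |ξ k| := Finset.single_le_sum (f := fun k => |ξ k|) (fun i _ => abs_nonneg _) (Finset.mem_univ k)
      linarith
    have h1 := hcube (fun k => ξ k / c) (fun k => by
      rw [abs_div, abs_of_pos hc0, div_le_one hc0]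
      exact hξc k)
    have h2 : ∑ i, ∑ j, A i j * (ξ i / c) * (ξ j / c) = (∑ i, ∑ j, A i j * ξ i * ξ j) / c ^ 2 := by
      rw [Finset.sum_div]
      apply Finset.sum_congr rfl
      intro i _
      rw [Finset.sum_div]
      apply Finset.sum_congr rfl
      intro j _
      field_simp
    have h3 : ∑ i, μ i * (ξ i / c) ^ 2 = (∑ i, μ i * ξ i ^ 2) / c ^ 2 := by
      rw [Finset.sum_div]
      apply Finset.sum_congr rfl
      intro i _
      field_simp
    rw [h2, h3] at h1
    exact (div_le_div_iff_of_pos_right (by positivity)).1 h1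

theorem id_mem_El : (fun i j : Fin m => if i = j then (1 : ℝ) else 0) ∈ El m := by
  refine ⟨fun i j => by simp [eq_comm], fun ξ => ?_, fun i => by simp⟩
  have : ∑ i, ∑ j, ξ i * ξ j * (if i = j then (1 : ℝ) else 0) = ∑ i, ξ i ^ 2 := by
    apply Finset.sum_congr rfl
    intro i _
    rw [Finset.sum_eq_single i]
    · simp [pow_two]
    · intro j _ hj
      rw [if_neg (fun h => hj h.symm)]
      ring
    · simp
  rw [this]
  positivity

theorem trace_bound {A : Fin m → Fin m → ℝ} (hA : ∀ i j, A i j = A j i)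
    (hA1 : ∀ s : Fin m → ℝ, (∀ i, |s i| ≤ 1) → |∑ i, ∑ j, A i j * s i * s j| ≤ 1) :
    |∑ i, A i i| ≤ 600 := by
  have h1 := grothendieck hA hA1 (id_mem_El (m := m))
  unfold F at h1
  simpa using h1

end Pool.Agent.R274.GT
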