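import Mathlib
import Pool.Agent.H825R3.Seq

namespace Pool.Agent.R274.JT

open NormedSpace Filter Topology

variable {X : Type*} [NormedAddCommGroup X] [NormedSpace ℝ X]

/-- Functionals lying below the upper limit of the sequence `h`. -/
def L (h : ℕ → StrongDual ℝ X) : Set (StrongDual ℝ X) :=
  {w | ∀ (x : X) (c : ℝ), (∀ᶠ n in atTop, h n x ≤ c) → w x ≤ c}

/-- `h'` is a sequence of convex blocks of tails of `h`. -/
def Blk (h' h : ℕ → StrongDual ℝ X) : Prop :=
  ∀ i, h' i ∈ convexHull ℝ (h '' {j | i ≤ j})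

theorem Blk.refl (h : ℕ → StrongDual ℝ X) : Blk h h := fun i =>
  subset_convexHull ℝ _ ⟨i, by simp, rfl⟩

theorem Blk.hull {h' h : ℕ → StrongDual ℝ X} (H : Blk h' h) (n : ℕ) :
    convexHull ℝ (h' '' {j | n ≤ j}) ⊆ convexHull ℝ (h '' {j | n ≤ j}) := by
  apply convexHull_min _ (convex_convexHull ℝ _)
  rintro _ ⟨j, hj, rfl⟩
  refine convexHull_mono ?_ (H j)
  apply Set.image_mono
  intro k hk
  exact le_trans (show n ≤ j from hj) (show j ≤ k from hk)

theorem Blk.trans {h'' h' h : ℕ → StrongDual ℝ X} (H1 : Blk h'' h') (H2 : Blk h' h) :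
    Blk h'' h := fun i => H2.hull i (H1 i)

theorem Blk.sub {h : ℕ → StrongDual ℝ X} {φ : ℕ → ℕ} (hφ : StrictMono φ) : Blk (h ∘ φ) h :=
  fun i => subset_convexHull ℝ _ ⟨φ i, hφ.id_le i, rfl⟩

theorem hull_le {h : ℕ → StrongDual ℝ X} {n : ℕ} {x : X} {c : ℝ} (H : ∀ j, n ≤ j → h j x ≤ c)
    {g : StrongDual ℝ X} (hg : g ∈ convexHull ℝ (h '' {j | n ≤ j})) : g x ≤ c := by
  have : convexHull ℝ (h '' {j | n ≤ j}) ⊆ {g : StrongDual ℝ X | g x ≤ c} := by
    apply convexHull_min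
    · rintro _ ⟨j, hj, rfl⟩
      exact H j hj
    · intro a ha b hb s t hs ht hst
      have ha' : a x ≤ c := ha
      have hb' : b x ≤ c := hb
      change (s • a + t • b) x ≤ c
      simp only [FunLike.coe_add, FunLike.coe_smul, Pi.add_apply,
        Pi.smul_apply, smul_eq_mul]
      have h1 := mul_le_mul_of_nonneg_left ha' hs
      have h2 := mul_le_mul_of_nonneg_left hb' ht
      have h3 : s * c + t * c = c := by rw [← add_mul, hst, one_mul]
      linarith
  exact this hg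

theorem norm_hull {h : ℕ → StrongDual ℝ X} (hb : ∀ n, ‖h n‖ ≤ 1) {n : ℕ}
    {g : StrongDual ℝ X} (hg : g ∈ convexHull ℝ (h '' {j | n ≤ j})) : ‖g‖ ≤ 1 := by
  have : convexHull ℝ (h '' {j | n ≤ j}) ⊆ Metric.closedBall 0 1 := by
    apply convexHull_min _ (convex_closedBall _ _)
    rintro _ ⟨j, -, rfl⟩
    simpa using hb j
  simpa using this hg

theorem Blk.norm {h' h : ℕ → StrongDual ℝ X} (H : Blk h' h) (hb : ∀ n, ‖h n‖ ≤ 1) (n : ℕ) :
    ‖h' n‖ ≤ 1 := norm_hull hb (H n)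

theorem Blk.L_sub {h' h : ℕ → StrongDual ℝ X} (H : Blk h' h) : L h' ⊆ L h := by
  intro w hw x c hc
  obtain ⟨N, hN⟩ := eventually_atTop.1 hc
  apply hw x c
  filter_upwards [eventually_ge_atTop N] with i hi
  exact hull_le (fun j hj => hN j (le_trans hi hj)) (H i)

theorem L_ge {h : ℕ → StrongDual ℝ X} {w : StrongDual ℝ X} (hw : w ∈ L h) {x : X} {c : ℝ}
    (H : ∀ᶠ n in atTop, c ≤ h n x) : c ≤ w x := by
  have := hw (-x) (-c) (by
    filter_upwards [H] with n hn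
    simpa using hn)
  simpa using this

theorem L_norm {h : ℕ → StrongDual ℝ X} (hb : ∀ n, ‖h n‖ ≤ 1) {w : StrongDual ℝ X}
    (hw : w ∈ L h) : ‖w‖ ≤ 1 := by
  refine ContinuousLinearMap.opNorm_le_bound _ (by norm_num) ?_
  intro x
  rw [Real.norm_eq_abs, abs_le]
  have h1 : ∀ n, |h n x| ≤ 1 * ‖x‖ := fun n => by
    have := (h n).le_of_opNorm_le (hb n) x
    simpa using this
  constructor
  · exact L_ge hw (Eventually.of_forall fun n => (abs_le.1 (h1 n)).1)
  · exact hw x _ (Eventually.of_forall fun n => (abs_le.1 (h1 n)).2)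

theorem L_nonempty {h : ℕ → StrongDual ℝ X} (hb : ∀ n, ‖h n‖ ≤ 1) : (L h).Nonempty := by
  have hK := WeakDual.isCompact_closedBall (𝕜 := ℝ) (0 : StrongDual ℝ X) 1
  let u : ℕ → WeakDual ℝ X := fun n => StrongDual.toWeakDual (h n)
  have hu : map u atTop ≤ 𝓟 (WeakDual.toStrongDual ⁻¹' Metric.closedBall (0 : StrongDual ℝ X) 1) := by
    rw [le_principal_iff, mem_map]
    filter_upwards with n
    simpa [u] using hb n
  obtain ⟨w, -, hw⟩ := hK hu
  refine ⟨WeakDual.toStrongDual w, ?_⟩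
  intro x c hc
  have hcl : IsClosed {v : WeakDual ℝ X | v x ≤ c} :=
    isClosed_le (WeakDual.eval_continuous x) continuous_const
  have h1 : ClusterPt w (𝓟 {v : WeakDual ℝ X | v x ≤ c}) := by
    apply hw.mono
    rw [le_principal_iff, mem_map]
    exact hc
  exact isClosed_iff_clusterPt.1 hcl _ h1

/-- The value `r` is reachable at stage with factor `μ`, centre `G`, start `n`. -/
def Up (μ : ℝ) (n : ℕ) (G : StrongDual ℝ X) (h : ℕ → StrongDual ℝ X) (r : ℝ) : Prop :=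
  ∃ g ∈ convexHull ℝ (h '' {j | n ≤ j}), ∃ h', Blk h' h ∧ ∀ w ∈ L h', ‖G + μ • g - w‖ ≤ r

/-- The optimal value. -/
noncomputable def al (μ : ℝ) (n : ℕ) (G : StrongDual ℝ X) (h : ℕ → StrongDual ℝ X) : ℝ :=
  sInf {r | Up μ n G h r}

theorem Up.nonneg {μ : ℝ} {n : ℕ} {G : StrongDual ℝ X} {h : ℕ → StrongDual ℝ X}
    (hb : ∀ n, ‖h n‖ ≤ 1) {r : ℝ} (H : Up μ n G h r) : 0 ≤ r := by
  obtain ⟨g, -, h', hh', H⟩ := H
  obtain ⟨w, hw⟩ := L_nonempty (hh'.norm hb)
  exact (norm_nonneg _).trans (H w hw)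

theorem bddBelow_up {μ : ℝ} {n : ℕ} {G : StrongDual ℝ X} {h : ℕ → StrongDual ℝ X}
    (hb : ∀ n, ‖h n‖ ≤ 1) : BddBelow {r | Up μ n G h r} := ⟨0, fun _ hr => Up.nonneg hb hr⟩

theorem up_big {μ : ℝ} (hμ0 : 0 ≤ μ) (hμ : μ ≤ 1) (n : ℕ) {G : StrongDual ℝ X} (hG : ‖G‖ ≤ 1)
    {h : ℕ → StrongDual ℝ X}
    (hb : ∀ n, ‖h n‖ ≤ 1) : Up μ n G h 3 := by
  refine ⟨h n, subset_convexHull ℝ _ ⟨n, by simp, rfl⟩, h, Blk.refl h, ?_⟩
  intro w hw
  have h1 := L_norm hb hw
  have h2 := hb n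
  calc ‖G + μ • h n - w‖ ≤ ‖G‖ + ‖μ • h n‖ + ‖w‖ := by
        refine (norm_sub_le _ _).trans ?_
        gcongr
        exact norm_add_le _ _
    _ ≤ 1 + 1 * 1 + 1 := by
        gcongr
        rw [norm_smul, Real.norm_eq_abs, abs_of_nonneg hμ0]
        gcongr
    _ = 3 := by norm_num

theorem al_le {μ : ℝ} (hμ0 : 0 ≤ μ) (hμ : μ ≤ 1) (n : ℕ) {G : StrongDual ℝ X} (hG : ‖G‖ ≤ 1)
    {h : ℕ → StrongDual ℝ X}
    (hb : ∀ n, ‖h n‖ ≤ 1) : al μ n G h ≤ 3 := csInf_le (bddBelow_up hb) (up_big hμ0 hμ n hG hb)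

/-- one step of the construction -/
theorem step {μ : ℝ} (hμ0 : 0 ≤ μ) (hμ : μ ≤ 1) (n : ℕ) {G : StrongDual ℝ X} (hG : ‖G‖ ≤ 1)
    {h : ℕ → StrongDual ℝ X} (hb : ∀ n, ‖h n‖ ≤ 1) {ε : ℝ} (hε : 0 < ε) :
    ∃ g ∈ convexHull ℝ (h '' {j | n ≤ j}), ∃ h', Blk h' h ∧
      ∀ w ∈ L h', al μ n G h - 2 * ε ≤ ‖G + μ • g - w‖ ∧ ‖G + μ • g - w‖ ≤ al μ n G h + ε := by
  obtain ⟨r, hr, hr2⟩ := exists_lt_of_csInf_lt (s := {r | Up μ n G h r})
    ⟨3, up_big hμ0 hμ n hG hb⟩ (show sInf {r | Up μ n G h r} < al μ n G h + ε by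
      unfold al; linarith)
  obtain ⟨g, hg, h', hh', H⟩ := hr
  -- a point where the norm is large
  have h1 : ∃ w₀ ∈ L h', al μ n G h - ε < ‖G + μ • g - w₀‖ := by
    by_contra hcon
    push Not at hcon
    have : Up μ n G h (al μ n G h - ε) := ⟨g, hg, h', hh', hcon⟩
    have := csInf_le (bddBelow_up hb) this
    unfold al at this
    linarith
  obtain ⟨w₀, hw₀, hn₀⟩ := h1
  have h2 : ∃ b : X, ‖b‖ ≤ 1 ∧ al μ n G h - ε < (G + μ • g - w₀) b := by
    rcases lt_or_ge (al μ n G h - ε) 0 with hneg | hpos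
    · exact ⟨0, by simp, by simpa using hneg⟩
    · obtain ⟨b, hb1, hb2⟩ := ContinuousLinearMap.exists_lt_apply_of_lt_opNorm _ hn₀
      rw [Real.norm_eq_abs] at hb2
      rcases le_total 0 ((G + μ • g - w₀) b) with h3 | h3
      · exact ⟨b, hb1.le, by rwa [abs_of_nonneg h3] at hb2⟩
      · refine ⟨-b, by simpa using hb1.le, ?_⟩
        rw [abs_of_nonpos h3] at hb2
        rwa [map_neg]
  obtain ⟨b, hb1, hb2⟩ := h2
  have h3 : ∃ᶠ i in atTop, h' i b ≤ w₀ b + ε := by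
    rw [Filter.Frequently]
    intro hcon
    have : w₀ b + ε ≤ w₀ b := L_ge hw₀ (by
      filter_upwards [hcon] with i hi
      exact (not_le.1 hi).le)
    linarith
  obtain ⟨φ, hφ, hφ2⟩ := extraction_of_frequently_atTop h3
  refine ⟨g, hg, h' ∘ φ, (Blk.sub hφ).trans hh', ?_⟩
  intro w hw
  constructor
  · have h4 : w b ≤ w₀ b + ε := hw b _ (Eventually.of_forall hφ2)
    have h5 : (G + μ • g - w) b ≤ ‖G + μ • g - w‖ := by
      calc (G + μ • g - w) b ≤ ‖(G + μ • g - w) b‖ := Real.le_norm_self _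
        _ ≤ ‖G + μ • g - w‖ * ‖b‖ := ContinuousLinearMap.le_opNorm _ _
        _ ≤ ‖G + μ • g - w‖ * 1 := by gcongr
        _ = _ := mul_one _
    simp only [FunLike.coe_sub, FunLike.coe_add, FunLike.coe_smul, Pi.sub_apply,
      Pi.add_apply, Pi.smul_apply, smul_eq_mul] at h5 hb2
    linarith
  · exact (H w ((Blk.sub hφ).L_sub hw)).trans hr2.le

/-- monotonicity of the optimal value -/
theorem al_mono {μ μ' : ℝ} (hμ' : 0 ≤ μ') (hμμ : μ' ≤ μ) (hμ : 0 < μ) {n : ℕ}
    {G g : StrongDual ℝ X} {h h' : ℕ → StrongDual ℝ X} (hb : ∀ n, ‖h n‖ ≤ 1)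
    (hG' : ‖G + (μ - μ') • g‖ ≤ 1) (hμ1 : μ ≤ 1)
    (hg : g ∈ convexHull ℝ (h '' {j | n ≤ j})) (hh' : Blk h' h) :
    al μ n G h ≤ al μ' (n + 1) (G + (μ - μ') • g) h' := by
  have hb' := hh'.norm hb
  apply le_csInf
  · exact ⟨3, up_big hμ' (by linarith) (n + 1) hG' hb'⟩
  · rintro r ⟨g', hg', h'', hh'', H⟩
    apply csInf_le (bddBelow_up hb)
    refine ⟨((μ - μ') / μ) • g + (μ' / μ) • g', ?_, h'', hh''.trans hh', ?_⟩
    · have h1 : g' ∈ convexHull ℝ (h '' {j | n ≤ j}) := by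
        have h2 := hh'.hull (n + 1) hg'
        refine convexHull_mono (Set.image_mono ?_) h2
        intro j hj
        exact le_trans (Nat.le_succ n) hj
      refine convex_convexHull ℝ _ hg h1 ?_ ?_ ?_
      · exact div_nonneg (by linarith) hμ.le
      · exact div_nonneg hμ' hμ.le
      · field_simp
        ring
    · intro w hw
      have h1 := H w hw
      have h2 : G + μ • (((μ - μ') / μ) • g + (μ' / μ) • g') - w =
          G + (μ - μ') • g + μ' • g' - w := by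
        rw [smul_add, smul_smul, smul_smul, mul_div_cancel₀ _ hμ.ne', mul_div_cancel₀ _ hμ.ne']
        abel
      rw [h2]
      exact h1


/-- the whole construction -/
theorem exists_states {f : ℕ → StrongDual ℝ X} (hf : ∀ n, ‖f n‖ ≤ 1) {η : ℝ} (h0 : 0 < η)
    (h1 : η ≤ 1) (ε : ℕ → ℝ) (hε : ∀ n, 0 < ε n) :
    ∃ (G : ℕ → StrongDual ℝ X) (h : ℕ → ℕ → StrongDual ℝ X) (g : ℕ → StrongDual ℝ X),
      G 0 = 0 ∧ h 0 = f ∧ (∀ n, g n ∈ convexHull ℝ (h n '' {j | n ≤ j})) ∧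
      (∀ n, Blk (h (n + 1)) (h n)) ∧ (∀ n, G (n + 1) = G n + (η ^ n - η ^ (n + 1)) • g n) ∧
      (∀ n, ∀ w ∈ L (h (n + 1)),
        al (η ^ n) n (G n) (h n) - 2 * ε n ≤ ‖G n + η ^ n • g n - w‖ ∧
        ‖G n + η ^ n • g n - w‖ ≤ al (η ^ n) n (G n) (h n) + ε n) ∧
      (∀ n, ‖G n‖ ≤ 1 - η ^ n) ∧ ∀ n j, ‖h n j‖ ≤ 1 := by
  have hp : ∀ n, 0 < η ^ n := fun n => pow_pos h0 n
  have hp1 : ∀ n, η ^ n ≤ 1 := fun n => pow_le_one₀ h0.le h1
  have hd : ∀ n, η ^ (n + 1) ≤ η ^ n := fun n => by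
    rw [pow_succ]
    nlinarith [hp n]
  let Inv : ℕ → StrongDual ℝ X × (ℕ → StrongDual ℝ X) → Prop := fun n s =>
    ‖s.1‖ ≤ 1 - η ^ n ∧ ∀ j, ‖s.2 j‖ ≤ 1
  have key : ∀ (n : ℕ) (s : {s // Inv n s}), ∃ (g : StrongDual ℝ X) (s' : {s // Inv (n + 1) s}),
      g ∈ convexHull ℝ (s.1.2 '' {j | n ≤ j}) ∧ Blk s'.1.2 s.1.2 ∧
      s'.1.1 = s.1.1 + (η ^ n - η ^ (n + 1)) • g ∧
      (∀ w ∈ L s'.1.2, al (η ^ n) n s.1.1 s.1.2 - 2 * ε n ≤ ‖s.1.1 + η ^ n • g - w‖ ∧
        ‖s.1.1 + η ^ n • g - w‖ ≤ al (η ^ n) n s.1.1 s.1.2 + ε n) := by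
    rintro n ⟨⟨G, h⟩, hG, hh⟩
    simp only at hG hh
    obtain ⟨g, hg, h', hh', H⟩ := step (hp n).le (hp1 n) n (G := G) (by linarith [hp n]) hh (hε n)
    refine ⟨g, ⟨(G + (η ^ n - η ^ (n + 1)) • g, h'), ?_, hh'.norm hh⟩, hg, hh', rfl, H⟩
    have h2 : ‖g‖ ≤ 1 := norm_hull hh hg
    calc ‖G + (η ^ n - η ^ (n + 1)) • g‖ ≤ ‖G‖ + ‖(η ^ n - η ^ (n + 1)) • g‖ := norm_add_le _ _
      _ ≤ (1 - η ^ n) + (η ^ n - η ^ (n + 1)) * 1 := by
          rw [norm_smul, Real.norm_eq_abs, abs_of_nonneg (by linarith [hd n])]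
          gcongr
          linarith [hd n]
      _ = _ := by ring
  choose g' s' hk1 hk2 hk3 hk4 using key
  let seq : (n : ℕ) → {s // Inv n s} := fun n => Nat.rec ⟨(0, f), by simp, hf⟩ (fun n s => s' n s) n
  refine ⟨fun n => (seq n).1.1, fun n => (seq n).1.2, fun n => g' n (seq n), rfl, rfl,
    fun n => hk1 n _, fun n => hk2 n _, fun n => hk3 n _, fun n => hk4 n _,
    fun n => (seq n).2.1, fun n => (seq n).2.2⟩

/-- **James' theorem** (real scalars): a real Banach space on which every functional attains its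
norm is reflexive. -/
theorem james [CompleteSpace X]
    (h : ¬ Function.Surjective (inclusionInDoubleDual ℝ X)) :
    ∃ F : StrongDual ℝ X, F ≠ 0 ∧ ∀ b : X, ‖b‖ ≤ 1 → F b < ‖F‖ := by
  obtain ⟨x, f, hx, hf, hz, hθ⟩ := Pool.Agent.H825R3.james_seq h (θ := 3 / 4) (δ := 1 / 4)
    (by norm_num) (by norm_num) (by norm_num)
  set η : ℝ := 1 / 16 with hη
  have hη0 : 0 < η := by norm_num [hη]
  have hη1 : η ≤ 1 := by norm_num [hη]
  set ε : ℕ → ℝ := fun n => 1 / 8 * η ^ (n + 1) * (1 / 2) ^ (n + 1) with hε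
  have hε0 : ∀ n, 0 < ε n := fun n => by simp only [hε]; positivity
  obtain ⟨G, h, g, hG0, hh0, hg, hB, hGs, hA, hGn, hhn⟩ := exists_states hf hη0 hη1 ε hε0
  have hp : ∀ n, 0 < η ^ n := fun n => pow_pos hη0 n
  have hp1 : ∀ n, η ^ n ≤ 1 := fun n => pow_le_one₀ hη0.le hη1
  have hd : ∀ n, η ^ (n + 1) ≤ η ^ n := fun n => by
    rw [pow_succ]
    nlinarith [hp n]
  have hgn : ∀ n, ‖g n‖ ≤ 1 := fun n => norm_hull (hhn n) (hg n)
  set a : ℕ → ℝ := fun n => al (η ^ n) n (G n) (h n) with ha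
  have ha3 : ∀ n, a n ≤ 3 := fun n =>
    al_le (hp n).le (hp1 n) n ((hGn n).trans (by linarith [hp n])) (hhn n)
  have hmono : Monotone a := by
    apply monotone_nat_of_le_succ
    intro n
    simp only [ha]
    have := al_mono (hp (n + 1)).le (hd n) (hp n) (hhn n)
      (by rw [← hGs n]; exact (hGn (n + 1)).trans (by linarith [hp (n + 1)])) (hp1 n) (hg n) (hB n)
    rwa [← hGs n] at this
  have hbdd : BddAbove (Set.range a) := ⟨3, by rintro _ ⟨n, rfl⟩; exact ha3 n⟩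
  set α : ℝ := ⨆ n, a n with hα
  have hlim : Tendsto a atTop (𝓝 α) := tendsto_atTop_ciSup hmono hbdd
  have haα : ∀ n, a n ≤ α := fun n => le_ciSup hbdd n
  -- the lower bound
  have ha0 : 1 / 2 ≤ a 0 := by
    simp only [ha]
    apply le_csInf
    · exact ⟨3, up_big (hp 0).le (hp1 0) 0 (by simp [hG0]) (hhn 0)⟩
    · rintro r ⟨g', hg', h', hh', H⟩
      obtain ⟨w, hw⟩ := L_nonempty (hh'.norm (hhn 0))
      have h1 := H w hw
      rw [hG0, zero_add, pow_zero, one_smul] at h1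
      have hw' : w ∈ L f := by
        have := hh'.L_sub hw
        rwa [hh0] at this
      have hg'' : ∃ N, ∀ k, N ≤ k → 1 / 2 ≤ g' (x k) := by
        have hsub : convexHull ℝ (h 0 '' {j | 0 ≤ j}) ⊆
            {v : StrongDual ℝ X | ∃ N, ∀ k, N ≤ k → 1 / 2 ≤ v (x k)} := by
          apply convexHull_min
          · rintro _ ⟨j, -, rfl⟩
            refine ⟨j, fun k hk => ?_⟩
            have := (abs_le.1 (hθ j k hk)).1
            rw [hh0]
            linarith
          · rintro v ⟨N, hN⟩ v' ⟨N', hN'⟩ s t hs ht hst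
            refine ⟨max N N', fun k hk => ?_⟩
            have h2 := hN k (le_trans (le_max_left _ _) hk)
            have h3 := hN' k (le_trans (le_max_right _ _) hk)
            simp only [FunLike.coe_add, FunLike.coe_smul, Pi.add_apply,
              Pi.smul_apply, smul_eq_mul]
            have h4 := mul_le_mul_of_nonneg_left h2 hs
            have h5 := mul_le_mul_of_nonneg_left h3 ht
            have h6 : s * (1 / 2 : ℝ) + t * (1 / 2) = 1 / 2 := by rw [← add_mul, hst, one_mul]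
            linarith
        exact hsub hg'
      obtain ⟨N, hN⟩ := hg''
      have h2 := hN N le_rfl
      have h3 : w (x N) ≤ 0 := hw' (x N) 0 (by
        filter_upwards [eventually_gt_atTop N] with n hn
        rw [hz n N hn])
      have h4 : (g' - w) (x N) ≤ ‖g' - w‖ := by
        calc (g' - w) (x N) ≤ ‖(g' - w) (x N)‖ := Real.le_norm_self _
          _ ≤ ‖g' - w‖ * ‖x N‖ := ContinuousLinearMap.le_opNorm _ _
          _ ≤ ‖g' - w‖ * 1 := by gcongr; exact hx N
          _ = _ := mul_one _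
      simp only [FunLike.coe_sub, Pi.sub_apply] at h4
      linarith
  have hα2 : 1 / 2 ≤ α := ha0.trans (haα 0)
  -- `L g` is contained in every `L (h n)`
  have htrans : ∀ n k, Blk (h (n + k)) (h n) := by
    intro n k
    induction k with
    | zero => exact Blk.refl _
    | succ k ih => exact (hB (n + k)).trans ih
  have hgL : ∀ n, L g ⊆ L (h n) := by
    intro n w hw x' c hc
    obtain ⟨N, hN⟩ := eventually_atTop.1 hc
    apply hw x' c
    filter_upwards [eventually_ge_atTop N, eventually_ge_atTop n] with i hi hi'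
    have h1 : g i ∈ convexHull ℝ (h n '' {j | i ≤ j}) := by
      obtain ⟨k, rfl⟩ := Nat.exists_eq_add_of_le hi'
      exact (htrans n k).hull _ (hg (n + k))
    exact hull_le (fun j hj => hN j (le_trans hi hj)) h1
  obtain ⟨w, hw⟩ := L_nonempty hgn
  have hw1 : ‖w‖ ≤ 1 := L_norm hgn hw
  -- the limit functional
  have hpt : Tendsto (fun n => η ^ n) atTop (𝓝 0) :=
    tendsto_pow_atTop_nhds_zero_of_lt_one hη0.le (by norm_num [hη])
  have hdist : ∀ n, dist (G n) (G (n + 1)) ≤ η ^ n - η ^ (n + 1) := by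
    intro n
    rw [dist_comm, dist_eq_norm, hGs n, add_sub_cancel_left, norm_smul, Real.norm_eq_abs,
      abs_of_nonneg (by linarith [hd n])]
    nlinarith [hgn n, hd n]
  have hsub : ∀ n k, ‖G (n + k) - G n‖ ≤ η ^ n - η ^ (n + k) := by
    intro n k
    induction k with
    | zero => simp
    | succ k ih =>
      calc ‖G (n + (k + 1)) - G n‖ = ‖(G (n + k + 1) - G (n + k)) + (G (n + k) - G n)‖ := by
            congr 1
            rw [sub_add_sub_cancel]
            rfl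
        _ ≤ ‖G (n + k + 1) - G (n + k)‖ + ‖G (n + k) - G n‖ := norm_add_le _ _
        _ ≤ (η ^ (n + k) - η ^ (n + k + 1)) + (η ^ n - η ^ (n + k)) := by
            gcongr
            have := hdist (n + k)
            rwa [dist_comm, dist_eq_norm] at this
        _ = _ := by ring_nf
  have hcau : CauchySeq G := by
    apply cauchySeq_of_le_tendsto_0 (fun n => 2 * η ^ n)
    · intro n m N hn hm
      obtain ⟨k, rfl⟩ := Nat.exists_eq_add_of_le hn
      obtain ⟨l, rfl⟩ := Nat.exists_eq_add_of_le hm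
      rw [dist_eq_norm]
      calc ‖G (N + k) - G (N + l)‖ = ‖(G (N + k) - G N) - (G (N + l) - G N)‖ := by
            congr 1; abel
        _ ≤ ‖G (N + k) - G N‖ + ‖G (N + l) - G N‖ := norm_sub_le _ _
        _ ≤ (η ^ N - η ^ (N + k)) + (η ^ N - η ^ (N + l)) := add_le_add (hsub N k) (hsub N l)
        _ ≤ _ := by linarith [hp (N + k), hp (N + l)]
    · simpa using hpt.const_mul 2
  obtain ⟨Gi, hGi⟩ := cauchySeq_tendsto_of_complete hcau
  have hGid : ∀ n, ‖Gi - G n‖ ≤ η ^ n := by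
    intro n
    have h1 : Tendsto (fun k => ‖G k - G n‖) atTop (𝓝 ‖Gi - G n‖) :=
      (hGi.sub_const (G n)).norm
    apply le_of_tendsto h1
    filter_upwards [eventually_ge_atTop n] with k hk
    obtain ⟨l, rfl⟩ := Nat.exists_eq_add_of_le hk
    linarith [hsub n l, hp (n + l)]
  have hnorm : ‖Gi - w‖ = α := by
    have h1 : Tendsto (fun n => ‖G n + η ^ n • g n - w‖) atTop (𝓝 ‖Gi - w‖) := by
      have h2 : Tendsto (fun n => η ^ n • g n) atTop (𝓝 0) := by
        rw [tendsto_zero_iff_norm_tendsto_zero]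
        apply squeeze_zero (fun _ => norm_nonneg _) _ hpt
        intro n
        rw [norm_smul, Real.norm_eq_abs, abs_of_pos (hp n)]
        nlinarith [hp n, hgn n]
      have h3 := ((hGi.add h2).sub_const w).norm
      simpa using h3
    have hεt : Tendsto ε atTop (𝓝 0) := by
      apply squeeze_zero (fun n => (hε0 n).le) _ hpt
      intro n
      simp only [hε]
      have h4 : (1 / 2 : ℝ) ^ (n + 1) ≤ 1 := pow_le_one₀ (by norm_num) (by norm_num)
      have h5 : (0 : ℝ) < (1 / 2 : ℝ) ^ (n + 1) := by positivity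
      have h6 : (1 / 8 : ℝ) * η ^ (n + 1) ≤ η ^ n := by
        have := hd n
        have := hp (n + 1)
        linarith
      nlinarith [hp n, hp (n + 1)]
    have hlow : Tendsto (fun n => a n - 2 * ε n) atTop (𝓝 α) := by
      simpa using hlim.sub (hεt.const_mul 2)
    have hhigh : Tendsto (fun n => a n + ε n) atTop (𝓝 α) := by
      simpa using hlim.add hεt
    exact tendsto_nhds_unique h1 (tendsto_of_tendsto_of_tendsto_of_le_of_le hlow hhigh
      (fun n => (hA n w (hgL (n + 1) hw)).1) (fun n => (hA n w (hgL (n + 1) hw)).2))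
  -- the partial sums
  have hBn : ∀ n, ‖G n - (1 - η ^ n) • w‖ ≤ α - η ^ n * (α - 1 / 8 * (1 - (1 / 2) ^ n)) := by
    intro n
    induction n with
    | zero => simp [hG0]
    | succ n ih =>
      have h1 : G (n + 1) - (1 - η ^ (n + 1)) • w =
          η • (G n - (1 - η ^ n) • w) + (1 - η) • (G n + η ^ n • g n - w) := by
        rw [hGs n]
        module
      have h2 := (hA n w (hgL (n + 1) hw)).2
      have h3 : ‖G n + η ^ n • g n - w‖ ≤ α + ε n := h2.trans (by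
        have := haα n
        simp only [ha] at this
        linarith)
      calc ‖G (n + 1) - (1 - η ^ (n + 1)) • w‖
          ≤ ‖η • (G n - (1 - η ^ n) • w)‖ + ‖(1 - η) • (G n + η ^ n • g n - w)‖ := by
            rw [h1]; exact norm_add_le _ _
        _ ≤ η * (α - η ^ n * (α - 1 / 8 * (1 - (1 / 2) ^ n))) + (1 - η) * (α + ε n) := by
            rw [norm_smul, norm_smul, Real.norm_eq_abs, Real.norm_eq_abs, abs_of_pos hη0,
              abs_of_nonneg (by linarith : (0 : ℝ) ≤ 1 - η)]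
            gcongr
        _ ≤ α - η ^ (n + 1) * (α - 1 / 8 * (1 - (1 / 2) ^ (n + 1))) := by
            have h4 : (1 - η) * ε n ≤ ε n := by nlinarith [hε0 n]
            have h5 : ε n = η ^ (n + 1) * (1 / 8 * ((1 / 2) ^ n - (1 / 2) ^ (n + 1))) := by
              simp only [hε]
              ring
            have h6 : η * (α - η ^ n * (α - 1 / 8 * (1 - (1 / 2) ^ n))) + (1 - η) * (α + ε n) =
              α - η ^ (n + 1) * (α - 1 / 8 * (1 - (1 / 2) ^ n)) + (1 - η) * ε n := by ring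
            rw [h6]
            calc α - η ^ (n + 1) * (α - 1 / 8 * (1 - (1 / 2) ^ n)) + (1 - η) * ε n
                ≤ α - η ^ (n + 1) * (α - 1 / 8 * (1 - (1 / 2) ^ n)) +
                  η ^ (n + 1) * (1 / 8 * ((1 / 2) ^ n - (1 / 2) ^ (n + 1))) :=
                  add_le_add le_rfl (h4.trans h5.le)
              _ = _ := by ring
  refine ⟨Gi - w, ?_, ?_⟩
  · intro h0
    rw [h0, norm_zero] at hnorm
    linarith
  · intro b hb
    rw [hnorm]
    by_contra hcon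
    push Not at hcon
    have happ : ∀ (F : StrongDual ℝ X) (c : ℝ), ‖F‖ ≤ c → F b ≤ c := by
      intro F c hF
      calc F b ≤ ‖F b‖ := Real.le_norm_self _
        _ ≤ ‖F‖ * ‖b‖ := ContinuousLinearMap.le_opNorm _ _
        _ ≤ ‖F‖ * 1 := by gcongr
        _ ≤ c := by rw [mul_one]; exact hF
    have hfin : ∀ n, w b + 1 / 4 ≤ g n b := by
      intro n
      have h1 : Gi - w = (G n - (1 - η ^ n) • w) + (η ^ n - η ^ (n + 1)) • (g n - w) +
          ((Gi - G (n + 1)) - η ^ (n + 1) • w) := by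
        rw [hGs n]
        module
      have h2 := happ _ _ (hBn n)
      have h3 := happ ((Gi - G (n + 1)) - η ^ (n + 1) • w) (2 * η ^ (n + 1)) (by
        calc ‖(Gi - G (n + 1)) - η ^ (n + 1) • w‖ ≤ ‖Gi - G (n + 1)‖ + ‖η ^ (n + 1) • w‖ :=
              norm_sub_le _ _
          _ ≤ η ^ (n + 1) + η ^ (n + 1) * 1 := by
              rw [norm_smul, Real.norm_eq_abs, abs_of_pos (hp (n + 1))]
              gcongr
              exact hGid _
          _ = _ := by ring)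
      have h4 : (Gi - w) b = (G n - (1 - η ^ n) • w) b + (η ^ n - η ^ (n + 1)) * (g n b - w b) +
          ((Gi - G (n + 1)) - η ^ (n + 1) • w) b := by
        conv_lhs => rw [h1]
        simp
      rw [h4] at hcon
      have h5 : (0 : ℝ) < (1 / 2) ^ n := by positivity
      have h6 := hp n
      have h7 : η ^ (n + 1) = 1 / 16 * η ^ n := by rw [pow_succ, hη]; ring
      rw [h7] at hcon h3
      have h8 : η ^ n * (α - 1 / 8) ≤ η ^ n * (α - 1 / 8 * (1 - (1 / 2) ^ n)) := by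
        gcongr
        linarith
      have h9 : η ^ n * (15 / 16 * (g n b - w b)) ≥ η ^ n * (α - 1 / 8 - 1 / 8) := by
        nlinarith
      have h10 : 15 / 16 * (g n b - w b) ≥ α - 1 / 8 - 1 / 8 := le_of_mul_le_mul_left h9 h6
      linarith
    have h11 : w b + 1 / 4 ≤ w b := L_ge hw (Eventually.of_forall hfin)
    linarith

end Pool.Agent.R274.JT
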