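import Mathlib

/-!
Counting part of the labelled coupon collector (MP_c9564b): for a fixed family `A` of samples,
the proportion of `k`-subsets which complete `A` is nondecreasing for `k ≤ n / 2`.
-/

namespace Pool.Agent.R274.LCC

variable {n : ℕ}

/-- two coupons lie in the same samples of the family `A` -/
def Same (A : Finset (Finset (Fin n))) (a b : Fin n) : Prop := ∀ S ∈ A, (a ∈ S ↔ b ∈ S)

/-- every coupon is seen and any two coupons are separated by the family `A` -/
def Sep (A : Finset (Finset (Fin n))) : Prop :=
  (∀ c, ∃ S ∈ A, c ∈ S) ∧ ∀ a b, Same A a b → a = b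

open Classical in
/-- the `k`-subsets which complete the family `A` -/
noncomputable def good (A : Finset (Finset (Fin n))) (k : ℕ) : Finset (Finset (Fin n)) :=
  (Finset.powersetCard k Finset.univ).filter (fun S => Sep (insert S A))

theorem Same.symm {A : Finset (Finset (Fin n))} {a b : Fin n} (h : Same A a b) : Same A b a :=
  fun S hS => (h S hS).symm

theorem Same.trans {A : Finset (Finset (Fin n))} {a b c : Fin n} (h : Same A a b)
    (h' : Same A b c) : Same A a c := fun S hS => (h S hS).trans (h' S hS)

theorem sep_insert_iff (A : Finset (Finset (Fin n))) (S : Finset (Fin n)) :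
    Sep (insert S A) ↔ (∀ c, c ∈ S ∨ ∃ T ∈ A, c ∈ T) ∧
      ∀ a b, Same A a b → a ≠ b → ¬ (a ∈ S ↔ b ∈ S) := by
  unfold Sep
  constructor
  · rintro ⟨h1, h2⟩
    refine ⟨fun c => ?_, fun a b hab hne h => ?_⟩
    · obtain ⟨T, hT, hc⟩ := h1 c
      rcases Finset.mem_insert.1 hT with rfl | hT
      · exact Or.inl hc
      · exact Or.inr ⟨T, hT, hc⟩
    · apply hne
      apply h2
      intro T hT
      rcases Finset.mem_insert.1 hT with rfl | hT
      · exact h
      · exact hab T hT
  · rintro ⟨h1, h2⟩
    refine ⟨fun c => ?_, fun a b hab => ?_⟩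
    · rcases h1 c with h | ⟨T, hT, hc⟩
      · exact ⟨S, Finset.mem_insert_self _ _, h⟩
      · exact ⟨T, Finset.mem_insert_of_mem hT, hc⟩
    · by_contra hne
      exact h2 a b (fun T hT => hab T (Finset.mem_insert_of_mem hT)) hne
        (hab S (Finset.mem_insert_self _ _))

open Classical in
/-- the coupons which are not separated from some other coupon by `A` -/
noncomputable def paired (A : Finset (Finset (Fin n))) : Finset (Fin n) :=
  Finset.univ.filter (fun x => ∃ y, y ≠ x ∧ Same A x y)

theorem mem_paired {A : Finset (Finset (Fin n))} {x : Fin n} :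
    x ∈ paired A ↔ ∃ y, y ≠ x ∧ Same A x y := by simp [paired]

/-- for a completing sample `S`, the paired coupons are split evenly -/
theorem two_mul_card (A : Finset (Finset (Fin n))) (S : Finset (Fin n))
    (hS : Sep (insert S A)) : (paired A ∩ S).card = (paired A \ S).card := by
  classical
  rw [sep_insert_iff] at hS
  obtain ⟨-, h2⟩ := hS
  have hpart : ∀ x ∈ paired A, ∃ y, y ≠ x ∧ Same A x y := fun x hx => mem_paired.1 hx
  choose! f hf1 hf2 using hpart
  have hfp : ∀ x ∈ paired A, f x ∈ paired A := fun x hx =>
    mem_paired.2 ⟨x, (hf1 x hx).symm, (hf2 x hx).symm⟩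
  have hfs : ∀ x ∈ paired A, (f x ∈ S ↔ x ∉ S) := by
    intro x hx
    have := h2 x (f x) (hf2 x hx) (hf1 x hx).symm
    tauto
  apply le_antisymm
  · apply Finset.card_le_card_of_injOn f
    · intro x hx
      have hx' := Finset.mem_inter.1 hx
      have h3 := hfs x hx'.1
      have h4 := hfp x hx'.1
      simp only [Finset.coe_sdiff, Set.mem_diff, Finset.mem_coe]
      exact ⟨h4, fun h => (h3.1 h) hx'.2⟩
    · intro x hx y hy hxy
      have hx' := Finset.mem_inter.1 hx
      have hy' := Finset.mem_inter.1 hy
      by_contra hne
      have h5 : Same A x y := (hf2 x hx'.1).trans (hxy ▸ (hf2 y hy'.1).symm)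
      exact h2 x y h5 hne ⟨fun _ => hy'.2, fun _ => hx'.2⟩
  · apply Finset.card_le_card_of_injOn f
    · intro x hx
      have hx' := Finset.mem_sdiff.1 hx
      have h3 := hfs x hx'.1
      have h4 := hfp x hx'.1
      simp only [Finset.coe_inter, Set.mem_inter_iff, Finset.mem_coe]
      exact ⟨h4, h3.2 hx'.2⟩
    · intro x hx y hy hxy
      have hx' := Finset.mem_sdiff.1 hx
      have hy' := Finset.mem_sdiff.1 hy
      by_contra hne
      have h5 : Same A x y := (hf2 x hx'.1).trans (hxy ▸ (hf2 y hy'.1).symm)
      exact h2 x y h5 hne ⟨fun h => absurd h hx'.2, fun h => absurd h hy'.2⟩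

theorem mem_good {A : Finset (Finset (Fin n))} {k : ℕ} {S : Finset (Fin n)} :
    S ∈ good A k ↔ S.card = k ∧ Sep (insert S A) := by
  simp [good]

/-- one step of the comparison -/
theorem good_step (A : Finset (Finset (Fin n))) (k : ℕ) (hk : 2 * (k + 1) ≤ n) :
    (good A k).card * (n - k) ≤ (good A (k + 1)).card * (k + 1) := by
  classical
  rcases (good A k).eq_empty_or_nonempty with h0 | ⟨S₀, hS₀⟩
  · simp [h0]
  set d := (paired A ∩ S₀).card with hd
  have hS₀' := mem_good.1 hS₀
  have hcp : (paired A).card = 2 * d := by
    have h1 := Finset.card_inter_add_card_sdiff (paired A) S₀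
    have h2 := two_mul_card A S₀ hS₀'.2
    omega
  have hcd : ∀ S, Sep (insert S A) → (paired A ∩ S).card = d ∧ (paired A \ S).card = d := by
    intro S hS
    have h1 := Finset.card_inter_add_card_sdiff (paired A) S
    have h2 := two_mul_card A S hS
    omega
  have hdk : d ≤ k := by
    rw [hd, ← hS₀'.1]
    exact Finset.card_le_card Finset.inter_subset_right
  -- double counting
  have key : (good A k).card * (n - k - d) ≤ (good A (k + 1)).card * (k + 1 - d) := by
    apply Finset.card_mul_le_card_mul (fun (S T : Finset (Fin n)) => S ⊆ T)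
    · intro S hS
      obtain ⟨hSc, hSs⟩ := mem_good.1 hS
      -- the sets insert y S, y ∉ S unpaired
      have himg : ((Finset.univ \ S) \ paired A).image (fun y => insert y S) ⊆
          Finset.bipartiteAbove (fun (S T : Finset (Fin n)) => S ⊆ T) (good A (k + 1)) S := by
        intro T hT
        obtain ⟨y, hy, rfl⟩ := Finset.mem_image.1 hT
        have hy' := Finset.mem_sdiff.1 hy
        have hyS : y ∉ S := by
          have := Finset.mem_sdiff.1 hy'.1
          exact this.2
        rw [Finset.mem_bipartiteAbove]
        refine ⟨mem_good.2 ⟨by rw [Finset.card_insert_of_notMem hyS, hSc], ?_⟩,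
          Finset.subset_insert _ _⟩
        rw [sep_insert_iff] at hSs ⊢
        refine ⟨fun c => ?_, fun a b hab hne h => ?_⟩
        · rcases hSs.1 c with h | h
          · exact Or.inl (Finset.mem_insert_of_mem h)
          · exact Or.inr h
        · have ha : a ≠ y := by
            rintro rfl
            exact hy'.2 (mem_paired.2 ⟨b, hne.symm, hab⟩)
          have hb : b ≠ y := by
            rintro rfl
            exact hy'.2 (mem_paired.2 ⟨a, hne, hab.symm⟩)
          apply hSs.2 a b hab hne
          simpa [Finset.mem_insert, ha, hb] using h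
      calc n - k - d = ((Finset.univ \ S) \ paired A).card := by
            have h1 := (hcd S hSs).2
            have h2 : (Finset.univ \ S) \ paired A = Finset.univ \ (S ∪ paired A) := by
              ext x; simp
            have h3 : (S ∪ paired A).card = k + d := by
              rw [Finset.card_union, hSc, hcp, Finset.inter_comm, (hcd S hSs).1]
              omega
            rw [h2, Finset.card_sdiff_of_subset (Finset.subset_univ _), h3]
            simp
            omega
        _ = (((Finset.univ \ S) \ paired A).image (fun y => insert y S)).card := by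
            rw [Finset.card_image_of_injOn]
            intro y hy z hz hyz
            have hyS : y ∉ S := (Finset.mem_sdiff.1 (Finset.mem_sdiff.1 hy).1).2
            have h1 : y ∈ insert z S := by
              have : insert y S = insert z S := hyz
              rw [← this]; exact Finset.mem_insert_self _ _
            rcases Finset.mem_insert.1 h1 with h | h
            · exact h
            · exact absurd h hyS
        _ ≤ _ := Finset.card_le_card himg
    · intro T hT
      obtain ⟨hTc, hTs⟩ := mem_good.1 hT
      have himg : Finset.bipartiteBelow (fun (S T : Finset (Fin n)) => S ⊆ T) (good A k) T ⊆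
          (T \ paired A).image (fun y => T.erase y) := by
        intro S hS
        rw [Finset.mem_bipartiteBelow] at hS
        obtain ⟨hS1, hST⟩ := hS
        obtain ⟨hSc, hSs⟩ := mem_good.1 hS1
        have h1 : (T \ S).card = 1 := by
          rw [Finset.card_sdiff_of_subset hST, hTc, hSc]; omega
        obtain ⟨y, hy⟩ := Finset.card_eq_one.1 h1
        have hyT : y ∈ T \ S := by rw [hy]; exact Finset.mem_singleton_self _
        have hyT' := Finset.mem_sdiff.1 hyT
        refine Finset.mem_image.2 ⟨y, Finset.mem_sdiff.2 ⟨hyT'.1, ?_⟩, ?_⟩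
        · intro hyp
          obtain ⟨z, hz, hyz⟩ := mem_paired.1 hyp
          rw [sep_insert_iff] at hSs hTs
          have h2 := hSs.2 y z hyz hz.symm
          have h3 := hTs.2 y z hyz hz.symm
          have h4 : z ∈ S := by
            by_contra h
            exact h2 ⟨fun h' => absurd h' hyT'.2, fun h' => absurd h' h⟩
          exact h3 ⟨fun _ => hST h4, fun _ => hyT'.1⟩
        · ext x
          rw [Finset.mem_erase]
          constructor
          · rintro ⟨hxy, hxT⟩
            by_contra hxS
            have : x ∈ T \ S := Finset.mem_sdiff.2 ⟨hxT, hxS⟩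
            rw [hy, Finset.mem_singleton] at this
            exact hxy this
          · intro hxS
            refine ⟨?_, hST hxS⟩
            rintro rfl
            exact hyT'.2 hxS
      calc _ ≤ ((T \ paired A).image (fun y => T.erase y)).card := Finset.card_le_card himg
        _ ≤ (T \ paired A).card := Finset.card_image_le
        _ = k + 1 - d := by
            have h1 := Finset.card_inter_add_card_sdiff T (paired A)
            have h2 := (hcd T hTs).1
            rw [Finset.inter_comm] at h2
            omega
  -- arithmetic
  obtain ⟨e, he⟩ : ∃ e, k = d + e := ⟨k - d, by omega⟩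
  obtain ⟨m, hm⟩ : ∃ m, n = 2 * (k + 1) + m := ⟨n - 2 * (k + 1), by omega⟩
  have e1 : n - k - d = e + 2 + m := by omega
  have e2 : k + 1 - d = e + 1 := by omega
  have e3 : n - k = d + e + 2 + m := by omega
  rw [e1, e2] at key
  rw [e3]
  set a := (good A k).card
  set b := (good A (k + 1)).card
  have h5 : (a * (d + e + 2 + m)) * (e + 1) ≤ (b * (k + 1)) * (e + 1) := by
    have h6 : (a * (e + 2 + m)) * (k + 1) ≤ (b * (e + 1)) * (k + 1) :=
      Nat.mul_le_mul_right _ key
    have h7 : (d + e + 2 + m) * (e + 1) ≤ (e + 2 + m) * (k + 1) := by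
      rw [he]; nlinarith
    calc (a * (d + e + 2 + m)) * (e + 1) = a * ((d + e + 2 + m) * (e + 1)) := by ring
      _ ≤ a * ((e + 2 + m) * (k + 1)) := Nat.mul_le_mul_left _ h7
      _ = (a * (e + 2 + m)) * (k + 1) := by ring
      _ ≤ (b * (e + 1)) * (k + 1) := h6
      _ = (b * (k + 1)) * (e + 1) := by ring
  exact Nat.le_of_mul_le_mul_right h5 (by omega)

/-- cross-multiplied monotonicity of the proportion of completing subsets -/
theorem good_mono_succ (A : Finset (Finset (Fin n))) (k : ℕ) (hk : 2 * (k + 1) ≤ n) :
    (good A k).card * n.choose (k + 1) ≤ (good A (k + 1)).card * n.choose k := by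
  have h1 := good_step A k hk
  have h2 : n.choose (k + 1) * (k + 1) = n.choose k * (n - k) := Nat.choose_succ_right_eq n k
  have h3 : ((good A k).card * n.choose (k + 1)) * (k + 1) ≤
      ((good A (k + 1)).card * n.choose k) * (k + 1) := by
    calc ((good A k).card * n.choose (k + 1)) * (k + 1)
        = (good A k).card * (n.choose (k + 1) * (k + 1)) := by ring
      _ = (good A k).card * (n.choose k * (n - k)) := by rw [h2]
      _ = ((good A k).card * (n - k)) * n.choose k := by ring
      _ ≤ ((good A (k + 1)).card * (k + 1)) * n.choose k := Nat.mul_le_mul_right _ h1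
      _ = _ := by ring
  exact Nat.le_of_mul_le_mul_right h3 (by omega)

/-- the proportion of completing `k`-subsets, as a nonnegative extended real -/
noncomputable def prop (A : Finset (Finset (Fin n))) (k : ℕ) : ENNReal :=
  (good A k).card / n.choose k

theorem prop_mono_succ (A : Finset (Finset (Fin n))) (k : ℕ) (hk : 2 * (k + 1) ≤ n) :
    prop A k ≤ prop A (k + 1) := by
  unfold prop
  have h1 := good_mono_succ A k hk
  have hc1 : n.choose k ≠ 0 := (Nat.choose_pos (by omega)).ne'
  have hc2 : n.choose (k + 1) ≠ 0 := (Nat.choose_pos (by omega)).ne'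
  rw [ENNReal.div_le_iff (by exact_mod_cast hc1) (ENNReal.natCast_ne_top _)]
  rw [mul_comm, ← mul_div_assoc]
  rw [ENNReal.le_div_iff_mul_le (Or.inl (by exact_mod_cast hc2))
    (Or.inl (ENNReal.natCast_ne_top _))]
  have : ((good A k).card * n.choose (k + 1) : ℕ) ≤ n.choose k * (good A (k + 1)).card := by
    rw [mul_comm (n.choose k)]; exact h1
  exact_mod_cast this

theorem prop_mono (A : Finset (Finset (Fin n))) {k₁ k₂ : ℕ} (h : k₁ ≤ k₂) (hk : 2 * k₂ ≤ n) :
    prop A k₁ ≤ prop A k₂ := by
  induction k₂, h using Nat.le_induction with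
  | base => exact le_rfl
  | succ m hm ih => exact (ih (by omega)).trans (prop_mono_succ A m hk)

end Pool.Agent.R274.LCC
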