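import Mathlib
import Pool.Agent.R274.LCC1

/-!
Probabilistic part of the labelled coupon collector (MP_c9564b).
-/

open MeasureTheory ProbabilityTheory ENNReal

namespace Pool.Agent.R274.LCC

variable {n : ℕ}

open Classical in
/-- the probability that `A` together with `t` independent samples with weights `w` is separating -/
noncomputable def F (w : Finset (Fin n) → ℝ≥0∞) : ℕ → Finset (Finset (Fin n)) → ℝ≥0∞
  | 0, A => if Sep A then 1 else 0
  | t + 1, A => ∑ S, w S * F w t (insert S A)

/-- `w` is base-dominated by `w'` -/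
def Base (w w' : Finset (Fin n) → ℝ≥0∞) : Prop :=
  ∀ A, F w 1 A ≤ F w' 1 A

theorem F_swap {w w' v : Finset (Fin n) → ℝ≥0∞} (h : Base w w') (t : ℕ)
    (A : Finset (Finset (Fin n))) :
    ∑ S, w S * F v t (insert S A) ≤ ∑ S, w' S * F v t (insert S A) := by
  induction t generalizing A with
  | zero =>
    have := h A
    simpa [F] using this
  | succ t ih =>
    have key : ∀ u : Finset (Fin n) → ℝ≥0∞, ∑ S, u S * F v (t + 1) (insert S A) =
        ∑ R, v R * ∑ S, u S * F v t (insert S (insert R A)) := by
      intro u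
      simp only [F, Finset.mul_sum]
      rw [Finset.sum_comm]
      refine Finset.sum_congr rfl fun R _ => Finset.sum_congr rfl fun S _ => ?_
      rw [Finset.insert_comm R S A]
      ring
    rw [key, key]
    exact Finset.sum_le_sum fun R _ => mul_le_mul_right (ih _) _

theorem F_mono {w w' : Finset (Fin n) → ℝ≥0∞} (h : Base w w') (t : ℕ)
    (A : Finset (Finset (Fin n))) : F w t A ≤ F w' t A := by
  induction t generalizing A with
  | zero => simp [F]
  | succ t ih =>
    calc F w (t + 1) A = ∑ S, w S * F w t (insert S A) := rfl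
      _ ≤ ∑ S, w S * F w' t (insert S A) :=
          Finset.sum_le_sum fun R _ => mul_le_mul_right (ih _) _
      _ ≤ ∑ S, w' S * F w' t (insert S A) := F_swap h t A
      _ = F w' (t + 1) A := rfl

/-! ### recovery -/

/-- The matching `σ` is recovered after the first `t` samples of the sequence `ω`: every coupon has
been sampled and `σ` is the only bijection consistent with the observations. -/
def Recovered (σ : Fin n ≃ Fin n) (ω : ℕ → Finset (Fin n)) (t : ℕ) : Prop :=
  (∀ c, ∃ i < t, c ∈ ω i) ∧
    ∀ τ : Fin n ≃ Fin n,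
      (∀ i < t, (ω i).map τ.toEmbedding = (ω i).map σ.toEmbedding) → τ = σ

theorem recovered_iff (σ : Fin n ≃ Fin n) (ω : ℕ → Finset (Fin n)) (t : ℕ) :
    Recovered σ ω t ↔ Sep ((Finset.range t).image ω) := by
  unfold Recovered Sep
  constructor
  · rintro ⟨h1, h2⟩
    refine ⟨fun c => ?_, fun a b hab => ?_⟩
    · obtain ⟨i, hi, hc⟩ := h1 c
      exact ⟨ω i, Finset.mem_image_of_mem _ (Finset.mem_range.2 hi), hc⟩
    · have h3 : (Equiv.swap a b).trans σ = σ := by
        apply h2
        intro i hi
        have h4 := hab (ω i) (Finset.mem_image_of_mem _ (Finset.mem_range.2 hi))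
        have h5 : (ω i).map (Equiv.swap a b).toEmbedding = ω i := by
          ext c
          rw [Finset.mem_map_equiv, Equiv.symm_swap]
          rcases eq_or_ne c a with rfl | hca
          · rw [Equiv.swap_apply_left]; exact h4.symm
          · rcases eq_or_ne c b with rfl | hcb
            · rw [Equiv.swap_apply_right]; exact h4
            · rw [Equiv.swap_apply_of_ne_of_ne hca hcb]
        conv_rhs => rw [← h5]
        rw [Finset.map_map]
        rfl
      have h6 := congrArg (fun e : Fin n ≃ Fin n => e a) h3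
      simp only [Equiv.trans_apply, Equiv.swap_apply_left] at h6
      exact (σ.injective h6).symm
  · rintro ⟨h1, h2⟩
    refine ⟨fun c => ?_, fun τ hτ => ?_⟩
    · obtain ⟨S, hS, hc⟩ := h1 c
      obtain ⟨i, hi, rfl⟩ := Finset.mem_image.1 hS
      exact ⟨i, Finset.mem_range.1 hi, hc⟩
    · ext1 c
      have h3 : c = σ.symm (τ c) := by
        apply h2
        intro S hS
        obtain ⟨i, hi, rfl⟩ := Finset.mem_image.1 hS
        have h4 := hτ i (Finset.mem_range.1 hi)
        have h5 : τ c ∈ (ω i).map τ.toEmbedding ↔ τ c ∈ (ω i).map σ.toEmbedding := by rw [h4]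
        rw [Finset.mem_map_equiv, Finset.mem_map_equiv, Equiv.symm_apply_apply] at h5
        exact h5
      have h7 := congrArg σ h3
      rw [Equiv.apply_symm_apply] at h7
      exact h7.symm

theorem Recovered.mono {σ : Fin n ≃ Fin n} {ω : ℕ → Finset (Fin n)} {s t : ℕ}
    (h : Recovered σ ω s) (hst : s ≤ t) : Recovered σ ω t := by
  refine ⟨fun c => ?_, fun τ hτ => h.2 τ fun i hi => hτ i (hi.trans_le hst)⟩
  obtain ⟨i, hi, hc⟩ := h.1 c
  exact ⟨i, hi.trans_le hst, hc⟩

/-- the recovery time: the first `t` at which the matching is recovered -/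
noncomputable def recTime (σ : Fin n ≃ Fin n) (ω : ℕ → Finset (Fin n)) : ℕ∞ :=
  ⨅ (t : ℕ) (_ : Recovered σ ω t), (t : ℕ∞)

open Classical in
theorem recTime_eq_tsum (σ : Fin n ≃ Fin n) (ω : ℕ → Finset (Fin n)) :
    ((recTime σ ω : ℕ∞) : ℝ≥0∞) = ∑' t : ℕ, if Recovered σ ω t then 0 else 1 := by
  by_cases h : ∃ t, Recovered σ ω t
  · have h1 : recTime σ ω = (Nat.find h : ℕ∞) := by
      apply le_antisymm
      · exact iInf₂_le (Nat.find h) (Nat.find_spec h)
      · refine le_iInf₂ fun t ht => ?_
        exact_mod_cast Nat.find_min' h ht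
    rw [h1, tsum_eq_sum (s := Finset.range (Nat.find h))]
    · rw [Finset.sum_congr rfl (g := fun _ => (1 : ℝ≥0∞))]
      · simp
      · intro t ht
        rw [if_neg (Nat.find_min h (Finset.mem_range.1 ht))]
    · intro t ht
      rw [if_pos]
      exact (Nat.find_spec h).mono (not_lt.1 fun h' => ht (Finset.mem_range.2 h'))
  · push Not at h
    have h1 : recTime σ ω = ⊤ := by
      simp [recTime, h]
    rw [h1]
    simp [h]

/-! ### independent samples -/

theorem prob_eq_F {Ω : Type*} [MeasurableSpace Ω] {μ : Measure Ω} [IsProbabilityMeasure μ]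
    {X : ℕ → Ω → Finset (Fin n)} (hX : ∀ i, Measurable (X i)) (hI : iIndepFun X μ)
    {w : Finset (Fin n) → ℝ≥0∞} (hw : ∀ i S, μ (X i ⁻¹' {S}) = w S) (t : ℕ)
    (A : Finset (Finset (Fin n))) :
    μ {ω | Sep (A ∪ (Finset.range t).image (fun i => X i ω))} = F w t A := by
  induction t generalizing A with
  | zero =>
    by_cases h : Sep A <;> simp [F, h]
  | succ t ih =>
    -- split according to the value of `X t`
    have hmeas : ∀ B : Finset (Finset (Fin n)), MeasurableSet
        {f : ↥(Finset.range t) → Finset (Fin n) | Sep (B ∪ Finset.univ.image f)} :=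
      fun B => (Set.toFinite _).measurableSet
    have hdisj : Disjoint (Finset.range t) {t} := by simp
    have hind := hI.indepFun_finset (Finset.range t) {t} hdisj (fun i => hX i)
    have hset : ∀ B : Finset (Finset (Fin n)),
        {ω | Sep (B ∪ (Finset.range t).image (fun i => X i ω))} =
        (fun ω (i : (Finset.range t : Finset ℕ)) => X i ω) ⁻¹'
          {f : ↥(Finset.range t) → Finset (Fin n) |
            Sep (B ∪ Finset.univ.image f)} := by
      intro B
      ext ω
      simp only [Set.mem_ofPred_eq, Set.mem_preimage]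
      have : (Finset.range t).image (fun i => X i ω) =
          Finset.univ.image (fun i : (Finset.range t : Finset ℕ) => X i ω) := by
        ext S
        simp
      rw [this]
    have hsplit : {ω | Sep (A ∪ (Finset.range (t + 1)).image (fun i => X i ω))} =
        ⋃ S ∈ (Finset.univ : Finset (Finset (Fin n))),
          ({ω | Sep (insert S A ∪ (Finset.range t).image (fun i => X i ω))} ∩ X t ⁻¹' {S}) := by
      ext ω
      simp only [Set.mem_ofPred_eq, Finset.mem_univ, Set.iUnion_true, Set.mem_iUnion,
        Set.mem_inter_iff, Set.mem_preimage, Set.mem_singleton_iff, exists_eq_right']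
      rw [Finset.range_add_one, Finset.image_insert]
      have : A ∪ insert (X t ω) (Finset.image (fun i => X i ω) (Finset.range t)) =
          insert (X t ω) A ∪ Finset.image (fun i => X i ω) (Finset.range t) := by
        ext S
        simp only [Finset.mem_union, Finset.mem_insert]
        tauto
      rw [this]
    rw [hsplit, measure_biUnion_finset]
    · simp only [F]
      refine Finset.sum_congr rfl fun S _ => ?_
      rw [hset]
      have h1 : X t ⁻¹' {S} = (fun ω (i : ({t} : Finset ℕ)) => X i ω) ⁻¹'
          {f : ↥({t} : Finset ℕ) → Finset (Fin n) | f ⟨t, Finset.mem_singleton_self t⟩ = S} := by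
        ext ω
        simp
      rw [h1, hind.measure_inter_preimage_eq_mul _ _ (hmeas _) (Set.toFinite _).measurableSet,
        ← h1, ← hset, ih, hw, mul_comm]
    · intro S _ S' _ hSS'
      rw [Function.onFun, Set.disjoint_left]
      rintro ω ⟨-, h1⟩ ⟨-, h2⟩
      exact hSS' (h1.symm.trans h2)
    · intro S _
      rw [hset]
      have hm : Measurable (fun ω (i : ↥(Finset.range t)) => X i ω) :=
        measurable_pi_lambda _ fun i => hX i
      exact (hm (hmeas _)).inter (hX t (measurableSet_singleton S))

/-- the expected recovery time when the samples are independent with law `ν`;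
the sample space is the space of all sequences of samples with the product measure -/
noncomputable def expTime (σ : Fin n ≃ Fin n) (ν : Measure (Finset (Fin n))) : ℝ≥0∞ :=
  ∫⁻ ω, ((recTime σ ω : ℕ∞) : ℝ≥0∞) ∂(Measure.infinitePi fun _ : ℕ => ν)

theorem prob_recovered (σ : Fin n ≃ Fin n) (ν : Measure (Finset (Fin n)))
    [IsProbabilityMeasure ν] (t : ℕ) :
    (Measure.infinitePi fun _ : ℕ => ν) {ω | Recovered σ ω t} = F (fun S => ν {S}) t ∅ := by
  have hI : iIndepFun (fun (i : ℕ) (ω : ℕ → Finset (Fin n)) => ω i)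
      (Measure.infinitePi fun _ : ℕ => ν) :=
    iIndepFun_infinitePi (X := fun _ S => S) (fun _ => measurable_id)
  have hw : ∀ (i : ℕ) (S : Finset (Fin n)), (Measure.infinitePi fun _ : ℕ => ν)
      ((fun ω : ℕ → Finset (Fin n) => ω i) ⁻¹' {S}) = ν {S} := by
    intro i S
    rw [← Measure.map_apply (measurable_pi_apply i) (measurableSet_singleton S)]
    have := Measure.infinitePi_map_eval (fun _ : ℕ => ν) i
    rw [this]
  rw [← prob_eq_F (fun i => measurable_pi_apply i) hI hw t ∅]
  congr 1
  ext ω
  simp only [Set.mem_ofPred_eq, Finset.empty_union]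
  exact recovered_iff σ ω t

theorem measurableSet_recovered (σ : Fin n ≃ Fin n) (t : ℕ) :
    MeasurableSet {ω : ℕ → Finset (Fin n) | Recovered σ ω t} := by
  have hset : {ω : ℕ → Finset (Fin n) | Recovered σ ω t} =
      (fun ω (i : ↥(Finset.range t)) => ω i) ⁻¹'
        {f : ↥(Finset.range t) → Finset (Fin n) | Sep (Finset.univ.image f)} := by
    ext ω
    simp only [Set.mem_ofPred_eq, Set.mem_preimage]
    rw [recovered_iff]
    have : (Finset.range t).image ω =
        Finset.univ.image (fun i : ↥(Finset.range t) => ω i) := by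
      ext S
      simp
    rw [this]
  rw [hset]
  have hm : Measurable (fun (ω : ℕ → Finset (Fin n)) (i : ↥(Finset.range t)) => ω i) :=
    measurable_pi_lambda _ fun i => measurable_pi_apply _
  exact hm (Set.toFinite _).measurableSet

theorem expTime_eq (σ : Fin n ≃ Fin n) (ν : Measure (Finset (Fin n)))
    [IsProbabilityMeasure ν] :
    expTime σ ν = ∑' t : ℕ, (1 - F (fun S => ν {S}) t ∅) := by
  classical
  unfold expTime
  simp_rw [recTime_eq_tsum]
  rw [lintegral_tsum]
  · refine tsum_congr fun t => ?_
    have h1 : (fun ω : ℕ → Finset (Fin n) => if Recovered σ ω t then (0 : ℝ≥0∞) else 1) =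
        ({ω : ℕ → Finset (Fin n) | Recovered σ ω t}ᶜ).indicator (fun _ => 1) := by
      ext ω
      by_cases h : Recovered σ ω t <;> simp [h]
    rw [h1, lintegral_indicator_const (measurableSet_recovered σ t).compl, one_mul,
      prob_compl_eq_one_sub (measurableSet_recovered σ t), prob_recovered]
  · intro t
    have h1 : (fun ω : ℕ → Finset (Fin n) => if Recovered σ ω t then (0 : ℝ≥0∞) else 1) =
        ({ω : ℕ → Finset (Fin n) | Recovered σ ω t}ᶜ).indicator (fun _ => 1) := by
      ext ω
      by_cases h : Recovered σ ω t <;> simp [h]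
    rw [h1]
    exact (measurable_const.indicator (measurableSet_recovered σ t).compl).aemeasurable

theorem expTime_anti (σ : Fin n ≃ Fin n) (ν ν' : Measure (Finset (Fin n)))
    [IsProbabilityMeasure ν] [IsProbabilityMeasure ν']
    (h : Base (fun S => ν {S}) (fun S => ν' {S})) : expTime σ ν' ≤ expTime σ ν := by
  rw [expTime_eq, expTime_eq]
  exact ENNReal.tsum_le_tsum fun t => tsub_le_tsub_left (F_mono h t ∅) _

/-! ### the laws of the samples -/

/-- the law of a sample of fixed size `k`: uniform on the `k`-element subsets of `Fin n` -/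
noncomputable def sampleLaw (n k : ℕ) : Measure (Finset (Fin n)) :=
  uniformOn {S : Finset (Fin n) | S.card = k}

/-- the law of a sample whose size is `k₁` with probability `p` and `k₂` with probability `1 - p` -/
noncomputable def mixedLaw (n k₁ k₂ : ℕ) (p : ℝ) : Measure (Finset (Fin n)) :=
  ENNReal.ofReal p • sampleLaw n k₁ + ENNReal.ofReal (1 - p) • sampleLaw n k₂

theorem isProb_sampleLaw {n k : ℕ} (h : k ≤ n) : IsProbabilityMeasure (sampleLaw n k) := by
  apply isProbabilityMeasure_uniformOn (Set.toFinite _)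
  obtain ⟨S, hS⟩ := Finset.exists_subset_card_eq (s := (Finset.univ : Finset (Fin n))) (n := k)
    (by simpa using h)
  exact ⟨S, hS.2⟩

theorem isProb_mixedLaw {n k₁ k₂ : ℕ} {p : ℝ} (h₁ : k₁ ≤ n) (h₂ : k₂ ≤ n) (hp : 0 ≤ p)
    (hp' : p ≤ 1) : IsProbabilityMeasure (mixedLaw n k₁ k₂ p) := by
  have := isProb_sampleLaw h₁
  have := isProb_sampleLaw h₂
  constructor
  simp only [mixedLaw, Measure.coe_add, Measure.coe_smul, Pi.add_apply, Pi.smul_apply,
    measure_univ, smul_eq_mul, mul_one]
  rw [← ENNReal.ofReal_add hp (by linarith)]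
  simp

theorem sampleLaw_singleton {n k : ℕ} (S : Finset (Fin n)) :
    sampleLaw n k {S} = if S.card = k then ((n.choose k : ℕ) : ℝ≥0∞)⁻¹ else 0 := by
  classical
  unfold sampleLaw uniformOn
  rw [cond_apply (Set.toFinite _).measurableSet]
  have h1 : Measure.count {S : Finset (Fin n) | S.card = k} = ((n.choose k : ℕ) : ℝ≥0∞) := by
    have : {S : Finset (Fin n) | S.card = k} =
        ((Finset.powersetCard k (Finset.univ : Finset (Fin n)) : Finset (Finset (Fin n))) :
          Set (Finset (Fin n))) := by
      ext S; simp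
    rw [this, Measure.count_apply_finset]
    simp
  rw [h1]
  split_ifs with h
  · have : {S : Finset (Fin n) | S.card = k} ∩ {S} = {S} := by
      ext T
      simp only [Set.mem_inter_iff, Set.mem_ofPred_eq, Set.mem_singleton_iff]
      constructor
      · exact fun h => h.2
      · rintro rfl
        exact ⟨h, rfl⟩
    rw [this]
    simp
  · have : {S : Finset (Fin n) | S.card = k} ∩ {S} = ∅ := by
      ext T
      simp only [Set.mem_inter_iff, Set.mem_ofPred_eq, Set.mem_singleton_iff,
        Set.mem_empty_iff_false, iff_false, not_and]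
      rintro h' rfl
      exact h h'
    rw [this]
    simp

theorem F_one_sampleLaw (n k : ℕ) (A : Finset (Finset (Fin n))) :
    F (fun S => sampleLaw n k {S}) 1 A = prop A k := by
  classical
  simp only [F, sampleLaw_singleton]
  unfold prop good
  rw [Finset.card_filter]
  push_cast
  rw [div_eq_mul_inv, Finset.sum_mul]
  rw [← Finset.sum_subset (Finset.subset_univ (Finset.powersetCard k Finset.univ))]
  · refine Finset.sum_congr rfl fun S hS => ?_
    have h1 := (Finset.mem_powersetCard.1 hS).2
    rw [if_pos h1, mul_comm]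
  · intro S _ hS
    have h1 : S.card ≠ k := fun h => hS (Finset.mem_powersetCard.2 ⟨Finset.subset_univ _, h⟩)
    rw [if_neg h1, zero_mul]

theorem F_one_mixedLaw (n k₁ k₂ : ℕ) (p : ℝ) (A : Finset (Finset (Fin n))) :
    F (fun S => mixedLaw n k₁ k₂ p {S}) 1 A =
      ENNReal.ofReal p * prop A k₁ + ENNReal.ofReal (1 - p) * prop A k₂ := by
  rw [← F_one_sampleLaw, ← F_one_sampleLaw]
  simp only [F, mixedLaw, Measure.coe_add, Measure.coe_smul, Pi.add_apply, Pi.smul_apply,
    smul_eq_mul, Finset.mul_sum]
  rw [← Finset.sum_add_distrib]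
  refine Finset.sum_congr rfl fun S _ => ?_
  ring

theorem main {n k₁ k₂ : ℕ} (h12 : k₁ < k₂) (h2 : 2 * k₂ ≤ n) {p : ℝ}
    (hp : 0 ≤ p) (hp' : p ≤ 1) (σ : Fin n ≃ Fin n) :
    expTime σ (sampleLaw n k₂) ≤ expTime σ (mixedLaw n k₁ k₂ p) ∧
      expTime σ (mixedLaw n k₁ k₂ p) ≤ expTime σ (sampleLaw n k₁) := by
  have := isProb_sampleLaw (n := n) (k := k₁) (by omega)
  have := isProb_sampleLaw (n := n) (k := k₂) (by omega)
  have := isProb_mixedLaw (n := n) (k₁ := k₁) (k₂ := k₂) (by omega) (by omega) hp hp'
  have hsum : ENNReal.ofReal p + ENNReal.ofReal (1 - p) = 1 := by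
    rw [← ENNReal.ofReal_add hp (by linarith)]
    simp
  constructor
  · apply expTime_anti
    intro A
    rw [F_one_sampleLaw, F_one_mixedLaw]
    have h := prop_mono A h12.le h2
    calc ENNReal.ofReal p * prop A k₁ + ENNReal.ofReal (1 - p) * prop A k₂
        ≤ ENNReal.ofReal p * prop A k₂ + ENNReal.ofReal (1 - p) * prop A k₂ := by gcongr
      _ = prop A k₂ := by rw [← add_mul, hsum, one_mul]
  · apply expTime_anti
    intro A
    rw [F_one_sampleLaw, F_one_mixedLaw]
    have h := prop_mono A h12.le h2
    calc prop A k₁ = ENNReal.ofReal p * prop A k₁ + ENNReal.ofReal (1 - p) * prop A k₁ := by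
          rw [← add_mul, hsum, one_mul]
      _ ≤ ENNReal.ofReal p * prop A k₁ + ENNReal.ofReal (1 - p) * prop A k₂ := by gcongr

end Pool.Agent.R274.LCC
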