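import Mathlib

namespace Pool.Agent.R274.Octa

open Filter Topology Cardinal
open scoped ENNReal

universe u

/-- finitely supported functions on `ℕ × Γ` -/
def W (Γ : Type u) : Type u := (ℕ × Γ) →₀ ℝ

variable {Γ : Type u}

noncomputable instance : AddCommGroup (W Γ) := inferInstanceAs (AddCommGroup ((ℕ × Γ) →₀ ℝ))
noncomputable instance : Module ℝ (W Γ) := inferInstanceAs (Module ℝ ((ℕ × Γ) →₀ ℝ))

/-- the coordinate -/
def W.co (w : W Γ) (p : ℕ × Γ) : ℝ := (show (ℕ × Γ) →₀ ℝ from w) p

/-- the support -/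
def W.supp (w : W Γ) : Finset (ℕ × Γ) := (show (ℕ × Γ) →₀ ℝ from w).support

/-- the unit vector -/
noncomputable def W.e (p : ℕ × Γ) : W Γ := (show W Γ from Finsupp.single p (1 : ℝ))

theorem co_add (v w : W Γ) (p : ℕ × Γ) : (v + w).co p = v.co p + w.co p := rfl
theorem co_sub (v w : W Γ) (p : ℕ × Γ) : (v - w).co p = v.co p - w.co p := rfl
theorem co_neg (v : W Γ) (p : ℕ × Γ) : (-v).co p = -v.co p := rfl
theorem co_smul (t : ℝ) (w : W Γ) (p : ℕ × Γ) : (t • w).co p = t * w.co p := rfl
theorem co_zero (p : ℕ × Γ) : (0 : W Γ).co p = 0 := rfl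
theorem mem_supp (w : W Γ) (p : ℕ × Γ) : p ∈ w.supp ↔ w.co p ≠ 0 := Finsupp.mem_support_iff
theorem ext_co {v w : W Γ} (h : ∀ p, v.co p = w.co p) : v = w := Finsupp.ext h
theorem co_e_self (p : ℕ × Γ) : (W.e p : W Γ).co p = 1 := Finsupp.single_eq_same
theorem co_e_ne {p q : ℕ × Γ} (h : q ≠ p) : (W.e p : W Γ).co q = 0 :=
  Finsupp.single_eq_of_ne h
theorem co_sum {ι : Type*} (s : Finset ι) (f : ι → W Γ) (p : ℕ × Γ) :
    (∑ i ∈ s, f i).co p = ∑ i ∈ s, (f i).co p := by
  classical
  induction s using Finset.induction_on with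
  | empty => rfl
  | insert a s ha ih => rw [Finset.sum_insert ha, Finset.sum_insert ha, co_add, ih]

/-- the weights -/
noncomputable def th (n : ℕ) : ℝ := 1 - 1 / ((n : ℝ) + 2)

theorem th_pos (n : ℕ) : 0 < th n := by
  have h2 : 1 / ((n : ℝ) + 2) < 1 := by
    rw [div_lt_one (by positivity)]
    have : (0 : ℝ) ≤ n := Nat.cast_nonneg n
    linarith
  unfold th
  linarith

theorem th_lt (n : ℕ) : th n < 1 := by
  have h1 : (0 : ℝ) < 1 / ((n : ℝ) + 2) := by positivity
  unfold th
  linarith

variable [LinearOrder Γ]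

/-- the exponent of `p` in `F` -/
def ex (F : Finset (ℕ × Γ)) (p : ℕ × Γ) : ℕ := (F.filter fun q => q.1 = p.1 ∧ p.2 < q.2).card

/-- the sum for a finite set -/
noncomputable def rho (F : Finset (ℕ × Γ)) (w : W Γ) : ℝ := ∑ p ∈ F, th p.1 ^ ex F p * |w.co p|

theorem coef_nonneg (F : Finset (ℕ × Γ)) (p : ℕ × Γ) : 0 ≤ th p.1 ^ ex F p :=
  pow_nonneg (th_pos _).le _

theorem coef_le (F : Finset (ℕ × Γ)) (p : ℕ × Γ) : th p.1 ^ ex F p ≤ 1 :=
  pow_le_one₀ (th_pos _).le (th_lt _).le

theorem rho_nonneg (F : Finset (ℕ × Γ)) (w : W Γ) : 0 ≤ rho F w :=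
  Finset.sum_nonneg fun p _ => mul_nonneg (coef_nonneg F p) (abs_nonneg _)

theorem rho_le_sum (F : Finset (ℕ × Γ)) (w : W Γ) : rho F w ≤ ∑ p ∈ w.supp, |w.co p| := by
  classical
  calc rho F w ≤ ∑ p ∈ F, |w.co p| := by
        apply Finset.sum_le_sum
        intro p _
        have h1 := coef_le F p
        nlinarith [abs_nonneg (w.co p)]
    _ = ∑ p ∈ F ∩ w.supp, |w.co p| := by
        symm
        apply Finset.sum_subset Finset.inter_subset_left
        intro p hp hp2
        have : p ∉ w.supp := fun h => hp2 (Finset.mem_inter.2 ⟨hp, h⟩)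
        rw [mem_supp, not_not] at this
        rw [this, abs_zero]
    _ ≤ _ := Finset.sum_le_sum_of_subset_of_nonneg Finset.inter_subset_right
        (fun _ _ _ => abs_nonneg _)

/-- the norm -/
noncomputable def nrm (w : W Γ) : ℝ := ⨆ F : Finset (ℕ × Γ), rho F w

theorem bdd (w : W Γ) : BddAbove (Set.range fun F : Finset (ℕ × Γ) => rho F w) := by
  refine ⟨∑ p ∈ w.supp, |w.co p|, ?_⟩
  rintro _ ⟨F, rfl⟩
  exact rho_le_sum F w

theorem rho_le (F : Finset (ℕ × Γ)) (w : W Γ) : rho F w ≤ nrm w := le_ciSup (bdd w) F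

theorem co_le_nrm (w : W Γ) (p : ℕ × Γ) : |w.co p| ≤ nrm w := by
  have h1 := rho_le {p} w
  have h2 : rho {p} w = |w.co p| := by
    simp [rho, ex, Finset.filter_singleton]
  rwa [h2] at h1

theorem nrm_nonneg (w : W Γ) : 0 ≤ nrm w := (rho_nonneg ∅ w).trans (rho_le ∅ w)

theorem nrm_add (v w : W Γ) : nrm (v + w) ≤ nrm v + nrm w := by
  apply ciSup_le
  intro F
  calc rho F (v + w) ≤ rho F v + rho F w := by
        unfold rho
        rw [← Finset.sum_add_distrib]
        apply Finset.sum_le_sum
        intro p _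
        rw [co_add, ← mul_add]
        exact mul_le_mul_of_nonneg_left (abs_add_le _ _) (coef_nonneg F p)
    _ ≤ _ := add_le_add (rho_le F v) (rho_le F w)

theorem nrm_smul (t : ℝ) (w : W Γ) : nrm (t • w) ≤ |t| * nrm w := by
  apply ciSup_le
  intro F
  calc rho F (t • w) = |t| * rho F w := by
        unfold rho
        rw [Finset.mul_sum]
        apply Finset.sum_congr rfl
        intro p _
        rw [co_smul, abs_mul]
        ring
    _ ≤ _ := mul_le_mul_of_nonneg_left (rho_le F w) (abs_nonneg _)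

theorem nrm_neg (w : W Γ) : nrm (-w) = nrm w := by
  have h : ∀ v : W Γ, nrm (-v) ≤ nrm v := by
    intro v
    have := nrm_smul (-1) v
    rw [abs_neg, abs_one, one_mul, neg_one_smul] at this
    exact this
  refine le_antisymm (h w) ?_
  have := h (-w)
  rwa [neg_neg] at this

theorem nrm_zero : nrm (0 : W Γ) = 0 := by
  have := nrm_smul 0 (0 : W Γ)
  rw [abs_zero, zero_mul, smul_zero] at this
  exact le_antisymm this (nrm_nonneg _)

theorem eq_zero_of_nrm (w : W Γ) (h : nrm w = 0) : w = 0 := by
  apply ext_co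
  intro p
  have := co_le_nrm w p
  rw [h] at this
  rw [co_zero]
  exact abs_eq_zero.1 (le_antisymm this (abs_nonneg _))

/-- the norm as a group norm -/
noncomputable def gnorm : AddGroupNorm (W Γ) where
  toFun := nrm
  map_zero' := nrm_zero
  add_le' := nrm_add
  neg' := nrm_neg
  eq_zero_of_map_eq_zero' := eq_zero_of_nrm

noncomputable instance : NormedAddCommGroup (W Γ) := gnorm.toNormedAddCommGroup

theorem norm_def (w : W Γ) : ‖w‖ = nrm w := rfl

noncomputable instance : NormedSpace ℝ (W Γ) where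
  norm_smul_le t w := by
    rw [norm_def, norm_def, Real.norm_eq_abs]
    exact nrm_smul t w

theorem norm_e (p : ℕ × Γ) : ‖(W.e p : W Γ)‖ = 1 := by
  apply le_antisymm
  · apply ciSup_le
    intro F
    refine (rho_le_sum F _).trans ?_
    have h1 : (W.e p : W Γ).supp ⊆ {p} := by
      intro q hq
      rw [mem_supp] at hq
      rw [Finset.mem_singleton]
      by_contra hne
      exact hq (co_e_ne hne)
    calc ∑ q ∈ (W.e p : W Γ).supp, |(W.e p : W Γ).co q| ≤ ∑ q ∈ {p}, |(W.e p : W Γ).co q| :=
          Finset.sum_le_sum_of_subset_of_nonneg h1 (fun _ _ _ => abs_nonneg _)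
      _ = 1 := by rw [Finset.sum_singleton, co_e_self, abs_one]
  · have := co_le_nrm (W.e p : W Γ) p
    rwa [co_e_self, abs_one] at this

/-- geometric sum for one level -/
theorem level_sum (θ : ℝ) (h0 : 0 < θ) (h1 : θ < 1) (s : Finset Γ) :
    ∑ β ∈ s, θ ^ (s.filter fun γ => β < γ).card ≤ (1 - θ)⁻¹ := by
  induction s using Finset.induction_on_max with
  | empty => simpa using (by linarith : (0 : ℝ) ≤ 1 - θ)
  | insert a s ha ih =>
    have hnot : a ∉ s := fun h => lt_irrefl _ (ha a h)
    rw [Finset.sum_insert hnot]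
    have h2 : ((insert a s).filter fun γ => a < γ) = ∅ := by
      rw [Finset.filter_eq_empty_iff]
      intro x hx
      rcases Finset.mem_insert.1 hx with rfl | hx
      · exact lt_irrefl _
      · exact (ha x hx).le.not_gt
    rw [h2, Finset.card_empty, pow_zero]
    have h3 : ∑ β ∈ s, θ ^ ((insert a s).filter fun γ => β < γ).card =
        θ * ∑ β ∈ s, θ ^ (s.filter fun γ => β < γ).card := by
      rw [Finset.mul_sum]
      apply Finset.sum_congr rfl
      intro β hβ
      have h4 : ((insert a s).filter fun γ => β < γ) = insert a (s.filter fun γ => β < γ) := by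
        rw [Finset.filter_insert, if_pos (ha β hβ)]
      rw [h4, Finset.card_insert_of_notMem (fun h => hnot (Finset.mem_filter.1 h).1), pow_succ]
      ring
    rw [h3]
    have h5 : 0 < 1 - θ := by linarith
    calc 1 + θ * ∑ β ∈ s, θ ^ (s.filter fun γ => β < γ).card ≤ 1 + θ * (1 - θ)⁻¹ := by gcongr
      _ = (1 - θ)⁻¹ := by field_simp; ring

/-- the norm is equivalent to the supremum norm on finitely many levels -/
theorem nrm_le_sup {w : W Γ} {N : ℕ} {B : ℝ} (hB : 0 ≤ B) (hN : ∀ p, w.co p ≠ 0 → p.1 < N)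
    (hw : ∀ p, |w.co p| ≤ B) : ‖w‖ ≤ (∑ n ∈ Finset.range N, (1 - th n)⁻¹) * B := by
  classical
  apply ciSup_le
  intro F
  have h1 : rho F w ≤ ∑ n ∈ Finset.range N, ∑ p ∈ F.filter (fun p => p.1 = n), th p.1 ^ ex F p * B := by
    have h2 : rho F w = ∑ p ∈ F.filter (fun p => p.1 < N), th p.1 ^ ex F p * |w.co p| := by
      unfold rho
      rw [Finset.sum_filter]
      apply Finset.sum_congr rfl
      intro p _
      split_ifs with h
      · rfl
      · have : w.co p = 0 := by
          by_contra hne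
          exact h (hN p hne)
        rw [this, abs_zero, mul_zero]
    rw [h2, ← Finset.sum_fiberwise_of_maps_to (s := F.filter (fun p => p.1 < N))
      (t := Finset.range N) (g := fun p => p.1)
      (fun p hp => Finset.mem_range.2 (Finset.mem_filter.1 hp).2)]
    apply Finset.sum_le_sum
    intro n hn
    calc ∑ p ∈ (F.filter (fun p => p.1 < N)).filter (fun p => p.1 = n), th p.1 ^ ex F p * |w.co p|
        ≤ ∑ p ∈ (F.filter (fun p => p.1 < N)).filter (fun p => p.1 = n), th p.1 ^ ex F p * B := by
          apply Finset.sum_le_sum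
          intro p _
          exact mul_le_mul_of_nonneg_left (hw p) (coef_nonneg F p)
      _ ≤ _ := by
          apply Finset.sum_le_sum_of_subset_of_nonneg
          · intro p hp
            rw [Finset.mem_filter] at hp ⊢
            exact ⟨(Finset.mem_filter.1 hp.1).1, hp.2⟩
          · intro p _ _
            exact mul_nonneg (coef_nonneg F p) hB
  refine h1.trans ?_
  rw [Finset.sum_mul]
  apply Finset.sum_le_sum
  intro n _
  rw [← Finset.sum_mul]
  apply mul_le_mul_of_nonneg_right _ hB
  set s : Finset Γ := (F.filter (fun p => p.1 = n)).image Prod.snd with hs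
  have h3 : ∑ p ∈ F.filter (fun p => p.1 = n), th p.1 ^ ex F p =
      ∑ β ∈ s, th n ^ (s.filter fun γ => β < γ).card := by
    rw [hs, Finset.sum_image]
    · apply Finset.sum_congr rfl
      intro p hp
      have hp1 : p.1 = n := (Finset.mem_filter.1 hp).2
      rw [hp1]
      congr 1
      unfold ex
      apply Finset.card_bij (fun q _ => q.2)
      · intro q hq
        rw [Finset.mem_filter] at hq ⊢
        refine ⟨Finset.mem_image.2 ⟨q, Finset.mem_filter.2 ⟨hq.1, hq.2.1.trans hp1⟩, rfl⟩, hq.2.2⟩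
      · intro q hq q' hq' h
        rw [Finset.mem_filter] at hq hq'
        exact Prod.ext (hq.2.1.trans hq'.2.1.symm) h
      · intro γ hγ
        rw [Finset.mem_filter, Finset.mem_image] at hγ
        obtain ⟨⟨q, hq, rfl⟩, h4⟩ := hγ
        rw [Finset.mem_filter] at hq
        exact ⟨q, Finset.mem_filter.2 ⟨hq.1, hq.2.trans hp1.symm, h4⟩, rfl⟩
    · intro p hp q hq h
      have h1 := (Finset.mem_filter.1 hp).2
      have h2 := (Finset.mem_filter.1 hq).2
      exact Prod.ext (h1.trans h2.symm) h
  rw [h3]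
  exact level_sum _ (th_pos n) (th_lt n) s

/-- the octahedral estimate -/
theorem octa {w : W Γ} {n : ℕ} {α : Γ} (hw : ∀ p, w.co p ≠ 0 → p.2 < α) (t : ℝ) :
    |t| + th n * ‖w‖ ≤ ‖t • (W.e (n, α) : W Γ) + w‖ := by
  classical
  have key : ∀ F : Finset (ℕ × Γ), |t| + th n * rho F w ≤ nrm (t • (W.e (n, α) : W Γ) + w) := by
    intro F
    set G := F ∩ w.supp with hG
    have h1 : rho F w ≤ rho G w := by
      have h2 : rho F w = ∑ p ∈ G, th p.1 ^ ex F p * |w.co p| := by
        unfold rho
        symm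
        apply Finset.sum_subset Finset.inter_subset_left
        intro p hp hp2
        have : p ∉ w.supp := fun h => hp2 (Finset.mem_inter.2 ⟨hp, h⟩)
        rw [mem_supp, not_not] at this
        rw [this, abs_zero, mul_zero]
      rw [h2]
      unfold rho
      apply Finset.sum_le_sum
      intro p _
      apply mul_le_mul_of_nonneg_right _ (abs_nonneg _)
      apply pow_le_pow_of_le_one (th_pos _).le (th_lt _).le
      apply Finset.card_le_card
      apply Finset.filter_subset_filter
      exact Finset.inter_subset_left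
    have hGw : ∀ p ∈ G, p.2 < α := fun p hp => hw p ((mem_supp w p).1 (Finset.mem_inter.1 hp).2)
    have hnot : (n, α) ∉ G := fun h => lt_irrefl _ (hGw _ h)
    refine le_trans ?_ (rho_le (insert (n, α) G) _)
    unfold rho
    rw [Finset.sum_insert hnot]
    have h3 : ex (insert (n, α) G) (n, α) = 0 := by
      unfold ex
      rw [Finset.card_eq_zero, Finset.filter_eq_empty_iff]
      intro x hx
      rcases Finset.mem_insert.1 hx with rfl | hx
      · simp
      · intro h
        exact (hGw x hx).not_gt h.2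
    have h4 : w.co (n, α) = 0 := by
      by_contra h
      exact lt_irrefl _ (hw _ h)
    have h5 : (t • (W.e (n, α) : W Γ) + w).co (n, α) = t := by
      rw [co_add, co_smul, co_e_self, h4]
      ring
    rw [h3, pow_zero, one_mul, h5]
    apply add_le_add le_rfl
    refine (mul_le_mul_of_nonneg_left h1 (th_pos n).le).trans ?_
    unfold rho
    rw [Finset.mul_sum]
    apply Finset.sum_le_sum
    intro p hp
    have h6 : (t • (W.e (n, α) : W Γ) + w).co p = w.co p := by
      have hne : p ≠ (n, α) := fun h => hnot (h ▸ hp)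
      rw [co_add, co_smul, co_e_ne hne]
      ring
    rw [h6, ← mul_assoc]
    apply mul_le_mul_of_nonneg_right _ (abs_nonneg _)
    by_cases hpn : p.1 = n
    · have h7 : ex (insert (n, α) G) p ≤ ex G p + 1 := by
        unfold ex
        rw [Finset.filter_insert]
        split_ifs
        · exact Finset.card_insert_le _ _
        · exact Nat.le_succ _
      calc th n * th p.1 ^ ex G p = th p.1 ^ (ex G p + 1) := by rw [hpn, pow_succ]; ring
        _ ≤ _ := pow_le_pow_of_le_one (th_pos _).le (th_lt _).le h7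
    · have h7 : ex (insert (n, α) G) p = ex G p := by
        unfold ex
        rw [Finset.filter_insert, if_neg (fun h => hpn h.1.symm)]
      rw [h7]
      calc th n * th p.1 ^ ex G p ≤ 1 * th p.1 ^ ex G p :=
            mul_le_mul_of_nonneg_right (th_lt n).le (coef_nonneg G p)
        _ = _ := one_mul _
  have h8 : th n * nrm w ≤ nrm (t • (W.e (n, α) : W Γ) + w) - |t| := by
    rw [← le_div_iff₀' (th_pos n)]
    apply ciSup_le
    intro F
    rw [le_div_iff₀' (th_pos n)]
    linarith [key F]
  rw [norm_def, norm_def]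
  linarith

end Pool.Agent.R274.Octa
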