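import Mathlib
import Pool.Agent.R274.Octa

namespace Pool.Agent.R274.Octa

open Filter Topology Cardinal UniformSpace
open scoped ENNReal

universe u

/-- `X` is `κ`-octahedral: for every `ε > 0` and every linear subspace `Y` which has a dense subset
of cardinality at most `κ` there is a unit vector `x` with
`‖t x + y‖ ≥ (1 - ε) (|t| + ‖y‖)` for all real `t` and all `y` in `Y`. -/
def KOctahedral (κ : Cardinal.{u}) (X : Type u) [NormedAddCommGroup X] [NormedSpace ℝ X] : Prop :=
  ∀ ε : ℝ, 0 < ε → ∀ Y : Submodule ℝ X,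
    (∃ D : Set X, D ⊆ Y ∧ #D ≤ κ ∧ (Y : Set X) ⊆ closure D) →
    ∃ x : X, ‖x‖ = 1 ∧ ∀ t : ℝ, ∀ y ∈ Y, (1 - ε) * (|t| + ‖y‖) ≤ ‖t • x + y‖

section octa

variable {Γ : Type u} [LinearOrder Γ]

theorem koct {κ : Cardinal.{u}} (hκ : ℵ₀ ≤ κ) (hΓ : ∀ S : Set Γ, #S ≤ κ → ∃ α, ∀ β ∈ S, β < α) :
    KOctahedral κ (Completion (W Γ)) := by
  intro ε hε Y hY
  obtain ⟨D, hDY, hD, hYD⟩ := hY
  obtain ⟨n, hn⟩ : ∃ n : ℕ, 1 - ε ≤ th n := by
    obtain ⟨n, hn⟩ := exists_nat_one_div_lt hε
    refine ⟨n, ?_⟩
    unfold th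
    have : 1 / ((n : ℝ) + 2) ≤ 1 / ((n : ℝ) + 1) := by
      apply one_div_le_one_div_of_le
      · positivity
      · linarith
    linarith
  -- approximations
  have happ : ∀ p : D × ℕ, ∃ w : W Γ, ‖(p.1 : Completion (W Γ)) - (w : Completion (W Γ))‖ <
      1 / ((p.2 : ℝ) + 1) := by
    intro p
    have hp : (0 : ℝ) < 1 / ((p.2 : ℝ) + 1) := by positivity
    obtain ⟨_, ⟨w, rfl⟩, hw⟩ := Metric.mem_closure_iff.1
      ((Completion.denseRange_coe (α := W Γ)).closure_range ▸ Set.mem_univ (p.1 : Completion (W Γ)))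
      _ hp
    exact ⟨w, by rwa [dist_eq_norm] at hw⟩
  choose w hw using happ
  let S : Set Γ := ⋃ p : D × ℕ, Prod.snd '' ((w p).supp : Set (ℕ × Γ))
  have hS : #S ≤ κ := by
    refine (Cardinal.mk_iUnion_le _).trans ?_
    have h1 : #(D × ℕ) ≤ κ := by
      rw [Cardinal.mk_prod, Cardinal.mk_eq_aleph0 ℕ, Cardinal.lift_aleph0, Cardinal.lift_uzero]
      exact (mul_le_mul' hD hκ).trans (Cardinal.mul_eq_self hκ).le
    have h2 : ∀ p, #(Prod.snd '' ((w p).supp : Set (ℕ × Γ)) : Set Γ) ≤ κ := by
      intro p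
      refine le_trans ?_ hκ
      exact (((w p).supp.finite_toSet.image _).countable).le_aleph0
    refine (mul_le_mul' h1 (ciSup_le' h2)).trans (Cardinal.mul_eq_self hκ).le
  obtain ⟨α, hα⟩ := hΓ S hS
  have hwα : ∀ p, ∀ q, (w p).co q ≠ 0 → q.2 < α := by
    intro p q hq
    apply hα
    exact Set.mem_iUnion.2 ⟨p, ⟨q, (mem_supp _ _).2 hq, rfl⟩⟩
  refine ⟨((W.e (n, α) : W Γ) : Completion (W Γ)), ?_, ?_⟩
  · rw [Completion.norm_coe, norm_e]
  · intro t y hy
    have hcl : IsClosed {y : Completion (W Γ) | |t| + th n * ‖y‖ ≤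
        ‖t • ((W.e (n, α) : W Γ) : Completion (W Γ)) + y‖} := by
      apply isClosed_le <;> fun_prop
    have hDsub : D ⊆ {y : Completion (W Γ) | |t| + th n * ‖y‖ ≤
        ‖t • ((W.e (n, α) : W Γ) : Completion (W Γ)) + y‖} := by
      intro d hd
      have hlim : Tendsto (fun j : ℕ => ((w (⟨d, hd⟩, j) : W Γ) : Completion (W Γ))) atTop (𝓝 d) := by
        rw [tendsto_iff_norm_sub_tendsto_zero]
        apply squeeze_zero (fun _ => norm_nonneg _) _ tendsto_one_div_add_atTop_nhds_zero_nat
        intro j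
        rw [norm_sub_rev]
        exact (hw (⟨d, hd⟩, j)).le
      refine hcl.mem_of_tendsto hlim ?_
      filter_upwards with j
      have h1 := octa (hwα (⟨d, hd⟩, j)) (n := n) t
      change |t| + th n * ‖((w (⟨d, hd⟩, j) : W Γ) : Completion (W Γ))‖ ≤
        ‖t • ((W.e (n, α) : W Γ) : Completion (W Γ)) + ((w (⟨d, hd⟩, j) : W Γ) : Completion (W Γ))‖
      rw [← Completion.coe_smul, ← Completion.coe_add, Completion.norm_coe, Completion.norm_coe]
      exact h1
    have h2 : |t| + th n * ‖y‖ ≤ ‖t • ((W.e (n, α) : W Γ) : Completion (W Γ)) + y‖ :=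
      closure_minimal hDsub hcl (hYD hy)
    refine le_trans ?_ h2
    have h3 : (1 - ε) * |t| ≤ |t| := by nlinarith [abs_nonneg t]
    have h4 : (1 - ε) * ‖y‖ ≤ th n * ‖y‖ := by gcongr
    linarith

/-- the combinatorial core: no large sums -/
theorem small_sums {w : ℕ → W Γ} {N : ℕ} {C : ℝ} (hC : 0 ≤ C)
    (hN : ∀ k p, (w k).co p ≠ 0 → p.1 < N) (hw : ∀ k p, |(w k).co p| ≤ C) (K : ℕ) :
    ∃ f : ℕ → ℕ × ℕ, (∀ k, (f k).1 < (f k).2) ∧ (∀ k l, k < l → (f k).2 < (f l).1) ∧
      ‖∑ k ∈ Finset.range K, (w (f k).2 - w (f k).1)‖ ≤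
        (∑ n ∈ Finset.range N, (1 - th n)⁻¹) * (2 * C + 1) := by
  classical
  let uu : ℕ × ℕ → W Γ := fun p => w p.2 - w p.1
  have hK : (0 : ℝ) < 1 / ((K : ℝ) + 1) := by positivity
  obtain ⟨f, hf1, hf2⟩ := exists_seq_of_forall_finset_exists
    (fun p : ℕ × ℕ => p.1 < p.2)
    (fun p q : ℕ × ℕ => p.2 < q.1 ∧ ∀ i, (uu p).co i ≠ 0 → |(uu q).co i| ≤ 1 / ((K : ℝ) + 1)) (by
      intro s _
      let A : Finset (ℕ × Γ) := s.biUnion fun p => (uu p).supp
      let m : ℕ := s.sup Prod.snd + 1
      let g : ℕ → (A → ℝ) := fun k i => (w (m + k)).co i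
      have hg : ∀ k, g k ∈ Metric.closedBall (0 : A → ℝ) C := by
        intro k
        rw [mem_closedBall_zero_iff, pi_norm_le_iff_of_nonneg hC]
        intro i
        exact hw _ _
      obtain ⟨a, -, φ, hφ, hlim⟩ := tendsto_subseq_of_bounded Metric.isBounded_closedBall hg
      obtain ⟨M, hM⟩ := Metric.cauchySeq_iff.1 hlim.cauchySeq _ hK
      have h1 := hM M le_rfl (M + 1) (Nat.le_succ M)
      refine ⟨(m + φ M, m + φ (M + 1)), ?_, ?_⟩
      · have := hφ (Nat.lt_succ_self M)
        simp only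
        have h3 : φ M < φ (M + 1) := this
        omega
      · intro p hp
        have h2 : p.2 ≤ s.sup Prod.snd := Finset.le_sup (f := Prod.snd) hp
        refine ⟨by simp only [m]; omega, fun i hi => ?_⟩
        have hiA : i ∈ A := Finset.mem_biUnion.2 ⟨p, hp, (mem_supp _ _).2 hi⟩
        have h4 := (dist_pi_lt_iff hK).1 h1 ⟨i, hiA⟩
        simp only [Function.comp, g, Real.dist_eq] at h4
        simp only [uu, co_sub]
        rw [abs_sub_comm]
        exact h4.le)
  refine ⟨f, hf1, fun k l hkl => (hf2 k l hkl).1, ?_⟩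
  apply nrm_le_sup (by positivity)
  · intro p hp
    rw [co_sum] at hp
    obtain ⟨k, _, hk⟩ := Finset.exists_ne_zero_of_sum_ne_zero hp
    rw [co_sub] at hk
    by_cases h1 : (w (f k).2).co p = 0
    · rw [h1, zero_sub] at hk
      exact hN _ _ (fun h => hk (by rw [h, neg_zero]))
    · exact hN _ _ h1
  · intro p
    rw [co_sum]
    by_cases hex : ∃ l, l < K ∧ (uu (f l)).co p ≠ 0
    · -- minimal such `l`
      let l := Nat.find hex
      have hl := Nat.find_spec hex
      have hlmin : ∀ k < l, (uu (f k)).co p = 0 := by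
        intro k hk
        have := Nat.find_min hex hk
        by_contra hne
        exact this ⟨hk.trans hl.1, hne⟩
      have hbound : ∀ k ∈ Finset.range K, |(uu (f k)).co p| ≤
          (if k = l then 2 * C else 0) + 1 / ((K : ℝ) + 1) := by
        intro k _
        rcases lt_trichotomy k l with h | h | h
        · rw [hlmin k h, abs_zero]
          split_ifs <;> positivity
        · rw [if_pos h]
          have h1 := hw (f k).2 p
          have h2 := hw (f k).1 p
          have h3 : |(uu (f k)).co p| ≤ |(w (f k).2).co p| + |(w (f k).1).co p| := by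
            simp only [uu, co_sub]
            exact abs_sub _ _
          linarith
        · rw [if_neg h.ne', zero_add]
          exact (hf2 l k h).2 p hl.2
      calc |∑ k ∈ Finset.range K, (w (f k).2 - w (f k).1).co p| ≤
            ∑ k ∈ Finset.range K, |(uu (f k)).co p| := Finset.abs_sum_le_sum_abs _ _
        _ ≤ ∑ k ∈ Finset.range K, ((if k = l then 2 * C else 0) + 1 / ((K : ℝ) + 1)) :=
            Finset.sum_le_sum hbound
        _ ≤ 2 * C + 1 := by
            rw [Finset.sum_add_distrib, Finset.sum_const, Finset.card_range, nsmul_eq_mul]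
            have h4 : ∑ k ∈ Finset.range K, (if k = l then 2 * C else 0) ≤ 2 * C := by
              rw [Finset.sum_ite_eq']
              split_ifs
              · exact le_rfl
              · positivity
            have h5 : (K : ℝ) * (1 / ((K : ℝ) + 1)) ≤ 1 := by
              rw [mul_one_div, div_le_one (by positivity)]
              linarith
            linarith
    · push Not at hex
      have h1 : ∑ k ∈ Finset.range K, (w (f k).2 - w (f k).1).co p = 0 := by
        apply Finset.sum_eq_zero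
        intro k hk
        exact hex k (Finset.mem_range.1 hk)
      rw [h1, abs_zero]
      positivity

/-- no isomorphic copies of the absolutely summable families on an uncountable set -/
theorem no_l1 {Γ' : Type*} (hΓ' : Uncountable Γ')
    (T : lp (fun _ : Γ' => ℝ) 1 →L[ℝ] Completion (W Γ)) {c : ℝ} (hc : 0 < c)
    (hT : ∀ v, c * ‖v‖ ≤ ‖T v‖) : False := by
  classical
  let x : Γ' → Completion (W Γ) := fun γ => T (lp.single 1 γ (1 : ℝ))
  have happ : ∀ γ, ∃ w : W Γ, ‖x γ - (w : Completion (W Γ))‖ < c / 8 := by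
    intro γ
    have hp : (0 : ℝ) < c / 8 := by positivity
    obtain ⟨_, ⟨w, rfl⟩, hw⟩ := Metric.mem_closure_iff.1
      ((Completion.denseRange_coe (α := W Γ)).closure_range ▸ Set.mem_univ (x γ)) _ hp
    exact ⟨w, by rwa [dist_eq_norm] at hw⟩
  choose w hw using happ
  have hbd : ∀ γ, ‖w γ‖ ≤ ‖T‖ + c := by
    intro γ
    have h1 : ‖x γ‖ ≤ ‖T‖ := by
      have := T.le_opNorm (lp.single 1 γ (1 : ℝ))
      rw [lp.norm_single (by norm_num)] at this
      simpa using this
    have h2 := hw γ
    rw [← Completion.norm_coe (w γ)]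
    calc ‖(w γ : Completion (W Γ))‖ = ‖x γ - (x γ - (w γ : Completion (W Γ)))‖ := by
          congr 1; abel
      _ ≤ ‖x γ‖ + ‖x γ - (w γ : Completion (W Γ))‖ := norm_sub_le _ _
      _ ≤ _ := by linarith
  have hlev : ∀ γ, ∃ N : ℕ, ∀ p, (w γ).co p ≠ 0 → p.1 < N := by
    intro γ
    refine ⟨(w γ).supp.sup Prod.fst + 1, fun p hp => ?_⟩
    have := Finset.le_sup (f := Prod.fst) ((mem_supp (w γ) p).2 hp)
    omega
  choose lev hlev using hlev
  obtain ⟨N, hN⟩ : ∃ N : ℕ, {γ | lev γ = N}.Infinite := by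
    by_contra hcon
    push Not at hcon
    have h1 : (⋃ N : ℕ, {γ | lev γ = N}).Countable :=
      Set.countable_iUnion fun N => (hcon N).countable
    have h2 : (⋃ N : ℕ, {γ | lev γ = N}) = Set.univ := by
      ext γ
      simp
    rw [h2, Set.countable_univ_iff] at h1
    exact not_countable h1
  let g : ℕ → Γ' := fun k => (hN.natEmbedding _ k : Γ')
  have hginj : Function.Injective g := fun a b h => (hN.natEmbedding _).injective (Subtype.ext h)
  have hgN : ∀ k, lev (g k) = N := fun k => (hN.natEmbedding _ k).2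
  set C : ℝ := ‖T‖ + c with hCdef
  have hC : 0 ≤ C := by positivity
  set B : ℝ := (∑ n ∈ Finset.range N, (1 - th n)⁻¹) * (2 * C + 1) with hB
  obtain ⟨K, hK⟩ := exists_nat_gt (B / (c / 2))
  rw [div_lt_iff₀ (by positivity)] at hK
  obtain ⟨f, hf1, hf2, hf3⟩ := small_sums (w := fun k => w (g k)) hC
    (fun k p hp => hgN k ▸ hlev (g k) p hp) (fun k p => (co_le_nrm _ _).trans (hbd _)) K
  -- the vector in l1
  let v : lp (fun _ : Γ' => ℝ) 1 := ∑ k ∈ Finset.range K,
    (lp.single 1 (g (f k).2) (1 : ℝ) - lp.single 1 (g (f k).1) (1 : ℝ))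
  have hinj2 : Function.Injective fun k => (f k).2 := by
    intro a b hab
    rcases lt_trichotomy a b with h | h | h
    · have h1 := hf2 a b h
      have h2 := hf1 b
      simp only at hab
      omega
    · exact h
    · have h1 := hf2 b a h
      have h2 := hf1 a
      simp only at hab
      omega
  have hne12 : ∀ a b, (f a).1 ≠ (f b).2 := by
    intro a b hab
    rcases lt_trichotomy a b with h | h | h
    · have h1 := hf2 a b h
      have h2 := hf1 b
      have h3 := hf1 a
      omega
    · subst h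
      have h3 := hf1 a
      omega
    · have h1 := hf2 b a h
      omega
  have hv : ∀ j ∈ Finset.range K, v (g (f j).2) = 1 := by
    intro j hj
    simp only [v]
    rw [lp.coeFn_sum, Finset.sum_apply, Finset.sum_eq_single j]
    · rw [lp.coeFn_sub, Pi.sub_apply, lp.single_apply_self,
        lp.single_apply_ne 1 _ _ (fun h => hne12 j j (hginj h).symm), sub_zero]
    · intro k _ hkj
      rw [lp.coeFn_sub, Pi.sub_apply,
        lp.single_apply_ne 1 _ _ (fun h => hkj (hinj2 (hginj h)).symm),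
        lp.single_apply_ne 1 _ _ (fun h => hne12 k j (hginj h).symm), sub_zero]
    · intro h
      exact absurd hj h
  have hvn : (K : ℝ) ≤ ‖v‖ := by
    have h1 := lp.sum_rpow_le_norm_rpow (p := 1) (by norm_num) v
      ((Finset.range K).image fun j => g (f j).2)
    rw [Finset.sum_image (fun a _ b _ h => hinj2 (hginj h))] at h1
    have h2 : ∑ j ∈ Finset.range K, ‖v (g (f j).2)‖ ^ (1 : ℝ≥0∞).toReal = K := by
      rw [Finset.sum_congr rfl (fun j hj => by rw [hv j hj])]
      simp
    rw [h2] at h1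
    simpa using h1
  have hTv := hT v
  have hdiff : ‖T v - ((∑ k ∈ Finset.range K, (w (g (f k).2) - w (g (f k).1)) : W Γ) :
      Completion (W Γ))‖ ≤ K * (c / 4) := by
    have h1 : T v - ((∑ k ∈ Finset.range K, (w (g (f k).2) - w (g (f k).1)) : W Γ) :
        Completion (W Γ)) = ∑ k ∈ Finset.range K, ((x (g (f k).2) - (w (g (f k).2) : Completion (W Γ)))
          - (x (g (f k).1) - (w (g (f k).1) : Completion (W Γ)))) := by
      have h2 : ((∑ k ∈ Finset.range K, (w (g (f k).2) - w (g (f k).1)) : W Γ) :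
          Completion (W Γ)) = ∑ k ∈ Finset.range K, ((w (g (f k).2) : Completion (W Γ)) -
            (w (g (f k).1) : Completion (W Γ))) := by
        have h3 : ∀ a : W Γ, (a : Completion (W Γ)) = Completion.toComplL (𝕜 := ℝ) a := fun a => rfl
        rw [h3, map_sum]
        apply Finset.sum_congr rfl
        intro k _
        rw [map_sub]
        rfl
      rw [h2]
      simp only [v, map_sum, map_sub]
      rw [← Finset.sum_sub_distrib]
      apply Finset.sum_congr rfl
      intro k _
      simp only [x]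
      abel
    rw [h1]
    calc ‖∑ k ∈ Finset.range K, ((x (g (f k).2) - (w (g (f k).2) : Completion (W Γ)))
          - (x (g (f k).1) - (w (g (f k).1) : Completion (W Γ))))‖ ≤
          ∑ k ∈ Finset.range K, (c / 4) := by
          apply norm_sum_le_of_le
          intro k _
          refine (norm_sub_le _ _).trans ?_
          have h4 := hw (g (f k).2)
          have h5 := hw (g (f k).1)
          linarith
      _ = _ := by rw [Finset.sum_const, Finset.card_range, nsmul_eq_mul]
  have hfin : ‖T v‖ ≤ K * (c / 4) + B := by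
    calc ‖T v‖ = ‖(T v - ((∑ k ∈ Finset.range K, (w (g (f k).2) - w (g (f k).1)) : W Γ) :
          Completion (W Γ))) + ((∑ k ∈ Finset.range K, (w (g (f k).2) - w (g (f k).1)) : W Γ) :
          Completion (W Γ))‖ := by congr 1; abel
      _ ≤ _ := by
          refine (norm_add_le _ _).trans ?_
          rw [Completion.norm_coe]
          exact add_le_add hdiff hf3
  have h6 : c * K ≤ c * ‖v‖ := by gcongr
  have h7 : (0 : ℝ) ≤ K := Nat.cast_nonneg K
  nlinarith

end octa

/-- For every infinite cardinal there is a linear order in which small sets are strictly bounded. -/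
theorem exists_order (κ : Cardinal.{u}) (hκ : ℵ₀ ≤ κ) :
    ∃ (Γ : Type u) (_ : LinearOrder Γ), ∀ S : Set Γ, #S ≤ κ → ∃ α, ∀ β ∈ S, β < α := by
  refine ⟨(Order.succ κ).ord.ToType, inferInstance, fun S hS => ?_⟩
  by_contra hcon
  push Not at hcon
  have h1 : (⋃ β : S, Set.Iic (β : (Order.succ κ).ord.ToType)) = Set.univ := by
    ext α
    obtain ⟨β, hβ, hβα⟩ := hcon α
    simp only [Set.mem_iUnion, Set.mem_Iic, Set.mem_univ, iff_true]
    exact ⟨⟨β, hβ⟩, hβα⟩
  have h2 : ∀ β : S, #(Set.Iic (β : (Order.succ κ).ord.ToType)) ≤ κ := by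
    intro β
    rw [← Set.Iio_insert]
    refine (Cardinal.mk_insert_le).trans ?_
    have h3 : #(Set.Iio (β : (Order.succ κ).ord.ToType)) ≤ κ :=
      Order.lt_succ_iff.1 (Cardinal.mk_Iio_toType_ord_lt _)
    calc #(Set.Iio (β : (Order.succ κ).ord.ToType)) + 1 ≤ κ + κ :=
          add_le_add h3 (Cardinal.one_le_aleph0.trans hκ)
      _ = κ := Cardinal.add_eq_self hκ
  have h4 : #(Set.univ : Set (Order.succ κ).ord.ToType) ≤ κ := by
    rw [← h1]
    refine (Cardinal.mk_iUnion_le _).trans ?_
    refine (mul_le_mul' hS (ciSup_le' h2)).trans (Cardinal.mul_eq_self hκ).le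
  rw [Cardinal.mk_univ, Cardinal.mk_ord_toType] at h4
  exact absurd h4 (not_le.2 (Order.lt_succ κ))

end Pool.Agent.R274.Octa
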