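import Mathlib

namespace Pool.Agent.R274.SP

open scoped TensorProduct

/-- `X` is almost square. -/
def ASQ (X : Type*) [SeminormedAddCommGroup X] : Prop :=
  ∀ (k : ℕ) (x : Fin k → X), (∀ i, ‖x i‖ = 1) → ∀ ε : ℝ, 0 < ε →
    ∃ y : X, ‖y‖ = 1 ∧ ∀ i, ‖x i + y‖ ≤ 1 + ε ∧ ‖x i - y‖ ≤ 1 + ε

section

variable (N : ℕ) (X : Type*) [NormedAddCommGroup X] [NormedSpace ℝ X]

/-- The `N`-fold algebraic symmetric tensor product: the span of the tensors `x ⊗ ⋯ ⊗ x`. -/
def SymT : Submodule ℝ (⨂[ℝ] _ : Fin N, X) :=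
  Submodule.span ℝ (Set.range fun x : X => PiTensorProduct.tprod ℝ (fun _ : Fin N => x))

variable {N X} in
/-- The costs of the finite representations of a tensor by elementary symmetric tensors. -/
def costs (u : ⨂[ℝ] _ : Fin N, X) : Set ℝ :=
  {r | ∃ (m : ℕ) (c : Fin m → ℝ) (x : Fin m → X),
    u = ∑ i, c i • PiTensorProduct.tprod ℝ (fun _ : Fin N => x i) ∧ r = ∑ i, |c i| * ‖x i‖ ^ N}

variable {N X} in
/-- The symmetric projective norm. -/
noncomputable def piS (u : ⨂[ℝ] _ : Fin N, X) : ℝ := sInf (costs u)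

variable {N X}

theorem costs_nonneg {u : ⨂[ℝ] _ : Fin N, X} {r : ℝ} (h : r ∈ costs u) : 0 ≤ r := by
  obtain ⟨m, c, x, -, rfl⟩ := h
  exact Finset.sum_nonneg fun i _ => mul_nonneg (abs_nonneg _) (pow_nonneg (norm_nonneg _) _)

theorem costs_bdd (u : ⨂[ℝ] _ : Fin N, X) : BddBelow (costs u) := ⟨0, fun _ h => costs_nonneg h⟩

theorem costs_zero : (0 : ℝ) ∈ costs (0 : ⨂[ℝ] _ : Fin N, X) :=
  ⟨0, fun i => i.elim0, fun i => i.elim0, by simp, by simp⟩

theorem costs_add {u v : ⨂[ℝ] _ : Fin N, X} {r s : ℝ} (hr : r ∈ costs u) (hs : s ∈ costs v) :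
    r + s ∈ costs (u + v) := by
  obtain ⟨m, c, x, rfl, rfl⟩ := hr
  obtain ⟨m', c', x', rfl, rfl⟩ := hs
  refine ⟨m + m', Fin.append c c', Fin.append x x', ?_, ?_⟩
  · rw [Fin.sum_univ_add]
    simp
  · rw [Fin.sum_univ_add]
    simp

theorem costs_smul {u : ⨂[ℝ] _ : Fin N, X} {r : ℝ} (a : ℝ) (hr : r ∈ costs u) :
    |a| * r ∈ costs (a • u) := by
  obtain ⟨m, c, x, rfl, rfl⟩ := hr
  refine ⟨m, fun i => a * c i, x, ?_, ?_⟩
  · rw [Finset.smul_sum]
    exact Finset.sum_congr rfl fun i _ => by rw [smul_smul]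
  · rw [Finset.mul_sum]
    exact Finset.sum_congr rfl fun i _ => by rw [abs_mul, mul_assoc]

theorem costs_tprod (x : X) :
    ‖x‖ ^ N ∈ costs (PiTensorProduct.tprod ℝ (fun _ : Fin N => x)) :=
  ⟨1, fun _ => 1, fun _ => x, by simp, by simp⟩

theorem costs_nonempty {u : ⨂[ℝ] _ : Fin N, X} (hu : u ∈ SymT N X) : (costs u).Nonempty := by
  unfold SymT at hu
  induction hu using Submodule.span_induction with
  | mem x hx =>
    obtain ⟨y, rfl⟩ := hx
    exact ⟨_, costs_tprod y⟩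
  | zero => exact ⟨_, costs_zero⟩
  | add x y _ _ hx hy =>
    obtain ⟨r, hr⟩ := hx
    obtain ⟨s, hs⟩ := hy
    exact ⟨_, costs_add hr hs⟩
  | smul a x _ hx =>
    obtain ⟨r, hr⟩ := hx
    exact ⟨_, costs_smul a hr⟩

theorem piS_nonneg (u : ⨂[ℝ] _ : Fin N, X) : 0 ≤ piS u :=
  Real.sInf_nonneg fun _ h => costs_nonneg h

theorem piS_le {u : ⨂[ℝ] _ : Fin N, X} {r : ℝ} (h : r ∈ costs u) : piS u ≤ r :=
  csInf_le (costs_bdd u) h

theorem exists_cost {u : ⨂[ℝ] _ : Fin N, X} (hu : u ∈ SymT N X) {δ : ℝ} (hδ : 0 < δ) :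
    ∃ r ∈ costs u, r < piS u + δ :=
  exists_lt_of_csInf_lt (costs_nonempty hu) (by unfold piS; linarith)

theorem piS_zero : piS (0 : ⨂[ℝ] _ : Fin N, X) = 0 :=
  le_antisymm (piS_le costs_zero) (piS_nonneg _)

theorem piS_add {u v : ⨂[ℝ] _ : Fin N, X} (hu : u ∈ SymT N X) (hv : v ∈ SymT N X) :
    piS (u + v) ≤ piS u + piS v := by
  apply le_of_forall_pos_le_add
  intro δ hδ
  obtain ⟨r, hr, hr'⟩ := exists_cost hu (half_pos hδ)
  obtain ⟨s, hs, hs'⟩ := exists_cost hv (half_pos hδ)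
  have := piS_le (costs_add hr hs)
  linarith

theorem piS_smul_le {u : ⨂[ℝ] _ : Fin N, X} (hu : u ∈ SymT N X) (a : ℝ) :
    piS (a • u) ≤ |a| * piS u := by
  apply le_of_forall_pos_le_add
  intro δ hδ
  obtain ⟨r, hr, hr'⟩ := exists_cost hu (δ := δ / (|a| + 1)) (by positivity)
  have h1 := piS_le (costs_smul a hr)
  have h2 : |a| * r ≤ |a| * (piS u + δ / (|a| + 1)) := mul_le_mul_of_nonneg_left hr'.le (abs_nonneg _)
  have h3 : |a| * (δ / (|a| + 1)) ≤ δ := by
    rw [← mul_div_assoc, div_le_iff₀ (by positivity)]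
    nlinarith [abs_nonneg a]
  linarith

theorem piS_neg {u : ⨂[ℝ] _ : Fin N, X} (hu : u ∈ SymT N X) : piS (-u) = piS u := by
  have h : ∀ w ∈ SymT N X, piS (-w) ≤ piS w := by
    intro w hw
    have := piS_smul_le hw (-1)
    simpa using this
  refine le_antisymm (h u hu) ?_
  have := h (-u) ((SymT N X).neg_mem hu)
  simpa using this

theorem functional_bound (L : (⨂[ℝ] _ : Fin N, X) →ₗ[ℝ] ℝ) {K : ℝ} (hK : 0 ≤ K)
    (hL : ∀ x : X, |L (PiTensorProduct.tprod ℝ (fun _ : Fin N => x))| ≤ K * ‖x‖ ^ N)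
    {u : ⨂[ℝ] _ : Fin N, X} (hu : u ∈ SymT N X) : |L u| ≤ K * piS u := by
  have h : ∀ r ∈ costs u, |L u| ≤ K * r := by
    rintro r ⟨m, c, x, rfl, rfl⟩
    rw [map_sum, Finset.mul_sum]
    refine (Finset.abs_sum_le_sum_abs _ _).trans (Finset.sum_le_sum fun i _ => ?_)
    rw [map_smul, smul_eq_mul, abs_mul]
    calc |c i| * |L (PiTensorProduct.tprod ℝ (fun _ : Fin N => x i))| ≤ |c i| * (K * ‖x i‖ ^ N) := by
          gcongr
          exact hL _
      _ = _ := by ring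
  apply le_of_forall_pos_le_add
  intro δ hδ
  obtain ⟨r, hr, hr'⟩ := exists_cost hu (δ := δ / (K + 1)) (by positivity)
  have h1 := h r hr
  have h2 : K * r ≤ K * (piS u + δ / (K + 1)) := mul_le_mul_of_nonneg_left hr'.le hK
  have h3 : K * (δ / (K + 1)) ≤ δ := by
    rw [← mul_div_assoc, div_le_iff₀ (by positivity)]
    nlinarith
  linarith

variable (N X)

/-- The algebraic symmetric tensor product, to be equipped with the symmetric projective norm. -/
def SymProj : Type _ := ↥(SymT N X)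

noncomputable instance : AddCommGroup (SymProj N X) := Submodule.addCommGroup (SymT N X)

noncomputable instance : Module ℝ (SymProj N X) := Submodule.module (SymT N X)

/-- The symmetric projective norm on the algebraic symmetric tensor product. -/
noncomputable def piNorm : AddGroupSeminorm (SymProj N X) where
  toFun u := piS u.1
  map_zero' := piS_zero
  add_le' u v := piS_add u.2 v.2
  neg' u := piS_neg u.2

noncomputable instance : SeminormedAddCommGroup (SymProj N X) :=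
  (piNorm N X).toSeminormedAddCommGroup

noncomputable instance : NormedSpace ℝ (SymProj N X) where
  norm_smul_le a u := piS_smul_le u.2 a

variable {N X}

theorem norm_def (u : SymProj N X) : ‖u‖ = piS u.1 := rfl

/-- an element of the symmetric tensor product -/
def mk (u : ⨂[ℝ] _ : Fin N, X) (hu : u ∈ SymT N X) : SymProj N X := ⟨u, hu⟩

theorem norm_mk (u : ⨂[ℝ] _ : Fin N, X) (hu : u ∈ SymT N X) : ‖mk u hu‖ = piS u := rfl

/-- the identity map as a linear map -/
noncomputable def incl : ↥(SymT N X) →ₗ[ℝ] SymProj N X where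
  toFun u := mk u.1 u.2
  map_add' _ _ := rfl
  map_smul' _ _ := rfl

end

end Pool.Agent.R274.SP
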