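import Mathlib
import Pool.Agent.R274.SymProj
import Pool.Agent.R274.GT2

namespace Pool.Agent.R274.SP

open scoped TensorProduct ZeroAtInfty
open PiTensorProduct

/-- the space `c_0` -/
abbrev c0 := C₀(ℕ, ℝ)

theorem abs_le_norm (x : c0) (i : ℕ) : |x i| ≤ ‖x‖ := by
  have := BoundedContinuousFunction.norm_coe_le_norm x.toBCF i
  rw [ZeroAtInftyContinuousMap.norm_toBCF_eq_norm] at this
  exact this

theorem norm_le_of {x : c0} {C : ℝ} (hC : 0 ≤ C) (h : ∀ i, |x i| ≤ C) : ‖x‖ ≤ C := by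
  rw [← ZeroAtInftyContinuousMap.norm_toBCF_eq_norm, BoundedContinuousFunction.norm_le hC]
  exact h

/-- the unit vectors -/
noncomputable def eb (i : ℕ) : c0 where
  toFun j := if j = i then 1 else 0
  continuous_toFun := continuous_of_discreteTopology
  zero_at_infty' := by
    rw [Filter.cocompact_eq_cofinite, Nat.cofinite_eq_atTop]
    apply tendsto_const_nhds.congr'
    filter_upwards [Filter.eventually_gt_atTop i] with j hj
    rw [if_neg (by omega)]

theorem eb_apply (i j : ℕ) : eb i j = if j = i then 1 else 0 := rfl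

theorem norm_eb (i : ℕ) : ‖eb i‖ = 1 := by
  apply le_antisymm
  · apply norm_le_of zero_le_one
    intro j
    rw [eb_apply]
    split_ifs <;> simp
  · have := abs_le_norm (eb i) i
    rw [eb_apply, if_pos rfl, abs_one] at this
    exact this

theorem tendsto_zero (x : c0) {δ : ℝ} (hδ : 0 < δ) : ∃ m0 : ℕ, ∀ i ≥ m0, |x i| ≤ δ := by
  have h := x.zero_at_infty'
  rw [Filter.cocompact_eq_cofinite, Nat.cofinite_eq_atTop] at h
  rw [Metric.tendsto_atTop] at h
  obtain ⟨m0, hm0⟩ := h δ hδ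
  refine ⟨m0, fun i hi => ?_⟩
  have := hm0 i hi
  rw [Real.dist_0_eq_abs] at this
  exact this.le

theorem asq_c0 : ASQ c0 := by
  intro k x hx ε hε
  have h1 : ∀ i : Fin k, ∃ m0 : ℕ, ∀ j ≥ m0, |x i j| ≤ ε := fun i => tendsto_zero (x i) hε
  choose m0 hm0 using h1
  set m := ∑ i, m0 i with hm
  have hmi : ∀ i, m0 i ≤ m := fun i => Finset.single_le_sum (f := m0) (fun _ _ => Nat.zero_le _) (Finset.mem_univ i)
  refine ⟨eb m, norm_eb m, fun i => ⟨?_, ?_⟩⟩
  · apply norm_le_of (by linarith)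
    intro j
    have hj := abs_le_norm (x i) j
    rw [hx i] at hj
    rw [ZeroAtInftyContinuousMap.add_apply, eb_apply]
    by_cases h2 : j = m
    · rw [if_pos h2]
      have := hm0 i j (h2 ▸ hmi i)
      rw [abs_le] at this ⊢
      constructor <;> linarith [this.1, this.2]
    · rw [if_neg h2, add_zero]
      linarith
  · apply norm_le_of (by linarith)
    intro j
    have hj := abs_le_norm (x i) j
    rw [hx i] at hj
    rw [ZeroAtInftyContinuousMap.sub_apply, eb_apply]
    by_cases h2 : j = m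
    · rw [if_pos h2]
      have := hm0 i j (h2 ▸ hmi i)
      rw [abs_le] at this ⊢
      constructor <;> linarith [this.1, this.2]
    · rw [if_neg h2, sub_zero]
      linarith

/-- evaluation -/
def ev (i : ℕ) : c0 →ₗ[ℝ] ℝ where
  toFun x := x i
  map_add' _ _ := rfl
  map_smul' _ _ := rfl

/-- the functional of a matrix -/
noncomputable def formL {m : ℕ} (A : Fin m → Fin m → ℝ) : (⨂[ℝ] _ : Fin 2, c0) →ₗ[ℝ] ℝ :=
  ∑ i, ∑ j, A i j • PiTensorProduct.lift ((MultilinearMap.mkPiAlgebra ℝ (Fin 2) ℝ).compLinearMap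
    (fun k : Fin 2 => if k = 0 then ev i else ev j))

theorem formL_tprod {m : ℕ} (A : Fin m → Fin m → ℝ) (x : c0) :
    formL A (tprod ℝ (fun _ : Fin 2 => x)) = ∑ i : Fin m, ∑ j : Fin m, A i j * x i * x j := by
  unfold formL
  rw [LinearMap.sum_apply]
  apply Finset.sum_congr rfl
  intro i _
  rw [LinearMap.sum_apply]
  apply Finset.sum_congr rfl
  intro j _
  rw [LinearMap.smul_apply, PiTensorProduct.lift.tprod]
  have h10 : ¬ ((1 : Fin 2) = 0) := by decide
  simp only [MultilinearMap.compLinearMap_apply, MultilinearMap.mkPiAlgebra_apply,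
    Fin.prod_univ_two, if_true, if_neg h10]
  simp only [ev, LinearMap.coe_mk, AddHom.coe_mk, smul_eq_mul]
  ring

theorem formL_sub {m : ℕ} (A B : Fin m → Fin m → ℝ) (u : ⨂[ℝ] _ : Fin 2, c0) :
    formL (fun i j => A i j - B i j) u = formL A u - formL B u := by
  unfold formL
  simp only [LinearMap.sum_apply, LinearMap.smul_apply, smul_eq_mul]
  rw [← Finset.sum_sub_distrib]
  apply Finset.sum_congr rfl
  intro i _
  rw [← Finset.sum_sub_distrib]
  apply Finset.sum_congr rfl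
  intro j _
  ring

/-- the square functional at a coordinate -/
noncomputable def sqL (i : ℕ) : (⨂[ℝ] _ : Fin 2, c0) →ₗ[ℝ] ℝ :=
  PiTensorProduct.lift ((MultilinearMap.mkPiAlgebra ℝ (Fin 2) ℝ).compLinearMap
    (fun _ : Fin 2 => ev i))

theorem sqL_tprod (i : ℕ) (x : c0) : sqL i (tprod ℝ (fun _ : Fin 2 => x)) = x i ^ 2 := by
  unfold sqL
  rw [PiTensorProduct.lift.tprod]
  simp only [MultilinearMap.compLinearMap_apply, MultilinearMap.mkPiAlgebra_apply, Fin.prod_univ_two]
  simp only [ev, LinearMap.coe_mk, AddHom.coe_mk]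
  ring

/-- homogeneity -/
theorem form_le {m : ℕ} {Q : Fin m → Fin m → ℝ} {K : ℝ}
    (hK : ∀ ξ : Fin m → ℝ, (∀ i, |ξ i| ≤ 1) → ∑ i, ∑ j, Q i j * ξ i * ξ j ≤ K) (x : c0) :
    ∑ i : Fin m, ∑ j : Fin m, Q i j * x i * x j ≤ K * ‖x‖ ^ 2 := by
  rcases eq_or_lt_of_le (norm_nonneg x) with h0 | h0
  · have h1 : ∀ i : ℕ, x i = 0 := fun i => by
      have := abs_le_norm x i
      rw [← h0] at this
      exact abs_nonpos_iff.1 this
    simp [h1, ← h0]
  · have h1 := hK (fun i => x i / ‖x‖) (fun i => by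
      rw [abs_div, abs_norm, div_le_one h0]
      exact abs_le_norm x i)
    have h2 : ∑ i : Fin m, ∑ j : Fin m, Q i j * (x i / ‖x‖) * (x j / ‖x‖) =
        (∑ i : Fin m, ∑ j : Fin m, Q i j * x i * x j) / ‖x‖ ^ 2 := by
      rw [Finset.sum_div]
      apply Finset.sum_congr rfl
      intro i _
      rw [Finset.sum_div]
      apply Finset.sum_congr rfl
      intro j _
      field_simp
    rw [h2, div_le_iff₀ (by positivity)] at h1
    exact h1

theorem sq_coord_le (x : c0) (i : ℕ) : x i ^ 2 ≤ ‖x‖ ^ 2 := by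
  rw [← sq_abs]
  exact pow_le_pow_left₀ (abs_nonneg _) (abs_le_norm x i) 2

/-- the elementary tensor -/
theorem tensor_mem (x : c0) : tprod ℝ (fun _ : Fin 2 => x) ∈ SymT 2 c0 :=
  Submodule.subset_span ⟨x, rfl⟩

theorem test_bound {m : ℕ} {Q : Fin m → Fin m → ℝ}
    (hpsd : ∀ ξ : Fin m → ℝ, 0 ≤ ∑ i, ∑ j, Q i j * ξ i * ξ j) {K : ℝ} (hK0 : 0 < K)
    (hK : ∀ ξ : Fin m → ℝ, (∀ i, |ξ i| ≤ 1) → ∑ i, ∑ j, Q i j * ξ i * ξ j ≤ K)
    {v : ⨂[ℝ] _ : Fin 2, c0} (hv : v ∈ SymT 2 c0) (i : Fin m) {c : ℝ}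
    (h1 : piS (tprod ℝ (fun _ : Fin 2 => eb i) + v) ≤ 1 + c)
    (h2 : piS (tprod ℝ (fun _ : Fin 2 => eb i) - v) ≤ 1 + c) :
    |formL Q v| ≤ 2 * K * c + Q i i := by
  have hu := tensor_mem (eb i)
  have hQ0 : ∀ x : c0, 0 ≤ ∑ i : Fin m, ∑ j : Fin m, Q i j * x i * x j := fun x => hpsd (fun i => x i)
  have hQK := form_le hK
  -- first functional
  have hb1 : ∀ w ∈ SymT 2 c0, |sqL i w| ≤ 1 * piS w := by
    intro w hw
    apply functional_bound _ zero_le_one _ hw
    intro x
    rw [sqL_tprod, abs_of_nonneg (sq_nonneg _), one_mul]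
    exact sq_coord_le x i
  -- second functional
  have hb2 : ∀ w ∈ SymT 2 c0, |(sqL i - (1 / K) • formL Q) w| ≤ 1 * piS w := by
    intro w hw
    apply functional_bound _ zero_le_one _ hw
    intro x
    rw [LinearMap.sub_apply, LinearMap.smul_apply, sqL_tprod, formL_tprod, smul_eq_mul, one_mul]
    have e1 := hQ0 x
    have e2 := hQK x
    have e3 : 0 ≤ 1 / K * ∑ i : Fin m, ∑ j : Fin m, Q i j * x i * x j :=
      mul_nonneg (by positivity) e1
    have e4 : 1 / K * ∑ i : Fin m, ∑ j : Fin m, Q i j * x i * x j ≤ ‖x‖ ^ 2 := by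
      rw [one_div, inv_mul_le_iff₀ hK0]
      exact e2
    have e5 := sq_coord_le x i
    have e6 : 0 ≤ x i ^ 2 := sq_nonneg _
    rw [abs_le]
    constructor <;> linarith
  have hs : sqL i (tprod ℝ (fun _ : Fin 2 => eb i)) = 1 := by
    rw [sqL_tprod, eb_apply, if_pos rfl, one_pow]
  have hq : formL Q (tprod ℝ (fun _ : Fin 2 => eb i)) = Q i i := by
    rw [formL_tprod, Finset.sum_eq_single i, Finset.sum_eq_single i]
    · rw [eb_apply, if_pos rfl, mul_one, mul_one]
    · intro j _ hj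
      rw [eb_apply (↑i) (↑j), if_neg (fun h => hj (Fin.ext h)), mul_zero]
    · simp
    · intro j _ hj
      apply Finset.sum_eq_zero
      intro l _
      rw [eb_apply (↑i) (↑j), if_neg (fun h => hj (Fin.ext h)), mul_zero, zero_mul]
    · simp
  have a1 := (hb1 _ (Submodule.add_mem _ hu hv)).trans ((one_mul _).le.trans h1)
  have a2 := (hb1 _ (Submodule.sub_mem _ hu hv)).trans ((one_mul _).le.trans h2)
  have a3 := (hb2 _ (Submodule.add_mem _ hu hv)).trans ((one_mul _).le.trans h1)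
  have a4 := (hb2 _ (Submodule.sub_mem _ hu hv)).trans ((one_mul _).le.trans h2)
  rw [map_add, hs] at a1
  rw [map_sub, hs] at a2
  rw [map_add, LinearMap.sub_apply, LinearMap.smul_apply, hs, hq, LinearMap.sub_apply,
    LinearMap.smul_apply, smul_eq_mul, smul_eq_mul] at a3
  rw [map_sub, LinearMap.sub_apply, LinearMap.smul_apply, hs, hq, LinearMap.sub_apply,
    LinearMap.smul_apply, smul_eq_mul, smul_eq_mul] at a4
  rw [abs_le] at a1 a2 a3 a4
  set s := sqL i v
  set q := formL Q v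
  have b1 : s ≤ c := by linarith [a1.2]
  have b2 : -s ≤ c := by linarith [a2.2]
  have b3 : 1 / K * q ≤ 2 * c + 1 / K * Q i i := by linarith [a4.2]
  have b4 : -(1 / K * q) ≤ 2 * c + 1 / K * Q i i := by linarith [a3.2]
  rw [abs_le]
  constructor
  · have := mul_le_mul_of_nonneg_left b4 hK0.le
    have e : K * (2 * c + 1 / K * Q i i) = 2 * K * c + Q i i := by field_simp
    have e' : K * -(1 / K * q) = -q := by field_simp
    rw [e, e'] at this
    linarith
  · have := mul_le_mul_of_nonneg_left b3 hK0.le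
    have e : K * (2 * c + 1 / K * Q i i) = 2 * K * c + Q i i := by field_simp
    have e' : K * (1 / K * q) = q := by field_simp
    rw [e, e'] at this
    linarith

/-- truncation -/
noncomputable def tr (m : ℕ) (x : c0) : c0 := ∑ i : Fin m, x i • eb i

theorem tr_apply (m : ℕ) (x : c0) (j : ℕ) : tr m x j = if j < m then x j else 0 := by
  have h1 : tr m x j = ∑ i : Fin m, x i * (if j = i then 1 else 0) := by
    have : tr m x j = ev j (∑ i : Fin m, x i • eb i) := rfl
    rw [this, map_sum]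
    apply Finset.sum_congr rfl
    intro i _
    rw [map_smul, smul_eq_mul]
    rfl
  rw [h1]
  split_ifs with h
  · rw [Finset.sum_eq_single ⟨j, h⟩]
    · simp
    · intro b _ hb
      rw [if_neg, mul_zero]
      intro h2
      exact hb (Fin.ext h2.symm)
    · simp
  · apply Finset.sum_eq_zero
    intro i _
    rw [if_neg, mul_zero]
    intro h2
    exact h (h2 ▸ i.2)

theorem norm_tr_le (m : ℕ) (x : c0) : ‖tr m x‖ ≤ ‖x‖ := by
  apply norm_le_of (norm_nonneg _)
  intro j
  rw [tr_apply]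
  split_ifs
  · exact abs_le_norm x j
  · simp

theorem tr_approx (x : c0) {δ : ℝ} (hδ : 0 < δ) : ∃ m0 : ℕ, ∀ m ≥ m0, ‖x - tr m x‖ ≤ δ := by
  obtain ⟨m0, hm0⟩ := tendsto_zero x hδ
  refine ⟨m0, fun m hm => norm_le_of hδ.le fun j => ?_⟩
  rw [ZeroAtInftyContinuousMap.sub_apply, tr_apply]
  split_ifs with h
  · simp [hδ.le]
  · rw [sub_zero]
    exact hm0 j (by omega)

theorem update_one (x z : c0) : Function.update (![x, 0] : Fin 2 → c0) 1 z = ![x, z] := by
  funext i
  fin_cases i <;> simp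

/-- the bilinear form of a functional -/
noncomputable def bil (g : (⨂[ℝ] _ : Fin 2, c0) →ₗ[ℝ] ℝ) : c0 →ₗ[ℝ] c0 →ₗ[ℝ] ℝ :=
  LinearMap.mk₂ ℝ (fun x y => g (tprod ℝ ![x, y]))
    (by
      intro x x' y
      rw [← map_add]
      congr 1
      exact MultilinearMap.cons_add (tprod ℝ : MultilinearMap ℝ (fun _ : Fin 2 => c0) _) ![y] x x')
    (by
      intro c x y
      rw [← map_smul]
      congr 1
      exact MultilinearMap.cons_smul (tprod ℝ : MultilinearMap ℝ (fun _ : Fin 2 => c0) _) ![y] c x)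
    (by
      intro x y y'
      rw [← map_add]
      congr 1
      have := (tprod ℝ : MultilinearMap ℝ (fun _ : Fin 2 => c0) _).map_update_add ![x, 0] 1 y y'
      rw [update_one, update_one, update_one] at this
      exact this)
    (by
      intro c x y
      rw [← map_smul]
      congr 1
      have := (tprod ℝ : MultilinearMap ℝ (fun _ : Fin 2 => c0) _).map_update_smul ![x, 0] 1 c y
      rw [update_one, update_one] at this
      exact this)

theorem bil_self (g : (⨂[ℝ] _ : Fin 2, c0) →ₗ[ℝ] ℝ) (x : c0) :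
    bil g x x = g (tprod ℝ (fun _ : Fin 2 => x)) := by
  have h : (![x, x] : Fin 2 → c0) = fun _ => x := by
    funext i
    fin_cases i <;> rfl
  have : bil g x x = g (tprod ℝ ![x, x]) := rfl
  rw [this, h]

/-- the symmetric matrix of a functional -/
noncomputable def mat (m : ℕ) (g : (⨂[ℝ] _ : Fin 2, c0) →ₗ[ℝ] ℝ) (i j : Fin m) : ℝ :=
  (bil g (eb i) (eb j) + bil g (eb j) (eb i)) / 2

theorem mat_form (m : ℕ) (g : (⨂[ℝ] _ : Fin 2, c0) →ₗ[ℝ] ℝ) (a : Fin m → ℝ) :
    ∑ i, ∑ j, mat m g i j * a i * a j =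
      g (tprod ℝ (fun _ : Fin 2 => ∑ i : Fin m, a i • eb i)) := by
  rw [← bil_self, map_sum (bil g), LinearMap.sum_apply]
  have h1 : ∀ i : Fin m, (bil g (a i • eb i)) (∑ j : Fin m, a j • eb j) =
      ∑ j : Fin m, a i * a j * bil g (eb i) (eb j) := by
    intro i
    rw [map_sum]
    apply Finset.sum_congr rfl
    intro j _
    rw [map_smul, map_smul, LinearMap.smul_apply, smul_eq_mul, smul_eq_mul]
    ring
  simp_rw [h1]
  have h2 : ∑ i : Fin m, ∑ j : Fin m, a i * a j * bil g (eb i) (eb j) =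
      ∑ i : Fin m, ∑ j : Fin m, a i * a j * bil g (eb j) (eb i) := by
    rw [Finset.sum_comm]
    apply Finset.sum_congr rfl
    intro i _
    apply Finset.sum_congr rfl
    intro j _
    ring
  have h3 : ∑ i : Fin m, ∑ j : Fin m, mat m g i j * a i * a j =
      ((∑ i : Fin m, ∑ j : Fin m, a i * a j * bil g (eb i) (eb j)) +
      ∑ i : Fin m, ∑ j : Fin m, a i * a j * bil g (eb j) (eb i)) / 2 := by
    rw [← Finset.sum_add_distrib, Finset.sum_div]
    apply Finset.sum_congr rfl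
    intro i _
    rw [← Finset.sum_add_distrib, Finset.sum_div]
    apply Finset.sum_congr rfl
    intro j _
    unfold mat
    ring
  rw [h3, ← h2]
  ring

theorem quad_approx {g : (⨂[ℝ] _ : Fin 2, c0) →ₗ[ℝ] ℝ}
    (hg : ∀ x : c0, |g (tprod ℝ (fun _ : Fin 2 => x))| ≤ ‖x‖ ^ 2) (x y : c0) {t : ℝ} (ht : 0 < t) :
    |g (tprod ℝ (fun _ : Fin 2 => x)) - g (tprod ℝ (fun _ : Fin 2 => y))| ≤
      (t * ‖x + y‖ + t⁻¹ * ‖x - y‖) ^ 2 / 2 := by
  rw [← bil_self, ← bil_self]
  have h1 : bil g x x - bil g y y =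
      (bil g (t • (x + y) + t⁻¹ • (x - y)) (t • (x + y) + t⁻¹ • (x - y)) -
       bil g (t • (x + y) - t⁻¹ • (x - y)) (t • (x + y) - t⁻¹ • (x - y))) / 4 := by
    simp only [map_add, map_sub, map_smul, LinearMap.add_apply, LinearMap.sub_apply,
      LinearMap.smul_apply, smul_eq_mul]
    field_simp
    ring
  have h2 : ∀ z : c0, ‖z‖ ≤ t * ‖x + y‖ + t⁻¹ * ‖x - y‖ →
      |bil g z z| ≤ (t * ‖x + y‖ + t⁻¹ * ‖x - y‖) ^ 2 := by
    intro z hz
    rw [bil_self]
    exact (hg z).trans (pow_le_pow_left₀ (norm_nonneg _) hz 2)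
  have ht' : 0 < t⁻¹ := inv_pos.2 ht
  have h3 : ‖t • (x + y)‖ = t * ‖x + y‖ := by rw [norm_smul, Real.norm_eq_abs, abs_of_pos ht]
  have h4 : ‖t⁻¹ • (x - y)‖ = t⁻¹ * ‖x - y‖ := by rw [norm_smul, Real.norm_eq_abs, abs_of_pos ht']
  have h5 := h2 (t • (x + y) + t⁻¹ • (x - y)) ((norm_add_le _ _).trans (by rw [h3, h4]))
  have h6 := h2 (t • (x + y) - t⁻¹ • (x - y)) ((norm_sub_le _ _).trans (by rw [h3, h4]))
  rw [h1]
  rw [abs_le] at h5 h6 ⊢
  constructor <;> linarith [h5.1, h5.2, h6.1, h6.2]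

theorem quad_tr {g : (⨂[ℝ] _ : Fin 2, c0) →ₗ[ℝ] ℝ}
    (hg : ∀ x : c0, |g (tprod ℝ (fun _ : Fin 2 => x))| ≤ ‖x‖ ^ 2) (x : c0) {δ : ℝ} (hδ : 0 < δ) :
    ∃ m0 : ℕ, ∀ m ≥ m0, |g (tprod ℝ (fun _ : Fin 2 => x)) - g (tprod ℝ (fun _ : Fin 2 => tr m x))| ≤ δ := by
  set η := min 1 (δ / 2) with hη
  have hη0 : 0 < η := lt_min zero_lt_one (half_pos hδ)
  have hη1 : η ≤ 1 := min_le_left _ _
  have hη2 : η ≤ δ / 2 := min_le_right _ _
  set t := η / (2 * ‖x‖ + 1) with ht
  have hx0 := norm_nonneg x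
  have ht0 : 0 < t := by positivity
  obtain ⟨m0, hm0⟩ := tr_approx x (δ := t * η) (by positivity)
  refine ⟨m0, fun m hm => (quad_approx hg x (tr m x) ht0).trans ?_⟩
  have h1 : t * ‖x + tr m x‖ ≤ η := by
    have h2 : ‖x + tr m x‖ ≤ 2 * ‖x‖ + 1 := by
      have := norm_add_le x (tr m x)
      have := norm_tr_le m x
      linarith
    calc t * ‖x + tr m x‖ ≤ t * (2 * ‖x‖ + 1) := by gcongr
      _ = η := by rw [ht]; field_simp
  have h2 : t⁻¹ * ‖x - tr m x‖ ≤ η := by
    rw [inv_mul_le_iff₀ ht0]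
    exact hm0 m hm
  have h3 : 0 ≤ t * ‖x + tr m x‖ := by positivity
  have h4 : 0 ≤ t⁻¹ * ‖x - tr m x‖ := by positivity
  have h5 : (t * ‖x + tr m x‖ + t⁻¹ * ‖x - tr m x‖) ^ 2 ≤ (2 * η) ^ 2 :=
    pow_le_pow_left₀ (by linarith) (by linarith) 2
  nlinarith

/-- The contradiction for a single tensor. -/
theorem no_direction {v : ⨂[ℝ] _ : Fin 2, c0} (hv : v ∈ SymT 2 c0)
    (hv1 : 1 - 1 / 100000 ≤ piS v)
    (h : ∀ i : Fin 10000, piS (tprod ℝ (fun _ : Fin 2 => eb i) + v) ≤ 1 + 2 / 100000 ∧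
      piS (tprod ℝ (fun _ : Fin 2 => eb i) - v) ≤ 1 + 2 / 100000) : False := by
  obtain ⟨φ, hφ1, hφ2⟩ := exists_dual_vector'' ℝ (mk v hv)
  have hφv : 1 - 1 / 100000 ≤ φ (mk v hv) := by
    rw [hφ2, norm_mk]
    exact hv1
  -- extend to the tensor product
  obtain ⟨g, hg⟩ := LinearMap.exists_extend (p := SymT 2 c0) (φ.toLinearMap ∘ₗ incl)
  have hg' : ∀ (u : ⨂[ℝ] _ : Fin 2, c0) (hu : u ∈ SymT 2 c0), g u = φ (mk u hu) := by
    intro u hu
    have := LinearMap.congr_fun hg ⟨u, hu⟩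
    exact this
  have hgn : ∀ x : c0, |g (tprod ℝ (fun _ : Fin 2 => x))| ≤ ‖x‖ ^ 2 := by
    intro x
    rw [hg' _ (tensor_mem x)]
    have h1 := φ.le_opNorm (mk _ (tensor_mem x))
    have h2 : ‖mk _ (tensor_mem x)‖ ≤ ‖x‖ ^ 2 := piS_le (costs_tprod x)
    rw [Real.norm_eq_abs] at h1
    refine h1.trans ((mul_le_mul hφ1 h2 (norm_nonneg _) zero_le_one).trans (by rw [one_mul]))
  -- a finite representation
  obtain ⟨r, ⟨p, c, x, hrep, -⟩, -⟩ := exists_cost hv one_pos
  -- the truncation level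
  have hδ : 0 < 1 / 100000 / (∑ k, |c k| + 1) := by
    have : 0 ≤ ∑ k, |c k| := Finset.sum_nonneg fun _ _ => abs_nonneg _
    positivity
  have h1 : ∀ k : Fin p, ∃ m0 : ℕ, ∀ m ≥ m0, |g (tprod ℝ (fun _ : Fin 2 => x k)) -
      g (tprod ℝ (fun _ : Fin 2 => tr m (x k)))| ≤ 1 / 100000 / (∑ k, |c k| + 1) :=
    fun k => quad_tr hgn (x k) hδ
  choose m0 hm0 using h1
  set m := 10000 + ∑ k, m0 k with hm
  have hmk : ∀ k, m0 k ≤ m := fun k =>
    (Finset.single_le_sum (f := m0) (fun _ _ => Nat.zero_le _) (Finset.mem_univ k)).trans (by omega)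
  have hm1 : 10000 ≤ m := by omega
  clear_value m
  set A := mat m g with hAdef
  have hform : ∀ y : c0, formL A (tprod ℝ (fun _ : Fin 2 => y)) = g (tprod ℝ (fun _ : Fin 2 => tr m y)) := by
    intro y
    rw [formL_tprod, hAdef, mat_form m g (fun i => y i)]
    rfl
  have hAv : 1 - 2 / 100000 ≤ formL A v := by
    have h2 : |g v - formL A v| ≤ 1 / 100000 := by
      rw [hrep, map_sum, map_sum, ← Finset.sum_sub_distrib]
      have hS : 0 ≤ ∑ k, |c k| := Finset.sum_nonneg fun _ _ => abs_nonneg _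
      calc |∑ k, (g (c k • tprod ℝ (fun _ : Fin 2 => x k)) - formL A (c k • tprod ℝ (fun _ : Fin 2 => x k)))|
          ≤ ∑ k, |g (c k • tprod ℝ (fun _ : Fin 2 => x k)) - formL A (c k • tprod ℝ (fun _ : Fin 2 => x k))| :=
            Finset.abs_sum_le_sum_abs _ _
        _ ≤ ∑ k, |c k| * (1 / 100000 / (∑ k, |c k| + 1)) := by
            apply Finset.sum_le_sum
            intro k _
            rw [map_smul, map_smul, ← smul_sub, smul_eq_mul, abs_mul, hform]
            exact mul_le_mul_of_nonneg_left (hm0 k m (hmk k)) (abs_nonneg _)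
        _ = (∑ k, |c k|) * (1 / 100000 / (∑ k, |c k| + 1)) := by rw [Finset.sum_mul]
        _ ≤ 1 / 100000 := by
            rw [← mul_div_assoc, div_le_iff₀ (by linarith)]
            linarith
    rw [hg' v hv, abs_le] at h2
    linarith [h2.1, h2.2]
  -- the matrix is bounded on the cube
  have hAs : ∀ i j, A i j = A j i := by
    intro i j
    simp only [hAdef, mat]
    ring
  have hA1 : ∀ s : Fin m → ℝ, (∀ i, |s i| ≤ 1) → |∑ i, ∑ j, A i j * s i * s j| ≤ 1 := by
    intro s hs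
    rw [hAdef, mat_form m g s]
    refine (hgn _).trans ?_
    apply pow_le_one₀ (norm_nonneg _)
    apply norm_le_of zero_le_one
    intro j
    have h2 : (∑ i : Fin m, s i • eb i : c0) j = ∑ i : Fin m, s i * (if j = i then 1 else 0) := by
      have : (∑ i : Fin m, s i • eb i : c0) j = ev j (∑ i : Fin m, s i • eb i) := rfl
      rw [this, map_sum]
      apply Finset.sum_congr rfl
      intro i _
      rw [map_smul, smul_eq_mul]
      rfl
    rw [h2]
    by_cases hj : j < m
    · rw [Finset.sum_eq_single ⟨j, hj⟩]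
      · simpa using hs ⟨j, hj⟩
      · intro b _ hb
        rw [if_neg, mul_zero]
        intro h2
        exact hb (Fin.ext h2.symm)
      · simp
    · rw [Finset.sum_eq_zero]
      · simp
      · intro i _
        rw [if_neg, mul_zero]
        intro h2
        exact hj (h2 ▸ i.2)
  obtain ⟨μ, hμ0, hμs, hμ⟩ := GT.exists_diag hAs hA1
  have htr := GT.trace_bound hAs hA1
  -- the two positive forms
  set Q1 : Fin m → Fin m → ℝ := fun i j => if i = j then μ i else 0 with hQ1
  set Q2 : Fin m → Fin m → ℝ := fun i j => Q1 i j - A i j with hQ2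
  have hQ1f : ∀ ξ : Fin m → ℝ, ∑ i, ∑ j, Q1 i j * ξ i * ξ j = ∑ i, μ i * ξ i ^ 2 := by
    intro ξ
    apply Finset.sum_congr rfl
    intro i _
    rw [Finset.sum_eq_single i]
    · simp only [hQ1, if_true]
      ring
    · intro j _ hj
      simp only [hQ1]
      rw [if_neg (fun h => hj h.symm)]
      ring
    · simp
  have hQ2f : ∀ ξ : Fin m → ℝ, ∑ i, ∑ j, Q2 i j * ξ i * ξ j =
      ∑ i, μ i * ξ i ^ 2 - ∑ i, ∑ j, A i j * ξ i * ξ j := by
    intro ξ
    rw [← hQ1f, ← Finset.sum_sub_distrib]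
    apply Finset.sum_congr rfl
    intro i _
    rw [← Finset.sum_sub_distrib]
    apply Finset.sum_congr rfl
    intro j _
    simp only [hQ2]
    ring
  have hdiag : ∀ ξ : Fin m → ℝ, (∀ i, |ξ i| ≤ 1) → ∑ i, μ i * ξ i ^ 2 ≤ 600 := by
    intro ξ hξ
    refine le_trans (Finset.sum_le_sum fun i _ => ?_) hμs
    have : ξ i ^ 2 ≤ 1 := by
      rw [← sq_abs]
      exact pow_le_one₀ (abs_nonneg _) (hξ i)
    nlinarith [hμ0 i]
  have key : ∀ Q : Fin m → Fin m → ℝ, (∀ ξ : Fin m → ℝ, 0 ≤ ∑ i, ∑ j, Q i j * ξ i * ξ j) →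
      (∀ ξ : Fin m → ℝ, (∀ i, |ξ i| ≤ 1) → ∑ i, ∑ j, Q i j * ξ i * ξ j ≤ 1200) →
      (∀ i, 0 ≤ Q i i) → ∑ i, Q i i ≤ 1200 →
      |formL Q v| ≤ 2 * 1200 * (2 / 100000) + 1200 / 10000 := by
    intro Q hp hc hd hs
    have h2 : ∃ i : Fin 10000, Q (Fin.castLE hm1 i) (Fin.castLE hm1 i) ≤ 1200 / 10000 := by
      by_contra hcon
      push Not at hcon
      have h3 : ∑ i : Fin 10000, Q (Fin.castLE hm1 i) (Fin.castLE hm1 i) ≤ ∑ i, Q i i := by
        have h4 : ∑ i : Fin 10000, Q (Fin.castLE hm1 i) (Fin.castLE hm1 i) =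
            ∑ i ∈ Finset.univ.map (Fin.castLEEmb hm1), Q i i := by
          rw [Finset.sum_map]
          rfl
        rw [h4]
        exact Finset.sum_le_sum_of_subset_of_nonneg (Finset.subset_univ _) (fun i _ _ => hd i)
      have h5 : ∑ _i : Fin 10000, (1200 / 10000 : ℝ) < ∑ i : Fin 10000, Q (Fin.castLE hm1 i) (Fin.castLE hm1 i) :=
        Finset.sum_lt_sum_of_nonempty ⟨0, Finset.mem_univ _⟩ (fun i _ => hcon i)
      rw [Finset.sum_const, Finset.card_univ, Fintype.card_fin, nsmul_eq_mul] at h5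
      norm_num at h5
      linarith
    obtain ⟨i, hi⟩ := h2
    have h3 := test_bound hp (by norm_num : (0 : ℝ) < 1200) hc hv (Fin.castLE hm1 i)
      (c := 2 / 100000) (h i).1 (h i).2
    linarith
  have k1 := key Q1 (fun ξ => by
      rw [hQ1f]
      exact Finset.sum_nonneg fun i _ => mul_nonneg (hμ0 i) (sq_nonneg _))
    (fun ξ hξ => by
      rw [hQ1f]
      linarith [hdiag ξ hξ])
    (fun i => by simp [hQ1, hμ0 i])
    (by simp only [hQ1, if_true]; linarith)
  have k2 := key Q2 (fun ξ => by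
      rw [hQ2f]
      linarith [hμ ξ])
    (fun ξ hξ => by
      rw [hQ2f]
      have := abs_le.1 (hA1 ξ hξ)
      linarith [hdiag ξ hξ, this.1])
    (fun i => by
      have h2 := hμ (fun j => if j = i then 1 else 0)
      simp only [hQ2, hQ1, if_true]
      have e1 : ∑ k, ∑ l, A k l * (if k = i then (1 : ℝ) else 0) * (if l = i then 1 else 0) = A i i := by
        rw [Finset.sum_eq_single i, Finset.sum_eq_single i]
        · simp
        · intro j _ hj
          simp [hj]
        · simp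
        · intro j _ hj
          apply Finset.sum_eq_zero
          intro l _
          simp [hj]
        · simp
      have e2 : ∑ k, μ k * (if k = i then (1 : ℝ) else 0) ^ 2 = μ i := by
        rw [Finset.sum_eq_single i]
        · simp
        · intro j _ hj
          simp [hj]
        · simp
      rw [e1, e2] at h2
      linarith)
    (by
      simp only [hQ2, hQ1, if_true]
      rw [Finset.sum_sub_distrib]
      have := abs_le.1 htr
      linarith [this.1])
  have hsub : formL A v = formL Q1 v - formL Q2 v := by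
    rw [← formL_sub]
    congr 2
    funext i j
    simp only [hQ2]
    ring
  rw [hsub] at hAv
  rw [abs_le] at k1 k2
  linarith [k1.1, k1.2, k2.1, k2.2]

theorem not_asq : ¬ ASQ (UniformSpace.Completion (SymProj 2 c0)) := by
  intro h
  have hnorm1 : ∀ i : ℕ, ‖(mk _ (tensor_mem (eb i)))‖ = 1 := by
    intro i
    rw [norm_mk]
    apply le_antisymm
    · have := piS_le (costs_tprod (N := 2) (eb i))
      rw [norm_eb, one_pow] at this
      exact this
    · have h1 := functional_bound (sqL i) zero_le_one (fun x => by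
        rw [sqL_tprod, abs_of_nonneg (sq_nonneg _), one_mul]
        exact sq_coord_le x i) (tensor_mem (eb i))
      rw [sqL_tprod, eb_apply, if_pos rfl, one_mul] at h1
      simpa using h1
  obtain ⟨y, hy, hyi⟩ := h 10000
    (fun i => ((mk _ (tensor_mem (eb i))) : UniformSpace.Completion (SymProj 2 c0)))
    (fun i => by rw [UniformSpace.Completion.norm_coe]; exact hnorm1 i) (1 / 100000) (by norm_num)
  obtain ⟨v, hv⟩ : ∃ v : SymProj 2 c0, ‖y - (v : UniformSpace.Completion (SymProj 2 c0))‖ < 1 / 100000 := by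
    have hd := UniformSpace.Completion.denseRange_coe (α := SymProj 2 c0)
    obtain ⟨v, hv⟩ := Metric.denseRange_iff.1 hd y (1 / 100000) (by norm_num)
    refine ⟨v, ?_⟩
    rw [← dist_eq_norm]
    exact hv
  refine no_direction v.2 ?_ (fun i => ⟨?_, ?_⟩)
  · have h1 : ‖y‖ ≤ ‖y - (v : UniformSpace.Completion (SymProj 2 c0))‖ +
        ‖(v : UniformSpace.Completion (SymProj 2 c0))‖ := by
      simpa using norm_add_le (y - (v : UniformSpace.Completion (SymProj 2 c0))) v
    rw [UniformSpace.Completion.norm_coe, norm_def] at h1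
    linarith
  · have h1 := (hyi i).1
    have h2 : ‖(((mk _ (tensor_mem (eb i))) + v : SymProj 2 c0) :
        UniformSpace.Completion (SymProj 2 c0))‖ ≤ 1 + 2 / 100000 := by
      rw [UniformSpace.Completion.coe_add]
      calc _ = ‖(((mk _ (tensor_mem (eb i))) : UniformSpace.Completion (SymProj 2 c0)) + y) -
            (y - v)‖ := by congr 1; abel
        _ ≤ _ := norm_sub_le _ _
        _ ≤ _ := by linarith
    rw [UniformSpace.Completion.norm_coe, norm_def] at h2
    exact h2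
  · have h1 := (hyi i).2
    have h2 : ‖(((mk _ (tensor_mem (eb i))) - v : SymProj 2 c0) :
        UniformSpace.Completion (SymProj 2 c0))‖ ≤ 1 + 2 / 100000 := by
      rw [UniformSpace.Completion.coe_sub]
      calc _ = ‖(((mk _ (tensor_mem (eb i))) : UniformSpace.Completion (SymProj 2 c0)) - y) +
            (y - v)‖ := by congr 1; abel
        _ ≤ _ := norm_add_le _ _
        _ ≤ _ := by linarith
    rw [UniformSpace.Completion.norm_coe, norm_def] at h2
    exact h2

end Pool.Agent.R274.SP
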