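import Mathlib

namespace Pool.Agent.R274.Schur

open Filter Topology UniformSpace

/-- coordinates -/
abbrev Ix (N : ℕ → ℕ) : Type := Σ m : ℕ, Fin (N m)

/-- finitely supported scalar functions on the coordinates -/
def W (𝕜 : Type*) [RCLike 𝕜] (_p : ℝ) (N : ℕ → ℕ) : Type _ := Ix N →₀ 𝕜

variable {𝕜 : Type*} [RCLike 𝕜] {p : ℝ} {N : ℕ → ℕ}

noncomputable instance : AddCommGroup (W 𝕜 p N) := inferInstanceAs (AddCommGroup (Ix N →₀ 𝕜))
noncomputable instance : Module 𝕜 (W 𝕜 p N) := inferInstanceAs (Module 𝕜 (Ix N →₀ 𝕜))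

/-- coordinate -/
def co (w : W 𝕜 p N) (i : Ix N) : 𝕜 := (show Ix N →₀ 𝕜 from w) i

/-- support -/
def supp (w : W 𝕜 p N) : Finset (Ix N) := (show Ix N →₀ 𝕜 from w).support

/-- unit vectors -/
noncomputable def e (i : Ix N) : W 𝕜 p N := (show W 𝕜 p N from Finsupp.single i (1 : 𝕜))

theorem co_add (v w : W 𝕜 p N) (i : Ix N) : co (v + w) i = co v i + co w i := rfl
theorem co_sub (v w : W 𝕜 p N) (i : Ix N) : co (v - w) i = co v i - co w i := rfl
theorem co_neg (v : W 𝕜 p N) (i : Ix N) : co (-v) i = - co v i := rfl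
theorem co_smul (c : 𝕜) (w : W 𝕜 p N) (i : Ix N) : co (c • w) i = c * co w i := rfl
theorem co_zero (i : Ix N) : co (0 : W 𝕜 p N) i = 0 := rfl
theorem mem_supp (w : W 𝕜 p N) (i : Ix N) : i ∈ supp w ↔ co w i ≠ 0 := Finsupp.mem_support_iff
theorem ext_co {v w : W 𝕜 p N} (h : ∀ i, co v i = co w i) : v = w := Finsupp.ext h
theorem co_e_self (i : Ix N) : co (e i : W 𝕜 p N) i = 1 := Finsupp.single_eq_same
theorem co_e_ne {i j : Ix N} (h : j ≠ i) : co (e i : W 𝕜 p N) j = 0 := Finsupp.single_eq_of_ne h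
theorem co_e (i j : Ix N) : co (e i : W 𝕜 p N) j = if j = i then 1 else 0 := by
  split_ifs with h
  · rw [h, co_e_self]
  · exact co_e_ne h
theorem co_sum {ι : Type*} (s : Finset ι) (f : ι → W 𝕜 p N) (i : Ix N) :
    co (∑ j ∈ s, f j) i = ∑ j ∈ s, co (f j) i := by
  classical
  induction s using Finset.induction_on with
  | empty => rfl
  | insert a s ha ih => rw [Finset.sum_insert ha, Finset.sum_insert ha, co_add, ih]

/-- the `p`-norm to the power `p` -/
noncomputable def n (w : W 𝕜 p N) : ℝ := ∑ i ∈ supp w, ‖co w i‖ ^ p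

section basic

variable (hp0 : 0 < p) (hp1 : p ≤ 1)

include hp0 in
theorem n_eq {w : W 𝕜 p N} {F : Finset (Ix N)} (hF : supp w ⊆ F) : n w = ∑ i ∈ F, ‖co w i‖ ^ p := by
  apply Finset.sum_subset hF
  intro i _ hi
  rw [mem_supp, not_not] at hi
  rw [hi, norm_zero, Real.zero_rpow hp0.ne']

include hp0 in
theorem sum_le_n (w : W 𝕜 p N) (F : Finset (Ix N)) : ∑ i ∈ F, ‖co w i‖ ^ p ≤ n w := by
  classical
  rw [n_eq hp0 (F := supp w ∪ F) Finset.subset_union_left]
  exact Finset.sum_le_sum_of_subset_of_nonneg Finset.subset_union_right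
    (fun _ _ _ => Real.rpow_nonneg (norm_nonneg _) _)

theorem n_nonneg (w : W 𝕜 p N) : 0 ≤ n w :=
  Finset.sum_nonneg fun _ _ => Real.rpow_nonneg (norm_nonneg _) _

include hp0 in
theorem n_zero : n (0 : W 𝕜 p N) = 0 := by
  rw [n_eq hp0 (w := (0 : W 𝕜 p N)) (F := ∅)]
  · simp
  · intro i hi
    rw [mem_supp, co_zero] at hi
    exact absurd rfl hi

include hp0 hp1 in
theorem norm_add_rpow (a b : 𝕜) : ‖a + b‖ ^ p ≤ ‖a‖ ^ p + ‖b‖ ^ p :=
  (Real.rpow_le_rpow (norm_nonneg _) (norm_add_le _ _) hp0.le).trans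
    (Real.rpow_add_le_add_rpow (norm_nonneg _) (norm_nonneg _) hp0.le hp1)

include hp0 hp1 in
theorem n_add (v w : W 𝕜 p N) : n (v + w) ≤ n v + n w := by
  classical
  have h1 : supp (v + w) ⊆ supp v ∪ supp w := by
    intro i hi
    rw [mem_supp, co_add] at hi
    rw [Finset.mem_union, mem_supp, mem_supp]
    by_contra hcon
    push Not at hcon
    rw [hcon.1, hcon.2, add_zero] at hi
    exact hi rfl
  rw [n_eq hp0 h1, n_eq hp0 (w := v) (F := supp v ∪ supp w) Finset.subset_union_left,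
    n_eq hp0 (w := w) (F := supp v ∪ supp w) Finset.subset_union_right, ← Finset.sum_add_distrib]
  exact Finset.sum_le_sum fun i _ => norm_add_rpow hp0 hp1 _ _

include hp0 in
theorem n_smul (c : 𝕜) (w : W 𝕜 p N) : n (c • w) = ‖c‖ ^ p * n w := by
  have h1 : supp (c • w) ⊆ supp w := by
    intro i hi
    rw [mem_supp, co_smul] at hi
    rw [mem_supp]
    exact right_ne_zero_of_mul hi
  rw [n_eq hp0 h1, n, Finset.mul_sum]
  apply Finset.sum_congr rfl
  intro i _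
  rw [co_smul, norm_mul, Real.mul_rpow (norm_nonneg _) (norm_nonneg _)]

include hp0 in
theorem n_neg (w : W 𝕜 p N) : n (-w) = n w := by
  have := n_smul hp0 (-1 : 𝕜) w
  rwa [neg_one_smul, norm_neg, norm_one, Real.one_rpow, one_mul] at this

include hp0 hp1 in
theorem n_sub (v w : W 𝕜 p N) : n (v - w) ≤ n v + n w := by
  rw [sub_eq_add_neg]
  refine (n_add hp0 hp1 _ _).trans ?_
  rw [n_neg hp0]

include hp0 hp1 in
theorem n_sum {ι : Type*} (s : Finset ι) (f : ι → W 𝕜 p N) : n (∑ j ∈ s, f j) ≤ ∑ j ∈ s, n (f j) := by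
  classical
  induction s using Finset.induction_on with
  | empty => simp [n_zero hp0]
  | insert a s ha ih =>
    rw [Finset.sum_insert ha, Finset.sum_insert ha]
    exact (n_add hp0 hp1 _ _).trans (by linarith)

include hp0 in
theorem n_e (i : Ix N) : n (e i : W 𝕜 p N) = 1 := by
  have h1 : supp (e i : W 𝕜 p N) ⊆ {i} := by
    intro j hj
    rw [mem_supp] at hj
    rw [Finset.mem_singleton]
    by_contra hne
    exact hj (co_e_ne hne)
  rw [n_eq hp0 h1, Finset.sum_singleton, co_e_self, norm_one, Real.one_rpow]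

end basic

/-- size of the coefficient -/
noncomputable def dl (k : ℕ) : ℝ := 1 / (((Nat.unpair k).2 : ℝ) + 1)

theorem dl_pos (k : ℕ) : 0 < dl k := by unfold dl; positivity

/-- an enumeration of the coordinates -/
def en (N : ℕ → ℕ) (hN : ∀ m, 0 < N m) (a : ℕ) : Ix N :=
  if h : (Nat.unpair a).2 < N (Nat.unpair a).1 then ⟨(Nat.unpair a).1, ⟨(Nat.unpair a).2, h⟩⟩
  else ⟨0, ⟨0, hN 0⟩⟩

theorem en_le (hN : ∀ m, 0 < N m) (a : ℕ) : (en N hN a).1 ≤ a := by
  unfold en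
  split_ifs
  · exact Nat.unpair_left_le a
  · exact Nat.zero_le _

theorem en_surj (hN : ∀ m, 0 < N m) (i : Ix N) : ∃ a, en N hN a = i := by
  obtain ⟨m, l, hl⟩ := i
  refine ⟨Nat.pair m l, ?_⟩
  have key : ∀ q : ℕ × ℕ, q = (m, l) →
      (if h : q.2 < N q.1 then (⟨q.1, ⟨q.2, h⟩⟩ : Ix N) else ⟨0, ⟨0, hN 0⟩⟩) = ⟨m, ⟨l, hl⟩⟩ := by
    rintro _ rfl
    simp [hl]
  exact key _ (Nat.unpair_pair m l)

/-- the coordinate attached to the relation `k` -/
def ic (N : ℕ → ℕ) (hN : ∀ m, 0 < N m) (k : ℕ) : Ix N := en N hN (Nat.unpair k).1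

theorem ic_le (hN : ∀ m, 0 < N m) (k : ℕ) : (ic N hN k).1 ≤ k :=
  (en_le hN _).trans (Nat.unpair_left_le k)

/-- the average of the block `k + 1` -/
noncomputable def s (𝕜 : Type*) [RCLike 𝕜] (p : ℝ) (N : ℕ → ℕ) (k : ℕ) : W 𝕜 p N :=
  ∑ l : Fin (N (k + 1)), ((dl k / N (k + 1) : ℝ) : 𝕜) • e ⟨k + 1, l⟩

/-- the relations -/
noncomputable def r (𝕜 : Type*) [RCLike 𝕜] (p : ℝ) (N : ℕ → ℕ) (hN : ∀ m, 0 < N m) (k : ℕ) :
    W 𝕜 p N := e (ic N hN k) - s 𝕜 p N k

theorem co_s (k : ℕ) (i : Ix N) :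
    co (s 𝕜 p N k) i = if i.1 = k + 1 then ((dl k / N (k + 1) : ℝ) : 𝕜) else 0 := by
  classical
  unfold s
  rw [co_sum]
  split_ifs with h
  · obtain ⟨m, l⟩ := i
    simp only at h
    subst h
    rw [Finset.sum_eq_single l]
    · rw [co_smul, co_e_self, mul_one]
    · intro l' _ hl'
      rw [co_smul, co_e_ne, mul_zero]
      intro heq
      apply hl'
      have := (Sigma.mk.inj_iff.1 heq).2
      exact (eq_of_heq this).symm
    · intro h
      exact absurd (Finset.mem_univ _) h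
  · apply Finset.sum_eq_zero
    intro l _
    rw [co_smul, co_e_ne, mul_zero]
    intro heq
    apply h
    rw [heq]

/-- linear combinations of the relations -/
noncomputable def R (𝕜 : Type*) [RCLike 𝕜] (p : ℝ) (N : ℕ → ℕ) (hN : ∀ m, 0 < N m) :
    (ℕ →₀ 𝕜) →ₗ[𝕜] W 𝕜 p N := Finsupp.linearCombination 𝕜 (r 𝕜 p N hN)

theorem R_apply (hN : ∀ m, 0 < N m) (t : ℕ →₀ 𝕜) :
    R 𝕜 p N hN t = ∑ k ∈ t.support, t k • r 𝕜 p N hN k := rfl

/-- growth of the blocks -/
noncomputable def rho (p : ℝ) (N : ℕ → ℕ) (k : ℕ) : ℝ := N (k + 1) * (dl k / N (k + 1)) ^ p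

section
variable (hp0 : 0 < p) (hp1 : p ≤ 1) (hN : ∀ m, 0 < N m)
include hp0

/-- the averages are large -/
theorem n_sum_s (t : ℕ →₀ 𝕜) :
    ∑ k ∈ t.support, ‖t k‖ ^ p * rho p N k ≤ n (∑ k ∈ t.support, t k • s 𝕜 p N k) := by
  classical
  let F : Finset (Ix N) := (t.support.image (fun k => k + 1)).sigma fun m => Finset.univ
  refine le_trans (le_of_eq ?_) (sum_le_n hp0 _ F)
  rw [Finset.sum_sigma, Finset.sum_image (fun a _ b _ h => Nat.succ_injective h)]
  apply Finset.sum_congr rfl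
  intro k hk
  have h1 : ∀ l : Fin (N (k + 1)), co (∑ k' ∈ t.support, t k' • s 𝕜 p N k') ⟨k + 1, l⟩ =
      t k * ((dl k / N (k + 1) : ℝ) : 𝕜) := by
    intro l
    rw [co_sum, Finset.sum_eq_single k]
    · rw [co_smul, co_s, if_pos rfl]
    · intro k' _ hk'
      rw [co_smul, co_s, if_neg (by simp only; omega), mul_zero]
    · intro h
      exact absurd hk h
  simp_rw [h1]
  rw [Finset.sum_const, Finset.card_univ, Fintype.card_fin, nsmul_eq_mul, norm_mul,
    RCLike.norm_ofReal, abs_of_nonneg (div_nonneg (dl_pos k).le (Nat.cast_nonneg _)),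
    Real.mul_rpow (norm_nonneg _) (div_nonneg (dl_pos k).le (Nat.cast_nonneg _)), rho]
  ring

include hp1

/-- control of the coefficients -/
theorem coef_bound (t : ℕ →₀ 𝕜) (x : W 𝕜 p N) :
    ∑ k ∈ t.support, ‖t k‖ ^ p * (rho p N k - 1) ≤ n (x - R 𝕜 p N hN t) + n x := by
  have h1 : ∑ k ∈ t.support, t k • s 𝕜 p N k =
      ((x - R 𝕜 p N hN t) - x) + ∑ k ∈ t.support, t k • e (ic N hN k) := by
    rw [R_apply]
    simp only [r, smul_sub, Finset.sum_sub_distrib]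
    abel
  have h2 : n (∑ k ∈ t.support, t k • (e (ic N hN k) : W 𝕜 p N)) ≤ ∑ k ∈ t.support, ‖t k‖ ^ p := by
    refine (n_sum hp0 hp1 _ _).trans (le_of_eq ?_)
    apply Finset.sum_congr rfl
    intro k _
    rw [n_smul hp0, n_e hp0, mul_one]
  have h3 := n_sum_s hp0 (N := N) t
  rw [h1] at h3
  have h4 := n_add hp0 hp1 ((x - R 𝕜 p N hN t) - x) (∑ k ∈ t.support, t k • (e (ic N hN k) : W 𝕜 p N))
  have h5 := n_sub hp0 hp1 (x - R 𝕜 p N hN t) x
  simp only [mul_sub, mul_one, Finset.sum_sub_distrib]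
  linarith

end

/-- restriction to a set of levels -/
noncomputable def pr (J : Set ℕ) [DecidablePred (· ∈ J)] (w : W 𝕜 p N) : W 𝕜 p N :=
  (show W 𝕜 p N from Finsupp.filter (fun i : Ix N => i.1 ∈ J) (show Ix N →₀ 𝕜 from w))

theorem co_pr (J : Set ℕ) [DecidablePred (· ∈ J)] (w : W 𝕜 p N) (i : Ix N) :
    co (pr J w) i = if i.1 ∈ J then co w i else 0 := Finsupp.filter_apply _ _ _


section prs

variable (J : Set ℕ) [DecidablePred (· ∈ J)]

theorem pr_add (v w : W 𝕜 p N) : pr J (v + w) = pr J v + pr J w := by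
  apply ext_co
  intro i
  simp only [co_pr, co_add]
  split_ifs <;> simp

theorem pr_sub (v w : W 𝕜 p N) : pr J (v - w) = pr J v - pr J w := by
  apply ext_co
  intro i
  simp only [co_pr, co_sub]
  split_ifs <;> simp

theorem pr_smul (c : 𝕜) (w : W 𝕜 p N) : pr J (c • w) = c • pr J w := by
  apply ext_co
  intro i
  simp only [co_pr, co_smul]
  split_ifs <;> simp

theorem pr_sum {ι : Type*} (s : Finset ι) (f : ι → W 𝕜 p N) :
    pr J (∑ j ∈ s, f j) = ∑ j ∈ s, pr J (f j) := by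
  apply ext_co
  intro i
  simp only [co_pr, co_sum]
  split_ifs <;> simp

end prs

section seminorm

variable (hp0 : 0 < p) (hp1 : p ≤ 1) (hN : ∀ m, 0 < N m)

/-- the quotient seminorm (power `p`) -/
noncomputable def nn (hN : ∀ m, 0 < N m) (x : W 𝕜 p N) : ℝ :=
  ⨅ t : ℕ →₀ 𝕜, n (x - R 𝕜 p N hN t)

theorem nn_bdd (x : W 𝕜 p N) : BddBelow (Set.range fun t : ℕ →₀ 𝕜 => n (x - R 𝕜 p N hN t)) := by
  refine ⟨0, ?_⟩
  rintro _ ⟨t, rfl⟩
  exact n_nonneg _

theorem nn_le (x : W 𝕜 p N) (t : ℕ →₀ 𝕜) : nn hN x ≤ n (x - R 𝕜 p N hN t) :=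
  ciInf_le (nn_bdd hN x) t

theorem nn_nonneg (x : W 𝕜 p N) : 0 ≤ nn hN x := le_ciInf fun _ => n_nonneg _

theorem nn_le_n (x : W 𝕜 p N) : nn hN x ≤ n x := by
  simpa using nn_le hN x 0

theorem exists_nn (x : W 𝕜 p N) {ε : ℝ} (hε : 0 < ε) : ∃ t, n (x - R 𝕜 p N hN t) < nn hN x + ε :=
  exists_lt_of_ciInf_lt (show (⨅ t : ℕ →₀ 𝕜, n (x - R 𝕜 p N hN t)) < nn hN x + ε by
    unfold nn; linarith)

include hp0 hp1 in
theorem nn_add (x y : W 𝕜 p N) : nn hN (x + y) ≤ nn hN x + nn hN y := by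
  apply le_of_forall_pos_le_add
  intro ε hε
  obtain ⟨t, ht⟩ := exists_nn hN x (half_pos hε)
  obtain ⟨u, hu⟩ := exists_nn hN y (half_pos hε)
  have h1 := nn_le hN (x + y) (t + u)
  have h2 : x + y - R 𝕜 p N hN (t + u) = (x - R 𝕜 p N hN t) + (y - R 𝕜 p N hN u) := by
    rw [map_add]; abel
  rw [h2] at h1
  have h3 := n_add hp0 hp1 (x - R 𝕜 p N hN t) (y - R 𝕜 p N hN u)
  linarith

include hp0 in
theorem nn_zero : nn hN (0 : W 𝕜 p N) = 0 := by
  apply le_antisymm _ (nn_nonneg hN _)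
  have := nn_le_n hN (0 : W 𝕜 p N)
  rwa [n_zero hp0] at this

include hp0 in
theorem nn_smul_le (c : 𝕜) (x : W 𝕜 p N) : nn hN (c • x) ≤ ‖c‖ ^ p * nn hN x := by
  rcases eq_or_ne c 0 with rfl | hc
  · rw [zero_smul, nn_zero hp0, norm_zero, Real.zero_rpow hp0.ne', zero_mul]
  · have hpos : 0 < ‖c‖ ^ p := Real.rpow_pos_of_pos (norm_pos_iff.2 hc) _
    rw [← div_le_iff₀' hpos]
    apply le_ciInf
    intro t
    rw [div_le_iff₀' hpos, ← n_smul hp0, smul_sub, ← map_smul]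
    exact nn_le hN _ _

include hp0 in
theorem nn_smul (c : 𝕜) (x : W 𝕜 p N) : nn hN (c • x) = ‖c‖ ^ p * nn hN x := by
  apply le_antisymm (nn_smul_le hp0 hN c x)
  rcases eq_or_ne c 0 with rfl | hc
  · rw [zero_smul, nn_zero hp0, norm_zero, Real.zero_rpow hp0.ne', zero_mul]
  · have h1 := nn_smul_le hp0 hN c⁻¹ (c • x)
    rw [smul_smul, inv_mul_cancel₀ hc, one_smul, norm_inv, Real.inv_rpow (norm_nonneg _)] at h1
    have hpos : 0 < ‖c‖ ^ p := Real.rpow_pos_of_pos (norm_pos_iff.2 hc) _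
    rw [inv_mul_eq_div, le_div_iff₀' hpos] at h1
    exact h1

include hp0 in
theorem nn_neg (x : W 𝕜 p N) : nn hN (-x) = nn hN x := by
  have := nn_smul hp0 hN (-1 : 𝕜) x
  rwa [neg_one_smul, norm_neg, norm_one, Real.one_rpow, one_mul] at this

include hp0 in
theorem nn_R (t : ℕ →₀ 𝕜) : nn hN (R 𝕜 p N hN t) = 0 := by
  apply le_antisymm _ (nn_nonneg hN _)
  have := nn_le hN (R 𝕜 p N hN t) t
  rwa [sub_self, n_zero hp0] at this

include hp0 hp1 in
/-- the crossing estimate for one set of levels -/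
theorem cross (J : Set ℕ) [DecidablePred (· ∈ J)] (x : W 𝕜 p N) (t : ℕ →₀ 𝕜) :
    nn hN (pr J x) ≤ n (pr J (x - R 𝕜 p N hN t)) +
      ∑ k ∈ t.support, ‖t k‖ ^ p * ((if (ic N hN k).1 ∈ J then 1 else 0) +
        (if k + 1 ∈ J then 1 else 0)) := by
  classical
  let t' : ℕ →₀ 𝕜 := t.filter fun k => k + 1 ∈ J
  have hR' : R 𝕜 p N hN t' = ∑ k ∈ t.support, t k • (if k + 1 ∈ J then r 𝕜 p N hN k else 0) := by
    rw [R_apply]
    have h1 : t'.support ⊆ t.support := by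
      intro k hk
      rw [Finsupp.support_filter, Finset.mem_filter] at hk
      exact hk.1
    rw [Finset.sum_subset h1 (fun k _ hk => by
      rw [Finsupp.notMem_support_iff] at hk
      rw [hk, zero_smul])]
    apply Finset.sum_congr rfl
    intro k _
    have h3 : t' k = if k + 1 ∈ J then t k else 0 := Finsupp.filter_apply _ _ _
    rw [h3]
    by_cases hk : k + 1 ∈ J
    · rw [if_pos hk, if_pos hk]
    · rw [if_neg hk, if_neg hk, zero_smul, smul_zero]
  have hone : ∀ k, pr J (r 𝕜 p N hN k) - (if k + 1 ∈ J then r 𝕜 p N hN k else 0) =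
      ((if (ic N hN k).1 ∈ J then (1 : 𝕜) else 0) • e (ic N hN k)) -
        ((if k + 1 ∈ J then (1 : 𝕜) else 0) • e (ic N hN k)) := by
    intro k
    apply ext_co
    intro i
    have h2 : co (if k + 1 ∈ J then r 𝕜 p N hN k else 0) i =
        if k + 1 ∈ J then co (r 𝕜 p N hN k) i else 0 := by
      split_ifs <;> rfl
    rw [co_sub, co_sub, co_pr, h2, co_smul, co_smul, r, co_sub, co_s, co_e]
    by_cases h3 : i = ic N hN k
    · subst h3
      by_cases h4 : (ic N hN k).1 = k + 1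
      · have := ic_le hN k
        omega
      · simp only [if_neg h4, sub_zero, if_true, mul_one]
    · simp only [if_neg h3, zero_sub, mul_zero, sub_zero]
      by_cases h4 : i.1 = k + 1
      · rw [h4, if_pos rfl]
        ring
      · simp only [if_neg h4, neg_zero, ite_self, sub_zero]
  have hdec : pr J x - R 𝕜 p N hN t' = pr J (x - R 𝕜 p N hN t) +
      ∑ k ∈ t.support, t k • (((if (ic N hN k).1 ∈ J then (1 : 𝕜) else 0) • e (ic N hN k)) -
        ((if k + 1 ∈ J then (1 : 𝕜) else 0) • e (ic N hN k))) := by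
    rw [pr_sub, R_apply hN t, pr_sum, hR']
    simp only [pr_smul]
    rw [sub_add, ← Finset.sum_sub_distrib]
    congr 1
    apply Finset.sum_congr rfl
    intro k _
    rw [← smul_sub, ← hone k]
    congr 1
    abel
  refine (nn_le hN (pr J x) t').trans ?_
  rw [hdec]
  refine (n_add hp0 hp1 _ _).trans (add_le_add le_rfl ?_)
  refine (n_sum hp0 hp1 _ _).trans ?_
  apply Finset.sum_le_sum
  intro k _
  rw [n_smul hp0]
  apply mul_le_mul_of_nonneg_left _ (Real.rpow_nonneg (norm_nonneg _) _)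
  refine (n_sub hp0 hp1 _ _).trans ?_
  rw [n_smul hp0, n_smul hp0, n_e hp0, mul_one, mul_one]
  apply add_le_add
  · split_ifs <;> simp [Real.zero_rpow hp0.ne']
  · split_ifs <;> simp [Real.zero_rpow hp0.ne']

end seminorm

end Pool.Agent.R274.Schur
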