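import Mathlib
import Pool.Agent.R274.SchurA

namespace Pool.Agent.R274.Schur

open Filter Topology UniformSpace

variable {𝕜 : Type*} [RCLike 𝕜] {p : ℝ} {N : ℕ → ℕ}

/-- the interval of levels -/
abbrev Jn (κ : ℕ → ℕ) (j : ℕ) : Set ℕ := {s | κ j < s ∧ s ≤ κ (j + 1)}

theorem Jn_disj {κ : ℕ → ℕ} (hκ : StrictMono κ) {i j s : ℕ} (hi : s ∈ Jn κ i) (hj : s ∈ Jn κ j) :
    i = j := by
  rcases lt_trichotomy i j with h | h | h
  · have h1 : κ (i + 1) ≤ κ j := hκ.monotone h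
    have h2 := hi.2
    have h3 := hj.1
    omega
  · exact h
  · have h1 : κ (j + 1) ≤ κ i := hκ.monotone h
    have h2 := hj.2
    have h3 := hi.1
    omega

theorem sum_Jn {κ : ℕ → ℕ} (hκ : StrictMono κ) (F : Finset ℕ) {j0 : ℕ} (hF : ∀ j ∈ F, j0 ≤ j) (s : ℕ) :
    ∑ j ∈ F, (if s ∈ Jn κ j then (1 : ℝ) else 0) ≤ if κ j0 < s then 1 else 0 := by
  classical
  by_cases h : ∃ i ∈ F, s ∈ Jn κ i
  · obtain ⟨i, hiF, hi⟩ := h
    have h1 : κ j0 < s := lt_of_le_of_lt (hκ.monotone (hF i hiF)) hi.1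
    rw [if_pos h1, Finset.sum_eq_single i]
    · rw [if_pos hi]
    · intro j _ hji
      rw [if_neg]
      intro hj
      exact hji (Jn_disj hκ hj hi)
    · intro h2
      exact absurd hiF h2
  · push Not at h
    rw [Finset.sum_eq_zero (fun j hj => if_neg (h j hj))]
    split_ifs <;> norm_num

section
variable (hp0 : 0 < p) (hp1 : p ≤ 1) (hN : ∀ m, 0 < N m)
include hp0 hp1

/-- the sum of the crossing estimates -/
theorem cross_sum {κ : ℕ → ℕ} (hκ : StrictMono κ) (F : Finset ℕ) {j0 : ℕ} (hF : ∀ j ∈ F, j0 ≤ j)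
    (x : W 𝕜 p N) (t : ℕ →₀ 𝕜) {K : ℝ} (hK : 0 < K) (hrho : ∀ k, 0 ≤ rho p N k - 1)
    (hrho2 : ∀ k, κ j0 ≤ k → K ≤ rho p N k - 1) :
    ∑ j ∈ F, nn hN (pr (Jn κ j) x) ≤ (1 + 2 / K) * n (x - R 𝕜 p N hN t) + 2 / K * n x := by
  classical
  set z := x - R 𝕜 p N hN t with hz
  have h1 : ∑ j ∈ F, n (pr (Jn κ j) z) ≤ n z := by
    have h2 : ∀ j, n (pr (Jn κ j) z) = ∑ i ∈ supp z, (if i.1 ∈ Jn κ j then (1 : ℝ) else 0) *
        ‖co z i‖ ^ p := by
      intro j
      rw [n_eq hp0 (F := supp z)]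
      · apply Finset.sum_congr rfl
        intro i _
        rw [co_pr]
        split_ifs
        · rw [one_mul]
        · rw [norm_zero, Real.zero_rpow hp0.ne', zero_mul]
      · intro i hi
        rw [mem_supp, co_pr] at hi
        rw [mem_supp]
        intro h
        rw [h] at hi
        simp at hi
    simp_rw [h2]
    rw [Finset.sum_comm]
    apply Finset.sum_le_sum
    intro i _
    rw [← Finset.sum_mul]
    have h3 := sum_Jn hκ F hF i.1
    have h4 : (if κ j0 < i.1 then (1 : ℝ) else 0) ≤ 1 := by split_ifs <;> norm_num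
    calc _ ≤ 1 * ‖co z i‖ ^ p := by
          gcongr
          exact h3.trans h4
      _ = _ := one_mul _
  have h5 : ∑ j ∈ F, ∑ k ∈ t.support, ‖t k‖ ^ p * ((if (ic N hN k).1 ∈ Jn κ j then (1 : ℝ) else 0) +
        (if k + 1 ∈ Jn κ j then 1 else 0)) ≤ 2 / K * (n z + n x) := by
    rw [Finset.sum_comm]
    have h6 : ∀ k ∈ t.support, ∑ j ∈ F, ‖t k‖ ^ p * ((if (ic N hN k).1 ∈ Jn κ j then (1 : ℝ) else 0) +
        (if k + 1 ∈ Jn κ j then 1 else 0)) ≤ 2 / K * (‖t k‖ ^ p * (rho p N k - 1)) := by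
      intro k _
      have hnn : 0 ≤ ‖t k‖ ^ p := Real.rpow_nonneg (norm_nonneg _) _
      rw [← Finset.mul_sum, Finset.sum_add_distrib]
      have h7 := sum_Jn hκ F hF (ic N hN k).1
      have h8 := sum_Jn hκ F hF (k + 1)
      have hic := ic_le hN k
      by_cases hk : κ j0 ≤ k
      · have h9 : (if κ j0 < (ic N hN k).1 then (1 : ℝ) else 0) ≤ 1 := by split_ifs <;> norm_num
        have h10 : (if κ j0 < k + 1 then (1 : ℝ) else 0) ≤ 1 := by split_ifs <;> norm_num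
        have h11 : (2 : ℝ) ≤ 2 / K * (rho p N k - 1) := by
          have := hrho2 k hk
          rw [div_mul_eq_mul_div, le_div_iff₀ hK]
          linarith
        calc ‖t k‖ ^ p * (∑ j ∈ F, (if (ic N hN k).1 ∈ Jn κ j then (1 : ℝ) else 0) +
              ∑ j ∈ F, (if k + 1 ∈ Jn κ j then (1 : ℝ) else 0)) ≤ ‖t k‖ ^ p * 2 := by
              gcongr
              linarith
          _ ≤ ‖t k‖ ^ p * (2 / K * (rho p N k - 1)) := by gcongr
          _ = _ := by ring
      · rw [if_neg (by omega)] at h7 h8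
        have h12 : 0 ≤ 2 / K * (‖t k‖ ^ p * (rho p N k - 1)) := by
          have := hrho k
          positivity
        refine le_trans ?_ h12
        have : ∑ j ∈ F, (if (ic N hN k).1 ∈ Jn κ j then (1 : ℝ) else 0) +
              ∑ j ∈ F, (if k + 1 ∈ Jn κ j then (1 : ℝ) else 0) ≤ 0 := by linarith
        nlinarith
    refine (Finset.sum_le_sum h6).trans ?_
    rw [← Finset.mul_sum]
    have h13 := coef_bound hp0 hp1 hN t x
    gcongr
  calc ∑ j ∈ F, nn hN (pr (Jn κ j) x) ≤ ∑ j ∈ F, (n (pr (Jn κ j) z) +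
      ∑ k ∈ t.support, ‖t k‖ ^ p * ((if (ic N hN k).1 ∈ Jn κ j then (1 : ℝ) else 0) +
        (if k + 1 ∈ Jn κ j then 1 else 0))) :=
        Finset.sum_le_sum fun j _ => cross hp0 hp1 hN (Jn κ j) x t
    _ ≤ n z + 2 / K * (n z + n x) := by
        rw [Finset.sum_add_distrib]
        exact add_le_add h1 h5
    _ = _ := by ring

/-- version with the quotient seminorm -/
theorem cross_sum' {κ : ℕ → ℕ} (hκ : StrictMono κ) (F : Finset ℕ) {j0 : ℕ} (hF : ∀ j ∈ F, j0 ≤ j)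
    (x : W 𝕜 p N) {K : ℝ} (hK : 0 < K) (hrho : ∀ k, 0 ≤ rho p N k - 1)
    (hrho2 : ∀ k, κ j0 ≤ k → K ≤ rho p N k - 1) :
    ∑ j ∈ F, nn hN (pr (Jn κ j) x) ≤ (1 + 2 / K) * nn hN x + 2 / K * n x := by
  have h1 : 0 < 1 + 2 / K := by positivity
  have h2 : (∑ j ∈ F, nn hN (pr (Jn κ j) x) - 2 / K * n x) / (1 + 2 / K) ≤ nn hN x := by
    apply le_ciInf
    intro t
    rw [div_le_iff₀' h1]
    linarith [cross_sum hp0 hp1 hN hκ F hF x t hK hrho hrho2]
  rw [div_le_iff₀' h1] at h2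
  linarith

/-- the lower estimate for block sequences -/
theorem block_lower {κ : ℕ → ℕ} (hκ : StrictMono κ) (F : Finset ℕ) {j0 : ℕ} (hF : ∀ j ∈ F, j0 ≤ j)
    {y : W 𝕜 p N} (hy : ∀ i, co y i ≠ 0 → i.1 ≤ κ j0) {b : ℕ → W 𝕜 p N}
    (hb : ∀ j i, co (b j) i ≠ 0 → i.1 ∈ Jn κ j) {η M : ℝ} (hη : 0 < η) (hM : 0 ≤ M)
    (hbη : ∀ j ∈ F, η ≤ nn hN (b j)) (hbM : ∀ j, n (b j) ≤ M) (hyM : n y ≤ M)
    {K : ℝ} (hK2 : 2 ≤ K) (hKM : 8 * M / η ≤ K) (hrho : ∀ k, 0 ≤ rho p N k - 1)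
    (hrho2 : ∀ k, κ j0 ≤ k → K ≤ rho p N k - 1) (a : ℕ → 𝕜) :
    η / 4 * ∑ j ∈ F, ‖a j‖ ^ p ≤ nn hN ((∑ j ∈ F, a j) • y + ∑ j ∈ F, a j • b j) := by
  classical
  have hK : 0 < K := by linarith
  set x : W 𝕜 p N := (∑ j ∈ F, a j) • y + ∑ j ∈ F, a j • b j with hx
  set S : ℝ := ∑ j ∈ F, ‖a j‖ ^ p with hS
  have hS0 : 0 ≤ S := Finset.sum_nonneg fun _ _ => Real.rpow_nonneg (norm_nonneg _) _
  have hpr : ∀ j ∈ F, pr (Jn κ j) x = a j • b j := by
    intro j hj
    apply ext_co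
    intro i
    rw [co_pr, hx, co_add, co_smul, co_sum]
    by_cases hi : i.1 ∈ Jn κ j
    · rw [if_pos hi]
      have h1 : co y i = 0 := by
        by_contra hne
        have h2 := hy i hne
        have h3 : κ j0 ≤ κ j := hκ.monotone (hF j hj)
        have h4 := hi.1
        omega
      rw [h1, mul_zero, zero_add, Finset.sum_eq_single j]
      · intro l _ hlj
        rw [co_smul]
        have : co (b l) i = 0 := by
          by_contra hne
          exact hlj (Jn_disj hκ (hb l i hne) hi)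
        rw [this, mul_zero]
      · intro h
        exact absurd hj h
    · rw [if_neg hi, co_smul]
      have : co (b j) i = 0 := by
        by_contra hne
        exact hi (hb j i hne)
      rw [this, mul_zero]
  have h1 : η * S ≤ ∑ j ∈ F, nn hN (pr (Jn κ j) x) := by
    rw [hS, Finset.mul_sum]
    apply Finset.sum_le_sum
    intro j hj
    rw [hpr j hj, nn_smul hp0, mul_comm]
    exact mul_le_mul_of_nonneg_left (hbη j hj) (Real.rpow_nonneg (norm_nonneg _) _)
  have hsum : ‖∑ j ∈ F, a j‖ ^ p ≤ S := by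
    rw [hS]
    clear hpr h1 hbη hF hx hS hS0
    induction F using Finset.induction_on with
    | empty => simp [Real.zero_rpow hp0.ne']
    | insert a' s ha ih =>
      rw [Finset.sum_insert ha, Finset.sum_insert ha]
      exact (norm_add_rpow hp0 hp1 _ _).trans (by linarith)
  have h2 : n x ≤ 2 * M * S := by
    calc n x ≤ n ((∑ j ∈ F, a j) • y) + n (∑ j ∈ F, a j • b j) := n_add hp0 hp1 _ _
      _ ≤ ‖∑ j ∈ F, a j‖ ^ p * n y + ∑ j ∈ F, ‖a j‖ ^ p * n (b j) := by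
          rw [n_smul hp0]
          refine add_le_add le_rfl ((n_sum hp0 hp1 _ _).trans (le_of_eq ?_))
          exact Finset.sum_congr rfl fun j _ => n_smul hp0 _ _
      _ ≤ S * M + ∑ j ∈ F, ‖a j‖ ^ p * M := by
          apply add_le_add
          · exact mul_le_mul hsum hyM (n_nonneg _) hS0
          · exact Finset.sum_le_sum fun j _ =>
              mul_le_mul_of_nonneg_left (hbM j) (Real.rpow_nonneg (norm_nonneg _) _)
      _ = _ := by rw [← Finset.sum_mul]; ring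
  have h3 := cross_sum' hp0 hp1 hN hκ F hF x hK hrho hrho2
  have h4 : 2 / K ≤ 1 := by rw [div_le_one hK]; exact hK2
  have h5 : 2 / K * n x ≤ η / 2 * S := by
    calc 2 / K * n x ≤ 2 / K * (2 * M * S) := by gcongr
      _ = (4 * M / K) * S := by ring
      _ ≤ η / 2 * S := by
          apply mul_le_mul_of_nonneg_right _ hS0
          rw [div_le_iff₀ hK]
          rw [div_le_iff₀ hη] at hKM
          linarith
  have h6 : (1 + 2 / K) * nn hN x ≤ 2 * nn hN x := by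
    have := nn_nonneg hN x
    nlinarith
  linarith

end

end Pool.Agent.R274.Schur
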