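import Mathlib
import Pool.Agent.R274.SchurB

namespace Pool.Agent.R274.Schur

open Filter Topology UniformSpace

variable {𝕜 : Type*} [RCLike 𝕜] {p : ℝ} {N : ℕ → ℕ}

section space

variable [hp : Fact (0 < p ∧ p ≤ 1)] [hN : Fact (∀ m, 0 < N m)]

noncomputable instance : SeminormedAddCommGroup (W 𝕜 p N) :=
  AddGroupSeminorm.toSeminormedAddCommGroup
    { toFun := nn hN.out
      map_zero' := nn_zero hp.out.1 hN.out
      add_le' := nn_add hp.out.1 hp.out.2 hN.out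
      neg' := nn_neg hp.out.1 hN.out }

theorem norm_def (w : W 𝕜 p N) : ‖w‖ = nn hN.out w := rfl

instance : UniformContinuousConstSMul 𝕜 (W 𝕜 p N) where
  uniformContinuous_const_smul c := by
    have h0 : 0 ≤ ‖c‖ ^ p := Real.rpow_nonneg (norm_nonneg _) _
    apply LipschitzWith.uniformContinuous (K := ⟨‖c‖ ^ p, h0⟩)
    apply LipschitzWith.of_dist_le_mul
    intro x y
    rw [dist_eq_norm, dist_eq_norm, ← smul_sub, norm_def, norm_def, nn_smul hp.out.1]
    rfl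

/-- the space -/
abbrev Sp (𝕜 : Type*) [RCLike 𝕜] (p : ℝ) (N : ℕ → ℕ) [Fact (0 < p ∧ p ≤ 1)]
    [Fact (∀ m, 0 < N m)] := Completion (W 𝕜 p N)

theorem norm_smul' (c : 𝕜) (x : Sp 𝕜 p N) : ‖c • x‖ = ‖c‖ ^ p * ‖x‖ := by
  induction x using Completion.induction_on with
  | hp =>
    apply isClosed_eq
    · exact (continuous_const_smul c).norm
    · exact continuous_const.mul continuous_norm
  | ih w =>
    rw [← Completion.coe_smul, Completion.norm_coe, Completion.norm_coe, norm_def, norm_def,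
      nn_smul hp.out.1]

theorem coe_sum {ι : Type*} (s : Finset ι) (f : ι → W 𝕜 p N) :
    ((∑ j ∈ s, f j : W 𝕜 p N) : Sp 𝕜 p N) = ∑ j ∈ s, (f j : Sp 𝕜 p N) :=
  map_sum (Completion.toCompl (α := W 𝕜 p N)) f s

theorem dense (x : Sp 𝕜 p N) {ε : ℝ} (hε : 0 < ε) : ∃ w : W 𝕜 p N, ‖x - (w : Sp 𝕜 p N)‖ < ε := by
  obtain ⟨_, ⟨w, rfl⟩, hw⟩ := Metric.mem_closure_iff.1
    ((Completion.denseRange_coe (α := W 𝕜 p N)).closure_range ▸ Set.mem_univ x) _ hε
  exact ⟨w, by rwa [dist_eq_norm] at hw⟩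

/-- finite set of coordinates of level at most `κ` -/
def Lev (N : ℕ → ℕ) (κ : ℕ) : Finset (Ix N) := (Finset.range (κ + 1)).sigma fun _ => Finset.univ

omit hN in
theorem mem_Lev (κ : ℕ) (i : Ix N) : i ∈ Lev N κ ↔ i.1 ≤ κ := by
  simp [Lev]

theorem schur_aux (hrho : ∀ k : ℕ, (k : ℝ) + 5 ≤ rho p N k) {A : Set (Sp 𝕜 p N)} (hA : A.Infinite)
    {M1 δ : ℝ} (hM1 : ∀ x ∈ A, ‖x‖ ≤ M1) (hδ : 0 < δ)
    (hsep : ∀ x ∈ A, ∀ y ∈ A, x ≠ y → δ ≤ ‖x - y‖) :
    ∃ B ⊆ A, B.Infinite ∧ ∀ F : Finset (Sp 𝕜 p N), (F : Set (Sp 𝕜 p N)) ⊆ B →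
      ∀ a : Sp 𝕜 p N → 𝕜, δ / 64 * ∑ x ∈ F, ‖a x‖ ^ p ≤ ‖∑ x ∈ F, a x • x‖ := by
  classical
  have hp0 := hp.out.1
  have hp1 := hp.out.2
  set τ : ℝ := δ / 64 with hτ
  have hτ0 : 0 < τ := by positivity
  let α : ℕ → Sp 𝕜 p N := fun m => (hA.natEmbedding _ m : Sp 𝕜 p N)
  have hαA : ∀ m, α m ∈ A := fun m => (hA.natEmbedding _ m).2
  have hαi : Function.Injective α := fun a b h => (hA.natEmbedding _).injective (Subtype.ext h)
  have hM1' : 0 ≤ M1 := (norm_nonneg _).trans (hM1 _ (hαA 0))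
  set M : ℝ := M1 + τ + 1 with hM
  have hM0 : 0 ≤ M := by positivity
  -- approximation and lifting
  have happ : ∀ m, ∃ w : W 𝕜 p N, ‖α m - (w : Sp 𝕜 p N)‖ < τ ∧ n w ≤ M := by
    intro m
    obtain ⟨w0, hw0⟩ := dense (α m) hτ0
    obtain ⟨t, ht⟩ := exists_nn hN.out w0 zero_lt_one
    refine ⟨w0 - R 𝕜 p N hN.out t, ?_, ?_⟩
    · have h1 : ‖((R 𝕜 p N hN.out t : W 𝕜 p N) : Sp 𝕜 p N)‖ = 0 := by
        rw [Completion.norm_coe, norm_def, nn_R hp0]
      calc ‖α m - ((w0 - R 𝕜 p N hN.out t : W 𝕜 p N) : Sp 𝕜 p N)‖ =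
            ‖(α m - (w0 : Sp 𝕜 p N)) + ((R 𝕜 p N hN.out t : W 𝕜 p N) : Sp 𝕜 p N)‖ := by
            congr 1
            rw [Completion.coe_sub]
            abel
        _ ≤ ‖α m - (w0 : Sp 𝕜 p N)‖ + ‖((R 𝕜 p N hN.out t : W 𝕜 p N) : Sp 𝕜 p N)‖ :=
            norm_add_le _ _
        _ < τ := by rw [h1, add_zero]; exact hw0
    · have h2 : nn hN.out w0 ≤ M1 + τ := by
        rw [← norm_def, ← Completion.norm_coe]
        calc ‖(w0 : Sp 𝕜 p N)‖ = ‖α m - (α m - (w0 : Sp 𝕜 p N))‖ := by congr 1; abel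
          _ ≤ ‖α m‖ + ‖α m - (w0 : Sp 𝕜 p N)‖ := norm_sub_le _ _
          _ ≤ _ := add_le_add (hM1 _ (hαA m)) hw0.le
      linarith
  choose w hw1 hw2 using happ
  -- coordinatewise convergent subsequence
  set C : ℝ := M ^ (p⁻¹) with hC
  have hco : ∀ m i, ‖co (w m) i‖ ^ p ≤ M := by
    intro m i
    have := sum_le_n hp0 (w m) {i}
    rw [Finset.sum_singleton] at this
    exact this.trans (hw2 m)
  have hcoC : ∀ m i, ‖co (w m) i‖ ≤ C := by
    intro m i
    have h1 := Real.rpow_le_rpow (Real.rpow_nonneg (norm_nonneg _) _) (hco m i)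
      (inv_nonneg.2 hp0.le)
    rwa [← Real.rpow_mul (norm_nonneg _), mul_inv_cancel₀ hp0.ne', Real.rpow_one] at h1
  have hcomp : IsCompact (Set.pi Set.univ fun _ : Ix N => Metric.closedBall (0 : 𝕜) C) :=
    isCompact_univ_pi fun _ => isCompact_closedBall _ _
  obtain ⟨y, -, φ, hφ, hlim⟩ := hcomp.tendsto_subseq (x := fun m i => co (w m) i)
    (fun m => Set.mem_univ_pi.2 fun i => by simpa using hcoC m i)
  have hlim' : ∀ i, Tendsto (fun m => co (w (φ m)) i) atTop (𝓝 (y i)) :=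
    fun i => (tendsto_pi_nhds.1 hlim) i
  have hysum : ∀ F : Finset (Ix N), ∑ i ∈ F, ‖y i‖ ^ p ≤ M := by
    intro F
    have h1 : Tendsto (fun m => ∑ i ∈ F, ‖co (w (φ m)) i‖ ^ p) atTop (𝓝 (∑ i ∈ F, ‖y i‖ ^ p)) :=
      tendsto_finsetSum _ fun i _ => (hlim' i).norm.rpow_const (Or.inr hp0.le)
    apply le_of_tendsto h1
    filter_upwards with m
    exact (sum_le_n hp0 _ _).trans (hw2 _)
  have hsummable : Summable fun i => ‖y i‖ ^ p :=
    summable_of_sum_le (fun i => Real.rpow_nonneg (norm_nonneg _) _) hysum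
  obtain ⟨F0, hF0⟩ := summable_iff_vanishing_norm.1 hsummable τ hτ0
  -- constants
  set η : ℝ := δ / 4 with hη
  have hη0 : 0 < η := by positivity
  set K : ℝ := max 2 (8 * M / η) with hK
  obtain ⟨κ1, hκ1⟩ := exists_nat_gt K
  set κ0 : ℕ := max κ1 (F0.sup Sigma.fst) with hκ0
  -- recursion
  have hstep : ∀ q : ℕ × ℕ, ∃ q' : ℕ × ℕ, q.1 < q'.1 ∧ q.2 < q'.2 ∧
      ∑ i ∈ Lev N q.2, ‖co (w (φ q'.1)) i - y i‖ ^ p ≤ τ ∧
      ∀ i, co (w (φ q'.1)) i ≠ 0 → i.1 ≤ q'.2 := by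
    rintro ⟨m, κ⟩
    have h1 : Tendsto (fun m => ∑ i ∈ Lev N κ, ‖co (w (φ m)) i - y i‖ ^ p) atTop
        (𝓝 (∑ i ∈ Lev N κ, ‖y i - y i‖ ^ p)) :=
      tendsto_finsetSum _ fun i _ => ((hlim' i).sub_const (y i)).norm.rpow_const (Or.inr hp0.le)
    have h2 : ∑ i ∈ Lev N κ, ‖y i - y i‖ ^ p = 0 := by
      apply Finset.sum_eq_zero
      intro i _
      rw [sub_self, norm_zero, Real.zero_rpow hp0.ne']
    rw [h2] at h1
    obtain ⟨m', hm1, hm2⟩ := ((((tendsto_order.1 h1).2 τ hτ0)).and (eventually_gt_atTop m)).exists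
    refine ⟨(m', max (κ + 1) ((supp (w (φ m'))).sup Sigma.fst)), hm2, ?_, hm1.le, ?_⟩
    · exact lt_of_lt_of_le (Nat.lt_succ_self κ) (le_max_left _ _)
    · intro i hi
      exact (Finset.le_sup (f := Sigma.fst) ((mem_supp _ _).2 hi)).trans (le_max_right _ _)
  choose nxt hn1 hn2 hn3 hn4 using hstep
  let seq : ℕ → ℕ × ℕ := fun j => Nat.rec (0, κ0) (fun _ q => nxt q) j
  let μ : ℕ → ℕ := fun j => (seq j).1
  let κ : ℕ → ℕ := fun j => (seq j).2
  have hμ : StrictMono μ := strictMono_nat_of_lt_succ fun j => hn1 (seq j)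
  have hκ : StrictMono κ := strictMono_nat_of_lt_succ fun j => hn2 (seq j)
  have hκ00 : ∀ j, κ0 ≤ κ j := fun j => hκ.monotone (Nat.zero_le j)
  let v : ℕ → W 𝕜 p N := fun j => w (φ (μ (j + 1)))
  let β : ℕ → Sp 𝕜 p N := fun j => α (φ (μ (j + 1)))
  have hβi : Function.Injective β := by
    intro a b h
    have h1 : φ (μ (a + 1)) = φ (μ (b + 1)) := hαi h
    have h2 : μ (a + 1) = μ (b + 1) := hφ.injective h1
    have h3 : a + 1 = b + 1 := hμ.injective h2
    omega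
  have hv3 : ∀ j, ∑ i ∈ Lev N (κ j), ‖co (v j) i - y i‖ ^ p ≤ τ := fun j => hn3 (seq j)
  have hv4 : ∀ j i, co (v j) i ≠ 0 → i.1 ≤ κ (j + 1) := fun j => hn4 (seq j)
  have hvM : ∀ j, n (v j) ≤ M := fun j => hw2 _
  have hβv : ∀ j, ‖β j - (v j : Sp 𝕜 p N)‖ < τ := fun j => hw1 _
  -- the head of `y`
  let y' : W 𝕜 p N := ∑ i ∈ Lev N κ0, y i • e i
  have hy' : ∀ i, co y' i = if i.1 ≤ κ0 then y i else 0 := by
    intro i
    simp only [y']
    rw [co_sum]
    split_ifs with h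
    · rw [Finset.sum_eq_single i]
      · rw [co_smul, co_e_self, mul_one]
      · intro j _ hj
        rw [co_smul, co_e_ne hj.symm, mul_zero]
      · intro h2
        exact absurd ((mem_Lev κ0 i).2 h) h2
    · apply Finset.sum_eq_zero
      intro j hj
      rw [co_smul, co_e_ne, mul_zero]
      rintro rfl
      exact h ((mem_Lev κ0 _).1 hj)
  have hy'M : n y' ≤ M := by
    rw [n_eq hp0 (F := Lev N κ0)]
    · refine le_trans (le_of_eq ?_) (hysum (Lev N κ0))
      apply Finset.sum_congr rfl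
      intro i hi
      rw [hy', if_pos ((mem_Lev κ0 i).1 hi)]
    · intro i hi
      rw [mem_supp, hy'] at hi
      rw [mem_Lev]
      by_contra hcon
      rw [if_neg hcon] at hi
      exact hi rfl
  let b : ℕ → W 𝕜 p N := fun j => pr (Jn κ j) (v j)
  have hcob : ∀ j i, co (b j) i = if i.1 ∈ Jn κ j then co (v j) i else 0 := fun j i => co_pr _ _ _
  have hb : ∀ j i, co (b j) i ≠ 0 → i.1 ∈ Jn κ j := by
    intro j i hi
    rw [hcob] at hi
    by_contra hcon
    rw [if_neg hcon] at hi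
    exact hi rfl
  have hbM : ∀ j, n (b j) ≤ M := by
    intro j
    refine le_trans ?_ (hvM j)
    rw [n_eq hp0 (w := b j) (F := supp (v j))]
    · apply Finset.sum_le_sum
      intro i _
      rw [hcob]
      split_ifs
      · exact le_rfl
      · rw [norm_zero, Real.zero_rpow hp0.ne']
        exact Real.rpow_nonneg (norm_nonneg _) _
    · intro i hi
      rw [mem_supp, hcob] at hi
      rw [mem_supp]
      intro h
      rw [h] at hi
      simp at hi
  let d : ℕ → W 𝕜 p N := fun j => v j - y' - b j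
  have hd : ∀ j, n (d j) ≤ 2 * τ := by
    intro j
    have hsupp : supp (d j) ⊆ Lev N (κ j) := by
      intro i hi
      rw [mem_supp] at hi
      rw [mem_Lev]
      by_contra hcon
      apply hi
      simp only [d]
      rw [co_sub, co_sub, hy', if_neg (by have := hκ00 j; omega), hcob, sub_zero]
      by_cases h1 : i.1 ≤ κ (j + 1)
      · rw [if_pos ⟨by omega, h1⟩, sub_self]
      · have h2 : co (v j) i = 0 := by
          by_contra hne
          exact h1 (hv4 j i hne)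
        rw [h2]
        simp
    rw [n_eq hp0 hsupp]
    have h1 : ∀ i ∈ Lev N (κ j), ‖co (d j) i‖ ^ p ≤ ‖co (v j) i - y i‖ ^ p +
        (if i.1 ≤ κ0 then 0 else ‖y i‖ ^ p) := by
      intro i hi
      rw [mem_Lev] at hi
      simp only [d]
      have h2 : i.1 ∉ Jn κ j := fun h => by
        have := h.1
        omega
      rw [co_sub, co_sub, hy', hcob, if_neg h2, sub_zero]
      split_ifs with h3
      · rw [add_zero]
      · rw [sub_zero]
        have h4 : co (v j) i = (co (v j) i - y i) + y i := by ring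
        conv_lhs => rw [h4]
        exact norm_add_rpow hp0 hp1 _ _
    refine (Finset.sum_le_sum h1).trans ?_
    rw [Finset.sum_add_distrib]
    have h5 : ∑ i ∈ Lev N (κ j), (if i.1 ≤ κ0 then 0 else ‖y i‖ ^ p) ≤ τ := by
      have h6 : ∑ i ∈ Lev N (κ j), (if i.1 ≤ κ0 then 0 else ‖y i‖ ^ p) =
          ∑ i ∈ (Lev N (κ j)).filter (fun i => ¬ i.1 ≤ κ0), ‖y i‖ ^ p := by
        rw [Finset.sum_filter]
        apply Finset.sum_congr rfl
        intro i _
        by_cases h7 : i.1 ≤ κ0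
        · rw [if_pos h7, if_neg (not_not.2 h7)]
        · rw [if_neg h7, if_pos h7]
      rw [h6]
      have h8 := hF0 ((Lev N (κ j)).filter (fun i => ¬ i.1 ≤ κ0)) (by
        rw [Finset.disjoint_left]
        intro i hi hi'
        have h9 : i.1 ≤ F0.sup Sigma.fst := Finset.le_sup (f := Sigma.fst) hi'
        exact (Finset.mem_filter.1 hi).2 (h9.trans (le_max_right _ _)))
      exact (le_of_lt (lt_of_le_of_lt (Real.le_norm_self _) h8))
    linarith [hv3 j]
  have hdec : ∀ j, v j = y' + b j + d j := by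
    intro j
    simp only [d]
    abel
  -- separation
  have hvsep : ∀ i j, i ≠ j → δ - 2 * τ ≤ nn hN.out (v i - v j) := by
    intro i j hij
    have h1 := hsep _ (hαA (φ (μ (i + 1)))) _ (hαA (φ (μ (j + 1)))) (fun h => hij (hβi h))
    have h2 : ‖β i - β j‖ ≤ ‖β i - (v i : Sp 𝕜 p N)‖ + ‖((v i - v j : W 𝕜 p N) : Sp 𝕜 p N)‖ +
        ‖β j - (v j : Sp 𝕜 p N)‖ := by
      calc ‖β i - β j‖ = ‖((β i - (v i : Sp 𝕜 p N)) + ((v i - v j : W 𝕜 p N) : Sp 𝕜 p N)) -
            (β j - (v j : Sp 𝕜 p N))‖ := by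
            congr 1
            rw [Completion.coe_sub]
            abel
        _ ≤ _ := (norm_sub_le _ _).trans (add_le_add (norm_add_le _ _) le_rfl)
    rw [Completion.norm_coe, norm_def] at h2
    have h3 := hβv i
    have h4 := hβv j
    have h5 : δ ≤ ‖β i - β j‖ := h1
    linarith
  have hbsep : ∀ i j, i ≠ j → δ / 2 ≤ nn hN.out (b i) + nn hN.out (b j) := by
    intro i j hij
    have h1 := hvsep i j hij
    have h2 : v i - v j = (b i + (-b j)) + (d i + (-d j)) := by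
      rw [hdec i, hdec j]
      abel
    have h3 : nn hN.out (v i - v j) ≤ (nn hN.out (b i) + nn hN.out (b j)) + (2 * τ + 2 * τ) := by
      rw [h2]
      refine (nn_add hp0 hp1 hN.out _ _).trans (add_le_add ?_ ?_)
      · refine (nn_add hp0 hp1 hN.out _ _).trans ?_
        rw [nn_neg hp0]
      · refine (nn_add hp0 hp1 hN.out _ _).trans ?_
        rw [nn_neg hp0]
        exact add_le_add ((nn_le_n hN.out _).trans (hd i)) ((nn_le_n hN.out _).trans (hd j))
    linarith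
  obtain ⟨j0, hj0⟩ : ∃ j0, ∀ j, j0 ≤ j → η ≤ nn hN.out (b j) := by
    by_cases hex : ∃ j, nn hN.out (b j) < η
    · obtain ⟨j1, hj1⟩ := hex
      refine ⟨j1 + 1, fun j hj => ?_⟩
      have := hbsep j1 j (by omega)
      simp only [hη] at hj1 ⊢
      linarith
    · push Not at hex
      exact ⟨0, fun j _ => hex j⟩
  refine ⟨β '' Set.Ici j0, ?_, (Set.Ici_infinite j0).image hβi.injOn, ?_⟩
  · rintro _ ⟨j, -, rfl⟩
    exact hαA _
  intro F hF a
  obtain ⟨G, hG1, rfl⟩ := Finset.subset_set_image_iff.1 hF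
  rw [Finset.sum_image (fun x _ z _ h => hβi h), Finset.sum_image (fun x _ z _ h => hβi h)]
  set a' : ℕ → 𝕜 := fun j => a (β j) with ha'
  set S : ℝ := ∑ j ∈ G, ‖a' j‖ ^ p with hS
  have hrho' : ∀ k, 0 ≤ rho p N k - 1 := by
    intro k
    have := hrho k
    have : (0 : ℝ) ≤ k := Nat.cast_nonneg k
    linarith
  have hmain := block_lower hp0 hp1 hN.out hκ G (j0 := j0) (fun j hj => hG1 hj) (y := y')
    (fun i hi => by
      rw [hy'] at hi
      by_contra hcon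
      rw [if_neg (by have := hκ00 j0; omega)] at hi
      exact hi rfl)
    hb hη0 hM0 (fun j hj => hj0 j (hG1 hj)) hbM hy'M (le_max_left _ _) (le_max_right _ _) hrho'
    (fun k hk => by
      have h1 := hrho k
      have h2 : κ1 ≤ k := (le_max_left _ _).trans ((hκ00 j0).trans hk)
      have h3 : (κ1 : ℝ) ≤ k := by exact_mod_cast h2
      linarith) a'
  have hvsum : ∑ j ∈ G, a' j • v j = ((∑ j ∈ G, a' j) • y' + ∑ j ∈ G, a' j • b j) +
      ∑ j ∈ G, a' j • d j := by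
    rw [Finset.sum_smul, ← Finset.sum_add_distrib, ← Finset.sum_add_distrib]
    apply Finset.sum_congr rfl
    intro j _
    conv_lhs => rw [hdec j]
    rw [smul_add, smul_add]
  have hdsum : n (∑ j ∈ G, a' j • d j) ≤ 2 * τ * S := by
    refine (n_sum hp0 hp1 _ _).trans ?_
    rw [hS, Finset.mul_sum]
    apply Finset.sum_le_sum
    intro j _
    rw [n_smul hp0, mul_comm]
    exact mul_le_mul_of_nonneg_right (hd j) (Real.rpow_nonneg (norm_nonneg _) _)
  have hlow1 : η / 4 * S - 2 * τ * S ≤ nn hN.out (∑ j ∈ G, a' j • v j) := by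
    have h1 : nn hN.out ((∑ j ∈ G, a' j) • y' + ∑ j ∈ G, a' j • b j) ≤
        nn hN.out (∑ j ∈ G, a' j • v j) + nn hN.out (∑ j ∈ G, a' j • d j) := by
      have h2 : (∑ j ∈ G, a' j) • y' + ∑ j ∈ G, a' j • b j =
          ∑ j ∈ G, a' j • v j + (-∑ j ∈ G, a' j • d j) := by
        rw [hvsum]; abel
      rw [h2]
      refine (nn_add hp0 hp1 hN.out _ _).trans ?_
      rw [nn_neg hp0]
    have h3 := nn_le_n hN.out (∑ j ∈ G, a' j • d j)
    linarith
  have hdiff : ‖∑ j ∈ G, a' j • β j - ((∑ j ∈ G, a' j • v j : W 𝕜 p N) : Sp 𝕜 p N)‖ ≤ τ * S := by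
    have h1 : ∑ j ∈ G, a' j • β j - ((∑ j ∈ G, a' j • v j : W 𝕜 p N) : Sp 𝕜 p N) =
        ∑ j ∈ G, a' j • (β j - (v j : Sp 𝕜 p N)) := by
      rw [coe_sum, ← Finset.sum_sub_distrib]
      apply Finset.sum_congr rfl
      intro j _
      rw [Completion.coe_smul, smul_sub]
    rw [h1, hS, Finset.mul_sum]
    apply norm_sum_le_of_le
    intro j _
    rw [norm_smul', mul_comm]
    exact mul_le_mul_of_nonneg_right (hβv j).le (Real.rpow_nonneg (norm_nonneg _) _)
  have hfin : nn hN.out (∑ j ∈ G, a' j • v j) ≤ ‖∑ j ∈ G, a' j • β j‖ + τ * S := by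
    rw [← norm_def, ← Completion.norm_coe]
    calc ‖((∑ j ∈ G, a' j • v j : W 𝕜 p N) : Sp 𝕜 p N)‖ = ‖∑ j ∈ G, a' j • β j -
          (∑ j ∈ G, a' j • β j - ((∑ j ∈ G, a' j • v j : W 𝕜 p N) : Sp 𝕜 p N))‖ := by
          congr 1; abel
      _ ≤ _ := (norm_sub_le _ _).trans (add_le_add le_rfl hdiff)
  have h9 : η / 4 * S - 2 * τ * S - τ * S = δ / 64 * S := by
    simp only [hη, hτ]
    ring
  have h10 : δ / 64 * S ≤ ‖∑ j ∈ G, a' j • β j‖ := by
    rw [← h9]
    linarith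
  exact h10

end space

end Pool.Agent.R274.Schur
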