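import Mathlib
import Pool.Agent.R274.SchurC

namespace Pool.Agent.R274.Schur

open Filter Topology UniformSpace

/-- `q` is a complete quasi-norm on the `𝕜`-vector space `X`. -/
structure IsQuasiBanach (𝕜 : Type*) [RCLike 𝕜] {X : Type*} [AddCommGroup X] [Module 𝕜 X]
    (q : X → ℝ) : Prop where
  nonneg : ∀ x, 0 ≤ q x
  eq_zero : ∀ x, q x = 0 → x = 0
  smul : ∀ (c : 𝕜) (x : X), q (c • x) = ‖c‖ * q x
  add : ∃ C : ℝ, ∀ x y, q (x + y) ≤ C * (q x + q y)
  complete : ∀ u : ℕ → X, (∀ ε > 0, ∃ m, ∀ i ≥ m, ∀ j ≥ m, q (u i - u j) < ε) →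
    ∃ x, ∀ ε > 0, ∃ m, ∀ i ≥ m, q (u i - x) < ε

/-- Schur `p`-property: every infinite bounded uniformly separated set has an infinite subset
equivalent to the unit vector basis of the space of `p`-summable sequences. -/
def SchurProperty (𝕜 : Type*) [RCLike 𝕜] {X : Type*} [AddCommGroup X] [Module 𝕜 X]
    (q : X → ℝ) (p : ℝ) : Prop :=
  ∀ A : Set X, A.Infinite → (∃ M : ℝ, ∀ x ∈ A, q x ≤ M) →
    (∃ δ > 0, ∀ x ∈ A, ∀ y ∈ A, x ≠ y → δ ≤ q (x - y)) →
    ∃ B ⊆ A, B.Infinite ∧ ∃ c C : ℝ, 0 < c ∧ ∀ F : Finset X, (F : Set X) ⊆ B → ∀ a : X → 𝕜,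
      c * (∑ x ∈ F, ‖a x‖ ^ p) ^ (1 / p) ≤ q (∑ x ∈ F, a x • x) ∧
      q (∑ x ∈ F, a x • x) ≤ C * (∑ x ∈ F, ‖a x‖ ^ p) ^ (1 / p)

variable {𝕜 : Type*} [RCLike 𝕜] {p : ℝ} {N : ℕ → ℕ}

section space

variable [hp : Fact (0 < p ∧ p ≤ 1)] [hN : Fact (∀ m, 0 < N m)]

/-- the quasi-norm -/
noncomputable def q (x : Sp 𝕜 p N) : ℝ := ‖x‖ ^ (1 / p)

theorem q_pow (x : Sp 𝕜 p N) : q x ^ p = ‖x‖ := by
  unfold q
  rw [← Real.rpow_mul (norm_nonneg _), one_div, inv_mul_cancel₀ hp.out.1.ne', Real.rpow_one]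

theorem q_nonneg (x : Sp 𝕜 p N) : 0 ≤ q x := Real.rpow_nonneg (norm_nonneg _) _

theorem q_smul (c : 𝕜) (x : Sp 𝕜 p N) : q (c • x) = ‖c‖ * q x := by
  unfold q
  rw [norm_smul', Real.mul_rpow (Real.rpow_nonneg (norm_nonneg _) _) (norm_nonneg _),
    ← Real.rpow_mul (norm_nonneg _), mul_one_div_cancel hp.out.1.ne', Real.rpow_one]

theorem q_lt {x : Sp 𝕜 p N} {ε : ℝ} (hε : 0 < ε) (h : ‖x‖ < ε ^ p) : q x < ε := by
  have h1 := Real.rpow_lt_rpow (norm_nonneg x) h (one_div_pos.2 hp.out.1)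
  rwa [← Real.rpow_mul hε.le, mul_one_div_cancel hp.out.1.ne', Real.rpow_one] at h1

theorem norm_lt {x : Sp 𝕜 p N} {ε : ℝ} (hε : 0 < ε) (h : q x < ε ^ (1 / p)) : ‖x‖ < ε := by
  rw [← q_pow]
  have h1 := Real.rpow_lt_rpow (q_nonneg x) h hp.out.1
  rwa [← Real.rpow_mul hε.le, one_div_mul_cancel hp.out.1.ne', Real.rpow_one] at h1

theorem isQuasiBanach : IsQuasiBanach 𝕜 (q : Sp 𝕜 p N → ℝ) where
  nonneg := q_nonneg
  eq_zero x h := by
    have := q_pow x
    rw [h, Real.zero_rpow hp.out.1.ne'] at this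
    exact norm_eq_zero.1 this.symm
  smul := q_smul
  add := by
    refine ⟨2 ^ (1 / p), fun x y => ?_⟩
    have hinv : 0 < 1 / p := one_div_pos.2 hp.out.1
    wlog hxy : ‖y‖ ≤ ‖x‖ generalizing x y with H
    · rw [add_comm x y, add_comm (q x) (q y)]
      exact H y x (le_of_not_ge hxy)
    · have h1 : q (x + y) ≤ (2 * ‖x‖) ^ (1 / p) :=
        Real.rpow_le_rpow (norm_nonneg _) ((norm_add_le x y).trans (by linarith)) hinv.le
      rw [Real.mul_rpow (by norm_num) (norm_nonneg _)] at h1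
      refine h1.trans ?_
      apply mul_le_mul_of_nonneg_left _ (Real.rpow_nonneg (by norm_num) _)
      have := q_nonneg y
      change q x ≤ q x + q y
      linarith
  complete u hu := by
    have hcau : CauchySeq u := by
      rw [Metric.cauchySeq_iff]
      intro ε hε
      obtain ⟨m, hm⟩ := hu (ε ^ (1 / p)) (Real.rpow_pos_of_pos hε _)
      refine ⟨m, fun i hi j hj => ?_⟩
      rw [dist_eq_norm]
      exact norm_lt hε (hm i hi j hj)
    obtain ⟨x, hx⟩ := cauchySeq_tendsto_of_complete hcau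
    refine ⟨x, fun ε hε => ?_⟩
    obtain ⟨m, hm⟩ := (Metric.tendsto_atTop.1 hx) (ε ^ p) (Real.rpow_pos_of_pos hε _)
    refine ⟨m, fun i hi => q_lt hε ?_⟩
    have := hm i hi
    rwa [dist_eq_norm] at this

theorem norm_sum_le' (F : Finset (Sp 𝕜 p N)) (a : Sp 𝕜 p N → 𝕜) {M : ℝ} (hM : ∀ x ∈ F, ‖x‖ ≤ M) :
    ‖∑ x ∈ F, a x • x‖ ≤ M * ∑ x ∈ F, ‖a x‖ ^ p := by
  rw [Finset.mul_sum]
  apply norm_sum_le_of_le
  intro x hx
  rw [norm_smul', mul_comm]
  exact mul_le_mul_of_nonneg_right (hM x hx) (Real.rpow_nonneg (norm_nonneg _) _)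

theorem schurProperty (hrho : ∀ k : ℕ, (k : ℝ) + 5 ≤ rho p N k) :
    SchurProperty 𝕜 (q : Sp 𝕜 p N → ℝ) p := by
  rintro A hA ⟨M, hM⟩ ⟨δ, hδ, hsep⟩
  have hp0 := hp.out.1
  have hinv : 0 < 1 / p := one_div_pos.2 hp0
  have hM1 : ∀ x ∈ A, ‖x‖ ≤ M ^ p := by
    intro x hx
    rw [← q_pow]
    exact Real.rpow_le_rpow (q_nonneg x) (hM x hx) hp0.le
  obtain ⟨B, hBA, hB, hlow⟩ := schur_aux hrho hA hM1 (Real.rpow_pos_of_pos hδ p) (by
    intro x hx y hy hxy
    rw [← q_pow]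
    exact Real.rpow_le_rpow hδ.le (hsep x hx y hy hxy) hp0.le)
  refine ⟨B, hBA, hB, (δ ^ p / 64) ^ (1 / p), (M ^ p) ^ (1 / p), by positivity, ?_⟩
  intro F hF a
  have hS : 0 ≤ ∑ x ∈ F, ‖a x‖ ^ p :=
    Finset.sum_nonneg fun _ _ => Real.rpow_nonneg (norm_nonneg _) _
  constructor
  · rw [← Real.mul_rpow (by positivity) hS]
    exact Real.rpow_le_rpow (by positivity) (hlow F hF a) hinv.le
  · rcases F.eq_empty_or_nonempty with rfl | ⟨x0, hx0⟩
    · simp only [Finset.sum_empty]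
      unfold q
      rw [norm_zero, Real.zero_rpow hinv.ne', mul_zero]
    · have hMp : 0 ≤ M ^ p := (norm_nonneg _).trans (hM1 x0 (hBA (hF hx0)))
      rw [← Real.mul_rpow hMp hS]
      exact Real.rpow_le_rpow (norm_nonneg _)
        (norm_sum_le' F a fun x hx => hM1 x (hBA (hF hx))) hinv.le

/-- The relations vanish in the space. -/
theorem rel (k : ℕ) : ((e (ic N hN.out k) : W 𝕜 p N) : Sp 𝕜 p N) = ((s 𝕜 p N k : W 𝕜 p N) : Sp 𝕜 p N) := by
  have h1 : ((r 𝕜 p N hN.out k : W 𝕜 p N) : Sp 𝕜 p N) = 0 := by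
    rw [← norm_eq_zero, Completion.norm_coe, norm_def]
    have := nn_R hp.out.1 hN.out (Finsupp.single k (1 : 𝕜))
    have h2 : R 𝕜 p N hN.out (Finsupp.single k (1 : 𝕜)) = r 𝕜 p N hN.out k := by
      unfold R
      rw [Finsupp.linearCombination_single, one_smul]
    rwa [h2] at this
  unfold r at h1
  rw [Completion.coe_sub, sub_eq_zero] at h1
  exact h1

theorem norm_e_le (i : Ix N) : ‖((e i : W 𝕜 p N) : Sp 𝕜 p N)‖ ≤ 1 := by
  rw [Completion.norm_coe, norm_def]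
  exact (nn_le_n hN.out _).trans (n_e hp.out.1 i).le

/-- trivial dual -/
theorem trivial_dual (f : Sp 𝕜 p N →ₗ[𝕜] 𝕜) {C : ℝ} (hf : ∀ x, ‖f x‖ ≤ C * q x) : f = 0 := by
  have hp0 := hp.out.1
  have hinv : 0 < 1 / p := one_div_pos.2 hp0
  have hC' : ∀ i : Ix N, ‖f ((e i : W 𝕜 p N) : Sp 𝕜 p N)‖ ≤ |C| := by
    intro i
    refine (hf _).trans ?_
    have h1 : q ((e i : W 𝕜 p N) : Sp 𝕜 p N) ≤ 1 :=
      Real.rpow_le_one (norm_nonneg _) (norm_e_le i) hinv.le
    calc C * q ((e i : W 𝕜 p N) : Sp 𝕜 p N) ≤ |C| * q ((e i : W 𝕜 p N) : Sp 𝕜 p N) :=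
          mul_le_mul_of_nonneg_right (le_abs_self C) (q_nonneg _)
      _ ≤ |C| * 1 := mul_le_mul_of_nonneg_left h1 (abs_nonneg C)
      _ = |C| := mul_one _
  have he : ∀ i : Ix N, f ((e i : W 𝕜 p N) : Sp 𝕜 p N) = 0 := by
    intro i
    obtain ⟨a, ha⟩ := en_surj hN.out i
    have hbound : ∀ j : ℕ, ‖f ((e i : W 𝕜 p N) : Sp 𝕜 p N)‖ ≤ |C| * (1 / ((j : ℝ) + 1)) := by
      intro j
      set k := Nat.pair a j with hk
      have hik : ic N hN.out k = i := by
        unfold ic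
        rw [hk, Nat.unpair_pair]
        exact ha
      have hdl : dl k = 1 / ((j : ℝ) + 1) := by
        unfold dl
        rw [hk, Nat.unpair_pair]
      have h1 := rel (𝕜 := 𝕜) (p := p) (N := N) k
      rw [hik] at h1
      rw [h1]
      have hNpos : (0 : ℝ) < N (k + 1) := by exact_mod_cast hN.out (k + 1)
      have h2 : ((s 𝕜 p N k : W 𝕜 p N) : Sp 𝕜 p N) = ∑ l : Fin (N (k + 1)),
          ((dl k / N (k + 1) : ℝ) : 𝕜) • ((e ⟨k + 1, l⟩ : W 𝕜 p N) : Sp 𝕜 p N) := by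
        unfold s
        rw [coe_sum]
        apply Finset.sum_congr rfl
        intro l _
        rw [Completion.coe_smul]
      rw [h2, map_sum]
      calc ‖∑ l : Fin (N (k + 1)), f (((dl k / N (k + 1) : ℝ) : 𝕜) •
            ((e ⟨k + 1, l⟩ : W 𝕜 p N) : Sp 𝕜 p N))‖ ≤ ∑ _l : Fin (N (k + 1)), dl k / N (k + 1) * |C| := by
            apply norm_sum_le_of_le
            intro l _
            rw [map_smul, smul_eq_mul, norm_mul, RCLike.norm_ofReal,
              abs_of_nonneg (div_nonneg (dl_pos k).le hNpos.le)]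
            exact mul_le_mul_of_nonneg_left (hC' _) (div_nonneg (dl_pos k).le hNpos.le)
        _ = |C| * (1 / ((j : ℝ) + 1)) := by
            rw [Finset.sum_const, Finset.card_univ, Fintype.card_fin, nsmul_eq_mul, ← hdl]
            field_simp
    have hlim : Tendsto (fun j : ℕ => |C| * (1 / ((j : ℝ) + 1))) atTop (𝓝 0) := by
      simpa using (tendsto_one_div_add_atTop_nhds_zero_nat (𝕜 := ℝ)).const_mul |C|
    have := ge_of_tendsto' hlim hbound
    exact norm_le_zero_iff.1 this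
  have hW : ∀ w : W 𝕜 p N, f ((w : W 𝕜 p N) : Sp 𝕜 p N) = 0 := by
    intro w
    have h1 : w = ∑ i ∈ supp w, co w i • e i := by
      classical
      apply ext_co
      intro j
      rw [co_sum]
      by_cases hj : j ∈ supp w
      · rw [Finset.sum_eq_single j]
        · rw [co_smul, co_e_self, mul_one]
        · intro i _ hij
          rw [co_smul, co_e_ne hij.symm, mul_zero]
        · intro h
          exact absurd hj h
      · rw [Finset.sum_eq_zero]
        · rw [mem_supp, not_not] at hj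
          exact hj
        · intro i hi
          rw [co_smul, co_e_ne, mul_zero]
          rintro rfl
          exact hj hi
    rw [h1, coe_sum, map_sum]
    apply Finset.sum_eq_zero
    intro i _
    rw [Completion.coe_smul, map_smul, he, smul_zero]
  ext x
  have hb : ∀ ε > 0, ‖f x‖ ≤ |C| * ε := by
    intro ε hε
    obtain ⟨w, hw⟩ := dense x (Real.rpow_pos_of_pos hε p)
    have h1 : f x = f (x - (w : Sp 𝕜 p N)) := by
      rw [map_sub, hW w, sub_zero]
    rw [h1]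
    refine (hf _).trans ?_
    have h2 := (q_lt hε hw).le
    calc C * q (x - (w : Sp 𝕜 p N)) ≤ |C| * q (x - (w : Sp 𝕜 p N)) :=
          mul_le_mul_of_nonneg_right (le_abs_self C) (q_nonneg _)
      _ ≤ |C| * ε := mul_le_mul_of_nonneg_left h2 (abs_nonneg C)
  have hlim : Tendsto (fun j : ℕ => |C| * (1 / ((j : ℝ) + 1))) atTop (𝓝 0) := by
    simpa using (tendsto_one_div_add_atTop_nhds_zero_nat (𝕜 := ℝ)).const_mul |C|
  have := ge_of_tendsto' hlim fun j => hb (1 / ((j : ℝ) + 1)) (by positivity)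
  rw [LinearMap.zero_apply]
  exact norm_le_zero_iff.1 this

/-- the space is nonzero -/
theorem nontriv (hrho : ∀ k : ℕ, (k : ℝ) + 5 ≤ rho p N k) : Nontrivial (Sp 𝕜 p N) := by
  have hp0 := hp.out.1
  have hp1 := hp.out.2
  set i0 : Ix N := ⟨0, ⟨0, hN.out 0⟩⟩ with hi0
  refine ⟨⟨((e i0 : W 𝕜 p N) : Sp 𝕜 p N), 0, ?_⟩⟩
  rw [Ne, ← norm_eq_zero, Completion.norm_coe, norm_def]
  have key : 1 / 2 ≤ nn hN.out (e i0 : W 𝕜 p N) := by
    apply le_ciInf
    intro t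
    by_contra hcon
    push Not at hcon
    have h1 := coef_bound hp0 hp1 hN.out t (e i0)
    rw [n_e hp0] at h1
    have h2 : 4 * ∑ k ∈ t.support, ‖t k‖ ^ p ≤ ∑ k ∈ t.support, ‖t k‖ ^ p * (rho p N k - 1) := by
      rw [Finset.mul_sum]
      apply Finset.sum_le_sum
      intro k _
      have h3 := hrho k
      have h4 : (0 : ℝ) ≤ k := Nat.cast_nonneg k
      have h5 : 0 ≤ ‖t k‖ ^ p := Real.rpow_nonneg (norm_nonneg _) _
      nlinarith
    have h3 : co (e i0 - R 𝕜 p N hN.out t) i0 =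
        1 - ∑ k ∈ t.support, t k * (if i0 = ic N hN.out k then 1 else 0) := by
      rw [co_sub, co_e_self, R_apply, co_sum]
      congr 1
      apply Finset.sum_congr rfl
      intro k _
      rw [co_smul, r, co_sub, co_e, co_s, if_neg (show ¬ (i0.1 = k + 1) by simp [hi0]), sub_zero]
    have h4 := sum_le_n hp0 (e i0 - R 𝕜 p N hN.out t) {i0}
    rw [Finset.sum_singleton] at h4
    have h5 : ‖∑ k ∈ t.support, t k * (if i0 = ic N hN.out k then (1 : 𝕜) else 0)‖ ^ p ≤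
        ∑ k ∈ t.support, ‖t k‖ ^ p := by
      have h6 : ∀ s : Finset ℕ, ‖∑ k ∈ s, t k * (if i0 = ic N hN.out k then (1 : 𝕜) else 0)‖ ^ p ≤
        ∑ k ∈ s, ‖t k‖ ^ p := by
        intro s
        induction s using Finset.induction_on with
        | empty => simp [Real.zero_rpow hp0.ne']
        | insert a s ha ih =>
          rw [Finset.sum_insert ha, Finset.sum_insert ha]
          refine (norm_add_rpow hp0 hp1 _ _).trans (add_le_add ?_ ih)
          apply Real.rpow_le_rpow (norm_nonneg _) _ hp0.le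
          split_ifs
          · rw [mul_one]
          · rw [mul_zero, norm_zero]
            exact norm_nonneg _
      exact h6 _
    have h7 : (1 : ℝ) ≤ ‖co (e i0 - R 𝕜 p N hN.out t) i0‖ ^ p +
        ‖∑ k ∈ t.support, t k * (if i0 = ic N hN.out k then (1 : 𝕜) else 0)‖ ^ p := by
      have h8 := norm_add_rpow hp0 hp1 (co (e i0 - R 𝕜 p N hN.out t) i0)
        (∑ k ∈ t.support, t k * (if i0 = ic N hN.out k then (1 : 𝕜) else 0))
      rw [h3, sub_add_cancel, norm_one, Real.one_rpow] at h8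
      rw [h3]
      exact h8
    linarith
  intro h
  rw [h] at key
  norm_num at key

end space

/-- existence of block sizes -/
theorem exists_N (p : ℝ) (hp1 : p < 1) :
    ∃ N : ℕ → ℕ, (∀ m, 0 < N m) ∧ ∀ k : ℕ, (k : ℝ) + 5 ≤ rho p N k := by
  have h1 : ∀ k : ℕ, ∃ m : ℕ, 0 < m ∧ (k : ℝ) + 5 ≤ m * (dl k / m) ^ p := by
    intro k
    have h2 : Tendsto (fun m : ℕ => dl k ^ p * (m : ℝ) ^ (1 - p)) atTop atTop := by
      apply Tendsto.const_mul_atTop (Real.rpow_pos_of_pos (dl_pos k) p)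
      exact (tendsto_rpow_atTop (by linarith)).comp tendsto_natCast_atTop_atTop
    obtain ⟨m, hm1, hm2⟩ := ((h2.eventually_ge_atTop ((k : ℝ) + 5)).and
      (eventually_gt_atTop 0)).exists
    refine ⟨m, hm2, hm1.trans (le_of_eq ?_)⟩
    have hm3 : (0 : ℝ) < m := by exact_mod_cast hm2
    rw [Real.div_rpow (dl_pos k).le hm3.le, Real.rpow_sub hm3, Real.rpow_one]
    ring
  choose g hg1 hg2 using h1
  refine ⟨fun m => Nat.casesOn m 1 g, ?_, ?_⟩
  · intro m
    cases m with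
    | zero => exact Nat.one_pos
    | succ m => exact hg1 m
  · intro k
    exact hg2 k

/-- the main theorem -/
theorem main.{u} (𝕜 : Type u) [RCLike 𝕜] (p : ℝ) (hp0 : 0 < p) (hp1 : p < 1) :
    ∃ (X : Type u) (_ : AddCommGroup X) (_ : Module 𝕜 X) (q : X → ℝ),
      Nontrivial X ∧ IsQuasiBanach 𝕜 q ∧ SchurProperty 𝕜 q p ∧
      ∀ f : X →ₗ[𝕜] 𝕜, (∃ C : ℝ, ∀ x, ‖f x‖ ≤ C * q x) → f = 0 := by
  obtain ⟨N, hN, hrho⟩ := exists_N p hp1
  have _ : Fact (0 < p ∧ p ≤ 1) := ⟨hp0, hp1.le⟩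
  have _ : Fact (∀ m, 0 < N m) := ⟨hN⟩
  exact ⟨Sp 𝕜 p N, inferInstance, inferInstance, q, nontriv hrho, isQuasiBanach,
    schurProperty hrho, fun f ⟨C, hC⟩ => trivial_dual f hC⟩

end Pool.Agent.R274.Schur
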