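import Mathlib

namespace Pool.Agent.R274.UniS

open Filter Topology

/-- the side of `i` prescribed by `b` -/
def side : Bool → ℕ → Set ℕ
  | true, i => Set.Ioi i
  | false, i => Set.Iio i

/-- chains of a given type inside `S` -/
def Ch : List Bool → Set ℕ → List ℕ → Prop
  | [], S, [i] => i ∈ S
  | b :: t, S, i :: l => i ∈ S ∧ Ch t (S ∩ side b i) l
  | _, _, _ => False

/-- weighted sum of squares along a list -/
def V (ρ : ℝ) (x : ℕ → ℝ) : List ℕ → ℝ
  | [] => 0
  | i :: l => x i ^ 2 + ρ * V ρ x l

theorem V_nonneg {ρ : ℝ} (h : 0 ≤ ρ) (x : ℕ → ℝ) (l : List ℕ) : 0 ≤ V ρ x l := by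
  induction l with
  | nil => exact le_rfl
  | cons i l ih => exact add_nonneg (sq_nonneg _) (mul_nonneg h ih)

theorem V_le {ρ : ℝ} (h : 0 ≤ ρ) (h2 : ρ ≤ 1 / 2) {x : ℕ → ℝ} {C : ℝ} {l : List ℕ}
    (hx : ∀ i ∈ l, |x i| ≤ C) : V ρ x l ≤ 2 * C ^ 2 := by
  induction l with
  | nil =>
    simp only [V]
    positivity
  | cons i l ih =>
    have h1 := hx i List.mem_cons_self
    have h3 := ih fun k hk => hx k (List.mem_cons_of_mem _ hk)
    have h4 : x i ^ 2 ≤ C ^ 2 := sq_le_sq' (by linarith [(abs_le.1 h1).1]) (abs_le.1 h1).2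
    have h5 := V_nonneg h x l
    simp only [V]
    nlinarith

theorem V_congr {ρ : ℝ} {x y : ℕ → ℝ} {l : List ℕ} (h : ∀ i ∈ l, x i ^ 2 = y i ^ 2) :
    V ρ x l = V ρ y l := by
  induction l with
  | nil => rfl
  | cons i l ih =>
    simp only [V]
    rw [h i List.mem_cons_self, ih fun k hk => h k (List.mem_cons_of_mem _ hk)]

theorem V_append (ρ : ℝ) (x : ℕ → ℝ) (l : List ℕ) (j : ℕ) :
    V ρ x (l ++ [j]) = V ρ x l + ρ ^ l.length * x j ^ 2 := by
  induction l with
  | nil => simp [V]
  | cons i l ih =>
    simp only [List.cons_append, V, ih, List.length_cons, pow_succ]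
    ring

theorem Ch_mem {t : List Bool} {S : Set ℕ} {l : List ℕ} (h : Ch t S l) : ∀ i ∈ l, i ∈ S := by
  induction t generalizing S l with
  | nil =>
    match l, h with
    | [i], h => simpa [Ch] using h
  | cons b t ih =>
    match l, h with
    | i :: l, h =>
      intro k hk
      rcases List.mem_cons.1 hk with rfl | hk
      · exact h.1
      · exact (ih h.2 k hk).1

theorem Ch_length {t : List Bool} {S : Set ℕ} {l : List ℕ} (h : Ch t S l) :
    l.length = t.length + 1 := by
  induction t generalizing S l with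
  | nil =>
    match l, h with
    | [i], h => rfl
  | cons b t ih =>
    match l, h with
    | i :: l, h =>
      simp only [List.length_cons]
      rw [ih h.2]

section good

variable (c : ℕ → ℕ) (j : ℕ) (a β ρ η C : ℝ)

/-- the chain `l` of type `t` maximises the functional on all small perturbations -/
structure Good (S : Set ℕ) (t : List Bool) (b : ℕ → ℝ) (l : List ℕ) : Prop where
  nonneg : ∀ i, 0 ≤ b i
  le : ∀ i, b i ≤ (t.length + 1) * β
  out : ∀ i, i ∉ l → b i = 0
  ch : Ch t S l
  tail : ∃ l', l = l' ++ [j] ∧ j ∉ l'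
  max : ∀ y : ℕ → ℝ, (∀ i ∈ S, i ≠ j → |y i| = a * c i + b i) →
    |(|y j| - (a * c j + b j))| ≤ η → ∀ l₂, Ch t S l₂ → V ρ y l₂ ≤ V ρ y l

variable {c j a β ρ η C}

theorem Good.base (ha : 0 ≤ a) (hβ : 0 ≤ β) (hη : η ≤ β / 2) (hρ : 0 ≤ ρ) {S : Set ℕ}
    (hj : j ∈ S) (hS : ∀ i ∈ S, c i ≤ c j) :
    Good c j a β ρ η S [] (fun i => if i = j then β else 0) [j] where
  nonneg i := by
    split_ifs
    · exact hβ
    · exact le_rfl
  le i := by
    simp only [List.length_nil, Nat.cast_zero, zero_add, one_mul]
    split_ifs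
    · exact le_rfl
    · exact hβ
  out i hi := by
    rw [if_neg]
    simpa using hi
  ch := hj
  tail := ⟨[], rfl, by simp⟩
  max y hy hyj l₂ hl₂ := by
    match l₂, hl₂ with
    | [q], h =>
      have hq : q ∈ S := h
      simp only [V, mul_zero, add_zero]
      by_cases hqj : q = j
      · rw [hqj]
      · have h1 := hy q hq hqj
        rw [if_neg hqj, add_zero] at h1
        rw [if_pos rfl] at hyj
        have h2 := (abs_le.1 hyj).1
        have h3 : (c q : ℝ) ≤ c j := by exact_mod_cast hS q hq
        have h4 : a * c q ≤ a * c j := mul_le_mul_of_nonneg_left h3 ha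
        rw [sq_le_sq]
        linarith

theorem Good.step (ha : 0 ≤ a) (hβ : 0 ≤ β) (hη0 : 0 ≤ η) (hη : η ≤ β / 2) (hρ : 0 ≤ ρ)
    (hρ2 : ρ ≤ 1 / 2) (hρC : ρ * (2 * C ^ 2) ≤ β ^ 2 / 4) {S : Set ℕ} {i : ℕ} {s : Bool}
    {t : List Bool} {b : ℕ → ℝ} {l : List ℕ} (hiS : i ∈ S) (hij : i ≠ j) (hj : j ∈ S)
    (hjs : j ∈ side s i) (hS : ∀ k ∈ S, c k ≤ c i)
    (hC : ∀ k ∈ S, a * c k + (t.length + 2) * β + η ≤ C)
    (H : Good c j a β ρ η (S ∩ side s i) t b l) :
    Good c j a β ρ η S (s :: t) (fun k => if k = i then (t.length + 2) * β else b k) (i :: l) where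
  nonneg k := by
    split_ifs
    · positivity
    · exact H.nonneg k
  le k := by
    simp only [List.length_cons, Nat.cast_add, Nat.cast_one]
    split_ifs
    · apply le_of_eq
      ring
    · have := H.le k
      nlinarith
  out k hk := by
    rw [List.mem_cons, not_or] at hk
    rw [if_neg hk.1]
    exact H.out k hk.2
  ch := ⟨hiS, H.ch⟩
  tail := by
    obtain ⟨l', rfl, hl'⟩ := H.tail
    refine ⟨i :: l', rfl, ?_⟩
    rw [List.mem_cons, not_or]
    exact ⟨hij.symm, hl'⟩
  max y hy hyj l₂ hl₂ := by
    have hnotmem : i ∉ S ∩ side s i := by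
      intro h
      have := h.2
      cases s
      · exact lt_irrefl i this
      · exact lt_irrefl i this
    have hyj' : |(|y j| - (a * c j + b j))| ≤ η := by
      rwa [if_neg hij.symm] at hyj
    -- bound of `y` on `S`
    have hbound : ∀ k ∈ S, |y k| ≤ C := by
      intro k hk
      have hCk := hC k hk
      by_cases hkj : k = j
      · subst hkj
        have h1 := (abs_le.1 hyj').2
        have h2 := H.le k
        nlinarith
      · have h1 := hy k hk hkj
        rw [h1]
        split_ifs with hki
        · linarith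
        · have h2 := H.le k
          nlinarith
    have hyi : |y i| = a * c i + (t.length + 2) * β := by
      have := hy i hiS hij
      simpa using this
    have hmain : ∀ q ∈ S, q ≠ i → y q ^ 2 + β ^ 2 / 4 ≤ y i ^ 2 := by
      intro q hq hqi
      have h1 : |y q| ≤ a * c i + (t.length + 1) * β + η := by
        have h3 : (c q : ℝ) ≤ c i := by exact_mod_cast hS q hq
        have h4 : a * c q ≤ a * c i := mul_le_mul_of_nonneg_left h3 ha
        have h2 := H.le q
        by_cases hqj : q = j
        · subst hqj
          have h5 := (abs_le.1 hyj').2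
          linarith
        · have h5 := hy q hq hqj
          simp only [if_neg hqi] at h5
          rw [h5]
          linarith
      have h6 : |y q| + β / 2 ≤ |y i| := by
        rw [hyi]
        linarith
      rw [← sq_abs (y q), ← sq_abs (y i)]
      have h7 := abs_nonneg (y q)
      nlinarith
    match l₂, hl₂ with
    | q :: l₃, h =>
      have hqS : q ∈ S := h.1
      simp only [V]
      by_cases hqi : q = i
      · subst hqi
        have h1 := H.max y (fun k hk hkj => by
          have h2 := hy k hk.1 hkj
          have h3 : k ≠ q := fun h => hnotmem (h ▸ hk)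
          simpa only [if_neg h3] using h2) hyj' l₃ h.2
        have h2 := mul_le_mul_of_nonneg_left h1 hρ
        linarith
      · have h1 := hmain q hqS hqi
        have h2 : V ρ y l₃ ≤ 2 * C ^ 2 :=
          V_le hρ hρ2 fun k hk => hbound k ((Ch_mem h.2 k hk).1)
        have h3 := mul_le_mul_of_nonneg_left h2 hρ
        have h4 := V_nonneg hρ y l
        have h5 := mul_nonneg hρ h4
        linarith

/-- the main combinatorial statement -/
theorem exists_good (ha : 0 ≤ a) (hβ : 0 ≤ β) (hη0 : 0 ≤ η) (hη : η ≤ β / 2) (hρ : 0 ≤ ρ)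
    (hρ2 : ρ ≤ 1 / 2) (hρC : ρ * (2 * C ^ 2) ≤ β ^ 2 / 4) (v : ℕ)
    (hC : ∀ k, a * c k + (2 * v + 1) * β + η ≤ C) {S : Set ℕ} (hj : j ∈ S)
    (hS : ∀ k ∈ S, c k ≤ v) :
    ∃ t b l, t.length ≤ 2 * v ∧ Good c j a β ρ η S t b l := by
  induction v generalizing S with
  | zero =>
    exact ⟨[], _, _, le_rfl, Good.base ha hβ hη hρ hj fun i hi => (hS i hi).trans (Nat.zero_le _)⟩
  | succ v ih =>
    have hC' : ∀ k, a * c k + (2 * v + 1) * β + η ≤ C := by
      intro k
      have := hC k
      push_cast at this
      nlinarith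
    by_cases hcj : c j = v + 1
    · exact ⟨[], _, _, Nat.zero_le _, Good.base ha hβ hη hρ hj fun i hi => (hS i hi).trans hcj.ge⟩
    have hcj' : c j ≤ v := by
      have := hS j hj
      omega
    -- phase with nothing large on the left
    have hR : ∀ S : Set ℕ, j ∈ S → (∀ k ∈ S, c k ≤ v + 1) → (∀ k ∈ S, k < j → c k ≤ v) →
        ∃ t b l, t.length ≤ 2 * v + 1 ∧ Good c j a β ρ η S t b l := by
      intro S hj hS hSl
      by_cases hex : ∃ i, i ∈ S ∧ j < i ∧ c i = v + 1
      · classical
        let i := Nat.find hex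
        obtain ⟨hiS, hji, hci⟩ := Nat.find_spec hex
        have hmin : ∀ k < i, ¬ (k ∈ S ∧ j < k ∧ c k = v + 1) := fun k hk => Nat.find_min hex hk
        have hjs : j ∈ side false i := hji
        obtain ⟨t, b, l, ht, hg⟩ := ih hC' (S := S ∩ side false i) ⟨hj, hjs⟩ (by
          intro k hk
          have hki : k < i := hk.2
          have h1 := hS k hk.1
          rcases lt_trichotomy k j with h | h | h
          · exact hSl k hk.1 h
          · rw [h]; exact hcj'
          · have h2 := hmin k hki
            by_contra hcon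
            exact h2 ⟨hk.1, h, by omega⟩)
        refine ⟨_, _, _, ?_, Good.step ha hβ hη0 hη hρ hρ2 hρC hiS (by omega) hj hjs
          (fun k hk => by
            have := hS k hk
            have h3 : c i = v + 1 := hci
            omega) ?_ hg⟩
        · simp only [List.length_cons]
          omega
        · intro k _
          have h4 := hC k
          have h5 : (t.length : ℝ) ≤ 2 * v := by exact_mod_cast ht
          push_cast at h4
          nlinarith
      · push Not at hex
        obtain ⟨t, b, l, ht, hg⟩ := ih hC' hj (by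
          intro k hk
          have h1 := hS k hk
          rcases lt_trichotomy k j with h | h | h
          · exact hSl k hk h
          · rw [h]; exact hcj'
          · have := hex k hk h
            omega)
        exact ⟨t, b, l, by omega, hg⟩
    by_cases hex : ∃ i, i ∈ S ∧ i < j ∧ c i = v + 1
    · -- the largest such `i`
      classical
      have hne : ((Finset.range j).filter fun i => i ∈ S ∧ c i = v + 1).Nonempty := by
        obtain ⟨i, hi1, hi2, hi3⟩ := hex
        exact ⟨i, by simp [hi1, hi2, hi3]⟩
      let i := ((Finset.range j).filter fun i => i ∈ S ∧ c i = v + 1).max' hne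
      have hi := Finset.max'_mem _ hne
      rw [Finset.mem_filter, Finset.mem_range] at hi
      obtain ⟨hij, hiS, hci⟩ := hi
      have hmax : ∀ k, k < j → k ∈ S → c k = v + 1 → k ≤ i := fun k h1 h2 h3 =>
        Finset.le_max' _ _ (by simp [h1, h2, h3])
      have hjs : j ∈ side true i := hij
      obtain ⟨t, b, l, ht, hg⟩ := hR (S ∩ side true i) ⟨hj, hjs⟩ (fun k hk => hS k hk.1) (by
        intro k hk hkj
        have hki : i < k := hk.2
        have h1 := hS k hk.1
        by_contra hcon
        have := hmax k hkj hk.1 (by omega)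
        omega)
      refine ⟨_, _, _, ?_, Good.step ha hβ hη0 hη hρ hρ2 hρC (i := i) hiS (by
          have : i < j := hij
          omega) hj hjs
        (fun k hk => by
          have := hS k hk
          have h3 : c i = v + 1 := hci
          omega) ?_ hg⟩
      · simp only [List.length_cons]
        omega
      · intro k _
        have h4 := hC k
        have h5 : (t.length : ℝ) ≤ 2 * v + 1 := by exact_mod_cast ht
        push_cast at h4
        nlinarith
    · push Not at hex
      obtain ⟨t, b, l, ht, hg⟩ := hR S hj hS (fun k hk hkj => by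
        have h1 := hS k hk
        have := hex k hk hkj
        omega)
      exact ⟨t, b, l, by omega, hg⟩

end good

end Pool.Agent.R274.UniS
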