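import Mathlib
import Pool.Agent.R274.UniS1

namespace Pool.Agent.R274.UniS

open Filter Topology

/-- comparison of two quadratic functions with the same vertex on a third of an interval -/
theorem third_aux {B c B' c' u α β : ℝ} (h : α < β) (hc : c ≤ c') :
    ∃ α' β', α ≤ α' ∧ β' ≤ β ∧ (β - α) / 3 ≤ β' - α' ∧
      ((∀ s, α' ≤ s → s ≤ β' → B + c * (u + s) ^ 2 ≤ B' + c' * (u + s) ^ 2) ∨
       (∀ s, α' ≤ s → s ≤ β' → B' + c' * (u + s) ^ 2 ≤ B + c * (u + s) ^ 2)) := by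
  set δ := (β - α) / 3 with hδ
  have hδ0 : 0 < δ := by rw [hδ]; linarith
  by_cases h1 : ∀ s, α ≤ s → s ≤ α + δ → B + c * (u + s) ^ 2 ≤ B' + c' * (u + s) ^ 2
  · exact ⟨α, α + δ, le_rfl, by linarith, by linarith, Or.inl h1⟩
  by_cases h3 : ∀ s, β - δ ≤ s → s ≤ β → B + c * (u + s) ^ 2 ≤ B' + c' * (u + s) ^ 2
  · exact ⟨β - δ, β, by linarith, le_rfl, by linarith, Or.inl h3⟩
  push Not at h1 h3
  obtain ⟨s1, h11, h12, h13⟩ := h1
  obtain ⟨s3, h31, h32, h33⟩ := h3
  refine ⟨α + δ, β - δ, by linarith, by linarith, by linarith, Or.inr ?_⟩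
  intro s hs1 hs2
  have hmax : (u + s) ^ 2 ≤ (u + s1) ^ 2 ∨ (u + s) ^ 2 ≤ (u + s3) ^ 2 := by
    rcases le_total 0 (u + s) with h0 | h0
    · right
      nlinarith
    · left
      nlinarith
  rcases hmax with h4 | h4
  · have : (c' - c) * (u + s) ^ 2 ≤ (c' - c) * (u + s1) ^ 2 :=
      mul_le_mul_of_nonneg_left h4 (by linarith)
    linarith
  · have : (c' - c) * (u + s) ^ 2 ≤ (c' - c) * (u + s3) ^ 2 :=
      mul_le_mul_of_nonneg_left h4 (by linarith)
    linarith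

theorem third {B c B' c' u α β : ℝ} (h : α < β) :
    ∃ α' β', α ≤ α' ∧ β' ≤ β ∧ (β - α) / 3 ≤ β' - α' ∧
      ((∀ s, α' ≤ s → s ≤ β' → B + c * (u + s) ^ 2 ≤ B' + c' * (u + s) ^ 2) ∨
       (∀ s, α' ≤ s → s ≤ β' → B' + c' * (u + s) ^ 2 ≤ B + c * (u + s) ^ 2)) := by
  rcases le_total c c' with hc | hc
  · exact third_aux h hc
  · obtain ⟨α', β', h1, h2, h3, h4⟩ := third_aux (B := B') (B' := B) (u := u) h hc
    exact ⟨α', β', h1, h2, h3, h4.symm⟩

/-- maxima of finitely many quadratic functions with the same vertex -/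
theorem sup_quad (B : ℝ → ℝ) (u : ℝ) (Λ : Finset ℝ) (hΛ : Λ.Nonempty) (α β : ℝ) (h : α < β) :
    ∃ α' β', α ≤ α' ∧ β' ≤ β ∧ (β - α) / 3 ^ Λ.card ≤ β' - α' ∧ ∃ c ∈ Λ,
      ∀ s, α' ≤ s → s ≤ β' → Λ.sup' hΛ (fun κ => B κ + κ * (u + s) ^ 2) = B c + c * (u + s) ^ 2 := by
  classical
  induction hΛ using Finset.Nonempty.cons_induction generalizing α β with
  | singleton a =>
    refine ⟨α, β, le_rfl, le_rfl, ?_, a, Finset.mem_singleton_self a, fun s _ _ => by simp⟩
    rw [Finset.card_singleton, pow_one]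
    linarith
  | cons a Λ ha hne ih =>
    obtain ⟨α1, β1, h1, h2, h3, c, hc, h4⟩ := ih α β h
    have hpos : α1 < β1 := by
      have : 0 < (β - α) / 3 ^ Λ.card := div_pos (by linarith) (by positivity)
      linarith
    obtain ⟨α2, β2, h5, h6, h7, h8⟩ := third (B := B a) (c := a) (B' := B c) (c' := c) (u := u) hpos
    have hlen : (β - α) / 3 ^ (Finset.cons a Λ ha).card ≤ β2 - α2 := by
      rw [Finset.card_cons, pow_succ, ← div_div]
      refine le_trans ?_ h7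
      gcongr
    rcases h8 with h8 | h8
    · refine ⟨α2, β2, h1.trans h5, h6.trans h2, hlen, c, Finset.mem_cons_of_mem hc, fun s hs1 hs2 => ?_⟩
      rw [Finset.sup'_cons hne, h4 s (h5.trans hs1) (hs2.trans h6)]
      exact sup_eq_right.2 (h8 s hs1 hs2)
    · refine ⟨α2, β2, h1.trans h5, h6.trans h2, hlen, a, Finset.mem_cons_self _ _, fun s hs1 hs2 => ?_⟩
      rw [Finset.sup'_cons hne, h4 s (h5.trans hs1) (hs2.trans h6)]
      exact sup_eq_left.2 (h8 s hs1 hs2)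

/-- the class of piecewise quadratic functions with vertex `-u` -/
def Q (m u : ℝ) (f : ℝ → ℝ) : Prop :=
  ∀ α β : ℝ, α < β → ∃ α' β', α ≤ α' ∧ β' ≤ β ∧ (β - α) / m ≤ β' - α' ∧
    ∃ B c : ℝ, 0 ≤ c ∧ c ≤ 2 ∧ ∀ s, α' ≤ s → s ≤ β' → f s = B + c * (u + s) ^ 2

theorem Q_const {m : ℝ} (hm : 1 ≤ m) (u B : ℝ) : Q m u (fun _ => B) := by
  intro α β h
  refine ⟨α, β, le_rfl, le_rfl, div_le_self (by linarith) hm, B, 0, le_rfl, by norm_num, ?_⟩
  intro s _ _
  ring

/-- suprema of families with finitely many slopes -/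
theorem Q_family {I : Type*} [Nonempty I] (A c : I → ℝ) (Λ : Finset ℝ) (hc : ∀ i, c i ∈ Λ)
    (hc0 : ∀ i, 0 ≤ c i) (hc2 : ∀ i, c i ≤ 2) (hA : BddAbove (Set.range A)) (u : ℝ) {m : ℝ}
    (hm : 3 ^ Λ.card ≤ m) :
    Q m u (fun s => ⨆ i, (A i + c i * (u + s) ^ 2)) := by
  classical
  intro α β h
  obtain ⟨MA, hMA⟩ := hA
  let Λ' := Λ.filter fun κ => ∃ i, c i = κ
  have hne : Λ'.Nonempty := by
    obtain ⟨i⟩ := (inferInstance : Nonempty I)
    exact ⟨c i, Finset.mem_filter.2 ⟨hc i, i, rfl⟩⟩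
  let B : ℝ → ℝ := fun κ => ⨆ i : {i // c i = κ}, A i
  have hbd : ∀ κ, BddAbove (Set.range fun i : {i // c i = κ} => A i) := by
    intro κ
    refine ⟨MA, ?_⟩
    rintro _ ⟨i, rfl⟩
    exact hMA ⟨i, rfl⟩
  have hbd2 : ∀ s, BddAbove (Set.range fun i => A i + c i * (u + s) ^ 2) := by
    intro s
    refine ⟨MA + 2 * (u + s) ^ 2, ?_⟩
    rintro _ ⟨i, rfl⟩
    exact add_le_add (hMA ⟨i, rfl⟩) (mul_le_mul_of_nonneg_right (hc2 i) (sq_nonneg _))
  have heq : ∀ s, (⨆ i, (A i + c i * (u + s) ^ 2)) =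
      Λ'.sup' hne (fun κ => B κ + κ * (u + s) ^ 2) := by
    intro s
    apply le_antisymm
    · apply ciSup_le
      intro i
      have h1 : A i ≤ B (c i) := le_ciSup (hbd (c i)) (⟨i, rfl⟩ : {k // c k = c i})
      have h2 := Finset.le_sup' (s := Λ') (fun κ => B κ + κ * (u + s) ^ 2)
        (Finset.mem_filter.2 ⟨hc i, i, rfl⟩)
      linarith
    · apply Finset.sup'_le
      intro κ hκ
      obtain ⟨-, i0, hi0⟩ := Finset.mem_filter.1 hκ
      have : Nonempty {i // c i = κ} := ⟨⟨i0, hi0⟩⟩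
      have h1 : B κ ≤ (⨆ i, (A i + c i * (u + s) ^ 2)) - κ * (u + s) ^ 2 := by
        apply ciSup_le
        rintro ⟨i, hi⟩
        have h2 := le_ciSup (hbd2 s) i
        rw [hi] at h2
        simp only
        linarith
      linarith
  obtain ⟨α', β', h1, h2, h3, κ, hκ, h4⟩ := sup_quad B u Λ' hne α β h
  obtain ⟨-, i0, hi0⟩ := Finset.mem_filter.1 hκ
  refine ⟨α', β', h1, h2, ?_, B κ, κ, hi0 ▸ hc0 i0, hi0 ▸ hc2 i0, fun s hs1 hs2 => ?_⟩
  · refine le_trans ?_ h3
    have h5 : (3 : ℝ) ^ Λ'.card ≤ 3 ^ Λ.card :=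
      pow_le_pow_right₀ (by norm_num) (Finset.card_le_card (Finset.filter_subset _ _))
    exact div_le_div_of_nonneg_left (by linarith) (by positivity) (h5.trans hm)
  · exact (heq s).trans (h4 s hs1 hs2)

/-- finitely many functions at once -/
theorem Q_many {f : ℕ → ℝ → ℝ} {m : ℕ → ℝ} {u : ℝ} (hm : ∀ k, 1 ≤ m k) (hf : ∀ k, Q (m k) u (f k))
    (L : ℕ) (α β : ℝ) (h : α < β) :
    ∃ α' β', α ≤ α' ∧ β' ≤ β ∧ (β - α) / (∏ k ∈ Finset.range L, m k) ≤ β' - α' ∧
      ∃ B c : ℕ → ℝ, ∀ k < L, 0 ≤ c k ∧ c k ≤ 2 ∧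
        ∀ s, α' ≤ s → s ≤ β' → f k s = B k + c k * (u + s) ^ 2 := by
  induction L with
  | zero =>
    refine ⟨α, β, le_rfl, le_rfl, by simp, fun _ => 0, fun _ => 0, fun k hk => ?_⟩
    exact absurd hk (Nat.not_lt_zero k)
  | succ L ih =>
    obtain ⟨α1, β1, h1, h2, h3, B, c, h4⟩ := ih
    have hPpos : 0 < ∏ k ∈ Finset.range L, m k :=
      Finset.prod_pos fun k _ => lt_of_lt_of_le one_pos (hm k)
    have hpos : α1 < β1 := by
      have : 0 < (β - α) / (∏ k ∈ Finset.range L, m k) := div_pos (by linarith) hPpos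
      linarith
    obtain ⟨α2, β2, h5, h6, h7, B', c', h8, h9, h10⟩ := hf L α1 β1 hpos
    have hmL : 0 < m L := lt_of_lt_of_le one_pos (hm L)
    refine ⟨α2, β2, h1.trans h5, h6.trans h2, ?_, fun k => if k = L then B' else B k,
      fun k => if k = L then c' else c k, fun k hk => ?_⟩
    · rw [Finset.prod_range_succ, ← div_div]
      refine le_trans ?_ h7
      gcongr
    · by_cases hkL : k = L
      · subst hkL
        simp only [if_true]
        exact ⟨h8, h9, h10⟩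
      · simp only [if_neg hkL]
        obtain ⟨g1, g2, g3⟩ := h4 k (by omega)
        exact ⟨g1, g2, fun s hs1 hs2 => g3 s (h5.trans hs1) (hs2.trans h6)⟩

/-- slopes -/
noncomputable def Lam (ρ : ℝ) : ℕ → Finset ℝ
  | 0 => {0}
  | n + 1 => (Lam ρ n).image (fun c => 1 + ρ * c) ∪ (Lam ρ n).image (fun c => ρ * c)

theorem card_Lam (ρ : ℝ) (n : ℕ) : (Lam ρ n).card ≤ 2 ^ n := by
  induction n with
  | zero => simp [Lam]
  | succ n ih =>
    rw [Lam]
    refine (Finset.card_union_le _ _).trans ?_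
    have h1 := Finset.card_image_le (s := Lam ρ n) (f := fun c => 1 + ρ * c)
    have h2 := Finset.card_image_le (s := Lam ρ n) (f := fun c => ρ * c)
    rw [pow_succ]
    omega

/-- indicator of a coordinate -/
def ind (j : ℕ) (i : ℕ) : ℝ := if i = j then 1 else 0

theorem V_ind_mem (ρ : ℝ) (j : ℕ) (l : List ℕ) : V ρ (ind j) l ∈ Lam ρ l.length := by
  induction l with
  | nil => simp [V, Lam]
  | cons i l ih =>
    simp only [V, List.length_cons, Lam, Finset.mem_union, Finset.mem_image, ind]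
    by_cases h : i = j
    · left
      exact ⟨_, ih, by simp [h]⟩
    · right
      exact ⟨_, ih, by simp [h]⟩

theorem V_update (ρ : ℝ) (w : ℕ → ℝ) (j : ℕ) (r : ℝ) (l : List ℕ) :
    V ρ (Function.update w j r) l = V ρ (Function.update w j 0) l + V ρ (ind j) l * r ^ 2 := by
  induction l with
  | nil => simp [V]
  | cons i l ih =>
    simp only [V, ih]
    by_cases h : i = j
    · subst h
      simp only [Function.update_self, ind, if_true]
      ring
    · simp only [Function.update_of_ne h, ind, if_neg h]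
      ring

/-- the functional of a given type -/
noncomputable def E (ρ : ℝ) (t : List Bool) (x : ℕ → ℝ) : ℝ := ⨆ l : {l // Ch t Set.univ l}, V ρ x l.1

section E

variable {ρ : ℝ} (h : 0 ≤ ρ) (h2 : ρ ≤ 1 / 2) {t : List Bool} {x : ℕ → ℝ} {C : ℝ}
  (hx : ∀ i, |x i| ≤ C)

include h h2 hx

theorem E_bdd : BddAbove (Set.range fun l : {l // Ch t Set.univ l} => V ρ x l.1) := by
  refine ⟨2 * C ^ 2, ?_⟩
  rintro _ ⟨l, rfl⟩
  exact V_le h h2 fun i _ => hx i

theorem E_le : E ρ t x ≤ 2 * C ^ 2 := by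
  rcases isEmpty_or_nonempty {l // Ch t Set.univ l} with he | he
  · unfold E
    rw [Real.iSup_of_isEmpty]
    positivity
  · exact ciSup_le fun l => V_le h h2 fun i _ => hx i

omit h2 hx in
theorem E_nonneg : 0 ≤ E ρ t x := Real.iSup_nonneg fun l => V_nonneg h x l.1

theorem V_le_E {l : List ℕ} (hl : Ch t Set.univ l) : V ρ x l ≤ E ρ t x :=
  le_ciSup (E_bdd h h2 hx) (⟨l, hl⟩ : {l // Ch t Set.univ l})

/-- dependence on one coordinate -/
theorem Q_E (j : ℕ) (u : ℝ) :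
    Q (3 ^ 2 ^ (t.length + 1)) u (fun s => E ρ t (Function.update x j (u + s))) := by
  rcases isEmpty_or_nonempty {l // Ch t Set.univ l} with he | he
  · have h1 : (fun s => E ρ t (Function.update x j (u + s))) = fun _ => 0 := by
      funext s
      unfold E
      exact Real.iSup_of_isEmpty _
    rw [h1]
    apply Q_const
    exact one_le_pow₀ (by norm_num)
  · have h1 : (fun s => E ρ t (Function.update x j (u + s))) = fun s =>
        ⨆ l : {l // Ch t Set.univ l}, (V ρ (Function.update x j 0) l.1 +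
          V ρ (ind j) l.1 * (u + s) ^ 2) := by
      funext s
      unfold E
      congr 1
      funext l
      exact V_update ρ x j (u + s) l.1
    rw [h1]
    apply Q_family _ _ (Lam ρ (t.length + 1))
    · rintro ⟨l, hl⟩
      have := V_ind_mem ρ j l
      rwa [Ch_length hl] at this
    · rintro ⟨l, hl⟩
      exact V_nonneg h _ _
    · rintro ⟨l, hl⟩
      have := V_le (x := ind j) (C := 1) (l := l) h h2 (fun i _ => by
        unfold ind
        split_ifs <;> simp)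
      simpa using this
    · refine ⟨2 * C ^ 2, ?_⟩
      rintro _ ⟨l, rfl⟩
      apply V_le h h2
      intro i _
      by_cases hi : i = j
      · subst hi
        rw [Function.update_self, abs_zero]
        exact (abs_nonneg _).trans (hx i)
      · rw [Function.update_of_ne hi]
        exact hx i
    · exact pow_le_pow_right₀ (by norm_num) (card_Lam ρ _)

end E

/-- quasi-additivity along lists -/
theorem V_add {ρ : ℝ} (h : 0 ≤ ρ) (x y : ℕ → ℝ) {τ : ℝ} (hτ : 0 < τ) (l : List ℕ) :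
    V ρ (x + y) l ≤ (1 + τ) * V ρ x l + (1 + τ⁻¹) * V ρ y l := by
  induction l with
  | nil => simp [V]
  | cons i l ih =>
    simp only [V, Pi.add_apply]
    have h1 : (x i + y i) ^ 2 ≤ (1 + τ) * x i ^ 2 + (1 + τ⁻¹) * y i ^ 2 := by
      have h2 : 0 ≤ τ⁻¹ * (τ * x i - y i) ^ 2 := by positivity
      have h3 : τ⁻¹ * (τ * x i - y i) ^ 2 = τ * x i ^ 2 - 2 * x i * y i + τ⁻¹ * y i ^ 2 := by
        field_simp
        ring
      nlinarith
    have h4 := mul_le_mul_of_nonneg_left ih h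
    linarith

theorem E_add {ρ : ℝ} (h : 0 ≤ ρ) (h2 : ρ ≤ 1 / 2) {t : List Bool} {x y : ℕ → ℝ} {C C' : ℝ}
    (hx : ∀ i, |x i| ≤ C) (hy : ∀ i, |y i| ≤ C') {τ : ℝ} (hτ : 0 < τ) :
    E ρ t (x + y) ≤ (1 + τ) * E ρ t x + (1 + τ⁻¹) * E ρ t y := by
  have hτ' : 0 < τ⁻¹ := inv_pos.2 hτ
  rcases isEmpty_or_nonempty {l // Ch t Set.univ l} with he | he
  · unfold E
    simp only [Real.iSup_of_isEmpty]
    simp
  · apply ciSup_le
    rintro ⟨l, hl⟩
    refine (V_add h x y hτ l).trans ?_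
    have h3 := V_le_E h h2 hx hl
    have h4 := V_le_E h h2 hy hl
    gcongr

theorem V_smul (ρ : ℝ) (c : ℝ) (x : ℕ → ℝ) (l : List ℕ) : V ρ (c • x) l = c ^ 2 * V ρ x l := by
  induction l with
  | nil => simp [V]
  | cons i l ih =>
    simp only [V, ih, Pi.smul_apply, smul_eq_mul]
    ring

theorem E_smul (ρ : ℝ) (t : List Bool) (c : ℝ) (x : ℕ → ℝ) : E ρ t (c • x) = c ^ 2 * E ρ t x := by
  unfold E
  rw [Real.mul_iSup_of_nonneg (sq_nonneg c)]
  congr 1
  funext l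
  exact V_smul ρ c x l.1

end Pool.Agent.R274.UniS
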