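import Mathlib
import Pool.Agent.R274.UniS2

namespace Pool.Agent.R274.UniS

open Filter Topology

/-- enumeration of the components -/
noncomputable def cp (k : ℕ) : ℕ × List Bool :=
  (Encodable.decode (α := ℕ × List Bool) k).getD (0, [])

theorem cp_encode (q : ℕ × List Bool) : cp (Encodable.encode q) = q := by
  unfold cp
  rw [Encodable.encodek]
  rfl

/-- the parameter -/
noncomputable def rh (k : ℕ) : ℝ := 1 / (((cp k).1 : ℝ) + 2)
/-- the type -/
noncomputable def ty (k : ℕ) : List Bool := (cp k).2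
/-- subdivision numbers -/
noncomputable def mm (k : ℕ) : ℝ := 3 ^ 2 ^ ((ty k).length + 1)
/-- products of the subdivision numbers -/
noncomputable def PP (k : ℕ) : ℝ := ∏ i ∈ Finset.range k, mm i
/-- weights -/
noncomputable def wt (k : ℕ) : ℝ := (1 / 2) ^ k / PP k ^ 4

theorem rh_pos (k : ℕ) : 0 < rh k := by unfold rh; positivity

theorem rh_le (k : ℕ) : rh k ≤ 1 / 2 := by
  unfold rh
  apply one_div_le_one_div_of_le (by norm_num)
  have : (0 : ℝ) ≤ (cp k).1 := Nat.cast_nonneg _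
  linarith

theorem one_le_mm (k : ℕ) : 1 ≤ mm k := one_le_pow₀ (by norm_num)

theorem one_le_PP (k : ℕ) : 1 ≤ PP k := by
  unfold PP
  induction k with
  | zero => simp
  | succ k ih =>
    rw [Finset.prod_range_succ]
    exact one_le_mul_of_one_le_of_one_le ih (one_le_mm k)

theorem PP_pos (k : ℕ) : 0 < PP k := lt_of_lt_of_le one_pos (one_le_PP k)

theorem PP_le {k l : ℕ} (h : k ≤ l) : PP k ≤ PP l := by
  induction l, h using Nat.le_induction with
  | base => exact le_rfl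
  | succ l _ ih =>
    refine ih.trans ?_
    unfold PP
    rw [Finset.prod_range_succ]
    exact le_mul_of_one_le_right (PP_pos l).le (one_le_mm l)

theorem wt_pos (k : ℕ) : 0 < wt k := by
  unfold wt
  have := PP_pos k
  positivity

theorem wt_le (k L : ℕ) (h : L ≤ k) : wt k ≤ (1 / 2) ^ k / PP L ^ 4 := by
  unfold wt
  have h1 := PP_pos L
  have h2 := PP_le h
  gcongr

theorem wt_le' (k : ℕ) : wt k ≤ (1 / 2) ^ k := by
  have := wt_le k 0 (Nat.zero_le k)
  simpa [PP] using this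

/-- the square of the new norm -/
noncomputable def G (x : ℕ → ℝ) : ℝ := ∑' k, wt k * E (rh k) (ty k) x

section

variable {x y : ℕ → ℝ} {C C' : ℝ}

theorem term_nonneg (k : ℕ) (x : ℕ → ℝ) : 0 ≤ wt k * E (rh k) (ty k) x :=
  mul_nonneg (wt_pos k).le (E_nonneg (rh_pos k).le)

theorem term_le (hx : ∀ i, |x i| ≤ C) (k : ℕ) :
    wt k * E (rh k) (ty k) x ≤ 2 * C ^ 2 * (1 / 2) ^ k := by
  have h1 := E_le (rh_pos k).le (rh_le k) (t := ty k) hx
  have h2 := wt_le' k
  have h3 := wt_pos k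
  calc wt k * E (rh k) (ty k) x ≤ (1 / 2) ^ k * (2 * C ^ 2) :=
        mul_le_mul h2 h1 (E_nonneg (rh_pos k).le) (by positivity)
    _ = _ := by ring

theorem summable_term (hx : ∀ i, |x i| ≤ C) : Summable fun k => wt k * E (rh k) (ty k) x :=
  Summable.of_nonneg_of_le (fun k => term_nonneg k x) (term_le hx)
    (summable_geometric_two.mul_left _)

theorem G_nonneg (x : ℕ → ℝ) : 0 ≤ G x := tsum_nonneg fun k => term_nonneg k x

theorem G_le (hx : ∀ i, |x i| ≤ C) : G x ≤ 4 * C ^ 2 := by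
  have h1 := (summable_term hx).tsum_le_tsum (term_le hx) (summable_geometric_two.mul_left _)
  rw [tsum_mul_left, tsum_geometric_two] at h1
  unfold G
  linarith

theorem G_smul (c : ℝ) (x : ℕ → ℝ) : G (c • x) = c ^ 2 * G x := by
  unfold G
  rw [← tsum_mul_left]
  congr 1
  funext k
  rw [E_smul]
  ring

theorem G_add (hx : ∀ i, |x i| ≤ C) (hy : ∀ i, |y i| ≤ C') {τ : ℝ} (hτ : 0 < τ) :
    G (x + y) ≤ (1 + τ) * G x + (1 + τ⁻¹) * G y := by
  unfold G
  rw [← tsum_mul_left, ← tsum_mul_left,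
    ← ((summable_term hx).mul_left _).tsum_add ((summable_term hy).mul_left _)]
  have hxy : ∀ i, |(x + y) i| ≤ C + C' := fun i => (abs_add_le _ _).trans (add_le_add (hx i) (hy i))
  apply (summable_term hxy).tsum_le_tsum _
    (((summable_term hx).mul_left _).add ((summable_term hy).mul_left _))
  intro k
  have h1 := E_add (rh_pos k).le (rh_le k) (t := ty k) hx hy hτ
  have h2 := mul_le_mul_of_nonneg_left h1 (wt_pos k).le
  linarith

/-- index of the plain supremum -/
noncomputable def k0 : ℕ := Encodable.encode ((0 : ℕ), ([] : List Bool))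

theorem le_G (hx : ∀ i, |x i| ≤ C) (i : ℕ) : wt k0 * x i ^ 2 ≤ G x := by
  have h1 : wt k0 * E (rh k0) (ty k0) x ≤ G x :=
    (summable_term hx).le_tsum k0 (fun k _ => term_nonneg k x)
  refine le_trans ?_ h1
  apply mul_le_mul_of_nonneg_left _ (wt_pos k0).le
  have hty : ty k0 = [] := by
    unfold ty k0
    rw [cp_encode]
  have hch : Ch (ty k0) Set.univ [i] := by
    rw [hty]
    trivial
  have h2 := V_le_E (rh_pos k0).le (rh_le k0) hx hch
  simpa [V] using h2

theorem sqrt_G_add (hx : ∀ i, |x i| ≤ C) (hy : ∀ i, |y i| ≤ C') :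
    Real.sqrt (G (x + y)) ≤ Real.sqrt (G x) + Real.sqrt (G y) := by
  apply le_of_forall_pos_le_add
  intro ε hε
  set a := Real.sqrt (G x) with ha
  set b := Real.sqrt (G y) with hb
  have ha0 : 0 ≤ a := Real.sqrt_nonneg _
  have hb0 : 0 ≤ b := Real.sqrt_nonneg _
  have hGx : G x = a ^ 2 := (Real.sq_sqrt (G_nonneg x)).symm
  have hGy : G y = b ^ 2 := (Real.sq_sqrt (G_nonneg y)).symm
  have hA : 0 < a + ε / 2 := by linarith
  have hB : 0 < b + ε / 2 := by linarith
  have h1 := G_add hx hy (τ := (b + ε / 2) / (a + ε / 2)) (div_pos hB hA)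
  rw [hGx, hGy] at h1
  have h2 : G (x + y) ≤ (a + b + ε) ^ 2 := by
    refine h1.trans ?_
    rw [inv_div]
    have h3 : a ^ 2 ≤ (a + ε / 2) ^ 2 := by nlinarith
    have h4 : b ^ 2 ≤ (b + ε / 2) ^ 2 := by nlinarith
    have h5 : 0 ≤ 1 + (b + ε / 2) / (a + ε / 2) := by positivity
    have h6 : 0 ≤ 1 + (a + ε / 2) / (b + ε / 2) := by positivity
    calc (1 + (b + ε / 2) / (a + ε / 2)) * a ^ 2 + (1 + (a + ε / 2) / (b + ε / 2)) * b ^ 2
        ≤ (1 + (b + ε / 2) / (a + ε / 2)) * (a + ε / 2) ^ 2 +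
          (1 + (a + ε / 2) / (b + ε / 2)) * (b + ε / 2) ^ 2 := by gcongr
      _ = (a + b + ε) ^ 2 := by
          field_simp
          ring
  rw [Real.sqrt_le_left (by positivity)]
  exact h2

/-- the tail of the series -/
theorem tail_le (hx : ∀ i, |x i| ≤ C) (L : ℕ) :
    0 ≤ G x - ∑ k ∈ Finset.range L, wt k * E (rh k) (ty k) x ∧
    G x - ∑ k ∈ Finset.range L, wt k * E (rh k) (ty k) x ≤ 4 * C ^ 2 * (1 / 2) ^ L / PP L ^ 4 := by
  have h1 := (summable_term hx).sum_add_tsum_nat_add L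
  have h2 : G x - ∑ k ∈ Finset.range L, wt k * E (rh k) (ty k) x =
      ∑' k, wt (k + L) * E (rh (k + L)) (ty (k + L)) x := by
    unfold G
    linarith
  rw [h2]
  refine ⟨tsum_nonneg fun k => term_nonneg _ _, ?_⟩
  have h3 : ∀ k, wt (k + L) * E (rh (k + L)) (ty (k + L)) x ≤
      (2 * C ^ 2 * (1 / 2) ^ L / PP L ^ 4) * (1 / 2) ^ k := by
    intro k
    have h4 := E_le (rh_pos (k + L)).le (rh_le (k + L)) (t := ty (k + L)) hx
    have h5 := wt_le (k + L) L (Nat.le_add_left _ _)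
    have h6 := PP_pos L
    calc wt (k + L) * E (rh (k + L)) (ty (k + L)) x ≤ ((1 / 2) ^ (k + L) / PP L ^ 4) * (2 * C ^ 2) :=
          mul_le_mul h5 h4 (E_nonneg (rh_pos _).le) (by positivity)
      _ = _ := by rw [pow_add]; ring
  have h7 := ((summable_nat_add_iff L).2 (summable_term hx)).tsum_le_tsum h3
    (summable_geometric_two.mul_left _)
  rw [tsum_mul_left, tsum_geometric_two] at h7
  refine h7.trans (le_of_eq ?_)
  ring

end

/-- a quadratic polynomial which is small on an interval -/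
theorem quad_small {b γ γ' u v α β ε C : ℝ} (hαβ : α < β) (hα : -1 ≤ α) (hβ : β ≤ 1)
    (hv : |v| ≤ C) (hγ : 0 ≤ γ)
    (h : ∀ s, α ≤ s → s ≤ β → |b + γ * (u + s) ^ 2 - γ' * (v + s) ^ 2| ≤ ε) :
    γ * |u - v| ≤ ε * (10 + 8 * C) / (β - α) ^ 2 := by
  have hl : 0 < β - α := by linarith
  have hC : 0 ≤ C := (abs_nonneg _).trans hv
  have e1 := h α le_rfl hαβ.le
  have e2 := h β hαβ.le le_rfl
  have e3 := h ((α + β) / 2) (by linarith) (by linarith)
  have hε : 0 ≤ ε := (abs_nonneg _).trans e1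
  rw [abs_le] at e1 e2 e3
  have hD : |γ - γ'| * (β - α) ^ 2 ≤ 8 * ε := by
    have h1 : (γ - γ') * (β - α) ^ 2 = 2 * ((b + γ * (u + α) ^ 2 - γ' * (v + α) ^ 2) +
        (b + γ * (u + β) ^ 2 - γ' * (v + β) ^ 2) -
        2 * (b + γ * (u + (α + β) / 2) ^ 2 - γ' * (v + (α + β) / 2) ^ 2)) := by ring
    have h2 : |γ - γ'| * (β - α) ^ 2 = |(γ - γ') * (β - α) ^ 2| := by
      rw [abs_mul, abs_of_nonneg (sq_nonneg (β - α))]
    rw [h2, h1, abs_le]
    constructor <;> linarith
  have hF : |(β - α) * ((γ - γ') * (α + β) + 2 * (γ * u - γ' * v))| ≤ 2 * ε := by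
    have h1 : (β - α) * ((γ - γ') * (α + β) + 2 * (γ * u - γ' * v)) =
        (b + γ * (u + β) ^ 2 - γ' * (v + β) ^ 2) - (b + γ * (u + α) ^ 2 - γ' * (v + α) ^ 2) := by
      ring
    rw [h1, abs_le]
    constructor <;> linarith
  rw [le_div_iff₀ (by positivity)]
  have hkey : 2 * (γ * (u - v)) * (β - α) ^ 2 =
      (β - α) * ((β - α) * ((γ - γ') * (α + β) + 2 * (γ * u - γ' * v))) -
        (γ - γ') * (β - α) ^ 2 * ((α + β) + 2 * v) := by ring
  have h3 : |(β - α) * ((β - α) * ((γ - γ') * (α + β) + 2 * (γ * u - γ' * v)))| ≤ 2 * (2 * ε) := by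
    rw [abs_mul, abs_of_pos hl]
    exact mul_le_mul (by linarith) hF (abs_nonneg _) (by norm_num)
  have h4 : |(γ - γ') * (β - α) ^ 2 * ((α + β) + 2 * v)| ≤ 8 * ε * (2 + 2 * C) := by
    rw [abs_mul, abs_mul, abs_of_nonneg (sq_nonneg (β - α))]
    apply mul_le_mul hD _ (abs_nonneg _) (by positivity)
    rw [abs_le] at hv ⊢
    constructor <;> linarith
  have h5 : |2 * (γ * (u - v)) * (β - α) ^ 2| ≤ 2 * (2 * ε) + 8 * ε * (2 + 2 * C) := by
    rw [hkey]
    exact (abs_sub _ _).trans (add_le_add h3 h4)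
  have h6 : |2 * (γ * (u - v)) * (β - α) ^ 2| = 2 * (γ * |u - v| * (β - α) ^ 2) := by
    rw [abs_mul, abs_mul, abs_mul, abs_of_nonneg hγ, abs_of_nonneg (sq_nonneg (β - α)), abs_two]
    ring
  rw [h6] at h5
  linarith

/-- the analytic core -/
theorem core {X Y : ℕ → ℝ} {C : ℝ} (hX : ∀ i, |X i| + 1 ≤ C) (hY : ∀ i, |Y i| + 1 ≤ C) (j : ℕ)
    {η : ℝ} (hη : 0 < η) (hη1 : η ≤ 1) (k1 : ℕ) {B : ℝ}
    (hvis : ∀ s, |s| ≤ η → E (rh k1) (ty k1) (Function.update X j (X j + s)) =
      B + rh k1 ^ (ty k1).length * (X j + s) ^ 2)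
    {δ : ℝ} (hδ : ∀ s, |s| ≤ η → |G (Function.update X j (X j + s)) -
      G (Function.update Y j (Y j + s))| ≤ δ) (L : ℕ) (hL : k1 < L) :
    wt k1 * rh k1 ^ (ty k1).length * |X j - Y j| ≤
      (δ * PP L ^ 4 + 4 * C ^ 2 * (1 / 2) ^ L) * (10 + 8 * C) / (4 * η ^ 2) := by
  have hC0 : 0 ≤ C := by
    have := hX 0
    linarith [abs_nonneg (X 0)]
  have hXC : ∀ i, |X i| ≤ C := fun i => by linarith [hX i]
  have hYC : ∀ i, |Y i| ≤ C := fun i => by linarith [hY i]
  have hupd : ∀ Z : ℕ → ℝ, (∀ i, |Z i| + 1 ≤ C) → ∀ s, |s| ≤ 1 → ∀ i,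
      |Function.update Z j (Z j + s) i| ≤ C := by
    intro Z hZ s hs i
    by_cases hi : i = j
    · subst hi
      rw [Function.update_self]
      exact (abs_add_le _ _).trans (by linarith [hZ i])
    · rw [Function.update_of_ne hi]
      linarith [hZ i]
  obtain ⟨α1, β1, a1, a2, a3, B1, c1, a4⟩ := Q_many (f := fun k s =>
    E (rh k) (ty k) (Function.update X j (X j + s))) (m := mm) (u := X j) one_le_mm
    (fun k => Q_E (rh_pos k).le (rh_le k) hXC j (X j)) L (-η) η (by linarith)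
  have hPL := PP_pos L
  have hlen1 : (η - -η) / PP L ≤ β1 - α1 := a3
  have hpos1 : α1 < β1 := by
    have : 0 < (η - -η) / PP L := div_pos (by linarith) hPL
    linarith
  obtain ⟨α, β, b1, b2, b3, B2, c2, b4⟩ := Q_many (f := fun k s =>
    E (rh k) (ty k) (Function.update Y j (Y j + s))) (m := mm) (u := Y j) one_le_mm
    (fun k => Q_E (rh_pos k).le (rh_le k) hYC j (Y j)) L α1 β1 hpos1
  have hlen2 : (β1 - α1) / PP L ≤ β - α := b3
  have hlen : 2 * η / PP L ^ 2 ≤ β - α := by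
    refine le_trans ?_ hlen2
    rw [le_div_iff₀ hPL]
    refine le_trans (le_of_eq ?_) hlen1
    field_simp
    ring
  have hpos : α < β := by
    have : 0 < 2 * η / PP L ^ 2 := by positivity
    linarith
  have hαη : ∀ s, α ≤ s → s ≤ β → |s| ≤ η := by
    intro s h1 h2
    rw [abs_le]
    constructor <;> linarith
  -- the slope of the visible component
  have hc1 : c1 k1 = rh k1 ^ (ty k1).length := by
    obtain ⟨-, -, g3⟩ := a4 k1 hL
    have key : ∀ s, α ≤ s → s ≤ β → B + rh k1 ^ (ty k1).length * (X j + s) ^ 2 =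
        B1 k1 + c1 k1 * (X j + s) ^ 2 := by
      intro s h1 h2
      rw [← hvis s (hαη s h1 h2)]
      exact g3 s (b1.trans h1) (h2.trans b2)
    have e1 := key α le_rfl hpos.le
    have e2 := key β hpos.le le_rfl
    have e3 := key ((α + β) / 2) (by linarith) (by linarith)
    have e4 : (rh k1 ^ (ty k1).length - c1 k1) * (β - α) ^ 2 = 0 := by nlinarith
    have e5 : (β - α) ^ 2 ≠ 0 := by
      have : 0 < β - α := by linarith
      positivity
    have := (mul_eq_zero.1 e4).resolve_right e5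
    linarith
  set γ := ∑ k ∈ Finset.range L, wt k * c1 k with hγ
  set γ' := ∑ k ∈ Finset.range L, wt k * c2 k with hγ'
  set τ := 4 * C ^ 2 * (1 / 2) ^ L / PP L ^ 4 with hτ
  have hγ1 : wt k1 * rh k1 ^ (ty k1).length ≤ γ := by
    rw [← hc1]
    exact Finset.single_le_sum (f := fun k => wt k * c1 k)
      (fun k hk => mul_nonneg (wt_pos k).le (a4 k (Finset.mem_range.1 hk)).1)
      (Finset.mem_range.2 hL)
  have hγ0 : 0 ≤ γ := le_trans (mul_nonneg (wt_pos k1).le (pow_nonneg (rh_pos k1).le _)) hγ1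
  have hsumX : ∀ s, α ≤ s → s ≤ β →
      ∑ k ∈ Finset.range L, wt k * E (rh k) (ty k) (Function.update X j (X j + s)) =
      ∑ k ∈ Finset.range L, wt k * B1 k + γ * (X j + s) ^ 2 := by
    intro s h1 h2
    rw [hγ, Finset.sum_mul, ← Finset.sum_add_distrib]
    apply Finset.sum_congr rfl
    intro k hk
    have := (a4 k (Finset.mem_range.1 hk)).2.2 s (b1.trans h1) (h2.trans b2)
    rw [this]
    ring
  have hsumY : ∀ s, α ≤ s → s ≤ β →
      ∑ k ∈ Finset.range L, wt k * E (rh k) (ty k) (Function.update Y j (Y j + s)) =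
      ∑ k ∈ Finset.range L, wt k * B2 k + γ' * (Y j + s) ^ 2 := by
    intro s h1 h2
    rw [hγ', Finset.sum_mul, ← Finset.sum_add_distrib]
    apply Finset.sum_congr rfl
    intro k hk
    have := (b4 k (Finset.mem_range.1 hk)).2.2 s h1 h2
    rw [this]
    ring
  have hq := quad_small (b := ∑ k ∈ Finset.range L, wt k * B1 k - ∑ k ∈ Finset.range L, wt k * B2 k)
    (γ := γ) (γ' := γ') (u := X j) (v := Y j) (ε := δ + τ) (C := C) hpos (by linarith)
    (by linarith) (hYC j) hγ0 (by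
      intro s h1 h2
      have hs := hαη s h1 h2
      have t1 := tail_le (hupd X hX s (hs.trans hη1)) L
      have t2 := tail_le (hupd Y hY s (hs.trans hη1)) L
      have t3 := abs_le.1 (hδ s hs)
      rw [hsumX s h1 h2] at t1
      rw [hsumY s h1 h2] at t2
      rw [abs_le]
      constructor <;> linarith [t1.1, t1.2, t2.1, t2.2, t3.1, t3.2])
  have hδ0 : 0 ≤ δ := (abs_nonneg _).trans (hδ 0 (by simpa using hη.le))
  have hτ0 : 0 ≤ τ := by positivity
  calc wt k1 * rh k1 ^ (ty k1).length * |X j - Y j| ≤ γ * |X j - Y j| :=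
        mul_le_mul_of_nonneg_right hγ1 (abs_nonneg _)
    _ ≤ (δ + τ) * (10 + 8 * C) / (β - α) ^ 2 := hq
    _ ≤ (δ + τ) * (10 + 8 * C) / (2 * η / PP L ^ 2) ^ 2 := by gcongr
    _ = _ := by
        rw [hτ]
        field_simp
        ring

end Pool.Agent.R274.UniS
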