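import Mathlib
import Pool.Agent.R274.UniS3

namespace Pool.Agent.R274.UniS

open Filter Topology ZeroAtInfty

theorem abs_le_norm (x : C₀(ℕ, ℝ)) (i : ℕ) : |x i| ≤ ‖x‖ := by
  rw [← ZeroAtInftyContinuousMap.norm_toBCF_eq_norm]
  exact x.toBCF.norm_coe_le_norm i

theorem norm_le_of {x : C₀(ℕ, ℝ)} {C : ℝ} (hC : 0 ≤ C) (h : ∀ i, |x i| ≤ C) : ‖x‖ ≤ C := by
  rw [← ZeroAtInftyContinuousMap.norm_toBCF_eq_norm]
  exact (BoundedContinuousFunction.norm_le hC).2 h

theorem tendsto_zero (x : C₀(ℕ, ℝ)) : Tendsto x atTop (𝓝 0) := by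
  have := x.zero_at_infty'
  rwa [Filter.cocompact_eq_cofinite, Nat.cofinite_eq_atTop] at this

/-- an element from a null sequence -/
theorem exists_mk (f : ℕ → ℝ) (hf : Tendsto f atTop (𝓝 0)) : ∃ x : C₀(ℕ, ℝ), ∀ i, x i = f i := by
  refine ⟨⟨⟨f, continuous_of_discreteTopology⟩, ?_⟩, fun i => rfl⟩
  rw [Filter.cocompact_eq_cofinite, Nat.cofinite_eq_atTop]
  exact hf

/-- the new norm -/
noncomputable def NN : Seminorm ℝ C₀(ℕ, ℝ) :=
  Seminorm.ofSMulLE (fun x => Real.sqrt (G x))
    (by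
      have := G_smul 0 (⇑(0 : C₀(ℕ, ℝ)))
      rw [zero_smul] at this
      have h2 : G (⇑(0 : C₀(ℕ, ℝ))) = 0 := by
        rw [ZeroAtInftyContinuousMap.coe_zero]
        rw [this]
        ring
      rw [h2, Real.sqrt_zero])
    (fun x y => by
      rw [ZeroAtInftyContinuousMap.coe_add]
      exact sqrt_G_add (abs_le_norm x) (abs_le_norm y))
    (fun c x => by
      rw [ZeroAtInftyContinuousMap.coe_smul, G_smul, Real.sqrt_mul (sq_nonneg c),
        Real.sqrt_sq_eq_abs, Real.norm_eq_abs])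

theorem NN_apply (x : C₀(ℕ, ℝ)) : NN x = Real.sqrt (G x) := rfl

theorem NN_sq (x : C₀(ℕ, ℝ)) : NN x ^ 2 = G x := Real.sq_sqrt (G_nonneg _)

theorem NN_le {x : C₀(ℕ, ℝ)} {C : ℝ} (hC : 0 ≤ C) (h : ∀ i, |x i| ≤ C) : NN x ≤ 2 * C := by
  rw [NN_apply, Real.sqrt_le_left (by positivity)]
  have := G_le h
  nlinarith

theorem le_NN (x : C₀(ℕ, ℝ)) (i : ℕ) : Real.sqrt (wt k0) * |x i| ≤ NN x := by
  rw [NN_apply]
  apply Real.le_sqrt_of_sq_le
  rw [mul_pow, Real.sq_sqrt (wt_pos k0).le, sq_abs]
  exact le_G (abs_le_norm x) i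

/-- uniform lower bounds for the relevant components -/
theorem exists_lower (n m : ℕ) : ∃ γ > 0, ∃ L0 : ℕ, ∀ t : List Bool, t.length ≤ m →
    γ ≤ wt (Encodable.encode (n, t)) * (1 / ((n : ℝ) + 2)) ^ t.length ∧
    Encodable.encode (n, t) < L0 := by
  have hfin : Set.Finite {t : List Bool | t.length ≤ m} := List.finite_length_le Bool m
  have hne : hfin.toFinset.Nonempty := ⟨[], by simp⟩
  let g : List Bool → ℝ := fun t =>
    wt (Encodable.encode (n, t)) * (1 / ((n : ℝ) + 2)) ^ t.length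
  refine ⟨hfin.toFinset.inf' hne g, ?_, hfin.toFinset.sup (fun t => Encodable.encode (n, t)) + 1, ?_⟩
  · rw [gt_iff_lt, Finset.lt_inf'_iff]
    intro t _
    have := wt_pos (Encodable.encode (n, t))
    simp only [g]
    positivity
  · intro t ht
    have hmem : t ∈ hfin.toFinset := by simpa using ht
    exact ⟨Finset.inf'_le g hmem, Nat.lt_succ_of_le
      (Finset.le_sup (f := fun t => Encodable.encode (n, t)) hmem)⟩

/-- visibility: every vector can be perturbed slightly so that a given coordinate is visible -/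
theorem visible {C0 a : ℝ} (hC0 : 0 ≤ C0) (ha : 0 < a) (ha1 : a ≤ 1) {n : ℕ}
    (hn : 1 / ((n : ℝ) + 2) * (2 * (C0 + 3) ^ 2) ≤ (a / (2 * (⌊C0 / a⌋₊ : ℝ) + 1)) ^ 2 / 4)
    (x : C₀(ℕ, ℝ)) (hx : ∀ i, |x i| ≤ C0) (j : ℕ) :
    ∃ z : C₀(ℕ, ℝ), (∀ i, |z i| ≤ 2 * a) ∧ ∃ t : List Bool, t.length ≤ 2 * ⌊C0 / a⌋₊ ∧ ∃ B : ℝ,
      ∀ s, |s| ≤ (a / (2 * (⌊C0 / a⌋₊ : ℝ) + 1)) / 2 →
        E (1 / ((n : ℝ) + 2)) t (Function.update (⇑(x + z)) j ((x + z) j + s)) =
          B + (1 / ((n : ℝ) + 2)) ^ t.length * ((x + z) j + s) ^ 2 := by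
  set v : ℕ := ⌊C0 / a⌋₊ with hv
  set β : ℝ := a / (2 * (v : ℝ) + 1) with hβ
  set ρ : ℝ := 1 / ((n : ℝ) + 2) with hρ
  have hv0 : (0 : ℝ) ≤ v := Nat.cast_nonneg _
  have hβ0 : 0 < β := by positivity
  have hβa : (2 * (v : ℝ) + 1) * β = a := by
    rw [hβ]
    field_simp
  have hβa' : β ≤ a := by
    rw [← hβa]
    nlinarith
  have hρ0 : 0 < ρ := by positivity
  have hρ1 : ρ ≤ 1 / 2 := by
    rw [hρ]
    apply one_div_le_one_div_of_le (by norm_num)
    have : (0 : ℝ) ≤ n := Nat.cast_nonneg _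
    linarith
  let c : ℕ → ℕ := fun i => ⌊|x i| / a⌋₊
  let σ : ℕ → ℝ := fun i => if 0 ≤ x i then 1 else -1
  have hσ : ∀ i, |σ i| = 1 := by
    intro i
    simp only [σ]
    split_ifs <;> simp
  have hσx : ∀ i, σ i * |x i| = x i := by
    intro i
    simp only [σ]
    split_ifs with h
    · rw [abs_of_nonneg h, one_mul]
    · rw [abs_of_neg (not_le.1 h)]
      ring
  have hcv : ∀ i, c i ≤ v := fun i => Nat.floor_mono (by gcongr; exact hx i)
  have hc1 : ∀ i, a * c i ≤ |x i| := by
    intro i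
    have := Nat.floor_le (show 0 ≤ |x i| / a by positivity)
    rw [le_div_iff₀ ha] at this
    simp only [c]
    linarith
  have hc2 : ∀ i, |x i| ≤ a * c i + a := by
    intro i
    have := (Nat.lt_floor_add_one (|x i| / a)).le
    rw [div_le_iff₀ ha] at this
    simp only [c]
    linarith
  obtain ⟨t, b, l, ht, hg⟩ := exists_good (c := c) (j := j) (a := a) (β := β) (ρ := ρ) (η := β / 2)
    (C := C0 + 3) ha.le hβ0.le (by positivity) le_rfl hρ0.le hρ1 hn v (by
      intro k
      have h1 := hc1 k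
      have h2 := hx k
      rw [hβa]
      linarith) (Set.mem_univ j) (fun k _ => hcv k)
  let X : ℕ → ℝ := fun i => σ i * (a * c i + b i)
  have hba : ∀ i, b i ≤ a := by
    intro i
    have h1 := hg.le i
    have h2 : (t.length : ℝ) ≤ 2 * v := by exact_mod_cast ht
    rw [← hβa]
    nlinarith
  have hXx : ∀ i, |X i - x i| ≤ 2 * a := by
    intro i
    have h1 : X i - x i = σ i * ((a * c i + b i) - |x i|) := by
      rw [mul_sub, hσx]
    rw [h1, abs_mul, hσ, one_mul, abs_le]
    have h2 := hc1 i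
    have h3 := hc2 i
    have h4 := hg.nonneg i
    have h5 := hba i
    constructor <;> linarith
  have hXlim : Tendsto (fun i => X i - x i) atTop (𝓝 0) := by
    have h1 : ∀ᶠ i in atTop, X i = 0 := by
      have h2 : ∀ᶠ i in atTop, |x i| < a := by
        have := (tendsto_zero x).abs
        rw [abs_zero] at this
        exact (tendsto_order.1 this).2 a ha
      filter_upwards [h2, eventually_gt_atTop (l.foldr max 0)] with i hi hi2
      have h3 : c i = 0 := by
        simp only [c]
        rw [Nat.floor_eq_zero, div_lt_one ha]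
        exact hi
      have h4 : i ∉ l := by
        intro hil
        have : ∀ l : List ℕ, ∀ i ∈ l, i ≤ l.foldr max 0 := by
          intro l
          induction l with
          | nil => simp
          | cons k l ih =>
            intro i hi
            rw [List.foldr_cons]
            rcases List.mem_cons.1 hi with rfl | hi
            · exact le_max_left _ _
            · exact (ih i hi).trans (le_max_right _ _)
        exact absurd (this l i hil) (not_le.2 hi2)
      simp only [X]
      rw [h3, hg.out i h4]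
      simp
    have h5 : Tendsto (fun i => - x i) atTop (𝓝 0) := by
      simpa using (tendsto_zero x).neg
    refine h5.congr' ?_
    filter_upwards [h1] with i hi
    rw [hi, zero_sub]
  obtain ⟨z, hz⟩ := exists_mk _ hXlim
  have hxz : ⇑(x + z) = X := by
    funext i
    rw [ZeroAtInftyContinuousMap.add_apply, hz]
    ring
  obtain ⟨l', hl', hjl'⟩ := hg.tail
  refine ⟨z, fun i => by rw [hz]; exact hXx i, t, ht, V ρ X l', fun s hs => ?_⟩
  rw [hxz]
  set y : ℕ → ℝ := Function.update X j (X j + s) with hy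
  have hyi : ∀ i ∈ (Set.univ : Set ℕ), i ≠ j → |y i| = a * c i + b i := by
    intro i _ hij
    rw [hy, Function.update_of_ne hij]
    simp only [X]
    rw [abs_mul, hσ, one_mul, abs_of_nonneg]
    have := hg.nonneg i
    positivity
  have hyj : |(|y j| - (a * c j + b j))| ≤ β / 2 := by
    have hr : 0 ≤ a * c j + b j := by
      have := hg.nonneg j
      positivity
    have h1 : |y j| = |σ j * (a * c j + b j) + s| := by
      rw [hy, Function.update_self]
    have h2 : |σ j * (a * c j + b j)| = a * c j + b j := by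
      rw [abs_mul, hσ, one_mul, abs_of_nonneg hr]
    have h3 := abs_abs_sub_abs_le (σ j * (a * c j + b j) + s) (σ j * (a * c j + b j))
    rw [add_sub_cancel_left, h2] at h3
    rw [h1]
    exact h3.trans hs
  have hyb : ∀ i, |y i| ≤ C0 + 3 := by
    intro i
    have h1 := hc1 i
    have h2 := hx i
    have h3 := hba i
    by_cases hij : i = j
    · subst hij
      have := (abs_le.1 hyj).2
      linarith
    · rw [hyi i (Set.mem_univ i) hij]
      linarith
  have hE : E ρ t y = V ρ y l := by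
    apply le_antisymm
    · have : Nonempty {l // Ch t Set.univ l} := ⟨⟨l, hg.ch⟩⟩
      apply ciSup_le
      rintro ⟨l₂, hl₂⟩
      exact hg.max y hyi hyj l₂ hl₂
    · exact V_le_E hρ0.le hρ1 hyb hg.ch
  have hlen : l'.length = t.length := by
    have := Ch_length hg.ch
    rw [hl', List.length_append, List.length_singleton] at this
    omega
  rw [hE, hl', V_append, hlen]
  congr 1
  · apply V_congr
    intro i hi
    have : i ≠ j := fun h => hjl' (h ▸ hi)
    rw [hy, Function.update_of_ne this]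
  · rw [hy, Function.update_self]

/-- The uniform property (S) for a seminorm on null sequences. -/
def UniformS (N : Seminorm ℝ C₀(ℕ, ℝ)) : Prop :=
  ∀ d : ℝ, 0 < d → ∀ a : ℝ, 0 < a → ∃ δ : ℝ, 0 < δ ∧ ∀ x y : C₀(ℕ, ℝ), N x = 1 → N y = 1 →
    d ≤ N (x - y) → ∃ z : C₀(ℕ, ℝ), N z ≤ a ∧ δ ≤ |N (x + z) - N (y + z)|

theorem uniformS : UniformS NN := by
  intro d hd a ha
  set κ : ℝ := Real.sqrt (wt k0) with hκ
  have hκ0 : 0 < κ := Real.sqrt_pos.2 (wt_pos k0)
  set C0 : ℝ := 1 / κ with hC0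
  have hC00 : 0 ≤ C0 := by positivity
  set a' : ℝ := min a 1 / 16 with ha'
  have ha'0 : 0 < a' := by
    have : 0 < min a 1 := lt_min ha one_pos
    positivity
  have ha'a : 16 * a' ≤ a := by
    rw [ha']
    have := min_le_left a 1
    linarith
  have ha'1 : a' ≤ 1 := by
    rw [ha']
    have := min_le_right a 1
    linarith
  set v : ℕ := ⌊C0 / a'⌋₊ with hv
  set β : ℝ := a' / (2 * (v : ℝ) + 1) with hβ
  have hv0 : (0 : ℝ) ≤ v := Nat.cast_nonneg _
  have hβ0 : 0 < β := by positivity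
  have hβa : β ≤ a' := div_le_self ha'0.le (by linarith)
  set C : ℝ := C0 + 4 with hC
  obtain ⟨n, hn⟩ : ∃ n : ℕ, 1 / ((n : ℝ) + 2) * (2 * (C0 + 3) ^ 2) ≤ β ^ 2 / 4 := by
    have h1 : 0 < β ^ 2 / 4 / (2 * (C0 + 3) ^ 2) := by positivity
    obtain ⟨n, hn⟩ := exists_nat_one_div_lt h1
    refine ⟨n, ?_⟩
    rw [← le_div_iff₀ (by positivity)]
    refine le_trans ?_ hn.le
    apply one_div_le_one_div_of_le
    · positivity
    · linarith
  obtain ⟨γ, hγ, L0, hL0⟩ := exists_lower n (2 * v)
  set η : ℝ := β / 2 with hη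
  have hη0 : 0 < η := by positivity
  have hη1 : η ≤ 1 := by linarith
  have hηa : η ≤ a' := by linarith
  -- choose the level of truncation
  set D : ℝ := (10 + 8 * C) / (4 * η ^ 2) with hD
  have hD0 : 0 < D := by positivity
  obtain ⟨L1, hL1⟩ : ∃ L1 : ℕ, 4 * C ^ 2 * (1 / 2) ^ L1 * D ≤ γ * d / 16 := by
    have h1 : Tendsto (fun L : ℕ => 4 * C ^ 2 * (1 / 2 : ℝ) ^ L * D) atTop
        (𝓝 (4 * C ^ 2 * 0 * D)) :=
      ((tendsto_pow_atTop_nhds_zero_of_lt_one (by norm_num) (by norm_num)).const_mul _).mul_const _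
    rw [mul_zero, zero_mul] at h1
    obtain ⟨L1, h2⟩ := ((tendsto_order.1 h1).2 (γ * d / 16) (by positivity)).exists
    exact ⟨L1, h2.le⟩
  set L : ℕ := max L0 L1 with hL
  have hLs : 4 * C ^ 2 * (1 / 2) ^ L * D ≤ γ * d / 16 := by
    refine le_trans ?_ hL1
    have : (1 / 2 : ℝ) ^ L ≤ (1 / 2) ^ L1 :=
      pow_le_pow_of_le_one (by norm_num) (by norm_num) (le_max_right _ _)
    gcongr
  have hPL := PP_pos L
  set δ' : ℝ := γ * d / 16 / (PP L ^ 4 * D) with hδ'
  have hδ'0 : 0 < δ' := by positivity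
  refine ⟨δ' / (2 * (1 + a)), by positivity, fun x y hx hy hxy => ?_⟩
  by_contra hcon
  push Not at hcon
  -- the coordinates are bounded
  have hbx : ∀ w : C₀(ℕ, ℝ), NN w = 1 → ∀ i, |w i| ≤ C0 := by
    intro w hw i
    have := le_NN w i
    rw [hw] at this
    rw [hC0, le_div_iff₀ hκ0]
    linarith
  -- a coordinate where they differ
  obtain ⟨j, hj⟩ : ∃ j, d / 4 ≤ |x j - y j| := by
    by_contra hc
    push Not at hc
    have h1 := NN_le (x := x - y) (C := d / 4) (by positivity) (fun i => by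
      rw [ZeroAtInftyContinuousMap.sub_apply]
      exact (hc i).le)
    linarith
  obtain ⟨z, hz, t, ht, B, hvis⟩ := visible hC00 ha'0 ha'1 hn x (hbx x hx) j
  obtain ⟨hγ1, hk1⟩ := hL0 t ht
  set k1 : ℕ := Encodable.encode (n, t) with hk1def
  have hcp : cp k1 = (n, t) := cp_encode (n, t)
  have hrh : rh k1 = 1 / ((n : ℝ) + 2) := by
    unfold rh
    rw [hcp]
  have hty : ty k1 = t := by
    unfold ty
    rw [hcp]
  have hX : ∀ i, |(x + z) i| + 1 ≤ C := by
    intro i
    rw [ZeroAtInftyContinuousMap.add_apply]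
    have h1 := abs_add_le (x i) (z i)
    have h2 := hbx x hx i
    have h3 := hz i
    linarith
  have hY : ∀ i, |(y + z) i| + 1 ≤ C := by
    intro i
    rw [ZeroAtInftyContinuousMap.add_apply]
    have h1 := abs_add_le (y i) (z i)
    have h2 := hbx y hy i
    have h3 := hz i
    linarith
  have hδs : ∀ s, |s| ≤ η → |G (Function.update (⇑(x + z)) j ((x + z) j + s)) -
      G (Function.update (⇑(y + z)) j ((y + z) j + s))| ≤ δ' := by
    intro s hs
    have hlim : Tendsto (fun i => Function.update (⇑z) j (z j + s) i) atTop (𝓝 0) := by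
      refine (tendsto_zero z).congr' ?_
      filter_upwards [eventually_gt_atTop j] with i hi
      rw [Function.update_of_ne (by omega)]
    obtain ⟨z', hz'⟩ := exists_mk _ hlim
    have hz'b : ∀ i, |z' i| ≤ 3 * a' := by
      intro i
      rw [hz']
      by_cases hij : i = j
      · subst hij
        rw [Function.update_self]
        have h1 := abs_add_le (z i) s
        have h2 := hz i
        linarith
      · rw [Function.update_of_ne hij]
        have := hz i
        linarith
    have hz'a : NN z' ≤ a := by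
      have := NN_le (by positivity) hz'b
      linarith
    have hfun : ∀ w : C₀(ℕ, ℝ), Function.update (⇑(w + z)) j ((w + z) j + s) = ⇑(w + z') := by
      intro w
      funext i
      have hadd : (w + z') i = w i + z' i := rfl
      rw [hadd, hz']
      by_cases hij : i = j
      · subst hij
        rw [Function.update_self, Function.update_self, ZeroAtInftyContinuousMap.add_apply]
        ring
      · rw [Function.update_of_ne hij, Function.update_of_ne hij, ZeroAtInftyContinuousMap.add_apply]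
    rw [hfun x, hfun y, ← NN_sq, ← NN_sq]
    have h1 := hcon z' hz'a
    have h2 : NN (x + z') ≤ 1 + a := by
      have := map_add_le_add NN x z'
      linarith
    have h3 : NN (y + z') ≤ 1 + a := by
      have := map_add_le_add NN y z'
      linarith
    have h4 : 0 ≤ NN (x + z') := apply_nonneg _ _
    have h5 : 0 ≤ NN (y + z') := apply_nonneg _ _
    have h6 : NN (x + z') ^ 2 - NN (y + z') ^ 2 =
        (NN (x + z') - NN (y + z')) * (NN (x + z') + NN (y + z')) := by ring
    rw [h6, abs_mul, abs_of_nonneg (add_nonneg h4 h5)]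
    calc |NN (x + z') - NN (y + z')| * (NN (x + z') + NN (y + z')) ≤
          δ' / (2 * (1 + a)) * (2 * (1 + a)) := by
          apply mul_le_mul h1.le (by linarith) (by linarith) (by positivity)
      _ = δ' := by field_simp
  have hcore := core hX hY j hη0 hη1 k1 (B := B) (by
    intro s hs
    rw [hrh, hty]
    exact hvis s hs) hδs L (lt_of_lt_of_le hk1 (le_max_left _ _))
  have hdiff : (x + z) j - (y + z) j = x j - y j := by
    rw [ZeroAtInftyContinuousMap.add_apply, ZeroAtInftyContinuousMap.add_apply]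
    ring
  rw [hrh, hty, hdiff] at hcore
  have h1 : γ * (d / 4) ≤ wt k1 * (1 / ((n : ℝ) + 2)) ^ t.length * |x j - y j| :=
    mul_le_mul hγ1 hj (by positivity) (le_trans hγ.le hγ1)
  have h2 : (δ' * PP L ^ 4 + 4 * C ^ 2 * (1 / 2) ^ L) * (10 + 8 * C) / (4 * η ^ 2) =
      δ' * (PP L ^ 4 * D) + 4 * C ^ 2 * (1 / 2) ^ L * D := by
    rw [hD]
    ring
  have h3 : δ' * (PP L ^ 4 * D) = γ * d / 16 := by
    rw [hδ']
    field_simp
  rw [h2, h3] at hcore
  have h4 : 0 < γ * d := by positivity
  linarith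

end Pool.Agent.R274.UniS
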