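import Mathlib

namespace Pool.Agent.R274.JT

open NormedSpace Filter Topology

variable {X : Type*} [NormedAddCommGroup X] [NormedSpace ℝ X]

/-- The dual of an infinite-dimensional space is infinite-dimensional. -/
theorem dual_infinite (hinf : ¬ FiniteDimensional ℝ X) :
    ¬ FiniteDimensional ℝ (StrongDual ℝ X) := by
  intro h
  apply hinf
  let J : X →ₗ[ℝ] Module.Dual ℝ (StrongDual ℝ X) :=
    { toFun := fun x =>
        { toFun := fun f => f x
          map_add' := fun _ _ => rfl
          map_smul' := fun _ _ => rfl }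
      map_add' := fun a b => by ext f; simp
      map_smul' := fun a b => by ext f; simp }
  have hJ : Function.Injective J := by
    rw [injective_iff_map_eq_zero]
    intro x hx
    refine SeparatingDual.eq_zero_of_forall_dual_eq_zero (R := ℝ) (fun g => ?_)
    exact LinearMap.congr_fun hx g
  exact FiniteDimensional.of_injective J hJ

/-- A separable infinite-dimensional subspace. -/
theorem exists_sep {V : Type*} [NormedAddCommGroup V] [NormedSpace ℝ V]
    (hinf : ¬ FiniteDimensional ℝ V) :
    ∃ Y : Submodule ℝ V, IsClosed (Y : Set V) ∧ TopologicalSpace.IsSeparable (Y : Set V) ∧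
      ¬ FiniteDimensional ℝ Y := by
  let b := Module.Basis.ofVectorSpace ℝ V
  have hI : Infinite (Module.Basis.ofVectorSpaceIndex ℝ V) := by
    by_contra hcon
    rw [not_infinite_iff_finite] at hcon
    exact hinf (Module.Finite.of_basis b)
  let v : ℕ → V := fun n => b (Infinite.natEmbedding _ n)
  have hv : LinearIndependent ℝ v :=
    b.linearIndependent.comp _ (Infinite.natEmbedding _).injective
  refine ⟨(Submodule.span ℝ (Set.range v)).topologicalClosure,
    Submodule.isClosed_topologicalClosure _, ?_, ?_⟩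
  · rw [Submodule.topologicalClosure_coe]
    exact ((Set.countable_range v).isSeparable.span (R := ℝ)).closure
  · intro hfin
    have hle : Submodule.span ℝ (Set.range v) ≤ (Submodule.span ℝ (Set.range v)).topologicalClosure :=
      Submodule.le_topologicalClosure _
    have h1 : FiniteDimensional ℝ (Submodule.span ℝ (Set.range v)) :=
      Submodule.finiteDimensional_of_le hle
    let v' : ℕ → Submodule.span ℝ (Set.range v) := fun n => ⟨v n, Submodule.subset_span ⟨n, rfl⟩⟩
    have hv' : LinearIndependent ℝ v' := by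
      apply LinearIndependent.of_comp (Submodule.span ℝ (Set.range v)).subtype
      exact hv
    have := hv'.finite
    exact not_finite ℕ

/-- countable set separating a separable subspace of the dual -/
theorem exists_countable_sep (Y : Submodule ℝ (StrongDual ℝ X))
    (hY : TopologicalSpace.IsSeparable (Y : Set (StrongDual ℝ X))) :
    ∃ d : ℕ → X, ∀ y ∈ Y, (∀ n, y (d n) = 0) → y = 0 := by
  obtain ⟨c, hc, hYc⟩ := hY
  rcases c.eq_empty_or_nonempty with rfl | hne
  · refine ⟨fun _ => 0, fun y hy _ => ?_⟩
    have := hYc hy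
    simp at this
  obtain ⟨u, rfl⟩ := hc.exists_eq_range hne
  have h1 : ∀ f : StrongDual ℝ X, ∃ x : X, ‖x‖ ≤ 1 ∧ ‖f‖ / 2 ≤ |f x| := by
    intro f
    rcases eq_or_ne f 0 with rfl | hf
    · exact ⟨0, by simp, by simp⟩
    · obtain ⟨x, hx1, hx2⟩ := ContinuousLinearMap.exists_lt_apply_of_lt_opNorm f
        (show ‖f‖ / 2 < ‖f‖ by linarith [norm_pos_iff.2 hf])
      exact ⟨x, hx1.le, hx2.le⟩
  choose x hx1 hx2 using h1
  refine ⟨fun n => x (u n), fun y hy h0 => ?_⟩
  by_contra hne'
  have hpos : 0 < ‖y‖ := norm_pos_iff.2 hne'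
  obtain ⟨_, ⟨n, rfl⟩, hn⟩ := Metric.mem_closure_iff.1 (hYc hy) (‖y‖ / 4) (by linarith)
  rw [dist_eq_norm] at hn
  have h2 := hx2 (u n)
  have h3 : |u n (x (u n))| ≤ ‖y - u n‖ := by
    have h4 : u n (x (u n)) = -((y - u n) (x (u n))) := by
      simp [h0 n]
    rw [h4, abs_neg]
    calc |(y - u n) (x (u n))| ≤ ‖y - u n‖ * ‖x (u n)‖ := by
          rw [← Real.norm_eq_abs]
          exact ContinuousLinearMap.le_opNorm _ _
      _ ≤ ‖y - u n‖ * 1 := by gcongr; exact hx1 _
      _ = _ := mul_one _
  have h5 : ‖y‖ ≤ ‖y - u n‖ + ‖u n‖ := by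
    calc ‖y‖ = ‖(y - u n) + u n‖ := by congr 1; abel
      _ ≤ _ := norm_add_le _ _
  linarith

/-- A weak-star null normalised sequence in the dual of an infinite-dimensional reflexive space. -/
theorem exists_null (hr : Function.Surjective (inclusionInDoubleDual ℝ X))
    (hinf : ¬ FiniteDimensional ℝ X) :
    ∃ f : ℕ → StrongDual ℝ X, (∀ n, ‖f n‖ = 1) ∧ ∀ x, Tendsto (fun n => f n x) atTop (𝓝 0) := by
  obtain ⟨Y, hYc, hYs, hYi⟩ := exists_sep (dual_infinite hinf)
  obtain ⟨d, hd⟩ := exists_countable_sep Y hYs
  have h1 : ∀ n : ℕ, ∃ f : StrongDual ℝ X, f ∈ Y ∧ ‖f‖ = 1 ∧ ∀ k < n, f (d k) = 0 := by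
    intro n
    let A : Y →ₗ[ℝ] (Fin n → ℝ) :=
      { toFun := fun y k => (y : StrongDual ℝ X) (d k)
        map_add' := fun a b => by ext k; simp
        map_smul' := fun a b => by ext k; simp }
    have hA : ¬ Function.Injective A := fun h => hYi (FiniteDimensional.of_injective A h)
    rw [injective_iff_map_eq_zero] at hA
    push Not at hA
    obtain ⟨y, hy, hy0⟩ := hA
    have hy0' : (y : StrongDual ℝ X) ≠ 0 := fun h => hy0 (Subtype.ext h)
    have hpos : 0 < ‖(y : StrongDual ℝ X)‖ := norm_pos_iff.2 hy0'
    refine ⟨‖(y : StrongDual ℝ X)‖⁻¹ • (y : StrongDual ℝ X), Y.smul_mem _ y.2, ?_, ?_⟩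
    · rw [norm_smul, norm_inv, norm_norm, inv_mul_cancel₀ hpos.ne']
    · intro k hk
      have := congrFun hy ⟨k, hk⟩
      have h2 : (y : StrongDual ℝ X) (d k) = 0 := this
      simp [h2]
  choose f hfY hf1 hf0 using h1
  refine ⟨f, hf1, ?_⟩
  have hK := WeakDual.isCompact_closedBall (𝕜 := ℝ) (0 : StrongDual ℝ X) 1
  have key : Tendsto (fun n => StrongDual.toWeakDual (f n)) atTop (𝓝 (0 : WeakDual ℝ X)) := by
    refine hK.tendsto_nhds_of_unique_mapClusterPt ?_ ?_
    · filter_upwards with n
      simpa using (hf1 n).le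
    · intro w _ hw
      have hcl : ∀ (x : X) (s : Set ℝ), IsClosed s → (∀ᶠ n in atTop, f n x ∈ s) →
          WeakDual.toStrongDual w x ∈ s := by
        intro x s hs hev
        have hcl' : IsClosed {v : WeakDual ℝ X | v x ∈ s} := hs.preimage (WeakDual.eval_continuous x)
        have h2 : ClusterPt w (𝓟 {v : WeakDual ℝ X | v x ∈ s}) := by
          apply ClusterPt.mono hw
          rw [le_principal_iff, mem_map]
          exact hev
        exact isClosed_iff_clusterPt.1 hcl' _ h2
      have hwY : WeakDual.toStrongDual w ∈ Y := by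
        by_contra hcon
        obtain ⟨g, u, hg, hu⟩ := geometric_hahn_banach_closed_point (s := (Y : Set (StrongDual ℝ X)))
          Y.convex hYc hcon
        have hg0 : ∀ y ∈ Y, g y = 0 := by
          intro y hy
          by_contra hne
          have h3 := hg (((u + 1) / g y) • y) (Y.smul_mem _ hy)
          rw [map_smul, smul_eq_mul, div_mul_cancel₀ _ hne] at h3
          linarith
        obtain ⟨x, rfl⟩ := hr g
        have h4 : WeakDual.toStrongDual w x ∈ ({0} : Set ℝ) := by
          apply hcl x {0} isClosed_singleton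
          filter_upwards with n
          have := hg0 (f n) (hfY n)
          simpa using this
        have h5 := hg 0 Y.zero_mem
        simp only [map_zero] at h5
        have h6 : inclusionInDoubleDual ℝ X x (WeakDual.toStrongDual w) = 0 := by
          simpa using h4
        linarith
      have hw0 : WeakDual.toStrongDual w = 0 := by
        apply hd _ hwY
        intro k
        have : WeakDual.toStrongDual w (d k) ∈ ({0} : Set ℝ) := by
          apply hcl (d k) {0} isClosed_singleton
          filter_upwards [eventually_gt_atTop k] with n hn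
          simpa using hf0 n k hn
        simpa using this
      exact hw0
  intro x
  have := ((WeakDual.eval_continuous x).tendsto _).comp key
  exact this

end Pool.Agent.R274.JT
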