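import Mathlib
import Pool.Agent.R274.JamesThm
import Pool.Agent.R274.WNull

namespace Pool.Agent.R274.WMP

open NormedSpace Filter Topology
open scoped ENNReal

/-- The pair `(E, F)` has the weak maximizing property: every bounded operator `T` from `E` to `F`
with a maximizing sequence that is not weakly null attains its norm on the unit sphere. -/
def WeakMaximizing (𝕜 E F : Type*) [RCLike 𝕜] [NormedAddCommGroup E] [NormedSpace 𝕜 E]
    [NormedAddCommGroup F] [NormedSpace 𝕜 F] : Prop :=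
  ∀ T : E →L[𝕜] F,
    (∃ x : ℕ → E, (∀ n, ‖x n‖ = 1) ∧ Tendsto (fun n => ‖T (x n)‖) atTop (𝓝 ‖T‖) ∧
      ¬ ∀ f : E →L[𝕜] 𝕜, Tendsto (fun n => f (x n)) atTop (𝓝 0)) →
    ∃ z : E, ‖z‖ = 1 ∧ ‖T z‖ = ‖T‖

variable {𝕜 E : Type*} [RCLike 𝕜] [NormedAddCommGroup E] [NormedSpace 𝕜 E]

/-- norm one vectors almost norming a functional -/
theorem exists_almost (g : E →L[𝕜] 𝕜) (hg : ‖g‖ = 1) {ε : ℝ} (hε : 0 < ε) :
    ∃ x : E, ‖x‖ = 1 ∧ 1 - ε ≤ ‖g x‖ := by
  rcases lt_or_ge ε 1 with h1 | h1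
  · obtain ⟨y, hy1, hy2⟩ := ContinuousLinearMap.exists_lt_apply_of_lt_opNorm g
      (show 1 - ε < ‖g‖ by rw [hg]; linarith)
    have hy0 : y ≠ 0 := by
      rintro rfl
      simp at hy2
      linarith
    have hpos : 0 < ‖y‖ := norm_pos_iff.2 hy0
    refine ⟨((‖y‖⁻¹ : ℝ) : 𝕜) • y, ?_, ?_⟩
    · rw [norm_smul, RCLike.norm_ofReal, abs_of_pos (inv_pos.2 hpos), inv_mul_cancel₀ hpos.ne']
    · rw [map_smul, norm_smul, RCLike.norm_ofReal, abs_of_pos (inv_pos.2 hpos)]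
      have h2 : 1 ≤ ‖y‖⁻¹ := (one_le_inv₀ hpos).2 hy1.le
      nlinarith [norm_nonneg (g y)]
  · have hne : ∃ y : E, y ≠ 0 := by
      by_contra hcon
      push Not at hcon
      have : g = 0 := by
        ext y
        rw [hcon y]
        simp
      rw [this] at hg
      simp at hg
    obtain ⟨y, hy0⟩ := hne
    have hpos : 0 < ‖y‖ := norm_pos_iff.2 hy0
    refine ⟨((‖y‖⁻¹ : ℝ) : 𝕜) • y, ?_, ?_⟩
    · rw [norm_smul, RCLike.norm_ofReal, abs_of_pos (inv_pos.2 hpos), inv_mul_cancel₀ hpos.ne']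
    · linarith [norm_nonneg (g (((‖y‖⁻¹ : ℝ) : 𝕜) • y))]

/-- The operator into bounded sequences with coordinates `(1 - 1/(n+2)) g n`. -/
theorem exists_op (g : ℕ → E →L[𝕜] 𝕜) (hg : ∀ n, ‖g n‖ = 1) :
    ∃ T : E →L[𝕜] lp (fun _ : ℕ => 𝕜) ∞, ∀ x n, T x n = ((1 - 1 / ((n : ℝ) + 2) : ℝ) : 𝕜) * g n x := by
  have hb : ∀ (x : E) (n : ℕ), ‖((1 - 1 / ((n : ℝ) + 2) : ℝ) : 𝕜) * g n x‖ ≤ ‖x‖ := by
    intro x n
    rw [norm_mul, RCLike.norm_ofReal]
    have h1 : (0 : ℝ) < 1 / ((n : ℝ) + 2) := by positivity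
    have h2 : 1 / ((n : ℝ) + 2) ≤ 1 := by
      rw [div_le_one (by positivity)]
      have : (0 : ℝ) ≤ n := Nat.cast_nonneg n
      linarith
    rw [abs_of_nonneg (by linarith)]
    have h3 : ‖g n x‖ ≤ 1 * ‖x‖ := by
      rw [← hg n]
      exact (g n).le_opNorm x
    rw [one_mul] at h3
    nlinarith [norm_nonneg (g n x)]
  let T0 : E →ₗ[𝕜] lp (fun _ : ℕ => 𝕜) ∞ :=
    { toFun := fun x => ⟨fun n => ((1 - 1 / ((n : ℝ) + 2) : ℝ) : 𝕜) * g n x,
        memℓp_infty ⟨‖x‖, by rintro _ ⟨n, rfl⟩; exact hb x n⟩⟩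
      map_add' := fun a b => by
        ext n
        change _ = (_ : 𝕜) + _
        simp only [map_add]
        ring
      map_smul' := fun a b => by
        ext n
        change _ = a * (_ : 𝕜)
        simp only [map_smul, smul_eq_mul]
        ring }
  refine ⟨T0.mkContinuous 1 ?_, fun x n => rfl⟩
  intro x
  rw [one_mul]
  exact lp.norm_le_of_forall_le (norm_nonneg _) (hb x)

/-- Norming sequences for functionals whose upper limit is small on the sphere are weakly null. -/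
theorem star (hW : WeakMaximizing 𝕜 E (lp (fun _ : ℕ => 𝕜) ∞)) {g : ℕ → E →L[𝕜] 𝕜}
    (hg : ∀ n, ‖g n‖ = 1)
    (hlim : ∀ z : E, ‖z‖ = 1 → ∃ c < (1 : ℝ), ∀ᶠ n in atTop, ‖g n z‖ ≤ c) {x : ℕ → E}
    (hx : ∀ n, ‖x n‖ = 1) (hgx : Tendsto (fun n => ‖g n (x n)‖) atTop (𝓝 1)) (f : E →L[𝕜] 𝕜) :
    Tendsto (fun n => f (x n)) atTop (𝓝 0) := by
  obtain ⟨T, hT⟩ := exists_op g hg
  have hlam : ∀ n : ℕ, 0 ≤ 1 - 1 / ((n : ℝ) + 2) ∧ 1 - 1 / ((n : ℝ) + 2) < 1 := by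
    intro n
    have h1 : (0 : ℝ) < 1 / ((n : ℝ) + 2) := by positivity
    have h2 : 1 / ((n : ℝ) + 2) ≤ 1 := by
      rw [div_le_one (by positivity)]
      have : (0 : ℝ) ≤ n := Nat.cast_nonneg n
      linarith
    constructor <;> linarith
  have hTn : ∀ x n, ‖T x n‖ = (1 - 1 / ((n : ℝ) + 2)) * ‖g n x‖ := by
    intro x n
    rw [hT, norm_mul, RCLike.norm_ofReal, abs_of_nonneg (hlam n).1]
  have hgb : ∀ n z, ‖z‖ = 1 → ‖g n z‖ ≤ 1 := by
    intro n z hz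
    have := (g n).le_opNorm z
    rwa [hg n, hz, one_mul] at this
  have hT1 : ‖T‖ ≤ 1 := by
    refine ContinuousLinearMap.opNorm_le_bound _ zero_le_one (fun z => ?_)
    rw [one_mul]
    refine lp.norm_le_of_forall_le (norm_nonneg _) (fun n => ?_)
    rw [hTn]
    have h3 : ‖g n z‖ ≤ 1 * ‖z‖ := by
      rw [← hg n]
      exact (g n).le_opNorm z
    rw [one_mul] at h3
    nlinarith [norm_nonneg (g n z), (hlam n).1, (hlam n).2]
  have hlow : Tendsto (fun n : ℕ => (1 - 1 / ((n : ℝ) + 2)) * ‖g n (x n)‖) atTop (𝓝 1) := by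
    have h1 : Tendsto (fun n : ℕ => 1 / ((n : ℝ) + 2)) atTop (𝓝 0) := by
      apply squeeze_zero (fun n => by positivity) _ tendsto_one_div_add_atTop_nhds_zero_nat
      intro n
      apply one_div_le_one_div_of_le
      · positivity
      · linarith
    have h2 : Tendsto (fun n : ℕ => (1 - 1 / ((n : ℝ) + 2))) atTop (𝓝 1) := by
      simpa using h1.const_sub 1
    simpa using h2.mul hgx
  have hmax : Tendsto (fun n => ‖T (x n)‖) atTop (𝓝 1) := by
    refine tendsto_of_tendsto_of_tendsto_of_le_of_le hlow tendsto_const_nhds (fun n => ?_)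
      (fun n => ?_)
    · change _ ≤ ‖T (x n)‖
      rw [← hTn]
      exact lp.norm_apply_le_norm ENNReal.top_ne_zero _ _
    · change ‖T (x n)‖ ≤ 1
      have := T.le_of_opNorm_le hT1 (x n)
      rwa [hx n, one_mul] at this
  have hT2 : ‖T‖ = 1 := by
    refine le_antisymm hT1 (le_of_tendsto hmax ?_)
    filter_upwards with n
    have := T.le_opNorm (x n)
    rwa [hx n, mul_one] at this
  by_contra hcon
  obtain ⟨z, hz1, hz2⟩ := hW T ⟨x, hx, by rwa [hT2], fun h => hcon (h f)⟩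
  rw [hT2] at hz2
  obtain ⟨c, hc, hev⟩ := hlim z hz1
  obtain ⟨N, hN⟩ := eventually_atTop.1 hev
  -- a uniform bound below one
  have hbound : ∃ c' < (1 : ℝ), 0 ≤ c' ∧ ∀ n, ‖T z n‖ ≤ c' := by
    have hfin : ∃ c1 < (1 : ℝ), 0 ≤ c1 ∧ ∀ n < N, ‖T z n‖ ≤ c1 := by
      clear hN
      induction N with
      | zero => exact ⟨0, zero_lt_one, le_rfl, fun n hn => absurd hn (Nat.not_lt_zero n)⟩
      | succ N ih =>
        obtain ⟨c1, h1, h0, h2⟩ := ih
        refine ⟨max c1 (1 - 1 / ((N : ℝ) + 2)), max_lt h1 (hlam N).2, le_trans h0 (le_max_left _ _),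
          fun n hn => ?_⟩
        rcases Nat.lt_succ_iff_lt_or_eq.1 hn with h3 | rfl
        · exact (h2 n h3).trans (le_max_left _ _)
        · refine le_trans ?_ (le_max_right _ _)
          rw [hTn]
          nlinarith [hgb n z hz1, (hlam n).1]
    obtain ⟨c1, h1, h0, h2⟩ := hfin
    refine ⟨max c1 c, max_lt h1 hc, le_trans h0 (le_max_left _ _), fun n => ?_⟩
    rcases lt_or_ge n N with h3 | h3
    · exact (h2 n h3).trans (le_max_left _ _)
    · refine le_trans ?_ (le_max_right _ _)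
      rw [hTn]
      have := hN n h3
      nlinarith [(hlam n).1, (hlam n).2, norm_nonneg (g n z)]
  obtain ⟨c', hc', h0', hall⟩ := hbound
  have := lp.norm_le_of_forall_le h0' hall
  linarith

/-- If all operators into bounded sequences satisfy the property then functionals attain their
norms. -/
theorem attains (hW : WeakMaximizing 𝕜 E (lp (fun _ : ℕ => 𝕜) ∞)) (f : E →L[𝕜] 𝕜) (hf : ‖f‖ = 1) :
    ∃ z : E, ‖z‖ = 1 ∧ ‖f z‖ = 1 := by
  let e : lp (fun _ : ℕ => 𝕜) ∞ := lp.single ∞ 0 (1 : 𝕜)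
  have he : ‖e‖ = 1 := by
    simp [e, lp.norm_single]
  let T : E →L[𝕜] lp (fun _ : ℕ => 𝕜) ∞ := f.smulRight e
  have hT : ∀ x, ‖T x‖ = ‖f x‖ := by
    intro x
    simp only [T, ContinuousLinearMap.smulRight_apply, norm_smul, he, mul_one]
  have hTn : ‖T‖ = 1 := by
    simp only [T, ContinuousLinearMap.norm_smulRight_apply, he, mul_one, hf]
  choose x hx1 hx2 using fun n : ℕ => exists_almost f hf (ε := 1 / ((n : ℝ) + 1)) (by positivity)
  have hlim : Tendsto (fun n => ‖f (x n)‖) atTop (𝓝 1) := by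
    have h1 : Tendsto (fun n : ℕ => 1 - 1 / ((n : ℝ) + 1)) atTop (𝓝 1) := by
      simpa using (tendsto_one_div_add_atTop_nhds_zero_nat (𝕜 := ℝ)).const_sub 1
    refine tendsto_of_tendsto_of_tendsto_of_le_of_le h1 tendsto_const_nhds hx2 (fun n => ?_)
    have := f.le_opNorm (x n)
    rwa [hx1 n, hf, one_mul] at this
  obtain ⟨z, hz1, hz2⟩ := hW T ⟨x, hx1, by rw [hTn]; simpa only [hT] using hlim, fun h => by
    have := (h f).norm
    rw [norm_zero] at this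
    exact zero_ne_one (tendsto_nhds_unique this hlim)⟩
  exact ⟨z, hz1, by rw [← hT, hz2, hTn]⟩


section main

variable (hW : WeakMaximizing 𝕜 E (lp (fun _ : ℕ => 𝕜) ∞)) {h : ℕ → E →L[𝕜] 𝕜}
  (hh : ∀ n, ‖h n‖ = 1) (h0 : ∀ x, Tendsto (fun n => h n x) atTop (𝓝 0))

include hW hh h0

theorem lemA {g : E →L[𝕜] 𝕜} (hg : ‖g‖ < 1) {ε : ℝ} (hε : 0 < ε) :
    ∀ᶠ n in atTop, ‖g + h n‖ ≤ 1 + ε := by
  by_contra hcon
  rw [Filter.not_eventually] at hcon
  obtain ⟨φ, hφ, hφ2⟩ := extraction_of_frequently_atTop hcon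
  set r : ℕ → ℝ := fun n => ‖g + h (φ n)‖ with hr
  have hr1 : ∀ n, 1 + ε < r n := fun n => not_le.1 (hφ2 n)
  have hr0 : ∀ n, 0 < r n := fun n => by linarith [hr1 n]
  set G : ℕ → E →L[𝕜] 𝕜 := fun n => (((r n)⁻¹ : ℝ) : 𝕜) • (g + h (φ n)) with hG
  have hG1 : ∀ n, ‖G n‖ = 1 := by
    intro n
    simp only [hG]
    rw [norm_smul, RCLike.norm_ofReal, abs_of_pos (inv_pos.2 (hr0 n))]
    exact inv_mul_cancel₀ (hr0 n).ne'
  have hGz : ∀ n z, ‖G n z‖ ≤ (1 + ε)⁻¹ * (‖g z‖ + ‖h (φ n) z‖) := by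
    intro n z
    simp only [hG, FunLike.coe_smul, FunLike.coe_add, Pi.smul_apply, Pi.add_apply]
    rw [norm_smul, RCLike.norm_ofReal, abs_of_pos (inv_pos.2 (hr0 n))]
    have h1 : (r n)⁻¹ ≤ (1 + ε)⁻¹ := by
      apply inv_anti₀ (by linarith) (hr1 n).le
    have h2 : (0 : ℝ) ≤ (1 + ε)⁻¹ := by positivity
    calc (r n)⁻¹ * ‖g z + h (φ n) z‖ ≤ (1 + ε)⁻¹ * ‖g z + h (φ n) z‖ := by gcongr
      _ ≤ _ := by gcongr; exact norm_add_le _ _
  have hinv : (1 + ε)⁻¹ < (1 : ℝ) := inv_lt_one_of_one_lt₀ (by linarith)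
  have hlim : ∀ z : E, ‖z‖ = 1 → ∃ c < (1 : ℝ), ∀ᶠ n in atTop, ‖G n z‖ ≤ c := by
    intro z hz
    refine ⟨(1 + ε)⁻¹, hinv, ?_⟩
    have h1 : Tendsto (fun n => ‖h (φ n) z‖) atTop (𝓝 0) := by
      simpa using ((h0 z).comp hφ.tendsto_atTop).norm
    have h2 : ∀ᶠ n in atTop, ‖h (φ n) z‖ < 1 - ‖g‖ :=
      (tendsto_order.1 h1).2 _ (by linarith)
    filter_upwards [h2] with n hn
    refine (hGz n z).trans ?_
    have h3 := g.le_opNorm z
    rw [hz, mul_one] at h3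
    have h4 : (0 : ℝ) ≤ (1 + ε)⁻¹ := by positivity
    calc (1 + ε)⁻¹ * (‖g z‖ + ‖h (φ n) z‖) ≤ (1 + ε)⁻¹ * 1 := by
          gcongr
          linarith
      _ = _ := mul_one _
  choose x hx1 hx2 using fun n : ℕ => exists_almost (G n) (hG1 n) (ε := 1 / ((n : ℝ) + 1))
    (by positivity)
  have h1t : Tendsto (fun n : ℕ => 1 - 1 / ((n : ℝ) + 1)) atTop (𝓝 1) := by
    simpa using (tendsto_one_div_add_atTop_nhds_zero_nat (𝕜 := ℝ)).const_sub 1
  have hGx : Tendsto (fun n => ‖G n (x n)‖) atTop (𝓝 1) := by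
    refine tendsto_of_tendsto_of_tendsto_of_le_of_le h1t tendsto_const_nhds hx2 (fun n => ?_)
    have := (G n).le_opNorm (x n)
    rwa [hx1 n, hG1, one_mul] at this
  have hgx : Tendsto (fun n => g (x n)) atTop (𝓝 0) := star hW hG1 hlim hx1 hGx g
  have hup : Tendsto (fun n => (1 + ε)⁻¹ * (‖g (x n)‖ + 1)) atTop (𝓝 ((1 + ε)⁻¹ * (0 + 1))) := by
    have := hgx.norm
    rw [norm_zero] at this
    exact (this.add_const 1).const_mul _
  have hle : (1 : ℝ) ≤ (1 + ε)⁻¹ * (0 + 1) := by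
    refine le_of_tendsto_of_tendsto h1t hup ?_
    filter_upwards with n
    refine (hx2 n).trans ((hGz n (x n)).trans ?_)
    have h3 := (h (φ n)).le_opNorm (x n)
    rw [hx1 n, hh, mul_one] at h3
    have h4 : (0 : ℝ) ≤ (1 + ε)⁻¹ := by positivity
    gcongr
  linarith

theorem lemB {g : E →L[𝕜] 𝕜} (hg : ‖g‖ < 1) :
    ∀ᶠ n in atTop, ‖g + (1 / 2 : 𝕜) • h n‖ < 1 := by
  filter_upwards [lemA hW hh h0 hg (ε := (1 - ‖g‖) / 2) (by linarith)] with n hn
  have h1 : g + (1 / 2 : 𝕜) • h n = (1 / 2 : 𝕜) • (g + h n) + (1 / 2 : 𝕜) • g := by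
    module
  have h2 : ‖(1 / 2 : 𝕜)‖ = 1 / 2 := by simp
  calc ‖g + (1 / 2 : 𝕜) • h n‖ ≤ ‖(1 / 2 : 𝕜) • (g + h n)‖ + ‖(1 / 2 : 𝕜) • g‖ := by
        rw [h1]; exact norm_add_le _ _
    _ = 1 / 2 * ‖g + h n‖ + 1 / 2 * ‖g‖ := by rw [norm_smul, norm_smul, h2]
    _ < 1 := by linarith

theorem no_null : False := by
  choose x hx1 hx2 using fun n : ℕ => exists_almost (h n) (hh n) (ε := 1 / ((n : ℝ) + 1))
    (by positivity)
  have h1t : Tendsto (fun n : ℕ => 1 - 1 / ((n : ℝ) + 1)) atTop (𝓝 1) := by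
    simpa using (tendsto_one_div_add_atTop_nhds_zero_nat (𝕜 := ℝ)).const_sub 1
  have hhx : Tendsto (fun n => ‖h n (x n)‖) atTop (𝓝 1) := by
    refine tendsto_of_tendsto_of_tendsto_of_le_of_le h1t tendsto_const_nhds hx2 (fun n => ?_)
    have := (h n).le_opNorm (x n)
    rwa [hx1 n, hh, one_mul] at this
  have hxw : ∀ f : E →L[𝕜] 𝕜, Tendsto (fun n => f (x n)) atTop (𝓝 0) := by
    refine star hW hh (fun z _ => ⟨1 / 2, by norm_num, ?_⟩) hx1 hhx
    have h2 : Tendsto (fun n => ‖h n z‖) atTop (𝓝 0) := by simpa using (h0 z).norm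
    exact ((tendsto_order.1 h2).2 _ (by norm_num)).mono fun n hn => hn.le
  -- one step
  have step : ∀ (k : ℕ) (p : {p : (E →L[𝕜] 𝕜) × ℕ // ‖p.1‖ < 1}),
      ∃ n : ℕ, p.1.2 < n ∧ ‖p.1.1 + (1 / 2 : 𝕜) • h n‖ < 1 ∧ ‖p.1.1 (x n)‖ ≤ 1 / 16 ∧
        ∀ i ≤ p.1.2, ‖h n (x i)‖ ≤ (1 / 2) ^ k / 16 := by
    rintro k ⟨⟨s, m⟩, hs⟩
    simp only at hs ⊢
    have e1 := eventually_gt_atTop m
    have e2 := lemB hW hh h0 hs
    have e3 : ∀ᶠ n in atTop, ‖s (x n)‖ ≤ 1 / 16 := by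
      have h2 : Tendsto (fun n => ‖s (x n)‖) atTop (𝓝 0) := by simpa using (hxw s).norm
      exact ((tendsto_order.1 h2).2 _ (by norm_num)).mono fun n hn => hn.le
    have e4 : ∀ᶠ n in atTop, ∀ i ∈ Set.Iic m, ‖h n (x i)‖ ≤ (1 / 2) ^ k / 16 := by
      rw [Filter.eventually_all_finite (Set.finite_Iic m)]
      intro i _
      have h2 : Tendsto (fun n => ‖h n (x i)‖) atTop (𝓝 0) := by simpa using (h0 (x i)).norm
      exact ((tendsto_order.1 h2).2 _ (by positivity)).mono fun n hn => hn.le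
    obtain ⟨n, a1, a2, a3, a4⟩ := (e1.and (e2.and (e3.and e4))).exists
    exact ⟨n, a1, a2, a3, a4⟩
  choose nx hn1 hn2 hn3 hn4 using step
  let seq : ℕ → {p : (E →L[𝕜] 𝕜) × ℕ // ‖p.1‖ < 1} := fun k =>
    Nat.rec ⟨(0, 0), by simp⟩
      (fun k p => ⟨(p.1.1 + (1 / 2 : 𝕜) • h (nx k p), nx k p), hn2 k p⟩) k
  let s : ℕ → (E →L[𝕜] 𝕜) := fun k => (seq k).1.1
  let m : ℕ → ℕ := fun k => (seq k).1.2
  have hs1 : ∀ k, ‖s k‖ < 1 := fun k => (seq k).2
  have hsk : ∀ k, s (k + 1) = s k + (1 / 2 : 𝕜) • h (m (k + 1)) := fun k => rfl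
  have hm : ∀ k, m k < m (k + 1) := fun k => hn1 k (seq k)
  have hs3 : ∀ k, ‖s k (x (m (k + 1)))‖ ≤ 1 / 16 := fun k => hn3 k (seq k)
  have hs4 : ∀ k, ∀ i ≤ m k, ‖h (m (k + 1)) (x i)‖ ≤ (1 / 2) ^ k / 16 := fun k => hn4 k (seq k)
  have hmm : StrictMono m := strictMono_nat_of_lt_succ hm
  have hhalf : ‖(1 / 2 : 𝕜)‖ = 1 / 2 := by simp
  have hbase : ∀ i, 3 / 16 ≤ ‖s (i + 1) (x (m (i + 1)))‖ := by
    intro i
    have h2 := hx2 (m (i + 1))
    have h3 : (1 : ℝ) / ((m (i + 1) : ℝ) + 1) ≤ 1 / 2 := by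
      apply one_div_le_one_div_of_le (by norm_num)
      have : 1 ≤ m (i + 1) := by
        have := hm i
        omega
      have : (1 : ℝ) ≤ m (i + 1) := by exact_mod_cast this
      linarith
    have h4 : ‖(1 / 2 : 𝕜) * h (m (i + 1)) (x (m (i + 1)))‖ =
        1 / 2 * ‖h (m (i + 1)) (x (m (i + 1)))‖ := by rw [norm_mul, hhalf]
    have h5 : s (i + 1) (x (m (i + 1))) = s i (x (m (i + 1))) +
        (1 / 2 : 𝕜) * h (m (i + 1)) (x (m (i + 1))) := by
      rw [hsk i]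
      simp
    have h6 : ‖(1 / 2 : 𝕜) * h (m (i + 1)) (x (m (i + 1)))‖ ≤
        ‖s (i + 1) (x (m (i + 1)))‖ + ‖s i (x (m (i + 1)))‖ := by
      have : (1 / 2 : 𝕜) * h (m (i + 1)) (x (m (i + 1))) =
        s (i + 1) (x (m (i + 1))) - s i (x (m (i + 1))) := by rw [h5]; ring
      rw [this]
      exact norm_sub_le _ _
    have h7 := hs3 i
    linarith
  have hdiff : ∀ i l, ‖s (i + 1 + l) (x (m (i + 1))) - s (i + 1) (x (m (i + 1)))‖ ≤
      1 / 16 * ((1 / 2) ^ (i + 1) - (1 / 2) ^ (i + 1 + l)) := by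
    intro i l
    induction l with
    | zero => simp
    | succ l ih =>
      have h5 : s (i + 1 + (l + 1)) (x (m (i + 1))) - s (i + 1) (x (m (i + 1))) =
          (s (i + 1 + l) (x (m (i + 1))) - s (i + 1) (x (m (i + 1)))) +
          (1 / 2 : 𝕜) * h (m (i + 1 + l + 1)) (x (m (i + 1))) := by
        have : s (i + 1 + (l + 1)) = s (i + 1 + l) + (1 / 2 : 𝕜) • h (m (i + 1 + l + 1)) :=
          hsk (i + 1 + l)
        rw [this]
        simp
        ring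
      have h6 := hs4 (i + 1 + l) (m (i + 1))
        (hmm.monotone (show i + 1 ≤ i + 1 + l from Nat.le_add_right _ _))
      rw [h5]
      refine (norm_add_le _ _).trans ?_
      rw [norm_mul, hhalf]
      have h7 : (1 / 2 : ℝ) ^ (i + 1 + (l + 1)) = (1 / 2) ^ (i + 1 + l) * (1 / 2) := by
        rw [← pow_succ]; rfl
      rw [h7]
      linarith
  have hlow : ∀ i, ∀ᶠ j in atTop, 1 / 8 ≤ ‖s j (x (m (i + 1)))‖ := by
    intro i
    filter_upwards [eventually_ge_atTop (i + 1)] with j hj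
    obtain ⟨l, rfl⟩ := Nat.exists_eq_add_of_le hj
    have h2 := hdiff i l
    have h3 : (1 / 2 : ℝ) ^ (i + 1) ≤ 1 := pow_le_one₀ (by norm_num) (by norm_num)
    have h4 : (0 : ℝ) < (1 / 2 : ℝ) ^ (i + 1 + l) := by positivity
    have h5 := hbase i
    have h6 : ‖s (i + 1) (x (m (i + 1)))‖ ≤ ‖s (i + 1 + l) (x (m (i + 1)))‖ +
        ‖s (i + 1 + l) (x (m (i + 1))) - s (i + 1) (x (m (i + 1)))‖ := by
      calc ‖s (i + 1) (x (m (i + 1)))‖ = ‖s (i + 1 + l) (x (m (i + 1))) -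
            (s (i + 1 + l) (x (m (i + 1))) - s (i + 1) (x (m (i + 1))))‖ := by
            congr 1; ring
        _ ≤ _ := norm_sub_le _ _
    linarith
  -- a weak-star cluster point
  have hK := WeakDual.isCompact_closedBall (𝕜 := 𝕜) (0 : StrongDual 𝕜 E) 1
  have hu : map (fun n => StrongDual.toWeakDual (s n)) atTop ≤
      𝓟 (WeakDual.toStrongDual ⁻¹' Metric.closedBall (0 : StrongDual 𝕜 E) 1) := by
    rw [le_principal_iff, mem_map]
    filter_upwards with n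
    simpa using (hs1 n).le
  obtain ⟨F, -, hF⟩ := hK hu
  have hFx : ∀ i, 1 / 8 ≤ ‖F (x (m (i + 1)))‖ := by
    intro i
    have hcl : IsClosed {v : WeakDual 𝕜 E | 1 / 8 ≤ ‖v (x (m (i + 1)))‖} :=
      isClosed_le continuous_const (WeakDual.eval_continuous _).norm
    have h2 : ClusterPt F (𝓟 {v : WeakDual 𝕜 E | 1 / 8 ≤ ‖v (x (m (i + 1)))‖}) := by
      apply hF.mono
      rw [le_principal_iff, mem_map]
      exact hlow i
    exact isClosed_iff_clusterPt.1 hcl _ h2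
  have hF0 := (hxw (WeakDual.toStrongDual F)).norm.comp
    (hmm.tendsto_atTop.comp (tendsto_add_atTop_nat 1))
  rw [norm_zero] at hF0
  have h9 : (1 / 8 : ℝ) ≤ 0 := ge_of_tendsto' hF0 hFx
  linarith

end main

/-- the main theorem -/
theorem finite_of_wmp [CompleteSpace E]
    (hW : WeakMaximizing 𝕜 E (lp (fun _ : ℕ => 𝕜) ∞)) : FiniteDimensional 𝕜 E := by
  by_contra hinf
  let _ : NormedSpace ℝ E := NormedSpace.restrictScalars ℝ 𝕜 E
  have _ : IsScalarTower ℝ 𝕜 E := by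
    constructor
    intro a b c
    change (a • b) • c = ((algebraMap ℝ 𝕜 a)) • (b • c)
    rw [Algebra.smul_def, mul_smul]
  have hinf' : ¬ FiniteDimensional ℝ E := by
    intro hfin
    exact hinf (Module.Finite.of_restrictScalars_finite ℝ 𝕜 E)
  have hrefl : Function.Surjective (inclusionInDoubleDual ℝ E) := by
    by_contra hnr
    obtain ⟨F, hF0, hF⟩ := JT.james hnr
    have hFpos : 0 < ‖F‖ := norm_pos_iff.2 hF0
    let f : E →L[𝕜] 𝕜 := StrongDual.extendRCLike (𝕜 := 𝕜) F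
    have hf : ‖f‖ = ‖F‖ := StrongDual.norm_extendRCLike F
    obtain ⟨z, hz1, hz2⟩ := attains hW (((‖F‖⁻¹ : ℝ) : 𝕜) • f) (by
      rw [norm_smul, RCLike.norm_ofReal, abs_of_pos (inv_pos.2 hFpos), hf,
        inv_mul_cancel₀ hFpos.ne'])
    rw [FunLike.coe_smul, Pi.smul_apply, norm_smul, RCLike.norm_ofReal,
      abs_of_pos (inv_pos.2 hFpos)] at hz2
    have hz3 : ‖f z‖ = ‖F‖ := by
      field_simp at hz2
      linarith
    let c : 𝕜 := (starRingEnd 𝕜) (f z) / ((‖F‖ : ℝ) : 𝕜)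
    have hFne : ((‖F‖ : ℝ) : 𝕜) ≠ 0 := by
      rw [Ne, RCLike.ofReal_eq_zero]
      exact hFpos.ne'
    have hc : ‖c‖ = 1 := by
      simp only [c, norm_div, RCLike.norm_conj, RCLike.norm_ofReal, abs_of_pos hFpos, hz3]
      exact div_self hFpos.ne'
    have h1 : f (c • z) = ((‖F‖ : ℝ) : 𝕜) := by
      rw [map_smul, smul_eq_mul]
      simp only [c]
      rw [div_mul_eq_mul_div, RCLike.conj_mul, hz3, pow_two, mul_div_assoc, div_self hFne, mul_one]
    have h2 : F (c • z) = ‖F‖ := by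
      have h3 : RCLike.re (f (c • z)) = F (c • z) := StrongDual.re_extendRCLike_apply F _
      rw [← h3, h1, RCLike.ofReal_re]
    have h4 := hF (c • z) (by rw [norm_smul, hc, hz1, one_mul])
    linarith
  obtain ⟨f, hf1, hf0⟩ := JT.exists_null hrefl hinf'
  refine no_null (𝕜 := 𝕜) (E := E) hW (h := fun n => StrongDual.extendRCLike (𝕜 := 𝕜) (f n)) ?_ ?_
  · intro n
    exact (StrongDual.norm_extendRCLike (f n)).trans (hf1 n)
  · intro x
    have h1 : Tendsto (fun n => ((f n x : ℝ) : 𝕜) - (RCLike.I : 𝕜) *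
        ((f n ((RCLike.I : 𝕜) • x) : ℝ) : 𝕜)) atTop (𝓝 (((0 : ℝ) : 𝕜) - (RCLike.I : 𝕜) * ((0 : ℝ) : 𝕜))) := by
      refine Tendsto.sub ?_ (Tendsto.const_mul _ ?_)
      · exact (RCLike.continuous_ofReal.tendsto _).comp (hf0 x)
      · exact (RCLike.continuous_ofReal.tendsto _).comp (hf0 _)
    simpa [StrongDual.extendRCLike_apply] using h1

end Pool.Agent.R274.WMP
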